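import Pool.Agent.Run7.h274.DelDom

set_option autoImplicit false

namespace Pool.Agent.Run7.h274.Del

open Filter Topology Finset

/-- polynomial times with natural coefficients are regular, with windows of the size of the gaps
times a slowly growing factor -/
theorem poly_reg (p : Polynomial ℕ) (hp : 1 ≤ p.natDegree) (l : ℕ → ℕ) (K : ℕ) (hl0 : ∀ n, 0 < l n)
    (hlm : Monotone l) (hlt : Tendsto l atTop atTop) (hl2 : ∀ n, 1 ≤ n → l (2 * n) ≤ K * l n)
    (hln : ∀ n, l n ≤ K * (n + 1)) :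
    ∃ K' : ℕ, Reg K' (fun n => p.eval n) (fun n => (n + 1) ^ (p.natDegree - 1) * l n) := by
  obtain ⟨e, he⟩ : ∃ e, p.natDegree = e + 1 := ⟨p.natDegree - 1, by omega⟩
  have hlead : 1 ≤ p.coeff (e + 1) := by
    have h1 : p.leadingCoeff ≠ 0 := by
      intro h0
      rw [Polynomial.leadingCoeff_eq_zero] at h0
      rw [h0] at hp
      simp at hp
    rw [Polynomial.leadingCoeff, he] at h1
    omega
  have hev : ∀ n, p.eval n = ∑ i ∈ range (e + 2), p.coeff i * n ^ i := by
    intro n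
    rw [Polynomial.eval_eq_sum_range, he]
  set S : ℕ := ∑ i ∈ range (e + 2), p.coeff i with hS
  have hup : ∀ n, 1 ≤ n → p.eval n ≤ S * n ^ (e + 1) := by
    intro n hn
    rw [hev, hS, Finset.sum_mul]
    refine Finset.sum_le_sum fun i hi => ?_
    have : i ≤ e + 1 := by have := Finset.mem_range.1 hi; omega
    exact Nat.mul_le_mul_left _ (Nat.pow_le_pow_right hn this)
  have hlo : ∀ n, n ^ (e + 1) ≤ p.eval n := by
    intro n
    rw [hev, Finset.sum_range_succ]
    calc n ^ (e + 1) = 1 * n ^ (e + 1) := by ring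
      _ ≤ p.coeff (e + 1) * n ^ (e + 1) := Nat.mul_le_mul_right _ hlead
      _ ≤ _ := Nat.le_add_left _ _
  have hgap : ∀ n, p.eval n + n ^ e ≤ p.eval (n + 1) := by
    intro n
    rw [hev, hev, Finset.sum_range_succ, Finset.sum_range_succ (fun i => p.coeff i * (n + 1) ^ i)]
    have h1 : ∑ i ∈ range (e + 1), p.coeff i * n ^ i ≤ ∑ i ∈ range (e + 1), p.coeff i * (n + 1) ^ i :=
      Finset.sum_le_sum fun i _ => Nat.mul_le_mul_left _ (Nat.pow_le_pow_left (by omega) _)
    have h2 : n ^ (e + 1) + n ^ e ≤ (n + 1) ^ (e + 1) := by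
      calc n ^ (e + 1) + n ^ e = n ^ e * (n + 1) := by ring
        _ ≤ (n + 1) ^ e * (n + 1) := Nat.mul_le_mul_right _ (Nat.pow_le_pow_left (by omega) _)
        _ = _ := by ring
    have h3 : p.coeff (e + 1) * n ^ (e + 1) + n ^ e ≤ p.coeff (e + 1) * (n + 1) ^ (e + 1) := by
      calc p.coeff (e + 1) * n ^ (e + 1) + n ^ e
          ≤ p.coeff (e + 1) * n ^ (e + 1) + p.coeff (e + 1) * n ^ e := by
            have := Nat.mul_le_mul_right (n ^ e) hlead
            omega
        _ = p.coeff (e + 1) * (n ^ (e + 1) + n ^ e) := by ring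
        _ ≤ _ := Nat.mul_le_mul_left _ h2
    omega
  have hdbl : ∀ n, p.eval (2 * n) ≤ 2 ^ (e + 1) * p.eval n := by
    intro n
    rw [hev, hev, Finset.mul_sum]
    refine Finset.sum_le_sum fun i hi => ?_
    have h1 : i ≤ e + 1 := by have := Finset.mem_range.1 hi; omega
    calc p.coeff i * (2 * n) ^ i = 2 ^ i * (p.coeff i * n ^ i) := by rw [mul_pow]; ring
      _ ≤ _ := Nat.mul_le_mul_right _ (Nat.pow_le_pow_right (by norm_num) h1)
  set K' : ℕ := S + 2 ^ (e + 1) + K * 2 ^ (e + 1) with hK'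
  have k1 : S ≤ K' := (Nat.le_add_right S _).trans (Nat.le_add_right _ _)
  have k2 : 2 ^ (e + 1) ≤ K' := (Nat.le_add_left _ S).trans (Nat.le_add_right _ _)
  have k3 : K * 2 ^ (e + 1) ≤ K' := Nat.le_add_left _ _
  have hd : p.natDegree - 1 = e := by omega
  refine ⟨K', ?_⟩
  rw [hd]
  refine ⟨fun n => Nat.mul_pos (by positivity) (hl0 n), ?_, ?_, ?_, ?_, ?_, ?_, ?_⟩
  · intro n n' hn
    exact Nat.mul_le_mul (Nat.pow_le_pow_left (by omega) _) (hlm hn)
  · refine tendsto_atTop_mono (fun n => ?_) hlt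
    exact Nat.le_mul_of_pos_left _ (by positivity)
  · intro n hn
    calc (2 * n + 1) ^ e * l (2 * n) ≤ (2 * (n + 1)) ^ e * (K * l n) :=
          Nat.mul_le_mul (Nat.pow_le_pow_left (by omega) _) (hl2 n hn)
      _ = K * 2 ^ e * ((n + 1) ^ e * l n) := by rw [mul_pow]; ring
      _ ≤ K' * ((n + 1) ^ e * l n) := by
          refine Nat.mul_le_mul_right _ (le_trans ?_ k3)
          exact Nat.mul_le_mul_left _ (Nat.pow_le_pow_right (by norm_num) (by omega))
  · intro n _
    exact (hdbl n).trans (Nat.mul_le_mul_right _ k2)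
  · intro n hn
    show p.eval n ≤ K' * n * (p.eval (n + 1) - p.eval n)
    have g := hgap n
    calc p.eval n ≤ S * n ^ (e + 1) := hup n hn
      _ = S * n * n ^ e := by ring
      _ ≤ K' * n * (p.eval (n + 1) - p.eval n) :=
          Nat.mul_le_mul (Nat.mul_le_mul_right _ k1) (by omega)
  · intro n hn
    show p.eval n ≤ K' * n * ((n + 1) ^ e * l n)
    calc p.eval n ≤ S * n ^ (e + 1) := hup n hn
      _ = S * n * (n ^ e * 1) := by ring
      _ ≤ K' * n * ((n + 1) ^ e * l n) :=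
          Nat.mul_le_mul (Nat.mul_le_mul_right _ k1)
            (Nat.mul_le_mul (Nat.pow_le_pow_left (by omega) _) (hl0 n))
  · intro n hn
    show (n + 1) ^ e * l n ≤ K' * p.eval n
    calc (n + 1) ^ e * l n ≤ (2 * n) ^ e * (K * (2 * n)) := by
          refine Nat.mul_le_mul (Nat.pow_le_pow_left (by omega) _) ((hln n).trans ?_)
          exact Nat.mul_le_mul_left _ (by omega)
      _ = K * 2 ^ (e + 1) * n ^ (e + 1) := by rw [mul_pow]; ring
      _ ≤ K' * p.eval n := Nat.mul_le_mul k3 (hlo n)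

end Pool.Agent.Run7.h274.Del
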