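import Pool.Agent.Run7.h274.Transfer

/-!
Good places of numbers with a measure of irrationality.
-/

set_option autoImplicit false

namespace Pool.Agent.Run7.h274.WM

open Finset Filter

/-- A window with a good place. -/
theorem good_window {x μ c : ℝ} (hμ : 1 < μ) (hc : 0 < c)
    (hx : ∀ q : ℕ, 1 ≤ q → ∀ p : ℤ, c * (q : ℝ) ^ (-μ) ≤ |x - p / q|) :
    ∃ C : ℝ, 0 ≤ C ∧ ∀ b l M N : ℕ, 2 ≤ b → 1 ≤ l → 4 * (b + 1) * b ^ l ≤ M →
      ∃ k : ℕ, N ≤ k ∧ (k : ℝ) ≤ μ * N + (μ - 1) * l + C ∧ Good b (b ^ l) M x k := by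
  set C₀ : ℝ := |Real.log c| / Real.log 2 with hC₀
  have hlog2 : 0 < Real.log 2 := Real.log_pos (by norm_num)
  have hC₀0 : 0 ≤ C₀ := by positivity
  refine ⟨2 * (μ - 1) + C₀ + 1, by linarith [hC₀0], fun b l M N hb hl hM => ?_⟩
  have hbl1 : 1 ≤ b ^ l := Nat.one_le_pow _ _ (by omega)
  have hM0 : 0 < M := by nlinarith
  set h : ℕ := ⌈(μ - 1) * ((l : ℝ) + N + 2) + C₀⌉₊ with hh
  have hnn : 0 ≤ (μ - 1) * ((l : ℝ) + N + 2) + C₀ := by
    have : 0 ≤ (μ - 1) * ((l : ℝ) + N + 2) := mul_nonneg (by linarith) (by positivity)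
    linarith
  have hh1 : (μ - 1) * ((l : ℝ) + N + 2) + C₀ ≤ h := Nat.le_ceil _
  have hh2 : (h : ℝ) < (μ - 1) * ((l : ℝ) + N + 2) + C₀ + 1 := Nat.ceil_lt_add_one hnn
  by_contra hcon
  push Not at hcon
  have hbad : ∀ i ≤ h, ¬ Good b (b ^ l) M x (N + i) := by
    intro i hi
    refine hcon (N + i) (Nat.le_add_right _ _) ?_
    have hiR : (i : ℝ) ≤ h := by exact_mod_cast hi
    push_cast
    nlinarith
  have hrun := bad_run hM hbl1 x N h hbad
  have hbad0 := hbad 0 (Nat.zero_le _)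
  unfold Good at hbad0
  push Not at hbad0
  rw [add_zero] at hbad0
  set r := ap M ((b : ℝ) ^ N * x) with hr
  obtain ⟨a1, -⟩ := ap_spec hM0 ((b : ℝ) ^ (N + h) * x)
  rw [hrun] at a1
  have hbR : (2 : ℝ) ≤ b := by exact_mod_cast hb
  have hb0 : (0 : ℝ) < b := by linarith
  have hM1 : (0 : ℝ) < (M : ℝ) + 1 := by positivity
  have hbh : (0 : ℝ) < (b : ℝ) ^ h := by positivity
  have hbN : (0 : ℝ) < (b : ℝ) ^ N := by positivity
  have h1 : (b : ℝ) ^ h * |(b : ℝ) ^ N * x - r| ≤ 1 / ((M : ℝ) + 1) := by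
    have e : (b : ℝ) ^ (N + h) * x - (((b : ℚ) ^ h * r : ℚ) : ℝ) =
        (b : ℝ) ^ h * ((b : ℝ) ^ N * x - r) := by
      push_cast; rw [pow_add]; ring
    rw [e, abs_mul, abs_of_pos hbh] at a1
    refine a1.trans ?_
    refine one_div_le_one_div_of_le hM1 ?_
    have hden : (1 : ℝ) ≤ (((b : ℚ) ^ h * r).den : ℝ) := by
      exact_mod_cast ((b : ℚ) ^ h * r).pos
    nlinarith
  -- the measure
  set Q : ℕ := r.den * b ^ N with hQ
  have hQ1 : 1 ≤ Q := Nat.mul_pos r.pos (by positivity)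
  have hQR : (0 : ℝ) < Q := by exact_mod_cast hQ1
  have hdR : (0 : ℝ) < (r.den : ℝ) := by exact_mod_cast r.pos
  have h2 := hx Q hQ1 r.num
  have e2 : |(b : ℝ) ^ N * x - r| = (b : ℝ) ^ N * |x - r.num / Q| := by
    rw [← abs_of_pos hbN, ← abs_mul, abs_of_pos hbN]
    congr 1
    rw [hQ]; push_cast
    have e3 : (r : ℝ) = r.num / r.den := by
      conv_lhs => rw [← Rat.num_div_den r]
      push_cast; rfl
    rw [e3]
    field_simp
  rw [e2] at h1
  have h3 : (b : ℝ) ^ h * ((b : ℝ) ^ N * (c * (Q : ℝ) ^ (-μ))) ≤ 1 / ((M : ℝ) + 1) := by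
    refine le_trans ?_ h1
    gcongr
  have hQμ : (0 : ℝ) < (Q : ℝ) ^ (-μ) := Real.rpow_pos_of_pos hQR _
  -- take logarithms
  have h4 := Real.log_le_log (by positivity) h3
  rw [Real.log_mul hbh.ne' (by positivity), Real.log_mul hbN.ne' (by positivity),
    Real.log_mul hc.ne' hQμ.ne', Real.log_rpow hQR, Real.log_pow, Real.log_pow, one_div,
    Real.log_inv] at h4
  have hLb : Real.log 2 ≤ Real.log b := Real.log_le_log (by norm_num) hbR
  have hLb0 : 0 < Real.log b := by linarith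
  have h5 : Real.log Q ≤ Real.log 4 + (l : ℝ) * Real.log b + (N : ℝ) * Real.log b := by
    have h6 : (Q : ℝ) ≤ 4 * (b : ℝ) ^ l * (b : ℝ) ^ N := by
      have : Q ≤ 4 * b ^ l * b ^ N := Nat.mul_le_mul_right _ hbad0.le
      exact_mod_cast this
    have h7 := Real.log_le_log hQR h6
    rw [Real.log_mul (by positivity) (by positivity), Real.log_mul (by norm_num) (by positivity),
      Real.log_pow, Real.log_pow] at h7
    exact h7
  have h6 : Real.log 4 + (l : ℝ) * Real.log b + Real.log b ≤ Real.log ((M : ℝ) + 1) := by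
    have h7 : 4 * (b : ℝ) ^ l * b ≤ (M : ℝ) + 1 := by
      have h8 : 4 * b ^ l * b ≤ M + 1 := by nlinarith
      exact_mod_cast h8
    have h8 := Real.log_le_log (by positivity) h7
    rw [Real.log_mul (by positivity) (by positivity), Real.log_mul (by norm_num) (by positivity),
      Real.log_pow] at h8
    linarith
  have h7 : Real.log 4 ≤ 2 * Real.log b := by
    have : Real.log 4 = 2 * Real.log 2 := by
      rw [show (4 : ℝ) = 2 ^ 2 by norm_num, Real.log_pow]; norm_num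
    rw [this]; linarith
  have h8 : -Real.log c ≤ C₀ * Real.log b := by
    have h9 : -Real.log c ≤ |Real.log c| := neg_le_abs _
    have h10 : |Real.log c| = C₀ * Real.log 2 := by
      rw [hC₀]; field_simp
    rw [h10] at h9
    exact h9.trans (mul_le_mul_of_nonneg_left hLb hC₀0)
  -- h4 : h log b + (N log b + (log c - μ log Q)) ≤ - log (M + 1)
  have h9 : μ * Real.log Q ≤ μ * (Real.log 4 + (l : ℝ) * Real.log b + (N : ℝ) * Real.log b) :=
    mul_le_mul_of_nonneg_left h5 (by linarith)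
  have h10 : ((h : ℝ) + 1) * Real.log b ≤
      ((μ - 1) * ((l : ℝ) + N + 2) + C₀) * Real.log b := by
    have h11 : (μ - 1) * Real.log 4 ≤ (μ - 1) * (2 * Real.log b) :=
      mul_le_mul_of_nonneg_left h7 (by linarith)
    nlinarith
  have h11 := le_of_mul_le_mul_right h10 hLb0
  linarith

/-- the count for a positive proportion of the multiples in terms of `gd` -/
theorem core_gd {b l M : ℕ} (hb : 2 ≤ b) (hM : 4 * (b + 1) * b ^ l ≤ M) (x : ℝ) (N : ℕ) :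
    ∀ W < b ^ l, M ≤ 16 * b ^ l * ((Icc 1 M).filter
      (fun m : ℕ => gd b (b ^ l) M x N ≤ 16 * b ^ l * occ b l W ((m : ℝ) * x) N)).card := by
  classical
  have hB1 : 1 ≤ b ^ l := Nat.one_le_pow _ _ (by omega)
  have hM0 : 0 < M := by nlinarith
  intro W hW
  set G : Finset ℕ := {k ∈ range N | Good b (b ^ l) M x k} with hG
  have hkey : ∀ k ∈ G, #(Icc 1 M) ≤ 8 * b ^ l * ((Icc 1 M).filter (fun m : ℕ =>
      ⌊(b : ℝ) ^ (k + l) * ((m : ℝ) * x)⌋ % ((b : ℤ) ^ l) = (W : ℤ))).card := by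
    intro k hk
    rw [hG, mem_filter] at hk
    have h1 := good_count hB1 hW hM0 x k hk.2
    rw [Nat.card_Icc, Nat.add_sub_cancel]
    have e : ∀ m : ℕ, (b : ℝ) ^ l * ((m : ℝ) * ((b : ℝ) ^ k * x)) =
        (b : ℝ) ^ (k + l) * ((m : ℝ) * x) := by
      intro m; rw [pow_add]; ring
    simp only [Nat.cast_pow, e] at h1
    exact h1
  have hocc : ∀ m : ℕ, #{k ∈ G | ⌊(b : ℝ) ^ (k + l) * ((m : ℝ) * x)⌋ % ((b : ℤ) ^ l) = (W : ℤ)} ≤
      occ b l W ((m : ℝ) * x) N := by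
    intro m
    unfold occ
    refine card_le_card fun k hk => ?_
    rw [hG, mem_filter, mem_filter] at hk
    rw [mem_filter]
    exact ⟨hk.1.1, hk.2⟩
  have hgd : gd b (b ^ l) M x N = #G := rfl
  rw [hgd]
  have h1 := markov (Icc 1 M) G
    (fun (m : ℕ) k => ⌊(b : ℝ) ^ (k + l) * ((m : ℝ) * x)⌋ % ((b : ℤ) ^ l) = (W : ℤ))
    (b ^ l) hB1 hkey
  rw [Nat.card_Icc, Nat.add_sub_cancel] at h1
  refine h1.trans (Nat.mul_le_mul_left _ (card_le_card fun m hm => ?_))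
  rw [mem_filter] at hm ⊢
  exact ⟨hm.1, hm.2.trans (Nat.mul_le_mul_left _ (hocc m))⟩

/-- the number of good places is at least `c log N` -/
theorem gd_log {x μ c : ℝ} (hμ : 1 < μ) (hc : 0 < c)
    (hx : ∀ q : ℕ, 1 ≤ q → ∀ p : ℤ, c * (q : ℝ) ^ (-μ) ≤ |x - p / q|) {b l : ℕ} (hb : 2 ≤ b)
    (hl : 1 ≤ l) : ∃ c' : ℝ, 0 < c' ∧ ∃ C : ℝ, ∀ M N : ℕ, 4 * (b + 1) * b ^ l ≤ M →
      c' * Real.log N ≤ (gd b (b ^ l) M x N : ℝ) + C := by
  classical
  obtain ⟨C, hC0, hC⟩ := good_window hμ hc hx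
  obtain ⟨A, hA⟩ := exists_nat_gt (μ + (μ - 1) * l + C + 1)
  have hA1 : (1 : ℝ) < A := by
    have : 0 ≤ (μ - 1) * (l : ℝ) := mul_nonneg (by linarith) (by positivity)
    linarith
  have hlogA : 0 < Real.log A := Real.log_pos hA1
  refine ⟨1 / Real.log A, by positivity, 1, fun M N hM => ?_⟩
  have hwin : ∀ i : ℕ, ∃ k : ℕ, A ^ i ≤ k ∧ k < A ^ (i + 1) ∧ Good b (b ^ l) M x k := by
    intro i
    obtain ⟨k, h1, h2, h3⟩ := hC b l M (A ^ i) hb hl hM
    refine ⟨k, h1, ?_, h3⟩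
    have hAi : (1 : ℝ) ≤ (A : ℝ) ^ i := one_le_pow₀ hA1.le
    have h4 : (k : ℝ) < (A : ℝ) ^ (i + 1) := by
      push_cast at h2
      have h5 : 0 ≤ (μ - 1) * (l : ℝ) := mul_nonneg (by linarith) (by positivity)
      calc (k : ℝ) ≤ μ * (A : ℝ) ^ i + (μ - 1) * l + C := h2
        _ ≤ (μ + (μ - 1) * l + C) * (A : ℝ) ^ i := by nlinarith
        _ < A * (A : ℝ) ^ i := by
            refine mul_lt_mul_of_pos_right (by linarith) (by linarith)
        _ = (A : ℝ) ^ (i + 1) := by rw [pow_succ]; ring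
    exact_mod_cast h4
  choose f hf1 hf2 hf3 using hwin
  rcases Nat.eq_zero_or_pos N with h0 | hN
  · rw [h0]
    simp only [Nat.cast_zero, Real.log_zero, mul_zero]
    positivity
  set J := Nat.log A N with hJ
  have hA2 : 1 < A := by exact_mod_cast hA1
  have hcard : J ≤ gd b (b ^ l) M x N := by
    unfold gd
    rw [← card_range J]
    refine card_le_card_of_injOn f ?_ ?_
    · intro i hi
      simp only [coe_range, Set.mem_Iio] at hi
      simp only [mem_coe, mem_filter, mem_range]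
      refine ⟨lt_of_lt_of_le (hf2 i) ?_, hf3 i⟩
      exact (Nat.pow_le_pow_right (by omega) hi).trans (Nat.pow_log_le_self A hN.ne')
    · intro i _ j _ hij
      by_contra hne
      rcases lt_or_gt_of_ne hne with h | h
      · have h1 := hf2 i
        have h2 := hf1 j
        have h3 : A ^ (i + 1) ≤ A ^ j := Nat.pow_le_pow_right (by omega) h
        omega
      · have h1 := hf2 j
        have h2 := hf1 i
        have h3 : A ^ (j + 1) ≤ A ^ i := Nat.pow_le_pow_right (by omega) h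
        omega
  have h1 : (N : ℝ) < (A : ℝ) ^ (J + 1) := by
    have := Nat.lt_pow_succ_log_self hA2 N
    exact_mod_cast this
  have hNR : (0 : ℝ) < N := by exact_mod_cast hN
  have h2 := Real.log_le_log hNR h1.le
  rw [Real.log_pow] at h2
  have h3 : Real.log N / Real.log A ≤ J + 1 := by
    rw [div_le_iff₀ hlogA]
    exact_mod_cast h2
  have h4 : (J : ℝ) ≤ gd b (b ^ l) M x N := by exact_mod_cast hcard
  rw [one_div_mul_eq_div]
  linarith

/-- the logarithm -/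
noncomputable def Fl (N : ℕ) : ℝ := Real.log N

lemma Fl_tendsto : Tendsto Fl atTop atTop :=
  Real.tendsto_log_atTop.comp tendsto_natCast_atTop_atTop

theorem many_meas {x μ c : ℝ} (hμ : 1 < μ) (hc : 0 < c)
    (hx : ∀ q : ℕ, 1 ≤ q → ∀ p : ℤ, c * (q : ℝ) ^ (-μ) ≤ |x - p / q|) {b l : ℕ} (hb : 2 ≤ b)
    (hl : 1 ≤ l) : Many b l x Fl := by
  obtain ⟨c', hc', C, hC⟩ := gd_log hμ hc hx hb hl
  have h1 := Fl_tendsto.eventually_ge_atTop (2 * C / c')
  obtain ⟨N₀, hN₀⟩ := eventually_atTop.1 h1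
  refine ⟨c' / (32 * (b : ℝ) ^ l), by positivity, N₀, fun M hM N hN W hW => ?_⟩
  refine (core_gd hb hM x N W hW).trans (Nat.mul_le_mul_left _ (card_le_card fun m hm => ?_))
  rw [mem_filter] at hm ⊢
  refine ⟨hm.1, ?_⟩
  have h2 : (gd b (b ^ l) M x N : ℝ) ≤ 16 * (b : ℝ) ^ l * (occ b l W ((m : ℝ) * x) N : ℝ) := by
    exact_mod_cast hm.2
  have h3 := hC M N hM
  have h4 := hN₀ N hN
  rw [div_le_iff₀ hc'] at h4
  have h5 : Fl N = Real.log N := rfl
  rw [h5] at h4 ⊢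
  rw [div_mul_eq_mul_div, div_le_iff₀ (by positivity)]
  linarith

theorem most_meas {x μ c : ℝ} (hμ : 1 < μ) (hc : 0 < c)
    (hx : ∀ q : ℕ, 1 ≤ q → ∀ p : ℤ, c * (q : ℝ) ^ (-μ) ≤ |x - p / q|) {b l : ℕ} (hb : 2 ≤ b)
    (hl : 1 ≤ l) {δ : ℝ} (hδ : 0 < δ) : Most b l δ x Fl := by
  obtain ⟨n, hn1, hn⟩ := exists_n (l := l) hb hδ
  have hln : 1 ≤ l * n := Nat.mul_pos hl hn1
  obtain ⟨c', hc', C, hC⟩ := gd_log hμ hc hx hb hln
  have hlnR : (0 : ℝ) < ((l * n : ℕ) : ℝ) := by exact_mod_cast hln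
  have h1 := Fl_tendsto.eventually_ge_atTop (2 * (C + 2 * ((l * n : ℕ) : ℝ) ^ 2) / c')
  obtain ⟨N₀, hN₀⟩ := eventually_atTop.1 h1
  refine ⟨c' / (4 * ((l * n : ℕ) : ℝ)), by positivity, 4 * (b + 1) * b ^ (l * n), N₀,
    fun M hM N hN => ?_⟩
  have hM0 : 1 ≤ M := by
    have : 1 ≤ b ^ (l * n) := Nat.one_le_pow _ _ (by omega)
    nlinarith
  have h2 := almost_all hb hl hM0 (n := n) x N
  have h3 := hC M N hM
  have h4 := hN₀ N hN
  rw [div_le_iff₀ hc'] at h4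
  have hsub : (Icc 1 M).filter (fun m : ℕ => ∃ W < b ^ l,
      (occ b l W ((m : ℝ) * x) N : ℝ) < c' / (4 * ((l * n : ℕ) : ℝ)) * Fl N) ⊆
      (Icc 1 M).filter (fun m : ℕ => ∃ W < b ^ l,
        2 * (l * n) * (occ b l W ((m : ℝ) * x) N + l * n) < gd b (b ^ (l * n)) M x N) := by
    intro m hm
    rw [mem_filter] at hm ⊢
    obtain ⟨hm1, W, hW, hlt⟩ := hm
    refine ⟨hm1, W, hW, ?_⟩
    have hFl : Fl N = Real.log N := rfl
    rw [hFl] at hlt h4
    rw [div_mul_eq_mul_div, lt_div_iff₀ (by positivity)] at hlt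
    have h5 : (2 * ((l * n : ℕ) : ℝ) * ((occ b l W ((m : ℝ) * x) N : ℝ) + ((l * n : ℕ) : ℝ))) <
        (gd b (b ^ (l * n)) M x N : ℝ) := by
      nlinarith
    exact_mod_cast h5
  have hcard := card_le_card hsub
  set T := ((Icc 1 M).filter (fun m : ℕ => ∃ W < b ^ l,
        2 * (l * n) * (occ b l W ((m : ℝ) * x) N + l * n) < gd b (b ^ (l * n)) M x N)).card
  have hb1 : 1 ≤ b ^ l := Nat.one_le_pow _ _ (by omega)
  have h6 : ((b : ℝ) ^ l) ^ n * (T : ℝ) ≤ 8 * (b : ℝ) ^ l * ((b : ℝ) ^ l - 1) ^ n * M := by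
    have h7 : (((b ^ l) ^ n * T : ℕ) : ℝ) ≤ ((8 * b ^ l * (b ^ l - 1) ^ n * M : ℕ) : ℝ) := by
      exact_mod_cast h2
    push_cast [Nat.cast_sub hb1] at h7
    exact h7
  have hbn : (0 : ℝ) < ((b : ℝ) ^ l) ^ n := by positivity
  have h8 : ((b : ℝ) ^ l) ^ n * (T : ℝ) ≤ ((b : ℝ) ^ l) ^ n * (δ * M) := by
    refine h6.trans ?_
    have hM' : (0 : ℝ) ≤ (M : ℝ) := Nat.cast_nonneg M
    nlinarith
  have h9 : (T : ℝ) ≤ δ * M := le_of_mul_le_mul_left h8 hbn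
  have h10 : (((Icc 1 M).filter (fun m : ℕ => ∃ W < b ^ l,
      (occ b l W ((m : ℝ) * x) N : ℝ) < c' / (4 * ((l * n : ℕ) : ℝ)) * Fl N)).card : ℝ) ≤ T := by
    exact_mod_cast hcard
  exact h10.trans h9

/-- At a good place of the level `l n` almost all multiples show all words of length `l`. -/
theorem good_all {b l n M : ℕ} (hb : 2 ≤ b) (hl : 1 ≤ l) (hM : 1 ≤ M) (x : ℝ) (k : ℕ)
    (hk : Good b (b ^ (l * n)) M x k) :
    (b ^ l) ^ n * ((Icc 1 M).filter (fun m : ℕ => ∃ W < b ^ l, ∀ i < l * n,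
        ⌊(b : ℝ) ^ (k + i + l) * ((m : ℝ) * x)⌋ % ((b : ℤ) ^ l) ≠ (W : ℤ))).card ≤
      4 * b ^ l * (b ^ l - 1) ^ n * M := by
  classical
  set B : ℕ := b ^ (l * n) with hBdef
  have hB1 : 1 ≤ B := Nat.one_le_pow _ _ (by omega)
  have hBB : (b ^ l) ^ n = B := by rw [hBdef, pow_mul]
  rw [hBB]
  have hsub : (Icc 1 M).filter (fun m : ℕ => ∃ W < b ^ l, ∀ i < l * n,
        ⌊(b : ℝ) ^ (k + i + l) * ((m : ℝ) * x)⌋ % ((b : ℤ) ^ l) ≠ (W : ℤ)) ⊆
      (range (b ^ l)).biUnion fun W => (Av (b ^ l) n W).biUnion fun U =>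
        (Icc 1 M).filter (fun m : ℕ =>
          ⌊(B : ℝ) * ((m : ℝ) * ((b : ℝ) ^ k * x))⌋ % (B : ℤ) = (U : ℤ)) := by
    intro m hm
    rw [mem_filter] at hm
    obtain ⟨hm1, W, hW, hno⟩ := hm
    have hex : ∃ U ∈ Av (b ^ l) n W,
        ⌊(b : ℝ) ^ (k + l * n) * ((m : ℝ) * x)⌋ % ((b : ℤ) ^ (l * n)) = (U : ℤ) := by
      by_contra hcon
      push Not at hcon
      obtain ⟨i, hi, hoc⟩ := occurs_of_not_av hb hl ((m : ℝ) * x) k hcon
      exact hno i hi hoc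
    obtain ⟨U, hU, hE⟩ := hex
    simp only [mem_biUnion, mem_filter]
    refine ⟨W, mem_range.2 hW, U, hU, hm1, ?_⟩
    have e : (B : ℝ) * ((m : ℝ) * ((b : ℝ) ^ k * x)) = (b : ℝ) ^ (k + l * n) * ((m : ℝ) * x) := by
      rw [hBdef]; push_cast; rw [pow_add]; ring
    rw [e, hBdef]
    push_cast
    exact hE
  have hcard := (card_le_card hsub).trans card_biUnion_le
  calc B * ((Icc 1 M).filter (fun m : ℕ => ∃ W < b ^ l, ∀ i < l * n,
        ⌊(b : ℝ) ^ (k + i + l) * ((m : ℝ) * x)⌋ % ((b : ℤ) ^ l) ≠ (W : ℤ))).card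
      ≤ B * ∑ W ∈ range (b ^ l), ((Av (b ^ l) n W).biUnion fun U =>
        (Icc 1 M).filter (fun m : ℕ =>
          ⌊(B : ℝ) * ((m : ℝ) * ((b : ℝ) ^ k * x))⌋ % (B : ℤ) = (U : ℤ))).card :=
        Nat.mul_le_mul_left _ hcard
    _ ≤ B * ∑ W ∈ range (b ^ l), ∑ U ∈ Av (b ^ l) n W,
        ((Icc 1 M).filter (fun m : ℕ =>
          ⌊(B : ℝ) * ((m : ℝ) * ((b : ℝ) ^ k * x))⌋ % (B : ℤ) = (U : ℤ))).card := by
        refine Nat.mul_le_mul_left _ (sum_le_sum fun W _ => card_biUnion_le)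
    _ = ∑ W ∈ range (b ^ l), ∑ U ∈ Av (b ^ l) n W, B *
        ((Icc 1 M).filter (fun m : ℕ =>
          ⌊(B : ℝ) * ((m : ℝ) * ((b : ℝ) ^ k * x))⌋ % (B : ℤ) = (U : ℤ))).card := by
        rw [mul_sum]
        refine sum_congr rfl fun W _ => ?_
        rw [mul_sum]
    _ ≤ ∑ W ∈ range (b ^ l), ∑ U ∈ Av (b ^ l) n W, 4 * M := by
        refine sum_le_sum fun W _ => sum_le_sum fun U hU => ?_
        have hUlt : U < B := by
          unfold Av at hU
          rw [mem_filter, mem_range, hBB] at hU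
          exact hU.1
        exact good_upper hB1 hUlt (by omega) x k hk
    _ ≤ ∑ W ∈ range (b ^ l), (b ^ l - 1) ^ n * (4 * M) := by
        refine sum_le_sum fun W hW => ?_
        rw [sum_const, smul_eq_mul]
        exact Nat.mul_le_mul_right _ (card_Av (mem_range.1 hW) n)
    _ = 4 * b ^ l * (b ^ l - 1) ^ n * M := by
        rw [sum_const, card_range, smul_eq_mul]; ring

/-- the counts at a good place -/
theorem good_both {b l M : ℕ} (hb : 2 ≤ b) (hM : 1 ≤ M) (x : ℝ) (k : ℕ)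
    (hk : Good b (b ^ l) M x k) (W : ℕ) (hW : W < b ^ l) :
    M ≤ 8 * b ^ l * ((Icc 1 M).filter (fun m : ℕ =>
      ⌊(b : ℝ) ^ (k + l) * ((m : ℝ) * x)⌋ % ((b : ℤ) ^ l) = (W : ℤ))).card ∧
    b ^ l * ((Icc 1 M).filter (fun m : ℕ =>
      ⌊(b : ℝ) ^ (k + l) * ((m : ℝ) * x)⌋ % ((b : ℤ) ^ l) = (W : ℤ))).card ≤ 4 * M := by
  have hB1 : 1 ≤ b ^ l := Nat.one_le_pow _ _ (by omega)
  have h1 := good_count hB1 hW (by omega) x k hk
  have h2 := good_upper hB1 hW (by omega) x k hk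
  have e : ∀ m : ℕ, (b : ℝ) ^ l * ((m : ℝ) * ((b : ℝ) ^ k * x)) =
      (b : ℝ) ^ (k + l) * ((m : ℝ) * x) := by
    intro m; rw [pow_add]; ring
  simp only [Nat.cast_pow, e] at h1 h2
  exact ⟨h1, h2⟩

end Pool.Agent.Run7.h274.WM
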