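import Mathlib
import Pool.Agent.Run7.h274.Meas

/-!
Words in bounded multiples: windows of places in which the number is far from rational numbers with
small denominators.
-/

set_option autoImplicit false

namespace Pool.Agent.Run7.h274.WM

open Finset

/-- a run of bad places -/
lemma bad_near {b B M : ℕ} (hb : 2 ≤ b) (hB : 1 ≤ B) (hM : 4 * (b + 1) * B ≤ M) (y : ℝ) (k w : ℕ)
    (hbad : ∀ i ≤ w, ¬ Good b B M y (k + i)) :
    ∃ d : ℕ, 1 ≤ d ∧ d < 4 * B ∧ ∃ z : ℤ, |(d : ℝ) * ((b : ℝ) ^ k * y) - z| ≤ 1 / (b : ℝ) ^ w := by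
  have hM0 : 0 < M := by nlinarith
  have hrun := bad_run hM hB y k w hbad
  have hbad0 := hbad 0 (Nat.zero_le _)
  unfold Good at hbad0
  push Not at hbad0
  rw [add_zero] at hbad0
  set r := ap M ((b : ℝ) ^ k * y) with hr
  obtain ⟨a1, -⟩ := ap_spec hM0 ((b : ℝ) ^ (k + w) * y)
  rw [hrun] at a1
  have hbR : (2 : ℝ) ≤ b := by exact_mod_cast hb
  have hM1 : (0 : ℝ) < (M : ℝ) + 1 := by positivity
  have hbh : (0 : ℝ) < (b : ℝ) ^ w := by positivity
  have h1 : (b : ℝ) ^ w * |(b : ℝ) ^ k * y - r| ≤ 1 / ((M : ℝ) + 1) := by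
    have e : (b : ℝ) ^ (k + w) * y - (((b : ℚ) ^ w * r : ℚ) : ℝ) =
        (b : ℝ) ^ w * ((b : ℝ) ^ k * y - r) := by
      push_cast; rw [pow_add]; ring
    rw [e, abs_mul, abs_of_pos hbh] at a1
    refine a1.trans ?_
    refine one_div_le_one_div_of_le hM1 ?_
    have hden : (1 : ℝ) ≤ (((b : ℚ) ^ w * r).den : ℝ) := by
      exact_mod_cast ((b : ℚ) ^ w * r).pos
    nlinarith
  refine ⟨r.den, r.pos, hbad0, r.num, ?_⟩
  have hRr : (r.den : ℝ) * r = ((r.num : ℤ) : ℝ) := by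
    have e1 : (r : ℚ) * r.den = r.num := Rat.mul_den_eq_num r
    have e2 : (r : ℝ) * r.den = r.num := by exact_mod_cast e1
    rw [mul_comm]; exact e2
  rw [← hRr, ← mul_sub, abs_mul, Nat.abs_cast, le_div_iff₀ hbh]
  have hd : (r.den : ℝ) ≤ (M : ℝ) + 1 := by
    have : r.den ≤ M + 1 := by nlinarith
    exact_mod_cast this
  calc (r.den : ℝ) * |(b : ℝ) ^ k * y - r| * (b : ℝ) ^ w
      = r.den * ((b : ℝ) ^ w * |(b : ℝ) ^ k * y - r|) := by ring
    _ ≤ r.den * (1 / ((M : ℝ) + 1)) := mul_le_mul_of_nonneg_left h1 (Nat.cast_nonneg _)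
    _ ≤ ((M : ℝ) + 1) * (1 / ((M : ℝ) + 1)) := mul_le_mul_of_nonneg_right hd (by positivity)
    _ = 1 := by field_simp

/-- `y` is far from the rational numbers with denominators below `D` at the first `K` places -/
def Far (b D w K : ℕ) (y : ℝ) : Prop :=
  ∀ k < K, ∀ d : ℕ, 1 ≤ d → d < D → ∀ z : ℤ, 1 / (b : ℝ) ^ w < |(d : ℝ) * ((b : ℝ) ^ k * y) - z|

lemma gd_ge {b B M w K T : ℕ} (hb : 2 ≤ b) (hB : 1 ≤ B) (hM : 4 * (b + 1) * B ≤ M) {y : ℝ}
    (hy : Far b (4 * B) w K y) (hK : T * (w + 1) ≤ K) : T ≤ gd b B M y K := by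
  classical
  have hex : ∀ i, i < T → ∃ k, i * (w + 1) ≤ k ∧ k ≤ i * (w + 1) + w ∧ Good b B M y k := by
    intro i hi
    by_contra hcon
    push Not at hcon
    have hbad : ∀ j ≤ w, ¬ Good b B M y (i * (w + 1) + j) := fun j hj =>
      hcon _ (by omega) (by omega)
    obtain ⟨d, hd1, hd2, z, hz⟩ := bad_near hb hB hM y (i * (w + 1)) w hbad
    have hlt : i * (w + 1) < K := by
      have : (i + 1) * (w + 1) ≤ T * (w + 1) := Nat.mul_le_mul_right _ hi
      nlinarith
    exact absurd hz (not_le.2 (hy _ hlt d hd1 hd2 z))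
  choose! f hf1 hf2 hf3 using hex
  unfold gd
  have h1 : #(range T) ≤ #{k ∈ range K | Good b B M y k} := by
    refine card_le_card_of_injOn f ?_ ?_
    · intro i hi
      rw [mem_coe, mem_range] at hi
      rw [mem_coe, mem_filter, mem_range]
      refine ⟨?_, hf3 i hi⟩
      have h2 := hf2 i hi
      have : (i + 1) * (w + 1) ≤ T * (w + 1) := Nat.mul_le_mul_right _ hi
      nlinarith
    · intro i hi j hj hij
      rw [mem_coe, mem_range] at hi hj
      have a1 := hf1 i hi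
      have a2 := hf2 i hi
      have b1 := hf1 j hj
      have b2 := hf2 j hj
      rcases lt_trichotomy i j with h | h | h
      · exfalso
        have : (i + 1) * (w + 1) ≤ j * (w + 1) := Nat.mul_le_mul_right _ h
        nlinarith
      · exact h
      · exfalso
        have : (j + 1) * (w + 1) ≤ i * (w + 1) := Nat.mul_le_mul_right _ h
        nlinarith
  rwa [card_range] at h1

/-- a positive proportion of the multiples -/
theorem win_pos {b l M w K T : ℕ} (hb : 2 ≤ b) (hM : 4 * (b + 1) * b ^ l ≤ M) {y : ℝ}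
    (hy : Far b (4 * b ^ l) w K y) (hK : 16 * b ^ l * T * (w + 1) ≤ K) {W : ℕ} (hW : W < b ^ l) :
    M ≤ 16 * b ^ l * ((Icc 1 M).filter (fun m : ℕ => T ≤ occ b l W ((m : ℝ) * y) K)).card := by
  have hB1 : 1 ≤ b ^ l := Nat.one_le_pow _ _ (by omega)
  have h1 := gd_ge hb hB1 hM hy hK
  refine (core_gd hb hM y K W hW).trans (Nat.mul_le_mul_left _ (card_le_card fun m hm => ?_))
  rw [mem_filter] at hm ⊢
  refine ⟨hm.1, ?_⟩
  exact Nat.le_of_mul_le_mul_left (h1.trans hm.2) (by positivity)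

/-- almost all multiples -/
theorem win_most {b l n M w K T : ℕ} (hb : 2 ≤ b) (hl : 1 ≤ l)
    (hM : 4 * (b + 1) * b ^ (l * n) ≤ M) {y : ℝ}
    (hy : Far b (4 * b ^ (l * n)) w K y) (hK : 2 * (l * n) * (T + l * n) * (w + 1) ≤ K) :
    (b ^ l) ^ n * ((Icc 1 M).filter (fun m : ℕ => ∃ W < b ^ l, occ b l W ((m : ℝ) * y) K < T)).card ≤
      8 * b ^ l * (b ^ l - 1) ^ n * M := by
  classical
  rcases Nat.eq_zero_or_pos n with hn | hn
  · subst hn
    simp only [pow_zero, one_mul, mul_one]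
    have h1 := card_filter_le (Icc 1 M) (fun m : ℕ => ∃ W < b ^ l, occ b l W ((m : ℝ) * y) K < T)
    rw [Nat.card_Icc, Nat.add_sub_cancel] at h1
    have h2 : 1 ≤ b ^ l := Nat.one_le_pow _ _ (by omega)
    nlinarith
  have hB1 : 1 ≤ b ^ (l * n) := Nat.one_le_pow _ _ (by omega)
  have hM0 : 1 ≤ M := by nlinarith
  have h1 := gd_ge hb hB1 hM hy hK
  refine le_trans (Nat.mul_le_mul_left _ (card_le_card fun m hm => ?_)) (almost_all hb hl hM0 (n := n) y K)
  rw [mem_filter] at hm ⊢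
  obtain ⟨hm1, W, hW, hlt⟩ := hm
  refine ⟨hm1, W, hW, lt_of_lt_of_le ?_ h1⟩
  exact Nat.mul_lt_mul_of_pos_left (by omega) (by positivity)

/-- number of the places `i`, `u ≤ i`, `i + l ≤ u + L`, such that the word of length `l` with value
`W` stands in the base `q` expansion of the integer `Y` at the places `i, …, i + l - 1` -/
def cnt (q l W Y u L : ℕ) : ℕ := #{i ∈ Ico u (u + L) | i + l ≤ u + L ∧ Y / q ^ i % q ^ l = W}

lemma occ_le_cnt {q l W Y u L K : ℕ} (hq : 2 ≤ q) (hl : 1 ≤ l) (hKL : K + l ≤ L + 1) (y : ℝ)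
    (hy : y * (q : ℝ) ^ (u + L) = Y) : occ q l W y K ≤ cnt q l W Y u L := by
  classical
  unfold occ cnt
  refine card_le_card_of_injOn (fun k => u + L - k - l) ?_ ?_
  · intro k hk
    rw [mem_coe, mem_filter, mem_range] at hk
    obtain ⟨hkK, hk⟩ := hk
    rw [mem_coe, mem_filter, mem_Ico]
    simp only
    refine ⟨⟨by omega, by omega⟩, by omega, ?_⟩
    have hq0 : (0 : ℝ) < (q : ℝ) ^ (u + L - k - l) := by positivity
    have e1 : (q : ℝ) ^ (k + l) * y = ((Y : ℕ) : ℝ) / ((q ^ (u + L - k - l) : ℕ) : ℝ) := by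
      rw [← hy]
      push_cast
      rw [eq_div_iff hq0.ne']
      have e2 : (q : ℝ) ^ (k + l) * (q : ℝ) ^ (u + L - k - l) = (q : ℝ) ^ (u + L) := by
        rw [← pow_add]; congr 1; omega
      rw [← e2]; ring
    rw [e1, ← Int.natCast_floor_eq_floor (by positivity), Nat.floor_div_eq_div] at hk
    exact_mod_cast hk
  · intro a ha c hc hac
    rw [mem_coe, mem_filter, mem_range] at ha hc
    simp only at hac
    omega

end Pool.Agent.Run7.h274.WM
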