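import Mathlib
import Pool.Agent.Y933.KE.DiophP
import Pool.Agent.Run7.h274.Win

/-!
The numbers `a p ^ n` in base `q`: they are far from the rational numbers with small denominators,
by the subspace theorem.
-/

set_option autoImplicit false

namespace Pool.Agent.Run7.h274.WM

open Finset

theorem pow_far {p q : ℕ} (hp : 2 ≤ p) (hq : 2 ≤ q) (hpq : p.Coprime q) (D : ℕ) (hD : 1 ≤ D)
    {ε τ : ℝ} (hε : 0 < ε) (hτ : 0 < τ) :
    ∃ η : ℝ, 0 < η ∧ ∃ n₀ : ℕ, ∀ n : ℕ, n₀ ≤ n → ∀ a : ℕ, 1 ≤ a → (a : ℝ) ≤ Real.exp (η * n) →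
      ∀ J k : ℕ, q ^ J ≤ p ^ n → (k : ℝ) + ε * n ≤ J → ∀ d : ℕ, 1 ≤ d → d < D → ∀ z : ℤ,
        Real.exp (-(τ * n)) <
          |(d : ℝ) * ((q : ℝ) ^ k * ((a : ℝ) * (p : ℝ) ^ n / (q : ℝ) ^ J)) - z| := by
  have hpR : (2 : ℝ) ≤ p := by exact_mod_cast hp
  have hqR : (2 : ℝ) ≤ q := by exact_mod_cast hq
  have hp0 : (0 : ℝ) < p := by linarith
  have hq0 : (0 : ℝ) < q := by linarith
  have hlp : 0 < Real.log p := Real.log_pos (by linarith)
  have hlq : 0 < Real.log q := Real.log_pos (by linarith)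
  have hDR : (1 : ℝ) ≤ D := by exact_mod_cast hD
  have hlD : 0 ≤ Real.log D := Real.log_nonneg hDR
  set A : ℝ := max 1 (Real.log p / Real.log q) with hA
  have hA1 : 1 ≤ A := le_max_left _ _
  have hA2 : Real.log p / Real.log q ≤ A := le_max_right _ _
  obtain ⟨η₁, hη₁, L0, H⟩ := Pool.Agent.Y933.KE.powers_far hp hq hpq 1 A τ hτ
  set η : ℝ := min (η₁ / 2) (ε * Real.log q / 2) with hη
  have hη0 : 0 < η := lt_min (by positivity) (by positivity)
  have hη1 : η ≤ η₁ / 2 := min_le_left _ _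
  have hη2 : η ≤ ε * Real.log q / 2 := min_le_right _ _
  obtain ⟨n₁, hn₁⟩ := exists_nat_gt (Real.log D / η)
  refine ⟨η, hη0, L0 + n₁, fun n hn a ha han J k hJ hkJ d hd hdD z => ?_⟩
  have hn1 : Real.log D < η * n := by
    have h1 : Real.log D / η < n := hn₁.trans_le (by exact_mod_cast (by omega : n₁ ≤ n))
    rw [div_lt_iff₀ hη0] at h1
    linarith
  have hn0 : (0 : ℝ) ≤ n := Nat.cast_nonneg n
  have hJn : (J : ℝ) ≤ A * n := by
    have h1 : (q : ℝ) ^ J ≤ (p : ℝ) ^ n := by exact_mod_cast hJ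
    have h2 := Real.log_le_log (by positivity) h1
    rw [Real.log_pow, Real.log_pow] at h2
    have h3 : (J : ℝ) ≤ Real.log p / Real.log q * n := by
      rw [div_mul_eq_mul_div, le_div_iff₀ hlq]; linarith
    exact h3.trans (mul_le_mul_of_nonneg_right hA2 hn0)
  have hkJ' : k ≤ J := by
    have : (k : ℝ) ≤ J := by
      have : 0 ≤ ε * n := by positivity
      linarith
    exact_mod_cast this
  -- the size of `d a`
  have haR : (1 : ℝ) ≤ a := by exact_mod_cast ha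
  have hdR : (1 : ℝ) ≤ d := by exact_mod_cast hd
  have hdD' : (d : ℝ) ≤ D := by exact_mod_cast hdD.le
  have hda : (d : ℝ) * a ≤ Real.exp (Real.log D + η * n) := by
    rw [Real.exp_add, Real.exp_log (by linarith)]
    exact mul_le_mul hdD' han (by linarith) (by linarith)
  have hda1 : (d : ℝ) * a ≤ Real.exp (η₁ * n) := by
    refine hda.trans (Real.exp_le_exp.2 ?_)
    nlinarith
  have hda2 : (d : ℝ) * a < (q : ℝ) ^ (J - k) := by
    refine lt_of_le_of_lt hda ?_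
    rw [← Real.lt_log_iff_exp_lt (by positivity), Real.log_pow, Nat.cast_sub hkJ']
    have h1 : ε * n * Real.log q ≤ ((J : ℝ) - k) * Real.log q := by
      apply mul_le_mul_of_nonneg_right _ hlq.le
      linarith
    nlinarith
  have hnd : ¬ (q : ℤ) ^ J ∣ ∑ i : Fin 1, (fun _ : Fin 1 => ((d * a : ℕ) : ℤ)) i * (q : ℤ) ^ ((fun _ : Fin 1 => k) i) := by
    rw [Fin.sum_univ_one]
    intro h
    simp only at h
    have h1 : q ^ J ∣ d * a * q ^ k := by exact_mod_cast h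
    have h2 : q ^ J = q ^ (J - k) * q ^ k := by rw [← pow_add]; congr 1; omega
    rw [h2] at h1
    have h3 : q ^ (J - k) ∣ d * a := Nat.dvd_of_mul_dvd_mul_right (by positivity) h1
    have h4 := Nat.le_of_dvd (Nat.mul_pos (by omega) (by omega)) h3
    have h5 : ((q ^ (J - k) : ℕ) : ℝ) ≤ ((d * a : ℕ) : ℝ) := by exact_mod_cast h4
    push_cast at h5
    linarith
  have key := H n (by omega) n J (fun _ => k) (fun _ => ((d * a : ℕ) : ℤ)) z (by nlinarith)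
    (fun _ => by
      have : (k : ℝ) ≤ J := by exact_mod_cast hkJ'
      linarith) hJ (fun _ => by
        rw [Int.cast_natCast, Nat.abs_cast]
        push_cast
        exact hda1) hnd
  rw [Fin.sum_univ_one] at key
  convert key using 3
  push_cast
  field_simp

/-- a window of places -/
theorem pow_window {p q : ℕ} (hp : 2 ≤ p) (hq : 2 ≤ q) (hpq : p.Coprime q) (D : ℕ) (hD : 1 ≤ D)
    (C l : ℕ) {ε : ℝ} (hε : 0 < ε) :
    ∃ η : ℝ, 0 < η ∧ ∃ n₀ : ℕ, ∀ n : ℕ, n₀ ≤ n → ∀ a : ℕ, 1 ≤ a → (a : ℝ) ≤ Real.exp (η * n) →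
      ∀ u L : ℕ, ε * n ≤ L → q ^ (u + L) ≤ p ^ n → ∃ w K : ℕ, C * (w + 1) ≤ K ∧ K + l ≤ L + 1 ∧
        Far q D w K ((a : ℝ) * (p : ℝ) ^ n / (q : ℝ) ^ (u + L)) := by
  have hqR : (2 : ℝ) ≤ q := by exact_mod_cast hq
  have hlq : 0 < Real.log q := Real.log_pos (by linarith)
  have hCR : (0 : ℝ) ≤ C := Nat.cast_nonneg C
  set τ : ℝ := ε * Real.log q / (8 * (C + 1)) with hτ
  have hτ0 : 0 < τ := by positivity
  obtain ⟨η, hη, n₁, H⟩ := pow_far hp hq hpq D hD (ε := ε / 4) (τ := τ) (by positivity) hτ0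
  obtain ⟨n₂, hn₂⟩ := exists_nat_gt ((8 * (2 * (C : ℝ) + 1) + 4 * l) / ε)
  refine ⟨η, hη, n₁ + n₂, fun n hn a ha han u L hL hJ => ?_⟩
  have hn0 : (0 : ℝ) ≤ n := Nat.cast_nonneg n
  have hn2 : 8 * (2 * (C : ℝ) + 1) + 4 * l < ε * n := by
    have h1 : (8 * (2 * (C : ℝ) + 1) + 4 * l) / ε < n :=
      hn₂.trans_le (by exact_mod_cast (by omega : n₂ ≤ n))
    rw [div_lt_iff₀ hε] at h1
    linarith
  have hl0 : (0 : ℝ) ≤ l := Nat.cast_nonneg l
  set w : ℕ := ⌈τ * n / Real.log q⌉₊ with hw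
  have hw1 : τ * n / Real.log q ≤ w := Nat.le_ceil _
  have hw2 : (w : ℝ) < τ * n / Real.log q + 1 := Nat.ceil_lt_add_one (by positivity)
  have hK1 : ((L / 2 : ℕ) : ℝ) ≤ L / 2 := by
    have : 2 * (L / 2) ≤ L := Nat.mul_div_le L 2
    have h2 : 2 * ((L / 2 : ℕ) : ℝ) ≤ L := by exact_mod_cast this
    linarith
  have hK2 : (L : ℝ) / 2 - 1 / 2 ≤ ((L / 2 : ℕ) : ℝ) := by
    have : L ≤ 2 * (L / 2) + 1 := by omega
    have h2 : (L : ℝ) ≤ 2 * ((L / 2 : ℕ) : ℝ) + 1 := by exact_mod_cast this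
    linarith
  refine ⟨w, L / 2, ?_, ?_, ?_⟩
  · have h1 : (C : ℝ) * (w + 1) ≤ ((L / 2 : ℕ) : ℝ) := by
      have h3 : τ * n / Real.log q = ε * n / (8 * (C + 1)) := by
        rw [hτ]; field_simp
      rw [h3] at hw2
      have h4 : (C : ℝ) * (ε * n / (8 * (C + 1))) ≤ ε * n / 8 := by
        rw [← mul_div_assoc, div_le_div_iff₀ (by positivity) (by norm_num)]
        have : 0 ≤ ε * n := by positivity
        nlinarith
      have h5 : (C : ℝ) * (w + 1) ≤ C * (ε * n / (8 * (C + 1)) + 2) :=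
        mul_le_mul_of_nonneg_left (by linarith) hCR
      nlinarith
    exact_mod_cast h1
  · have h1 : (l : ℝ) ≤ L / 2 := by linarith
    have h2 : ((L / 2 + l : ℕ) : ℝ) ≤ ((L + 1 : ℕ) : ℝ) := by
      push_cast
      linarith
    exact_mod_cast h2
  · intro k hk d hd hdD z
    have hkR : (k : ℝ) < ((L / 2 : ℕ) : ℝ) := by exact_mod_cast hk
    have h1 := H n (by omega) a ha han (u + L) k hJ (by
      push_cast
      have : (0 : ℝ) ≤ u := Nat.cast_nonneg u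
      linarith) d hd hdD z
    refine lt_of_le_of_lt ?_ h1
    rw [one_div, ← Real.exp_log (show (0 : ℝ) < (q : ℝ) ^ w by positivity), ← Real.exp_neg, Real.log_pow]
    apply Real.exp_le_exp.2
    rw [div_le_iff₀ hlq] at hw1
    linarith

/-- a positive proportion of the multiples `m a p ^ n` with `m ≤ M` -/
theorem pow_pos_words {p q : ℕ} (hp : 2 ≤ p) (hq : 2 ≤ q) (hpq : p.Coprime q) (l T : ℕ)
    (hl : 1 ≤ l) {ε : ℝ} (hε : 0 < ε) :
    ∃ η : ℝ, 0 < η ∧ ∃ n₀ : ℕ, ∀ n : ℕ, n₀ ≤ n → ∀ a : ℕ, 1 ≤ a → (a : ℝ) ≤ Real.exp (η * n) →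
      ∀ u L : ℕ, ε * n ≤ L → q ^ (u + L) ≤ p ^ n → ∀ M : ℕ, 4 * (q + 1) * q ^ l ≤ M →
        ∀ W < q ^ l, M ≤ 16 * q ^ l *
          ((Icc 1 M).filter (fun m : ℕ => T ≤ cnt q l W (m * (a * p ^ n)) u L)).card := by
  obtain ⟨η, hη, n₀, H⟩ := pow_window hp hq hpq (4 * q ^ l) (by
    have : 1 ≤ q ^ l := Nat.one_le_pow _ _ (by omega)
    omega) (16 * q ^ l * T) l hε
  refine ⟨η, hη, n₀, fun n hn a ha han u L hL hJ M hM W hW => ?_⟩
  obtain ⟨w, K, hK1, hK2, hfar⟩ := H n hn a ha han u L hL hJ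
  refine (win_pos hq hM hfar hK1 hW).trans (Nat.mul_le_mul_left _ (card_le_card fun m hm => ?_))
  rw [mem_filter] at hm ⊢
  refine ⟨hm.1, hm.2.trans (occ_le_cnt hq hl hK2 _ ?_)⟩
  have hq0 : (0 : ℝ) < q := by positivity
  push_cast
  field_simp

/-- almost all multiples, one window -/
theorem pow_most_one {p q : ℕ} (hp : 2 ≤ p) (hq : 2 ≤ q) (hpq : p.Coprime q) (l T : ℕ)
    (hl : 1 ≤ l) {ε δ : ℝ} (hε : 0 < ε) (hδ : 0 < δ) :
    ∃ M₀ : ℕ, ∃ η : ℝ, 0 < η ∧ ∃ n₀ : ℕ, ∀ n : ℕ, n₀ ≤ n → ∀ a : ℕ, 1 ≤ a →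
      (a : ℝ) ≤ Real.exp (η * n) →
      ∀ u L : ℕ, ε * n ≤ L → q ^ (u + L) ≤ p ^ n → ∀ M : ℕ, M₀ ≤ M →
        (((Icc 1 M).filter (fun m : ℕ => ∃ W < q ^ l, cnt q l W (m * (a * p ^ n)) u L < T)).card : ℝ) ≤
          δ * M := by
  obtain ⟨k, hk1, hk⟩ := exists_n (b := q) (l := l) hq hδ
  obtain ⟨η, hη, n₀, H⟩ := pow_window hp hq hpq (4 * q ^ (l * k)) (by
    have : 1 ≤ q ^ (l * k) := Nat.one_le_pow _ _ (by omega)
    omega) (2 * (l * k) * (T + l * k)) l hε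
  refine ⟨4 * (q + 1) * q ^ (l * k), η, hη, n₀, fun n hn a ha han u L hL hJ M hM => ?_⟩
  obtain ⟨w, K, hK1, hK2, hfar⟩ := H n hn a ha han u L hL hJ
  have h1 := win_most hq hl hM hfar hK1
  have hq0 : (0 : ℝ) < q := by positivity
  have hsub : (Icc 1 M).filter (fun m : ℕ => ∃ W < q ^ l, cnt q l W (m * (a * p ^ n)) u L < T) ⊆
      (Icc 1 M).filter (fun m : ℕ => ∃ W < q ^ l,
        occ q l W ((m : ℝ) * ((a : ℝ) * (p : ℝ) ^ n / (q : ℝ) ^ (u + L))) K < T) := by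
    intro m hm
    rw [mem_filter] at hm ⊢
    obtain ⟨hm1, W, hW, hlt⟩ := hm
    refine ⟨hm1, W, hW, lt_of_le_of_lt (occ_le_cnt hq hl hK2 _ ?_) hlt⟩
    push_cast
    field_simp
  have hcard := card_le_card hsub
  set S := ((Icc 1 M).filter (fun m : ℕ => ∃ W < q ^ l,
        occ q l W ((m : ℝ) * ((a : ℝ) * (p : ℝ) ^ n / (q : ℝ) ^ (u + L))) K < T)).card
  have hb1 : 1 ≤ q ^ l := Nat.one_le_pow _ _ (by omega)
  have h6 : ((q : ℝ) ^ l) ^ k * (S : ℝ) ≤ 8 * (q : ℝ) ^ l * ((q : ℝ) ^ l - 1) ^ k * M := by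
    have h7 : (((q ^ l) ^ k * S : ℕ) : ℝ) ≤ ((8 * q ^ l * (q ^ l - 1) ^ k * M : ℕ) : ℝ) := by
      exact_mod_cast h1
    push_cast [Nat.cast_sub hb1] at h7
    exact h7
  have hbn : (0 : ℝ) < ((q : ℝ) ^ l) ^ k := by positivity
  have h8 : ((q : ℝ) ^ l) ^ k * (S : ℝ) ≤ ((q : ℝ) ^ l) ^ k * (δ * M) := by
    refine h6.trans ?_
    have hM' : (0 : ℝ) ≤ (M : ℝ) := Nat.cast_nonneg M
    nlinarith
  have h9 : (S : ℝ) ≤ δ * M := le_of_mul_le_mul_left h8 hbn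
  have h10 : (((Icc 1 M).filter (fun m : ℕ => ∃ W < q ^ l,
      cnt q l W (m * (a * p ^ n)) u L < T)).card : ℝ) ≤ S := by
    exact_mod_cast hcard
  exact h10.trans h9

lemma cnt_mono {q l W Y u L u' L' : ℕ} (h1 : u ≤ u') (h2 : u' + L' ≤ u + L) :
    cnt q l W Y u' L' ≤ cnt q l W Y u L := by
  unfold cnt
  refine card_le_card fun i hi => ?_
  rw [mem_filter, mem_Ico] at hi ⊢
  exact ⟨⟨by omega, by omega⟩, by omega, hi.2.2⟩

open Classical in
/-- almost all multiples, all windows -/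
theorem pow_most_words {p q : ℕ} (hp : 2 ≤ p) (hq : 2 ≤ q) (hpq : p.Coprime q) (l T : ℕ)
    (hl : 1 ≤ l) {ε δ : ℝ} (hε : 0 < ε) (hδ : 0 < δ) :
    ∃ M₀ : ℕ, ∃ η : ℝ, 0 < η ∧ ∃ n₀ : ℕ, ∀ n : ℕ, n₀ ≤ n → ∀ a : ℕ, 1 ≤ a →
      (a : ℝ) ≤ Real.exp (η * n) → ∀ M : ℕ, M₀ ≤ M →
        (((Icc 1 M).filter (fun m : ℕ => ¬ ∀ u L : ℕ, ε * n ≤ L → q ^ (u + L) ≤ p ^ n →
          ∀ W < q ^ l, T ≤ cnt q l W (m * (a * p ^ n)) u L)).card : ℝ) ≤ δ * M := by
  have hpR : (2 : ℝ) ≤ p := by exact_mod_cast hp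
  have hqR : (2 : ℝ) ≤ q := by exact_mod_cast hq
  have hlp : 0 < Real.log p := Real.log_pos (by linarith)
  have hlq : 0 < Real.log q := Real.log_pos (by linarith)
  set lam : ℝ := Real.log p / Real.log q with hlam
  have hlam0 : 0 < lam := by positivity
  obtain ⟨J₁, hJ₁⟩ := exists_nat_gt (4 * lam / ε)
  have hJ0 : 0 < J₁ := by
    have h1 : (0 : ℝ) < J₁ := lt_of_le_of_lt (by positivity) hJ₁
    exact_mod_cast h1
  have hJR : (0 : ℝ) < J₁ := by exact_mod_cast hJ0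
  obtain ⟨M₀, η, hη, n₁, H⟩ := pow_most_one hp hq hpq l T hl (ε := ε / 4) (δ := δ / J₁)
    (by positivity) (by positivity)
  obtain ⟨n₂, hn₂⟩ := exists_nat_gt (4 / ε)
  refine ⟨M₀, η, hη, n₁ + n₂, fun n hn a ha han M hM => ?_⟩
  have hn0 : (0 : ℝ) ≤ n := Nat.cast_nonneg n
  have hn2 : 4 < ε * n := by
    have h1 : 4 / ε < n := hn₂.trans_le (by exact_mod_cast (by omega : n₂ ≤ n))
    rw [div_lt_iff₀ hε] at h1
    linarith
  set s : ℕ := ⌊ε * n / 2⌋₊ with hs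
  have hs1 : (s : ℝ) ≤ ε * n / 2 := Nat.floor_le (by positivity)
  have hs2 : ε * n / 2 < s + 1 := Nat.lt_floor_add_one _
  have hs3 : ε / 4 * n ≤ s := by linarith
  have hs0 : 0 < s := by
    have : (0 : ℝ) < s := by linarith
    exact_mod_cast this
  have hsub : (Icc 1 M).filter (fun m : ℕ => ¬ ∀ u L : ℕ, ε * n ≤ L → q ^ (u + L) ≤ p ^ n →
          ∀ W < q ^ l, T ≤ cnt q l W (m * (a * p ^ n)) u L) ⊆
      ((range J₁).filter fun j => q ^ (j * s + s) ≤ p ^ n).biUnion fun j =>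
        (Icc 1 M).filter (fun m : ℕ => ∃ W < q ^ l, cnt q l W (m * (a * p ^ n)) (j * s) s < T) := by
    intro m hm
    rw [mem_filter] at hm
    obtain ⟨hm1, hm2⟩ := hm
    push Not at hm2
    obtain ⟨u, L, hL, hJ, W, hW, hlt⟩ := hm2
    set j : ℕ := (u + s - 1) / s with hj
    have hj1 : u ≤ j * s := by
      have h1 := Nat.lt_mul_div_succ (u + s - 1) hs0
      rw [← hj] at h1
      have : s * (j + 1) = j * s + s := by ring
      omega
    have hj2 : j * s ≤ u + s - 1 := Nat.div_mul_le_self _ _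
    have hj3 : j * s + s ≤ u + L := by
      have h1 : (2 : ℝ) * s ≤ L := by linarith
      have h2 : 2 * s ≤ L := by exact_mod_cast h1
      omega
    have hj4 : q ^ (j * s + s) ≤ p ^ n := (Nat.pow_le_pow_right (by omega) hj3).trans hJ
    have hj5 : j < J₁ := by
      have h1 : (q : ℝ) ^ (j * s + s) ≤ (p : ℝ) ^ n := by exact_mod_cast hj4
      have h2 := Real.log_le_log (by positivity) h1
      rw [Real.log_pow, Real.log_pow] at h2
      have h3 : ((j * s + s : ℕ) : ℝ) ≤ lam * n := by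
        rw [hlam, div_mul_eq_mul_div, le_div_iff₀ hlq]; linarith
      push_cast at h3
      have h4 : (j : ℝ) * (ε / 4 * n) ≤ lam * n := by
        have h5 : (j : ℝ) * (ε / 4 * n) ≤ j * s := mul_le_mul_of_nonneg_left hs3 (Nat.cast_nonneg _)
        have h6 : (0 : ℝ) ≤ s := Nat.cast_nonneg _
        linarith
      have hnpos : (0 : ℝ) < n := by
        rcases hn0.eq_or_lt with h | h
        · rw [← h] at hn2; linarith
        · exact h
      have h5 : (j : ℝ) * (ε / 4) ≤ lam := by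
        have h6 : ((j : ℝ) * (ε / 4)) * n ≤ lam * n := by linarith
        exact le_of_mul_le_mul_right h6 hnpos
      have h6 : (j : ℝ) ≤ 4 * lam / ε := by
        rw [le_div_iff₀ hε]; linarith
      exact_mod_cast h6.trans_lt hJ₁
    rw [mem_biUnion]
    refine ⟨j, mem_filter.2 ⟨mem_range.2 hj5, hj4⟩, mem_filter.2 ⟨hm1, W, hW, ?_⟩⟩
    exact lt_of_le_of_lt (cnt_mono hj1 hj3) hlt
  have hcard := (card_le_card hsub).trans card_biUnion_le
  have h1 : (((Icc 1 M).filter (fun m : ℕ => ¬ ∀ u L : ℕ, ε * n ≤ L → q ^ (u + L) ≤ p ^ n →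
          ∀ W < q ^ l, T ≤ cnt q l W (m * (a * p ^ n)) u L)).card : ℝ) ≤
      ∑ j ∈ (range J₁).filter fun j => q ^ (j * s + s) ≤ p ^ n,
        (((Icc 1 M).filter (fun m : ℕ => ∃ W < q ^ l, cnt q l W (m * (a * p ^ n)) (j * s) s < T)).card : ℝ) := by
    exact_mod_cast hcard
  refine h1.trans ?_
  calc ∑ j ∈ (range J₁).filter fun j => q ^ (j * s + s) ≤ p ^ n,
        (((Icc 1 M).filter (fun m : ℕ => ∃ W < q ^ l, cnt q l W (m * (a * p ^ n)) (j * s) s < T)).card : ℝ)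
      ≤ ∑ j ∈ (range J₁).filter fun j => q ^ (j * s + s) ≤ p ^ n, δ / J₁ * M := by
        refine sum_le_sum fun j hj => ?_
        exact H n (by omega) a ha han (j * s) s hs3 (mem_filter.1 hj).2 M hM
    _ = ((range J₁).filter fun j => q ^ (j * s + s) ≤ p ^ n).card * (δ / J₁ * M) := by
        rw [sum_const, nsmul_eq_mul]
    _ ≤ (J₁ : ℝ) * (δ / J₁ * M) := by
        have h2 := card_filter_le (range J₁) (fun j => q ^ (j * s + s) ≤ p ^ n)
        rw [card_range] at h2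
        have h3 : ((((range J₁).filter fun j => q ^ (j * s + s) ≤ p ^ n).card : ℕ) : ℝ) ≤ J₁ := by
          exact_mod_cast h2
        exact mul_le_mul_of_nonneg_right h3 (by positivity)
    _ = δ * M := by field_simp

end Pool.Agent.Run7.h274.WM
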