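import Mathlib
import Pool.Agent.Run7.h274.Win

/-!
The numbers `ξ (p/q) ^ n`: times at which the bounded multiples are well distributed.
-/

set_option autoImplicit false

namespace Pool.Agent.Run7.h274.WM

open Finset

/-- sequences: good indices serve all words -/
theorem seq_pos {B M W : ℕ} (hB : 1 ≤ B) (hW : W < B) (hM : 0 < M) (t : ℕ → ℝ) (G : Finset ℕ)
    (hG : ∀ k ∈ G, 4 * B ≤ (ap M (t k)).den) :
    M ≤ 16 * B * ((Icc 1 M).filter (fun m : ℕ => #G ≤ 16 * B *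
      (G.filter (fun k : ℕ => ⌊(B : ℝ) * ((m : ℝ) * t k)⌋ % (B : ℤ) = (W : ℤ))).card)).card := by
  classical
  have hkey : ∀ k ∈ G, #(Icc 1 M) ≤ 8 * B * ((Icc 1 M).filter (fun m : ℕ =>
      ⌊(B : ℝ) * ((m : ℝ) * t k)⌋ % (B : ℤ) = (W : ℤ))).card := by
    intro k hk
    have h1 : Good 1 B M (t k) 0 := by
      unfold Good
      simpa using hG k hk
    have h2 := good_count hB hW hM (t k) 0 h1
    rw [Nat.card_Icc, Nat.add_sub_cancel]
    simpa using h2
  have h1 := markov (Icc 1 M) G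
    (fun (m : ℕ) k => ⌊(B : ℝ) * ((m : ℝ) * t k)⌋ % (B : ℤ) = (W : ℤ)) B hB hkey
  rw [Nat.card_Icc, Nat.add_sub_cancel] at h1
  exact h1

/-- two consecutive bad times -/
lemma pq_step {p q B M : ℕ} (hq : 1 ≤ q) (hM : 4 * (p + q) * B ≤ M) (hB : 1 ≤ B) (t t' : ℝ)
    (ht : (q : ℝ) * t' = p * t) (h0 : (ap M t).den < 4 * B) (h1 : (ap M t').den < 4 * B) :
    (q : ℚ) * ap M t' = p * ap M t := by
  have hM0 : 0 < M := by nlinarith
  obtain ⟨a1, -⟩ := ap_spec hM0 t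
  obtain ⟨a2, -⟩ := ap_spec hM0 t'
  set r := ap M t
  set r' := ap M t'
  by_contra hne
  have hne' : q * r' - p * r ≠ 0 := sub_ne_zero.2 hne
  have hd : (0 : ℚ) < (r.den : ℚ) := by exact_mod_cast r.pos
  have hd' : (0 : ℚ) < (r'.den : ℚ) := by exact_mod_cast r'.pos
  have hlow : (1 : ℚ) ≤ |(q * r' - p * r) * (r'.den * r.den)| := by
    have e : (q * r' - p * r) * (r'.den * r.den) =
        ((q * r'.num * r.den - p * r.num * r'.den : ℤ) : ℚ) := by
      push_cast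
      have e1 : r' * r'.den = r'.num := Rat.mul_den_eq_num r'
      have e2 : r * r.den = r.num := Rat.mul_den_eq_num r
      rw [← e1, ← e2]; ring
    have hne2 : (q * r'.num * r.den - p * r.num * r'.den : ℤ) ≠ 0 := by
      intro h
      rw [h, Int.cast_zero] at e
      rcases mul_eq_zero.1 e with h' | h'
      · exact hne' h'
      · exact (mul_pos hd' hd).ne' h'
    rw [e, ← Int.cast_abs]
    exact_mod_cast Int.one_le_abs hne2
  have hlowR : (1 : ℝ) ≤ |((q : ℝ) * r' - p * r) * (r'.den * r.den)| := by exact_mod_cast hlow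
  have hM1 : (0 : ℝ) < (M : ℝ) + 1 := by positivity
  have hdR : (0 : ℝ) < (r.den : ℝ) := by exact_mod_cast r.pos
  have hdR' : (0 : ℝ) < (r'.den : ℝ) := by exact_mod_cast r'.pos
  have hup : |(q : ℝ) * r' - p * r| ≤
      q * (1 / (((M : ℝ) + 1) * r'.den)) + p * (1 / (((M : ℝ) + 1) * r.den)) := by
    have e : (q : ℝ) * r' - p * r = -(q * (t' - r')) + p * (t - r) := by linarith
    rw [e]
    refine (abs_add_le _ _).trans (add_le_add ?_ ?_)
    · rw [abs_neg, abs_mul, Nat.abs_cast]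
      exact mul_le_mul_of_nonneg_left a2 (Nat.cast_nonneg q)
    · rw [abs_mul, Nat.abs_cast]
      exact mul_le_mul_of_nonneg_left a1 (Nat.cast_nonneg p)
  have hfin : |((q : ℝ) * r' - p * r) * (r'.den * r.den)| < 1 := by
    rw [abs_mul, abs_of_pos (mul_pos hdR' hdR)]
    have h2 : |(q : ℝ) * r' - p * r| * (r'.den * r.den) ≤
        (q * (1 / (((M : ℝ) + 1) * r'.den)) + p * (1 / (((M : ℝ) + 1) * r.den))) * (r'.den * r.den) :=
      mul_le_mul_of_nonneg_right hup (by positivity)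
    refine lt_of_le_of_lt h2 ?_
    have e : (q * (1 / (((M : ℝ) + 1) * r'.den)) + p * (1 / (((M : ℝ) + 1) * r.den))) *
        (r'.den * r.den) = (q * r.den + p * r'.den) / ((M : ℝ) + 1) := by
      field_simp
    rw [e, div_lt_one hM1]
    have h3 : q * r.den + p * r'.den < M + 1 := by
      have h4 : p * r'.den ≤ p * (4 * B) := Nat.mul_le_mul_left _ h1.le
      have h5 : q * r.den ≤ q * (4 * B) := Nat.mul_le_mul_left _ h0.le
      nlinarith
    exact_mod_cast h3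
  linarith

/-- a run of bad times -/
lemma pq_run {p q B M : ℕ} (hq : 1 ≤ q) (hM : 4 * (p + q) * B ≤ M) (hB : 1 ≤ B) (t : ℕ → ℝ)
    (ht : ∀ n, (q : ℝ) * t (n + 1) = p * t n) (n h : ℕ)
    (hbad : ∀ i ≤ h, (ap M (t (n + i))).den < 4 * B) :
    (q : ℚ) ^ h * ap M (t (n + h)) = (p : ℚ) ^ h * ap M (t n) := by
  induction h with
  | zero => simp
  | succ h ih =>
    have h1 := ih fun i hi => hbad i (by omega)
    have h2 := hbad h (by omega)
    have h3 := hbad (h + 1) le_rfl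
    have h4 := pq_step hq hM hB (t (n + h)) (t (n + h + 1)) (ht _) h2 h3
    rw [← add_assoc, pow_succ, pow_succ, mul_assoc, h4, ← mul_assoc, mul_comm ((q : ℚ) ^ h) (p : ℚ),
      mul_assoc, h1]
    ring

/-- the numerators: the length of a run of bad times -/
lemma pq_run_len {p q B M : ℕ} (hq : 1 ≤ q) (hpq : p.Coprime q) (hM : 4 * (p + q) * B ≤ M)
    (hB : 1 ≤ B) (t : ℕ → ℝ) (ht : ∀ n, (q : ℝ) * t (n + 1) = p * t n) (n h : ℕ)
    (hn : 1 ≤ |t n|)
    (hbad : ∀ i ≤ h, (ap M (t (n + i))).den < 4 * B) :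
    (q : ℝ) ^ h ≤ 32 * (B : ℝ) ^ 2 * |t n| := by
  have hrun := pq_run hq hM hB t ht n h hbad
  have hM0 : 0 < M := by nlinarith
  have b0 := hbad 0 (Nat.zero_le _)
  have b1 := hbad h le_rfl
  rw [add_zero] at b0
  obtain ⟨a1, -⟩ := ap_spec hM0 (t n)
  set r := ap M (t n)
  set r' := ap M (t (n + h))
  have hd : (0 : ℚ) < (r.den : ℚ) := by exact_mod_cast r.pos
  have hd' : (0 : ℚ) < (r'.den : ℚ) := by exact_mod_cast r'.pos
  have e1 : r' * r'.den = r'.num := Rat.mul_den_eq_num r'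
  have e2 : r * r.den = r.num := Rat.mul_den_eq_num r
  have e3 : ((q ^ h : ℕ) : ℤ) * (r'.num * r.den) = ((p ^ h : ℕ) : ℤ) * (r.num * r'.den) := by
    have : ((((q ^ h : ℕ) : ℤ) * (r'.num * r.den) : ℤ) : ℚ) =
        ((((p ^ h : ℕ) : ℤ) * (r.num * r'.den) : ℤ) : ℚ) := by
      push_cast
      rw [← e1, ← e2]
      calc (q : ℚ) ^ h * (r' * r'.den * r.den) = ((q : ℚ) ^ h * r') * (r'.den * r.den) := by ring
        _ = ((p : ℚ) ^ h * r) * (r'.den * r.den) := by rw [hrun]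
        _ = _ := by ring
    exact_mod_cast this
  have hcop : IsCoprime (((q ^ h : ℕ) : ℤ)) (((p ^ h : ℕ) : ℤ)) := by
    rw [Nat.isCoprime_iff_coprime]
    exact (hpq.symm.pow h h)
  have hdvd : ((q ^ h : ℕ) : ℤ) ∣ r.num * r'.den := by
    refine hcop.dvd_of_dvd_mul_left ?_
    rw [← e3]
    exact dvd_mul_right _ _
  -- nonzero
  have hM1 : (0 : ℝ) < (M : ℝ) + 1 := by positivity
  have hdR : (1 : ℝ) ≤ (r.den : ℝ) := by exact_mod_cast r.pos
  have hdR' : (1 : ℝ) ≤ (r'.den : ℝ) := by exact_mod_cast r'.pos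
  have ha : |t n - r| < 1 := by
    refine lt_of_le_of_lt a1 ?_
    rw [div_lt_one (by positivity)]
    have : (1 : ℝ) ≤ M := by exact_mod_cast hM0
    nlinarith
  have hr0 : r ≠ 0 := by
    intro h0
    rw [h0, Rat.cast_zero, sub_zero] at ha
    linarith
  have hnum : r.num * r'.den ≠ 0 := by
    have h1 : r.num ≠ 0 := Rat.num_ne_zero.2 hr0
    have h2 : (r'.den : ℤ) ≠ 0 := by exact_mod_cast r'.pos.ne'
    exact mul_ne_zero h1 h2
  have hle := Int.le_of_dvd (abs_pos.2 hnum) ((dvd_abs _ _).2 hdvd)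
  have hleR : ((q : ℝ) ^ h) ≤ |(r.num : ℝ)| * r'.den := by
    have : (((q ^ h : ℕ) : ℤ) : ℝ) ≤ ((|r.num * r'.den| : ℤ) : ℝ) := by exact_mod_cast hle
    rw [abs_mul] at this
    push_cast at this
    rwa [Nat.abs_cast] at this
  have e2R : (r : ℝ) * r.den = r.num := by exact_mod_cast e2
  have hrt : |(r : ℝ)| ≤ 2 * |t n| := by
    have h1 : |(r : ℝ)| ≤ |t n| + |t n - r| := by
      have h2 : (r : ℝ) = t n - (t n - r) := by ring
      calc |(r : ℝ)| = |t n - (t n - r)| := by rw [← h2]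
        _ ≤ |t n| + |t n - r| := abs_sub _ _
    linarith
  have hB4 : (r.den : ℝ) ≤ 4 * B := by exact_mod_cast b0.le
  have hB4' : (r'.den : ℝ) ≤ 4 * B := by exact_mod_cast b1.le
  refine hleR.trans ?_
  rw [← e2R, abs_mul, Nat.abs_cast]
  calc |(r : ℝ)| * r.den * r'.den ≤ (2 * |t n|) * (4 * B) * (4 * B) := by gcongr
    _ = 32 * (B : ℝ) ^ 2 * |t n| := by ring

lemma pq_iter {p q : ℕ} (t : ℕ → ℝ) (ht : ∀ n, (q : ℝ) * t (n + 1) = p * t n) (n h : ℕ) :
    (q : ℝ) ^ h * t (n + h) = (p : ℝ) ^ h * t n := by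
  induction h with
  | zero => simp
  | succ h ih =>
    rw [← add_assoc, pow_succ, pow_succ, mul_assoc, ht, ← mul_assoc, mul_comm ((q : ℝ) ^ h) (p : ℝ),
      mul_assoc, ih]
    ring

/-- the distance at the beginning of a run of bad times -/
lemma pq_near {p q B M : ℕ} (hq : 1 ≤ q) (hM : 4 * (p + q) * B ≤ M) (hB : 1 ≤ B) (t : ℕ → ℝ)
    (ht : ∀ n, (q : ℝ) * t (n + 1) = p * t n) (n h : ℕ) (hp : 1 ≤ p)
    (hbad : ∀ i ≤ h, (ap M (t (n + i))).den < 4 * B) :
    ∃ d : ℕ, 1 ≤ d ∧ d < 4 * B ∧ ∃ z : ℤ, |(d : ℝ) * t n - z| ≤ ((q : ℝ) / p) ^ h := by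
  have hrun := pq_run hq hM hB t ht n h hbad
  have hM0 : 0 < M := by nlinarith
  have b0 := hbad 0 (Nat.zero_le _)
  rw [add_zero] at b0
  obtain ⟨a1, -⟩ := ap_spec hM0 (t (n + h))
  set r := ap M (t n)
  set r' := ap M (t (n + h))
  have hqR : (0 : ℝ) < q := by exact_mod_cast hq
  have hpR : (0 : ℝ) < p := by exact_mod_cast hp
  have hM1 : (0 : ℝ) < (M : ℝ) + 1 := by positivity
  have hd' : (1 : ℝ) ≤ (r'.den : ℝ) := by exact_mod_cast r'.pos
  have hth : (q : ℝ) ^ h * t (n + h) = (p : ℝ) ^ h * t n := pq_iter t ht n h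
  have hrunR : (q : ℝ) ^ h * r' = (p : ℝ) ^ h * r := by exact_mod_cast hrun
  have h1 : (p : ℝ) ^ h * |t n - r| ≤ (q : ℝ) ^ h * (1 / ((M : ℝ) + 1)) := by
    have e : (p : ℝ) ^ h * (t n - r) = (q : ℝ) ^ h * (t (n + h) - r') := by
      rw [mul_sub, mul_sub, hth, hrunR]
    have hpp : (0 : ℝ) < (p : ℝ) ^ h := by positivity
    have hqq : (0 : ℝ) < (q : ℝ) ^ h := by positivity
    calc (p : ℝ) ^ h * |t n - r| = |(p : ℝ) ^ h * (t n - r)| := by
          rw [abs_mul, abs_of_pos hpp]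
      _ = (q : ℝ) ^ h * |t (n + h) - r'| := by rw [e, abs_mul, abs_of_pos hqq]
      _ ≤ (q : ℝ) ^ h * (1 / ((M : ℝ) + 1)) := by
          refine mul_le_mul_of_nonneg_left (a1.trans ?_) (by positivity)
          refine one_div_le_one_div_of_le hM1 ?_
          nlinarith
  refine ⟨r.den, r.pos, b0, r.num, ?_⟩
  have e2 : (r : ℚ) * r.den = r.num := Rat.mul_den_eq_num r
  have e2R : (r : ℝ) * r.den = r.num := by exact_mod_cast e2
  rw [← e2R, mul_comm (r : ℝ), ← mul_sub, abs_mul, Nat.abs_cast, div_pow, le_div_iff₀ (by positivity)]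
  have hd : (r.den : ℝ) ≤ (M : ℝ) + 1 := by
    have : r.den ≤ M + 1 := by nlinarith
    exact_mod_cast this
  calc (r.den : ℝ) * |t n - r| * (p : ℝ) ^ h
      = r.den * ((p : ℝ) ^ h * |t n - r|) := by ring
    _ ≤ r.den * ((q : ℝ) ^ h * (1 / ((M : ℝ) + 1))) := mul_le_mul_of_nonneg_left h1 (Nat.cast_nonneg _)
    _ ≤ ((M : ℝ) + 1) * ((q : ℝ) ^ h * (1 / ((M : ℝ) + 1))) :=
        mul_le_mul_of_nonneg_right hd (by positivity)
    _ = (q : ℝ) ^ h := by field_simp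

end Pool.Agent.Run7.h274.WM
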