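import Mathlib
import Pool.Agent.Run7.h274.PQ

/-!
The numbers `m ξ (p/q) ^ n` with `m ≤ M`: at least `c log N` visits to every interval of length
`1 / B`.
-/

set_option autoImplicit false

namespace Pool.Agent.Run7.h274.WM

open Finset

/-- many good places from short gaps -/
lemma count_ge {P : ℕ → Prop} [DecidablePred P] {K w T : ℕ}
    (h : ∀ k, k + w < K → ∃ i ≤ w, P (k + i)) (hK : T * (w + 1) ≤ K) :
    T ≤ #{k ∈ range K | P k} := by
  classical
  have hex : ∀ i, i < T → ∃ k, i * (w + 1) ≤ k ∧ k ≤ i * (w + 1) + w ∧ P k := by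
    intro i hi
    have hlt : i * (w + 1) + w < K := by
      have : (i + 1) * (w + 1) ≤ T * (w + 1) := Nat.mul_le_mul_right _ hi
      nlinarith
    obtain ⟨j, hj, hP⟩ := h _ hlt
    exact ⟨_, by omega, by omega, hP⟩
  choose! f hf1 hf2 hf3 using hex
  have h1 : #(range T) ≤ #{k ∈ range K | P k} := by
    refine card_le_card_of_injOn f ?_ ?_
    · intro i hi
      rw [mem_coe, mem_range] at hi
      rw [mem_coe, mem_filter, mem_range]
      refine ⟨?_, hf3 i hi⟩
      have h2 := hf2 i hi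
      have : (i + 1) * (w + 1) ≤ T * (w + 1) := Nat.mul_le_mul_right _ hi
      nlinarith
    · intro i hi j hj hij
      rw [mem_coe, mem_range] at hi hj
      have a1 := hf1 i hi
      have a2 := hf2 i hi
      have b1 := hf1 j hj
      have b2 := hf2 j hj
      rcases lt_trichotomy i j with h | h | h
      · exfalso
        have : (i + 1) * (w + 1) ≤ j * (w + 1) := Nat.mul_le_mul_right _ h
        nlinarith
      · exact h
      · exfalso
        have : (j + 1) * (w + 1) ≤ i * (w + 1) := Nat.mul_le_mul_right _ h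
        nlinarith
  rwa [card_range] at h1

/-- many good places from gaps bounded by a factor -/
lemma count_log_at {P : ℕ → Prop} [DecidablePred P] {A n₁ : ℕ} (hA : 2 ≤ A)
    (h : ∀ n, n₁ ≤ n → ∃ k, n ≤ k ∧ k < A * n ∧ P k) (N : ℕ) (hN : A ^ (2 * n₁ + 2) ≤ N) :
    Real.log N / (2 * Real.log A) ≤ (#{k ∈ range N | P k} : ℝ) := by
  classical
  have hAR : (2 : ℝ) ≤ A := by exact_mod_cast hA
  have hlA : 0 < Real.log A := Real.log_pos (by linarith)
  -- the windows `[A ^ i, A ^ (i + 1))`, `i ≥ n₁`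
  have hex : ∀ i, ∃ k, A ^ (n₁ + i) ≤ k ∧ k < A ^ (n₁ + i + 1) ∧ P k := by
    intro i
    obtain ⟨k, h1, h2, h3⟩ := h (A ^ (n₁ + i)) (by
      have := (Nat.lt_pow_self (n := n₁ + i) (by omega : 1 < A))
      omega)
    exact ⟨k, h1, by rw [pow_succ']; exact h2, h3⟩
  choose f hf1 hf2 hf3 using hex
  have hcount : ∀ J N : ℕ, A ^ (n₁ + J) ≤ N → J ≤ #{k ∈ range N | P k} := by
    intro J N hJ
    have h1 : #(range J) ≤ #{k ∈ range N | P k} := by
      refine card_le_card_of_injOn f ?_ ?_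
      · intro i hi
        rw [mem_coe, mem_range] at hi
        rw [mem_coe, mem_filter, mem_range]
        refine ⟨?_, hf3 i⟩
        have h2 := hf2 i
        have : A ^ (n₁ + i + 1) ≤ A ^ (n₁ + J) := Nat.pow_le_pow_right (by omega) (by omega)
        omega
      · intro i _ j _ hij
        have a1 := hf1 i
        have a2 := hf2 i
        have b1 := hf1 j
        have b2 := hf2 j
        rcases lt_trichotomy i j with h | h | h
        · exfalso
          have : A ^ (n₁ + i + 1) ≤ A ^ (n₁ + j) := Nat.pow_le_pow_right (by omega) (by omega)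
          omega
        · exact h
        · exfalso
          have : A ^ (n₁ + j + 1) ≤ A ^ (n₁ + i) := Nat.pow_le_pow_right (by omega) (by omega)
          omega
    rwa [card_range] at h1
  have hN0 : 0 < N := lt_of_lt_of_le (by positivity) hN
  have hlog1 : 2 * n₁ + 2 ≤ Nat.log A N := (Nat.le_log_iff_pow_le (by omega) hN0.ne').2 hN
  have hJ := hcount (Nat.log A N - n₁) N (by
    have : n₁ + (Nat.log A N - n₁) = Nat.log A N := by omega
    rw [this]
    exact Nat.pow_log_le_self _ hN0.ne')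
  have hlt : N < A ^ (Nat.log A N + 1) := Nat.lt_pow_succ_log_self (by omega) _
  have hltR : (N : ℝ) ≤ (A : ℝ) ^ (Nat.log A N + 1) := by exact_mod_cast hlt.le
  have h2 := Real.log_le_log (by exact_mod_cast hN0) hltR
  rw [Real.log_pow] at h2
  push_cast at h2
  have hJR : ((Nat.log A N : ℕ) : ℝ) - n₁ ≤ (#{k ∈ range N | P k} : ℝ) := by
    rw [← Nat.cast_sub (by omega)]
    exact_mod_cast hJ
  have h3 : (2 * (n₁ : ℝ) + 2) ≤ (Nat.log A N : ℕ) := by exact_mod_cast hlog1
  rw [div_le_iff₀ (by positivity)]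
  nlinarith

/-- the floors and the fractional parts -/
lemma floor_mod_iff {B : ℕ} (hB : 1 ≤ B) (x : ℝ) (W : ℕ) (hW : W < B) :
    ⌊(B : ℝ) * x⌋ % (B : ℤ) = (W : ℤ) ↔
      (W : ℝ) / B ≤ Int.fract x ∧ Int.fract x < ((W : ℝ) + 1) / B := by
  have hB0 : (0 : ℝ) < B := by exact_mod_cast hB
  have hBz : (0 : ℤ) < B := by exact_mod_cast hB
  have e : (B : ℝ) * x = ((B * ⌊x⌋ : ℤ) : ℝ) + B * Int.fract x := by
    push_cast
    rw [← mul_add, Int.floor_add_fract]
  have h0 := Int.fract_nonneg x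
  have h1 := Int.fract_lt_one x
  have hf0 : 0 ≤ ⌊(B : ℝ) * Int.fract x⌋ := Int.floor_nonneg.2 (by positivity)
  have hf1 : ⌊(B : ℝ) * Int.fract x⌋ < B := by
    rw [Int.floor_lt]
    push_cast
    nlinarith
  rw [e, Int.floor_intCast_add, Int.mul_add_emod_self_left, Int.emod_eq_of_lt hf0 hf1,
    Int.floor_eq_iff, div_le_iff₀ hB0, lt_div_iff₀ hB0]
  push_cast
  rw [mul_comm (B : ℝ) (Int.fract x)]

/-- Powers of `p / q`: every interval of length `1 / B` is visited by `m ξ (p/q) ^ n` at at least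
`c log N` times `n < N`, for a positive proportion of the `m ≤ M`. -/
theorem pq_log {p q : ℕ} (hq : 2 ≤ q) (hqp : q < p) (hpq : p.Coprime q) :
    ∀ B : ℕ, 1 ≤ B → ∃ c : ℝ, 0 < c ∧ ∀ ξ : ℝ, ξ ≠ 0 → ∃ N₀ : ℕ,
      ∀ M : ℕ, 4 * (p + q) * B ≤ M → ∀ N : ℕ, N₀ ≤ N → ∀ W < B,
        M ≤ 16 * B * ((Icc 1 M).filter (fun m : ℕ => c * Real.log N ≤
          (((range N).filter (fun n : ℕ => (W : ℝ) / B ≤ Int.fract (m * (ξ * ((p : ℝ) / q) ^ n)) ∧
            Int.fract (m * (ξ * ((p : ℝ) / q) ^ n)) < ((W : ℝ) + 1) / B)).card : ℝ))).card := by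
  classical
  intro B hB
  have hqR : (2 : ℝ) ≤ q := by exact_mod_cast hq
  have hpR : (q : ℝ) < p := by exact_mod_cast hqp
  have hlq : 0 < Real.log q := Real.log_pos (by linarith)
  have hlp : Real.log q < Real.log p := Real.log_lt_log (by linarith) hpR
  obtain ⟨A, hA⟩ := exists_nat_gt (Real.log p / Real.log q + 2)
  have hpos : 0 < Real.log p / Real.log q := by
    have : 0 < Real.log p := by linarith
    positivity
  have hA2 : 2 ≤ A := by
    have h1 : (2 : ℝ) < A := by linarith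
    exact_mod_cast h1.le
  have hAR : (2 : ℝ) ≤ A := by exact_mod_cast hA2
  have hlA : 0 < Real.log A := Real.log_pos (by linarith)
  have hBR : (1 : ℝ) ≤ B := by exact_mod_cast hB
  refine ⟨1 / (32 * B * Real.log A), by positivity, fun ξ hξ => ?_⟩
  have hξ0 : 0 < |ξ| := abs_pos.2 hξ
  have hpq1 : 1 < (p : ℝ) / q := by rw [one_lt_div (by linarith)]; exact hpR
  -- large times
  obtain ⟨n₂, hn₂⟩ := exists_nat_gt (|Real.log (32 * (B : ℝ) ^ 2 * |ξ|)| / Real.log q)
  obtain ⟨n₃, hn₃⟩ : ∃ n₃ : ℕ, ∀ n : ℕ, n₃ ≤ n → 1 ≤ |ξ| * ((p : ℝ) / q) ^ n := by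
    have h1 : Filter.Tendsto (fun n : ℕ => |ξ| * ((p : ℝ) / q) ^ n) Filter.atTop Filter.atTop :=
      (tendsto_pow_atTop_atTop_of_one_lt hpq1).const_mul_atTop hξ0
    obtain ⟨n₃, h⟩ := Filter.eventually_atTop.1 (h1.eventually_ge_atTop 1)
    exact ⟨n₃, h⟩
  set t : ℕ → ℝ := fun n => ξ * ((p : ℝ) / q) ^ n with ht
  have hrec : ∀ n, (q : ℝ) * t (n + 1) = p * t n := by
    intro n
    simp only [ht, pow_succ]
    field_simp
  have habs : ∀ n, |t n| = |ξ| * ((p : ℝ) / q) ^ n := by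
    intro n
    simp only [ht, abs_mul, abs_pow]
    rw [abs_of_pos (show (0 : ℝ) < (p : ℝ) / q by positivity)]
  have hgap : ∀ M : ℕ, 4 * (p + q) * B ≤ M → ∀ n, n₂ + n₃ + 2 ≤ n →
      ∃ k, n ≤ k ∧ k < A * n ∧ 4 * B ≤ (ap M (t k)).den := by
    intro M hM n hn
    by_contra hcon
    push Not at hcon
    have hnR : (2 : ℝ) ≤ n := by exact_mod_cast (by omega : 2 ≤ n)
    set h : ℕ := (A - 1) * n - 1 with hh
    have hh0 : h + 1 = (A - 1) * n := by
      have : 1 ≤ (A - 1) * n := Nat.mul_pos (by omega) (by omega)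
      omega
    have hAn : A * n = n + (A - 1) * n := by
      have : A = 1 + (A - 1) := by omega
      conv_lhs => rw [this]
      ring
    have hbad : ∀ i ≤ h, (ap M (t (n + i))).den < 4 * B := fun i hi =>
      hcon (n + i) (by omega) (by omega)
    have h1 := pq_run_len (by omega) hpq hM hB t hrec n h (by
      rw [habs]; exact hn₃ n (by omega)) hbad
    rw [habs] at h1
    have h2 := Real.log_le_log (by positivity) h1
    have e1 : 32 * (B : ℝ) ^ 2 * (|ξ| * ((p : ℝ) / q) ^ n) = (32 * (B : ℝ) ^ 2 * |ξ|) * ((p : ℝ) / q) ^ n := by ring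
    have hp0 : (0 : ℝ) < p := by linarith
    have hq0 : (0 : ℝ) < q := by linarith
    have hpq0 : (0 : ℝ) < (p : ℝ) / q := by positivity
    rw [e1, Real.log_mul (by positivity) (by positivity), Real.log_pow, Real.log_pow,
      Real.log_div hp0.ne' hq0.ne'] at h2
    have h3 : Real.log (32 * (B : ℝ) ^ 2 * |ξ|) ≤ n * Real.log q := by
      have h4 : |Real.log (32 * (B : ℝ) ^ 2 * |ξ|)| / Real.log q < n :=
        hn₂.trans_le (by exact_mod_cast (by omega : n₂ ≤ n))
      rw [div_lt_iff₀ hlq] at h4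
      exact (le_abs_self _).trans h4.le
    have h4 : (h : ℝ) + 1 = (A - 1) * n := by
      have h5 : ((h + 1 : ℕ) : ℝ) = (((A - 1) * n : ℕ) : ℝ) := by rw [hh0]
      push_cast [Nat.cast_sub (show 1 ≤ A by omega)] at h5
      exact h5
    have h5 : (h : ℝ) * Real.log q ≤ n * Real.log p := by
      linarith [mul_sub (n : ℝ) (Real.log p) (Real.log q)]
    have h6 : (Real.log p / Real.log q + 1) * n < (h : ℝ) + 1 := by
      rw [h4]
      apply mul_lt_mul_of_pos_right _ (by linarith)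
      linarith
    have h7 : (Real.log p / Real.log q + 1) * n * Real.log q = n * Real.log p + n * Real.log q := by
      field_simp
    have h8 := mul_lt_mul_of_pos_right h6 hlq
    rw [h7] at h8
    nlinarith
  -- the bound `N₀` must not depend on `M`
  refine ⟨?_, ?_⟩
  · exact A ^ (2 * (n₂ + n₃ + 2) + 2)
  intro M hM N hN W hW
  have hM0 : 0 < M := by
    have : 1 ≤ 4 * (p + q) * B := Nat.mul_pos (by omega) hB
    omega
  have hcnt : Real.log N / (2 * Real.log A) ≤ (#{k ∈ range N | 4 * B ≤ (ap M (t k)).den} : ℝ) :=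
    count_log_at hA2 (hgap M hM) N hN
  set G : Finset ℕ := {k ∈ range N | 4 * B ≤ (ap M (t k)).den} with hG
  have h1 := seq_pos hB hW hM0 t G fun k hk => (mem_filter.1 hk).2
  refine h1.trans (Nat.mul_le_mul_left _ (card_le_card fun m hm => ?_))
  rw [mem_filter] at hm ⊢
  refine ⟨hm.1, ?_⟩
  have h2 : (#G : ℝ) ≤ 16 * B * ((G.filter (fun k : ℕ =>
      ⌊(B : ℝ) * ((m : ℝ) * t k)⌋ % (B : ℤ) = (W : ℤ))).card : ℝ) := by exact_mod_cast hm.2
  have h3 : (G.filter (fun k : ℕ => ⌊(B : ℝ) * ((m : ℝ) * t k)⌋ % (B : ℤ) = (W : ℤ))).card ≤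
      ((range N).filter (fun n : ℕ => (W : ℝ) / B ≤ Int.fract (m * (ξ * ((p : ℝ) / q) ^ n)) ∧
            Int.fract (m * (ξ * ((p : ℝ) / q) ^ n)) < ((W : ℝ) + 1) / B)).card := by
    refine card_le_card fun k hk => ?_
    rw [mem_filter, hG, mem_filter] at hk
    rw [mem_filter]
    exact ⟨hk.1.1, (floor_mod_iff hB _ W hW).1 hk.2⟩
  have h4 : ((G.filter (fun k : ℕ => ⌊(B : ℝ) * ((m : ℝ) * t k)⌋ % (B : ℤ) = (W : ℤ))).card : ℝ) ≤
      (((range N).filter (fun n : ℕ => (W : ℝ) / B ≤ Int.fract (m * (ξ * ((p : ℝ) / q) ^ n)) ∧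
            Int.fract (m * (ξ * ((p : ℝ) / q) ^ n)) < ((W : ℝ) + 1) / B)).card : ℝ) := by
    exact_mod_cast h3
  have h5 : 1 / (32 * B * Real.log A) * Real.log N = (Real.log N / (2 * Real.log A)) / (16 * B) := by
    have hB0 : (B : ℝ) ≠ 0 := by positivity
    rw [div_div, one_div, mul_comm, ← div_eq_mul_inv]
    congr 1
    ring
  rw [h5, div_le_iff₀ (by positivity)]
  have h6 : (0 : ℝ) ≤ 16 * B := by positivity
  nlinarith [mul_le_mul_of_nonneg_left h4 h6]

end Pool.Agent.Run7.h274.WM
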