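import Mathlib
import Pool.Agent.Y933.KE.DiophP
import Pool.Agent.Run7.h274.PQLog

/-!
The numbers `6 ^ i (3/2) ^ n a / 6 ^ κ` are far from rational numbers with small denominators, by the
subspace theorem.
-/

set_option autoImplicit false

namespace Pool.Agent.Run7.h274.WM

open Finset

/-- the constant `log_6 (3/2)` -/
noncomputable def lam6 : ℝ := Real.log (3 / 2) / Real.log 6

lemma lam6_pos : 0 < lam6 := by
  unfold lam6
  have h1 : 0 < Real.log (3 / 2) := Real.log_pos (by norm_num)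
  have h2 : 0 < Real.log 6 := Real.log_pos (by norm_num)
  positivity

lemma lam6_mul : lam6 * Real.log 6 = Real.log 3 - Real.log 2 := by
  unfold lam6
  have h2 : 0 < Real.log 6 := Real.log_pos (by norm_num)
  rw [div_mul_cancel₀ _ h2.ne', Real.log_div (by norm_num) (by norm_num)]

lemma log6 : Real.log 6 = Real.log 3 + Real.log 2 := by
  rw [← Real.log_mul (by norm_num) (by norm_num)]; norm_num

lemma lam6_lt : lam6 < 1 := by
  unfold lam6
  rw [div_lt_one (Real.log_pos (by norm_num))]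
  exact Real.log_lt_log (by norm_num) (by norm_num)

theorem st_far (a κ : ℕ) (ha : 1 ≤ a) (D : ℕ) (hD : 1 ≤ D) {ε δ : ℝ} (hε : 0 < ε) (hδ : 0 < δ) :
    ∃ n₀ : ℕ, ∀ n : ℕ, n₀ ≤ n → ∀ i : ℤ, -((1 - ε) * n * lam6) ≤ i → i ≤ (1 - ε) * n →
      ∀ d : ℕ, 1 ≤ d → d < D → ∀ z : ℤ, Real.exp (-(δ * n)) <
        |(d : ℝ) * ((6 : ℝ) ^ i * ((3 / 2) ^ n * ((a : ℝ) / 6 ^ κ))) - z| := by
  obtain ⟨η, hη, L0, H⟩ := Pool.Agent.Y933.KE.powers_far (p := 3) (q := 2) (by norm_num) (by norm_num)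
    (by norm_num) 1 2 δ hδ
  have hl2 : 0 < Real.log 2 := Real.log_pos (by norm_num)
  have hl6 : 0 < Real.log 6 := Real.log_pos (by norm_num)
  have hlam := lam6_pos
  have haR : (1 : ℝ) ≤ a := by exact_mod_cast ha
  have hDR : (1 : ℝ) ≤ D := by exact_mod_cast hD
  obtain ⟨n₁, hn₁⟩ := exists_nat_gt (Real.log (D * a) / η)
  obtain ⟨n₂, hn₂⟩ := exists_nat_gt (Real.log (D * a) / (ε * Real.log 2))
  obtain ⟨n₃, hn₃⟩ := exists_nat_gt ((κ : ℝ) / (ε * lam6))
  refine ⟨L0 + n₁ + n₂ + n₃, fun n hn i hi1 hi2 d hd hdD z => ?_⟩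
  have hn0 : (0 : ℝ) ≤ n := Nat.cast_nonneg n
  have hm1 : Real.log (D * a) < η * n := by
    have h1 : Real.log (D * a) / η < n := hn₁.trans_le (by exact_mod_cast (by omega : n₁ ≤ n))
    rw [div_lt_iff₀ hη] at h1
    linarith
  have hm2 : Real.log (D * a) < ε * Real.log 2 * n := by
    have h1 : Real.log (D * a) / (ε * Real.log 2) < n :=
      hn₂.trans_le (by exact_mod_cast (by omega : n₂ ≤ n))
    rw [div_lt_iff₀ (by positivity)] at h1
    linarith
  have hm3 : (κ : ℝ) < ε * lam6 * n := by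
    have h1 : (κ : ℝ) / (ε * lam6) < n := hn₃.trans_le (by exact_mod_cast (by omega : n₃ ≤ n))
    rw [div_lt_iff₀ (by positivity)] at h1
    linarith
  have hκ0 : (0 : ℝ) ≤ κ := Nat.cast_nonneg κ
  -- the exponents
  have hNi : (0 : ℝ) ≤ n + i - κ := by
    have h1 : lam6 * n ≤ n := by nlinarith [lam6_lt]
    nlinarith
  have hJi : (0 : ℝ) ≤ n - i + κ := by nlinarith
  have hNi' : 0 ≤ (n : ℤ) + i - κ := by exact_mod_cast hNi
  have hJi' : 0 ≤ (n : ℤ) - i + κ := by exact_mod_cast hJi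
  obtain ⟨N, hN⟩ := Int.eq_ofNat_of_zero_le hNi'
  obtain ⟨J, hJ⟩ := Int.eq_ofNat_of_zero_le hJi'
  have hNR : (N : ℝ) = n + i - κ := by
    have : ((N : ℤ) : ℝ) = ((n : ℤ) + i - κ : ℤ) := by rw [← hN]
    push_cast at this
    exact this
  have hJR : (J : ℝ) = n - i + κ := by
    have : ((J : ℤ) : ℝ) = ((n : ℤ) - i + κ : ℤ) := by rw [← hJ]
    push_cast at this
    exact this
  have hJN : 2 ^ J ≤ 3 ^ N := by
    have h1 : (2 : ℝ) ^ J ≤ (3 : ℝ) ^ N := by
      rw [← Real.log_le_log_iff (by positivity) (by positivity), Real.log_pow, Real.log_pow, hNR, hJR]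
      have e1 := log6
      have e2 := lam6_mul
      have h2 : (-((1 - ε) * n * lam6) - κ) * Real.log 6 ≤ ((i : ℝ) - κ) * Real.log 6 :=
        mul_le_mul_of_nonneg_right (by linarith) hl6.le
      have h3 : -((n : ℝ) * lam6) * Real.log 6 ≤ (-((1 - ε) * n * lam6) - κ) * Real.log 6 := by
        refine mul_le_mul_of_nonneg_right ?_ hl6.le
        linarith
      have h4 : -((n : ℝ) * lam6) * Real.log 6 = -(n * (Real.log 3 - Real.log 2)) := by
        rw [← e2]; ring
      rw [h4] at h3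
      have h5 := h3.trans h2
      rw [e1] at h5
      linarith
    exact_mod_cast h1
  have hdR : (1 : ℝ) ≤ d := by exact_mod_cast hd
  have hdD' : (d : ℝ) ≤ D := by exact_mod_cast hdD.le
  have hda : (d : ℝ) * a ≤ D * a := mul_le_mul_of_nonneg_right hdD' (by linarith)
  have hDa0 : (0 : ℝ) < D * a := by positivity
  have hda1 : (d : ℝ) * a ≤ Real.exp (η * n) := by
    refine hda.trans ?_
    rw [← Real.log_le_iff_le_exp hDa0]
    exact hm1.le
  have hda2 : (d : ℝ) * a < (2 : ℝ) ^ J := by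
    refine lt_of_le_of_lt hda ?_
    rw [← Real.log_lt_log_iff hDa0 (by positivity), Real.log_pow, hJR]
    have h1 : ε * n * Real.log 2 ≤ ((n : ℝ) - i + κ) * Real.log 2 := by
      apply mul_le_mul_of_nonneg_right _ hl2.le
      linarith
    linarith
  have hnd : ¬ (((2 : ℕ) : ℤ)) ^ J ∣ ∑ j : Fin 1, (fun _ : Fin 1 => ((d * a : ℕ) : ℤ)) j *
      (((2 : ℕ) : ℤ)) ^ ((fun _ : Fin 1 => 0) j) := by
    rw [Fin.sum_univ_one]
    intro h
    simp only [pow_zero, mul_one] at h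
    have h1 : 2 ^ J ∣ d * a := by exact_mod_cast h
    have h4 := Nat.le_of_dvd (Nat.mul_pos (by omega) (by omega)) h1
    have h5 : ((2 ^ J : ℕ) : ℝ) ≤ ((d * a : ℕ) : ℝ) := by exact_mod_cast h4
    push_cast at h5
    linarith
  have key := H n (by omega) N J (fun _ => 0) (fun _ => ((d * a : ℕ) : ℤ)) z (by
      rw [hNR]
      nlinarith) (fun _ => by
        rw [Nat.cast_zero]; positivity) hJN (fun _ => by
        rw [Int.cast_natCast, Nat.abs_cast]
        push_cast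
        exact hda1) hnd
  rw [Fin.sum_univ_one] at key
  convert key using 3
  simp only [pow_zero, mul_one, Int.cast_natCast]
  have e1 : (6 : ℝ) ^ i = 3 ^ i * 2 ^ i := by
    rw [← mul_zpow]; norm_num
  have e2 : (3 : ℝ) ^ i = 3 ^ N * 3 ^ κ / 3 ^ n := by
    rw [eq_div_iff (by positivity), ← zpow_natCast, ← zpow_natCast, ← zpow_natCast,
      ← zpow_add₀ (by norm_num), ← zpow_add₀ (by norm_num)]
    congr 1
    omega
  have e3 : (2 : ℝ) ^ i = 2 ^ n * 2 ^ κ / 2 ^ J := by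
    rw [eq_div_iff (by positivity), ← zpow_natCast, ← zpow_natCast, ← zpow_natCast,
      ← zpow_add₀ (by norm_num), ← zpow_add₀ (by norm_num)]
    congr 1
    omega
  have e4 : (6 : ℝ) ^ κ = 3 ^ κ * 2 ^ κ := by rw [← mul_pow]; norm_num
  rw [e1, e2, e3, e4, div_pow]
  push_cast
  field_simp

end Pool.Agent.Run7.h274.WM
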