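import Mathlib
import Pool.Agent.Run7.h274.StFar
import Pool.Agent.H429R2.Auto

/-!
The automaton: words in the columns and in the rows of the bounded multiples of a finite
configuration.
-/

set_option autoImplicit false

namespace Pool.Agent.Run7.h274.AW

open Finset
open Pool.Agent.Run7.h274.WM
open Pool.Agent.H429R2.Auto (Conf F Rep letter rep_iter digits_sum sum_lt exists_rep)

/-- The configuration `x` shows the word `w` at the cells `p, p + 1, …, p + |w| - 1`. -/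
def ShowsAt (x : ℤ → Fin 6) (w : List (Fin 6)) (p : ℤ) : Prop :=
  ∀ (i : ℕ) (h : i < w.length), x (p + i) = w[i]

/-- the number coding the word -/
def code (w : List (Fin 6)) : ℕ :=
  ∑ r ∈ Finset.range w.length, ((w.getD (w.length - 1 - r) 0 : Fin 6) : ℕ) * 6 ^ r

theorem code_lt (w : List (Fin 6)) : code w < 6 ^ w.length :=
  sum_lt w.length fun r => w.getD (w.length - 1 - r) 0

theorem shows_of {x : Conf} {β : ℝ} (hβ : 0 ≤ β) (hx : Rep x β) (w : List (Fin 6)) (j : ℤ) (n : ℕ)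
    (h : ⌊(6 : ℝ) ^ (j + w.length - 1) * ((3 / 2) ^ n * β)⌋₊ % 6 ^ w.length = code w) :
    ShowsAt (F^[n] x) w j := by
  intro i hi
  have h1 := letter (rep_iter hβ hx n) j w.length (w.length - 1 - i) (by omega)
  rw [h] at h1
  have h2 := digits_sum w.length (fun r => w.getD (w.length - 1 - r) 0) (w.length - 1 - i) (by omega)
  have e1 : j + (w.length : ℤ) - 1 - ((w.length - 1 - i : ℕ) : ℤ) = j + i := by omega
  rw [e1] at h1
  have e2 : w.length - 1 - (w.length - 1 - i) = i := by omega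
  unfold code at h1
  rw [h2] at h1
  simp only [e2] at h1
  have h3 : w.getD i 0 = w[i] := by
    rw [List.getD_eq_getElem?_getD, List.getElem?_eq_getElem hi]; rfl
  rw [h3] at h1
  exact Fin.ext h1

/-- The base 6 expansion of the real number `β ≥ 0`: the digit at the position `i` is
`⌊6 ^ i β⌋ mod 6`. -/
noncomputable def expansion (β : ℝ) : Conf :=
  fun i => ⟨⌊(6 : ℝ) ^ i * β⌋₊ % 6, Nat.mod_lt _ (by norm_num)⟩

theorem rep_expansion (β : ℝ) : Rep (expansion β) β := fun _ => rfl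

/-- the criterion -/
theorem shows_exp {β : ℝ} (hβ : 0 ≤ β) (m : ℕ) (w : List (Fin 6)) (j : ℤ) (n : ℕ)
    (h : ⌊((6 ^ w.length : ℕ) : ℝ) * ((m : ℝ) * ((6 : ℝ) ^ (j - 1) * ((3 / 2) ^ n * β)))⌋ %
      ((6 ^ w.length : ℕ) : ℤ) = (code w : ℤ)) :
    ShowsAt (F^[n] (expansion (m * β))) w j := by
  refine shows_of (by positivity) (rep_expansion _) w j n ?_
  have e : ((6 ^ w.length : ℕ) : ℝ) * ((m : ℝ) * ((6 : ℝ) ^ (j - 1) * ((3 / 2) ^ n * β))) =
      (6 : ℝ) ^ (j + w.length - 1) * ((3 / 2) ^ n * (m * β)) := by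
    rw [show j + (w.length : ℤ) - 1 = (j - 1) + (w.length : ℤ) by ring,
      zpow_add₀ (by norm_num), zpow_natCast]
    push_cast
    ring
  rw [e, ← Int.natCast_floor_eq_floor (by positivity)] at h
  exact_mod_cast h

open Classical in
/-- **Columns.** -/
theorem columns (a κ : ℕ) (ha : 1 ≤ a) (L T : ℕ) {ε : ℝ} (hε : 0 < ε) (hε1 : ε ≤ 1) :
    ∃ N₀ : ℕ, ∀ N : ℕ, N₀ ≤ N → ∀ K : ℕ, ε * N ≤ K → ∀ j : ℤ, -((1 - ε) * N * lam6) ≤ j →
      j ≤ (1 - ε) * N → ∀ M : ℕ, 20 * 6 ^ L ≤ M → ∀ w : List (Fin 6), w.length = L →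
        M ≤ 16 * 6 ^ L * ((Icc 1 M).filter (fun m : ℕ => T ≤
          ((Ico N (N + K)).filter (fun n : ℕ =>
            ShowsAt (F^[n] (expansion (m * ((a : ℝ) / 6 ^ κ)))) w j)).card)).card := by
  set B : ℕ := 6 ^ L with hB
  have hB1 : 1 ≤ B := Nat.one_le_pow _ _ (by norm_num)
  clear_value B
  obtain ⟨C, hC⟩ : ∃ C : ℕ, C = 16 * B * T + 1 := ⟨_, rfl⟩
  have hCR : (1 : ℝ) ≤ C := by exact_mod_cast (by omega : 1 ≤ C)
  have hl : 0 < Real.log (3 / 2) := Real.log_pos (by norm_num)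
  have hlam := lam6_pos
  set δ : ℝ := ε * Real.log (3 / 2) / (6 * C) with hδ
  have hδ0 : 0 < δ := by positivity
  obtain ⟨n₁, H⟩ := st_far a κ ha (4 * B) (by omega) (ε := ε / 2) (δ := δ) (by positivity) hδ0
  obtain ⟨n₂, hn₂⟩ := exists_nat_gt ((8 * (C : ℝ) + 2 / lam6 + 2) / ε)
  refine ⟨n₁ + n₂, fun N hN K hK j hj1 hj2 M hM w hw => ?_⟩
  have hN0 : (0 : ℝ) ≤ N := Nat.cast_nonneg N
  have hn2 : 8 * (C : ℝ) + 2 / lam6 + 2 < ε * N := by
    have h1 : (8 * (C : ℝ) + 2 / lam6 + 2) / ε < N :=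
      hn₂.trans_le (by exact_mod_cast (by omega : n₂ ≤ N))
    rw [div_lt_iff₀ hε] at h1
    linarith
  have h2lam : 0 < 2 / lam6 := by positivity
  have hlamN : 2 < ε * N * lam6 := by
    have h1 : 2 / lam6 < ε * N := by linarith
    rwa [div_lt_iff₀ hlam] at h1
  have hεN : ε * N ≤ N := by nlinarith
  have hM0 : 0 < M := by omega
  -- the window
  set K' : ℕ := ⌈ε * N⌉₊ with hK'
  have hK1 : ε * N ≤ K' := Nat.le_ceil _
  have hK2 : (K' : ℝ) < ε * N + 1 := Nat.ceil_lt_add_one (by positivity)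
  have hKK : K' ≤ K := Nat.ceil_le.2 hK
  have hK3 : (K' : ℝ) ≤ 2 * N := by linarith
  set h : ℕ := ⌈3 * δ * N / Real.log (3 / 2)⌉₊ with hh
  have hh1 : 3 * δ * N / Real.log (3 / 2) ≤ h := Nat.le_ceil _
  have hh2 : (h : ℝ) < 3 * δ * N / Real.log (3 / 2) + 1 := Nat.ceil_lt_add_one (by positivity)
  set β : ℝ := (a : ℝ) / 6 ^ κ with hβ
  have hβ0 : 0 ≤ β := by positivity
  set t : ℕ → ℝ := fun n => (6 : ℝ) ^ (j - 1) * ((3 / 2) ^ n * β) with ht
  have hrec : ∀ n, ((2 : ℕ) : ℝ) * t (n + 1) = ((3 : ℕ) : ℝ) * t n := by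
    intro n
    simp only [ht, pow_succ]
    push_cast
    ring
  have hgap : ∀ k, k + h < K' → ∃ i ≤ h, 4 * B ≤ (ap M (t (N + (k + i)))).den := by
    intro k hk
    by_contra hcon
    push Not at hcon
    obtain ⟨d, hd1, hd2, z, hz⟩ := pq_near (p := 3) (q := 2) (by norm_num) (by omega) hB1 t hrec
      (N + k) h (by norm_num) (fun i hi => by
        rw [add_assoc]; exact hcon i hi)
    have hkR : (k : ℝ) < K' := by exact_mod_cast (by omega : k < K')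
    have hk0 : (0 : ℝ) ≤ k := Nat.cast_nonneg k
    have hlt := H (N + k) (by omega) (j - 1) (by
        push_cast
        have h1 : (1 - ε / 2) * (N + k) * lam6 ≥ (1 - ε / 2) * N * lam6 := by
          have : 0 ≤ (1 - ε / 2) := by linarith
          have h2 : (1 - ε / 2) * N ≤ (1 - ε / 2) * (N + k) := by nlinarith
          nlinarith
        nlinarith) (by
        push_cast
        have : 0 ≤ (1 - ε / 2) := by linarith
        nlinarith) d hd1 hd2 z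
    have h3 : ((2 : ℕ) : ℝ) / ((3 : ℕ) : ℝ) = Real.exp (-Real.log (3 / 2)) := by
      rw [Real.exp_neg, Real.exp_log (by norm_num)]; norm_num
    have h4 : (((2 : ℕ) : ℝ) / ((3 : ℕ) : ℝ)) ^ h ≤ Real.exp (-(δ * ((N + k : ℕ) : ℝ))) := by
      rw [h3, ← Real.exp_nat_mul]
      apply Real.exp_le_exp.2
      rw [div_le_iff₀ hl] at hh1
      push_cast
      have h5 : δ * ((N : ℝ) + k) ≤ δ * (3 * N) := mul_le_mul_of_nonneg_left (by linarith) hδ0.le
      linarith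
    exact absurd (hz.trans h4) (not_le.2 hlt)
  have hcount : 16 * B * T * (h + 1) ≤ K' := by
    have h1 : (C : ℝ) * (h + 1) ≤ K' := by
      have h3 : 3 * δ * N / Real.log (3 / 2) = ε * N / (2 * C) := by
        rw [hδ]; field_simp; ring
      rw [h3] at hh2
      have h4 : (C : ℝ) * (ε * N / (2 * C)) = ε * N / 2 := by field_simp
      have h5 : (C : ℝ) * (h + 1) ≤ C * (ε * N / (2 * C) + 2) :=
        mul_le_mul_of_nonneg_left (by linarith) (by linarith)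
      nlinarith
    have h2 : C * (h + 1) ≤ K' := by exact_mod_cast h1
    have h3 : 16 * B * T * (h + 1) ≤ C * (h + 1) := Nat.mul_le_mul_right _ (by omega)
    omega
  have hG := count_ge (P := fun k => 4 * B ≤ (ap M (t (N + k))).den) hgap hcount
  set G : Finset ℕ := {k ∈ range K' | 4 * B ≤ (ap M (t (N + k))).den} with hGdef
  have hW : code w < B := by rw [hB, ← hw]; exact code_lt w
  have h1 := seq_pos hB1 hW hM0 (fun k => t (N + k)) G fun k hk => (mem_filter.1 hk).2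
  refine h1.trans (Nat.mul_le_mul_left _ (card_le_card fun m hm => ?_))
  rw [mem_filter] at hm ⊢
  refine ⟨hm.1, ?_⟩
  have h2 : T ≤ (G.filter (fun k : ℕ => ⌊(B : ℝ) * ((m : ℝ) * t (N + k))⌋ % (B : ℤ) = ((code w : ℕ) : ℤ))).card := by
    have h3 := hG.trans hm.2
    have h4 : 0 < 16 * B := by omega
    exact Nat.le_of_mul_le_mul_left h3 h4
  refine h2.trans (card_le_card_of_injOn (fun k => N + k) ?_ ?_)
  · intro k hk
    rw [mem_coe, mem_filter, hGdef, mem_filter, mem_range] at hk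
    obtain ⟨⟨hk1, -⟩, hk2⟩ := hk
    rw [mem_coe, mem_filter, mem_Ico]
    beta_reduce
    refine ⟨by omega, ?_⟩
    refine shows_exp hβ0 m w j (N + k) ?_
    rw [hw, ← hB]
    exact hk2
  · intro k _ k' _ hkk
    simpa using hkk

/-- a window of a row -/
theorem row_window (a κ : ℕ) (ha : 1 ≤ a) (D : ℕ) (hD : 1 ≤ D) (C L : ℕ) {ε : ℝ} (hε : 0 < ε)
    (hε1 : ε ≤ 1) :
    ∃ n₀ : ℕ, ∀ n : ℕ, n₀ ≤ n → ∀ (A : ℤ) (K : ℕ), ε * n ≤ K → -((1 - ε) * n * lam6) ≤ A →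
      A + K ≤ n → ∃ w K' : ℕ, C * (w + 1) ≤ K' ∧ K' + L ≤ K + 1 ∧
        Far 6 D w K' ((6 : ℝ) ^ (A - 1) * ((3 / 2) ^ n * ((a : ℝ) / 6 ^ κ))) := by
  have hl6 : 0 < Real.log 6 := Real.log_pos (by norm_num)
  have hlam := lam6_pos
  have hCR : (0 : ℝ) ≤ C := Nat.cast_nonneg C
  set δ : ℝ := ε * Real.log 6 / (8 * (C + 1)) with hδ
  have hδ0 : 0 < δ := by positivity
  obtain ⟨n₁, H⟩ := st_far a κ ha D hD (ε := ε / 4) (δ := δ) (by positivity) hδ0
  obtain ⟨n₂, hn₂⟩ := exists_nat_gt ((8 * (2 * (C : ℝ) + 1) + 4 * L + 2 / lam6 + 4) / ε)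
  refine ⟨n₁ + n₂, fun n hn A K hK hA hAK => ?_⟩
  have hn0 : (0 : ℝ) ≤ n := Nat.cast_nonneg n
  have hn2 : 8 * (2 * (C : ℝ) + 1) + 4 * L + 2 / lam6 + 4 < ε * n := by
    have h1 : (8 * (2 * (C : ℝ) + 1) + 4 * L + 2 / lam6 + 4) / ε < n :=
      hn₂.trans_le (by exact_mod_cast (by omega : n₂ ≤ n))
    rw [div_lt_iff₀ hε] at h1
    linarith
  have h2lam : 0 < 2 / lam6 := by positivity
  have hL0 : (0 : ℝ) ≤ L := Nat.cast_nonneg L
  have hlamN : 2 < ε * n * lam6 := by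
    have h1 : 2 / lam6 < ε * n := by linarith
    rwa [div_lt_iff₀ hlam] at h1
  set w : ℕ := ⌈δ * n / Real.log 6⌉₊ with hw
  have hw1 : δ * n / Real.log 6 ≤ w := Nat.le_ceil _
  have hw2 : (w : ℝ) < δ * n / Real.log 6 + 1 := Nat.ceil_lt_add_one (by positivity)
  have hK1 : ((K / 2 : ℕ) : ℝ) ≤ K / 2 := by
    have : 2 * (K / 2) ≤ K := Nat.mul_div_le K 2
    have h2 : 2 * ((K / 2 : ℕ) : ℝ) ≤ K := by exact_mod_cast this
    linarith
  have hK2 : (K : ℝ) / 2 - 1 / 2 ≤ ((K / 2 : ℕ) : ℝ) := by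
    have : K ≤ 2 * (K / 2) + 1 := by omega
    have h2 : (K : ℝ) ≤ 2 * ((K / 2 : ℕ) : ℝ) + 1 := by exact_mod_cast this
    linarith
  have hAKR : (A : ℝ) + K ≤ n := by exact_mod_cast hAK
  refine ⟨w, K / 2, ?_, ?_, ?_⟩
  · have h1 : (C : ℝ) * (w + 1) ≤ ((K / 2 : ℕ) : ℝ) := by
      have h3 : δ * n / Real.log 6 = ε * n / (8 * (C + 1)) := by
        rw [hδ]; field_simp
      rw [h3] at hw2
      have h4 : (C : ℝ) * (ε * n / (8 * (C + 1))) ≤ ε * n / 8 := by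
        rw [← mul_div_assoc, div_le_div_iff₀ (by positivity) (by norm_num)]
        have : 0 ≤ ε * n := by positivity
        nlinarith
      have h5 : (C : ℝ) * (w + 1) ≤ C * (ε * n / (8 * (C + 1)) + 2) :=
        mul_le_mul_of_nonneg_left (by linarith) hCR
      nlinarith
    exact_mod_cast h1
  · have h1 : (L : ℝ) ≤ K / 2 := by linarith
    have h2 : ((K / 2 + L : ℕ) : ℝ) ≤ ((K + 1 : ℕ) : ℝ) := by
      push_cast
      linarith
    exact_mod_cast h2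
  · intro k hk d hd hdD z
    have hkR : (k : ℝ) < ((K / 2 : ℕ) : ℝ) := by exact_mod_cast hk
    have hk0 : (0 : ℝ) ≤ k := Nat.cast_nonneg k
    have h1 := H n (by omega) (A - 1 + k) (by
      push_cast
      nlinarith) (by
      push_cast
      nlinarith) d hd hdD z
    have e : (6 : ℝ) ^ (A - 1 + (k : ℤ)) * ((3 / 2) ^ n * ((a : ℝ) / 6 ^ κ)) =
        (((6 : ℕ) : ℝ)) ^ k * ((6 : ℝ) ^ (A - 1) * ((3 / 2) ^ n * ((a : ℝ) / 6 ^ κ))) := by
      rw [zpow_add₀ (by norm_num), zpow_natCast]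
      push_cast
      ring
    rw [e] at h1
    refine lt_of_le_of_lt ?_ h1
    rw [one_div, ← Real.exp_log (show (0 : ℝ) < (((6 : ℕ) : ℝ)) ^ w by positivity), ← Real.exp_neg,
      Real.log_pow]
    apply Real.exp_le_exp.2
    push_cast
    rw [div_le_iff₀ hl6] at hw1
    linarith

open Classical in
/-- the cells of the window `[A, A + K)` at which the word stands -/
noncomputable def inRow (x : Conf) (w : List (Fin 6)) (A : ℤ) (K : ℕ) : ℕ :=
  ((Ico A (A + K)).filter (fun p : ℤ => p + w.length ≤ A + K ∧ ShowsAt x w p)).card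

lemma occ_le_inRow {β : ℝ} (hβ : 0 ≤ β) (m n K K' : ℕ) (A : ℤ) (w : List (Fin 6))
    (hw : 1 ≤ w.length) (hK : K' + w.length ≤ K + 1) :
    occ 6 w.length (code w) ((m : ℝ) * ((6 : ℝ) ^ (A - 1) * ((3 / 2) ^ n * β))) K' ≤
      inRow (F^[n] (expansion (m * β))) w A K := by
  classical
  unfold occ inRow
  refine card_le_card_of_injOn (fun k : ℕ => A + (k : ℤ)) ?_ ?_
  · intro k hk
    rw [mem_coe, mem_filter, mem_range] at hk
    obtain ⟨hk1, hk2⟩ := hk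
    rw [mem_coe, mem_filter, mem_Ico]
    beta_reduce
    refine ⟨⟨by omega, by omega⟩, by omega, ?_⟩
    refine shows_exp hβ m w (A + k) n ?_
    have e : ((6 ^ w.length : ℕ) : ℝ) * ((m : ℝ) * ((6 : ℝ) ^ (A + (k : ℤ) - 1) * ((3 / 2) ^ n * β))) =
        (((6 : ℕ) : ℝ)) ^ (k + w.length) * ((m : ℝ) * ((6 : ℝ) ^ (A - 1) * ((3 / 2) ^ n * β))) := by
      rw [show A + (k : ℤ) - 1 = (A - 1) + (k : ℤ) by ring, zpow_add₀ (by norm_num), zpow_natCast,
        pow_add]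
      push_cast
      ring
    rw [e]
    exact_mod_cast hk2
  · intro k _ k' _ hkk
    simpa using hkk

open Classical in
/-- **Rows, a positive proportion.** -/
theorem rows_pos (a κ : ℕ) (ha : 1 ≤ a) (L T : ℕ) (hL : 1 ≤ L) {ε : ℝ} (hε : 0 < ε) (hε1 : ε ≤ 1) :
    ∃ n₀ : ℕ, ∀ n : ℕ, n₀ ≤ n → ∀ (A : ℤ) (K : ℕ), ε * n ≤ K → -((1 - ε) * n * lam6) ≤ A →
      A + K ≤ n → ∀ M : ℕ, 28 * 6 ^ L ≤ M → ∀ w : List (Fin 6), w.length = L →
        M ≤ 16 * 6 ^ L * ((Icc 1 M).filter (fun m : ℕ => T ≤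
          inRow (F^[n] (expansion (m * ((a : ℝ) / 6 ^ κ)))) w A K)).card := by
  have hB1 : 1 ≤ 6 ^ L := Nat.one_le_pow _ _ (by norm_num)
  obtain ⟨n₀, H⟩ := row_window a κ ha (4 * 6 ^ L) (by omega) (16 * 6 ^ L * T) L hε hε1
  refine ⟨n₀, fun n hn A K hK hA hAK M hM w hw => ?_⟩
  obtain ⟨v, K', h1, h2, h3⟩ := H n hn A K hK hA hAK
  subst hw
  refine (win_pos (b := 6) (by norm_num) (by omega) h3 h1 (code_lt w)).trans
    (Nat.mul_le_mul_left _ (card_le_card fun m hm => ?_))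
  rw [mem_filter] at hm ⊢
  exact ⟨hm.1, hm.2.trans (occ_le_inRow (by positivity) m n K K' A w hL h2)⟩

open Classical in
/-- rows, almost all multiples, one window -/
theorem rows_most_one (a κ : ℕ) (ha : 1 ≤ a) (L T : ℕ) (hL : 1 ≤ L) {ε δ : ℝ} (hε : 0 < ε)
    (hε1 : ε ≤ 1) (hδ : 0 < δ) :
    ∃ M₀ n₀ : ℕ, ∀ n : ℕ, n₀ ≤ n → ∀ (A : ℤ) (K : ℕ), ε * n ≤ K → -((1 - ε) * n * lam6) ≤ A →
      A + K ≤ n → ∀ M : ℕ, M₀ ≤ M →
        (((Icc 1 M).filter (fun m : ℕ => ∃ w : List (Fin 6), w.length = L ∧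
          inRow (F^[n] (expansion (m * ((a : ℝ) / 6 ^ κ)))) w A K < T)).card : ℝ) ≤ δ * M := by
  obtain ⟨k, hk1, hk⟩ := exists_n (b := 6) (l := L) (by norm_num) hδ
  have hB1 : 1 ≤ 6 ^ (L * k) := Nat.one_le_pow _ _ (by norm_num)
  obtain ⟨n₀, H⟩ := row_window a κ ha (4 * 6 ^ (L * k)) (by omega) (2 * (L * k) * (T + L * k)) L hε hε1
  refine ⟨28 * 6 ^ (L * k), n₀, fun n hn A K hK hA hAK M hM => ?_⟩
  obtain ⟨v, K', g1, g2, g3⟩ := H n hn A K hK hA hAK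
  have h1 := win_most (b := 6) (by norm_num) hL (by omega) g3 g1
  set y : ℝ := (6 : ℝ) ^ (A - 1) * ((3 / 2) ^ n * ((a : ℝ) / 6 ^ κ)) with hy
  have hsub : (Icc 1 M).filter (fun m : ℕ => ∃ w : List (Fin 6), w.length = L ∧
          inRow (F^[n] (expansion (m * ((a : ℝ) / 6 ^ κ)))) w A K < T) ⊆
      (Icc 1 M).filter (fun m : ℕ => ∃ W < 6 ^ L, occ 6 L W ((m : ℝ) * y) K' < T) := by
    intro m hm
    rw [mem_filter] at hm ⊢
    obtain ⟨hm1, w, hw, hlt⟩ := hm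
    refine ⟨hm1, code w, by rw [← hw]; exact code_lt w, lt_of_le_of_lt ?_ hlt⟩
    subst hw
    exact occ_le_inRow (by positivity) m n K K' A w hL g2
  have hcard := card_le_card hsub
  set S := ((Icc 1 M).filter (fun m : ℕ => ∃ W < 6 ^ L, occ 6 L W ((m : ℝ) * y) K' < T)).card
  have hb1 : 1 ≤ 6 ^ L := Nat.one_le_pow _ _ (by norm_num)
  have h6 : ((6 : ℝ) ^ L) ^ k * (S : ℝ) ≤ 8 * (6 : ℝ) ^ L * ((6 : ℝ) ^ L - 1) ^ k * M := by
    have h7 : (((6 ^ L) ^ k * S : ℕ) : ℝ) ≤ ((8 * 6 ^ L * (6 ^ L - 1) ^ k * M : ℕ) : ℝ) := by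
      exact_mod_cast h1
    push_cast [Nat.cast_sub hb1] at h7
    exact h7
  have hbn : (0 : ℝ) < ((6 : ℝ) ^ L) ^ k := by positivity
  have h8 : ((6 : ℝ) ^ L) ^ k * (S : ℝ) ≤ ((6 : ℝ) ^ L) ^ k * (δ * M) := by
    refine h6.trans ?_
    have hM' : (0 : ℝ) ≤ (M : ℝ) := Nat.cast_nonneg M
    push_cast at hk
    nlinarith
  have h9 : (S : ℝ) ≤ δ * M := le_of_mul_le_mul_left h8 hbn
  have h10 : (((Icc 1 M).filter (fun m : ℕ => ∃ w : List (Fin 6), w.length = L ∧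
          inRow (F^[n] (expansion (m * ((a : ℝ) / 6 ^ κ)))) w A K < T)).card : ℝ) ≤ S := by
    exact_mod_cast hcard
  exact h10.trans h9

end Pool.Agent.Run7.h274.AW
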