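import Mathlib
import Pool.Agent.Run7.h274.AutoW

/-!
The automaton: fixed positions (counts), and all windows of the rows.
-/

set_option autoImplicit false

namespace Pool.Agent.Run7.h274.AW

open Finset
open Pool.Agent.Run7.h274.WM
open Pool.Agent.H429R2.Auto (Conf F Rep letter rep_iter digits_sum sum_lt exists_rep)

/-- dyadic windows -/
lemma count_dyadic {P : ℕ → Prop} [DecidablePred P] {T n₁ : ℕ}
    (h : ∀ n, n₁ ≤ n → T ≤ #{k ∈ Ico n (2 * n) | P k}) (N : ℕ) (hN : 2 ^ (2 * n₁ + 2) ≤ N) :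
    T * (Real.log N / (2 * Real.log 2)) ≤ (#{k ∈ range N | P k} : ℝ) := by
  classical
  have hl2 : 0 < Real.log 2 := Real.log_pos (by norm_num)
  have hcount : ∀ J : ℕ, T * J ≤ #{k ∈ range (2 ^ (n₁ + J)) | P k} := by
    intro J
    induction J with
    | zero => simp
    | succ J ih =>
      have h1 := h (2 ^ (n₁ + J)) (by
        have := (Nat.lt_two_pow_self (n := n₁ + J))
        omega)
      have e : 2 * 2 ^ (n₁ + J) = 2 ^ (n₁ + (J + 1)) := by
        rw [← add_assoc, pow_succ]; ring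
      rw [e] at h1
      have h2 : #{k ∈ range (2 ^ (n₁ + J)) | P k} + #{k ∈ Ico (2 ^ (n₁ + J)) (2 ^ (n₁ + (J + 1))) | P k} ≤
          #{k ∈ range (2 ^ (n₁ + (J + 1))) | P k} := by
        rw [← card_union_of_disjoint]
        · refine card_le_card fun k hk => ?_
          rw [mem_union, mem_filter, mem_filter, mem_range, mem_Ico] at hk
          rw [mem_filter, mem_range]
          have : 2 ^ (n₁ + J) ≤ 2 ^ (n₁ + (J + 1)) := Nat.pow_le_pow_right (by norm_num) (by omega)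
          rcases hk with hk | hk
          · exact ⟨by omega, hk.2⟩
          · exact ⟨hk.1.2, hk.2⟩
        · rw [disjoint_left]
          intro k hk hk'
          rw [mem_filter, mem_range] at hk
          rw [mem_filter, mem_Ico] at hk'
          omega
      calc T * (J + 1) = T * J + T := by ring
        _ ≤ _ := (add_le_add ih h1).trans h2
  have hN0 : 0 < N := lt_of_lt_of_le (by positivity) hN
  have hlog1 : 2 * n₁ + 2 ≤ Nat.log 2 N := (Nat.le_log_iff_pow_le (by omega) hN0.ne').2 hN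
  have hJ := hcount (Nat.log 2 N - n₁)
  have e : n₁ + (Nat.log 2 N - n₁) = Nat.log 2 N := by omega
  rw [e] at hJ
  have hJ' : T * (Nat.log 2 N - n₁) ≤ #{k ∈ range N | P k} := by
    refine hJ.trans (card_le_card fun k hk => ?_)
    rw [mem_filter, mem_range] at hk ⊢
    have := Nat.pow_log_le_self 2 hN0.ne'
    exact ⟨by omega, hk.2⟩
  have hlt : N < 2 ^ (Nat.log 2 N + 1) := Nat.lt_pow_succ_log_self (by omega) _
  have hltR : (N : ℝ) ≤ (2 : ℝ) ^ (Nat.log 2 N + 1) := by exact_mod_cast hlt.le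
  have h2 := Real.log_le_log (by exact_mod_cast hN0) hltR
  rw [Real.log_pow] at h2
  push_cast at h2
  have hJR : (T : ℝ) * ((Nat.log 2 N : ℕ) - n₁) ≤ (#{k ∈ range N | P k} : ℝ) := by
    rw [← Nat.cast_sub (by omega)]
    exact_mod_cast hJ'
  have h3 : (2 * (n₁ : ℝ) + 2) ≤ (Nat.log 2 N : ℕ) := by exact_mod_cast hlog1
  refine le_trans ?_ hJR
  apply mul_le_mul_of_nonneg_left _ (Nat.cast_nonneg _)
  rw [div_le_iff₀ (by positivity)]
  nlinarith

open Classical in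
/-- **Fixed positions, counts.** -/
theorem fixed (a κ : ℕ) (ha : 1 ≤ a) (L T : ℕ) (j : ℤ) :
    ∃ N₀ : ℕ, ∀ M : ℕ, 20 * 6 ^ L ≤ M → ∀ N : ℕ, N₀ ≤ N → ∀ w : List (Fin 6), w.length = L →
      M ≤ 16 * 6 ^ L * ((Icc 1 M).filter (fun m : ℕ => T * Real.log N ≤
          (((range N).filter (fun n : ℕ =>
            ShowsAt (F^[n] (expansion (m * ((a : ℝ) / 6 ^ κ)))) w j)).card : ℝ))).card := by
  obtain ⟨B, hB⟩ : ∃ B : ℕ, B = 6 ^ L := ⟨_, rfl⟩
  rw [← hB]
  have hB1 : 1 ≤ B := by rw [hB]; exact Nat.one_le_pow _ _ (by norm_num)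
  have hl2 : 0 < Real.log 2 := Real.log_pos (by norm_num)
  have hl : 0 < Real.log (3 / 2) := Real.log_pos (by norm_num)
  have hlam := lam6_pos
  -- number of good times in `[n, 2 n)`
  obtain ⟨T₀, hT₀⟩ : ∃ T₀ : ℕ, T₀ = 32 * B * T + 1 := ⟨_, rfl⟩
  have hT₀R : (1 : ℝ) ≤ T₀ := by exact_mod_cast (by omega : 1 ≤ T₀)
  obtain ⟨δ, hδ⟩ : ∃ δ : ℝ, δ = Real.log (3 / 2) / (4 * T₀) := ⟨_, rfl⟩
  have hδ0 : 0 < δ := by rw [hδ]; positivity
  obtain ⟨n₁, H⟩ := st_far a κ ha (4 * B) (by omega) (ε := 1 / 2) (δ := δ) (by norm_num) hδ0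
  obtain ⟨n₂, hn₂⟩ := exists_nat_gt (4 * (T₀ : ℝ) + 2 * |(j : ℝ) - 1| + 2 * |(j : ℝ) - 1| / lam6)
  obtain ⟨β, hβ⟩ : ∃ β : ℝ, β = (a : ℝ) / 6 ^ κ := ⟨_, rfl⟩
  rw [← hβ] at H ⊢
  have hβ0 : 0 ≤ β := by rw [hβ]; positivity
  obtain ⟨t, ht⟩ : ∃ t : ℕ → ℝ, t = fun n => (6 : ℝ) ^ (j - 1) * ((3 / 2) ^ n * β) := ⟨_, rfl⟩
  have hrec : ∀ n, ((2 : ℕ) : ℝ) * t (n + 1) = ((3 : ℕ) : ℝ) * t n := by
    intro n
    simp only [ht, pow_succ]
    push_cast
    ring
  refine ⟨2 ^ (2 * (n₁ + n₂) + 2), fun M hM N hN w hw => ?_⟩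
  have hM0 : 0 < M := by omega
  have hdy : ∀ n, n₁ + n₂ ≤ n → T₀ ≤ #{k ∈ Ico n (2 * n) | 4 * B ≤ (ap M (t k)).den} := by
    intro n hn
    have hn0 : (0 : ℝ) ≤ n := Nat.cast_nonneg n
    have hbig : 4 * (T₀ : ℝ) + 2 * |(j : ℝ) - 1| + 2 * |(j : ℝ) - 1| / lam6 < n :=
      hn₂.trans_le (by exact_mod_cast (by omega : n₂ ≤ n))
    have habs0 : 0 ≤ |(j : ℝ) - 1| := abs_nonneg _
    have habs1 : 0 ≤ 2 * |(j : ℝ) - 1| / lam6 := by positivity
    have hj1 : |(j : ℝ) - 1| ≤ n / 2 := by linarith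
    have hj2 : |(j : ℝ) - 1| ≤ n / 2 * lam6 := by
      have h1 : 2 * |(j : ℝ) - 1| / lam6 < n := by linarith
      rw [div_lt_iff₀ hlam] at h1
      linarith
    set h : ℕ := ⌈2 * δ * n / Real.log (3 / 2)⌉₊ with hh
    have hh1 : 2 * δ * n / Real.log (3 / 2) ≤ h := Nat.le_ceil _
    have hh2 : (h : ℝ) < 2 * δ * n / Real.log (3 / 2) + 1 := Nat.ceil_lt_add_one (by positivity)
    have hgap : ∀ k, k + h < n → ∃ i ≤ h, 4 * B ≤ (ap M (t (n + (k + i)))).den := by
      intro k hk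
      by_contra hcon
      push Not at hcon
      obtain ⟨d, hd1, hd2, z, hz⟩ := pq_near (p := 3) (q := 2) (by norm_num) (by omega) hB1 t hrec
        (n + k) h (by norm_num) (fun i hi => by
          rw [add_assoc]; exact hcon i hi)
      have hkR : (k : ℝ) < n := by exact_mod_cast (by omega : k < n)
      have hk0 : (0 : ℝ) ≤ k := Nat.cast_nonneg k
      have hjl := (abs_le.1 (hj2)).1
      have hju := (abs_le.1 (hj1)).2
      have hlt := H (n + k) (by omega) (j - 1) (by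
          push_cast
          nlinarith) (by
          push_cast
          linarith) d hd1 hd2 z
      have h3 : ((2 : ℕ) : ℝ) / ((3 : ℕ) : ℝ) = Real.exp (-Real.log (3 / 2)) := by
        rw [Real.exp_neg, Real.exp_log (by norm_num)]; norm_num
      have h4 : (((2 : ℕ) : ℝ) / ((3 : ℕ) : ℝ)) ^ h ≤ Real.exp (-(δ * ((n + k : ℕ) : ℝ))) := by
        rw [h3, ← Real.exp_nat_mul]
        apply Real.exp_le_exp.2
        rw [div_le_iff₀ hl] at hh1
        push_cast
        have h5 : δ * ((n : ℝ) + k) ≤ δ * (2 * n) := mul_le_mul_of_nonneg_left (by linarith) hδ0.le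
        linarith
      rw [ht] at hz
      exact absurd (hz.trans h4) (not_le.2 hlt)
    have hcount : T₀ * (h + 1) ≤ n := by
      have h1 : (T₀ : ℝ) * (h + 1) ≤ n := by
        have h3 : 2 * δ * n / Real.log (3 / 2) = n / (2 * T₀) := by
          rw [hδ]; field_simp; ring
        rw [h3] at hh2
        have h4 : (T₀ : ℝ) * (n / (2 * T₀)) = n / 2 := by field_simp
        have h5 : (T₀ : ℝ) * (h + 1) ≤ T₀ * (n / (2 * T₀) + 2) :=
          mul_le_mul_of_nonneg_left (by linarith) (by linarith)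
        nlinarith
      exact_mod_cast h1
    have h1 := count_ge (P := fun k => 4 * B ≤ (ap M (t (n + k))).den) hgap hcount
    refine h1.trans (card_le_card_of_injOn (fun k => n + k) ?_ ?_)
    · intro k hk
      rw [mem_coe, mem_filter, mem_range] at hk
      rw [mem_coe, mem_filter, mem_Ico]
      beta_reduce
      exact ⟨by omega, hk.2⟩
    · intro k _ k' _ hkk
      simpa using hkk
  have hcnt := count_dyadic (P := fun k => 4 * B ≤ (ap M (t k)).den) hdy N hN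
  set G : Finset ℕ := {k ∈ range N | 4 * B ≤ (ap M (t k)).den} with hG
  have hW : code w < B := by rw [hB, ← hw]; exact code_lt w
  have h1 := seq_pos hB1 hW hM0 t G fun k hk => (mem_filter.1 hk).2
  refine h1.trans (Nat.mul_le_mul_left _ (card_le_card fun m hm => ?_))
  rw [mem_filter] at hm ⊢
  refine ⟨hm.1, ?_⟩
  have h2 : (#G : ℝ) ≤ 16 * B * ((G.filter (fun k : ℕ =>
      ⌊(B : ℝ) * ((m : ℝ) * t k)⌋ % (B : ℤ) = ((code w : ℕ) : ℤ))).card : ℝ) := by exact_mod_cast hm.2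
  have h3 : (G.filter (fun k : ℕ => ⌊(B : ℝ) * ((m : ℝ) * t k)⌋ % (B : ℤ) = ((code w : ℕ) : ℤ))).card ≤
      ((range N).filter (fun n : ℕ => ShowsAt (F^[n] (expansion (m * β))) w j)).card := by
    refine card_le_card fun k hk => ?_
    rw [mem_filter, hG, mem_filter] at hk
    rw [mem_filter]
    refine ⟨hk.1.1, shows_exp hβ0 m w j k ?_⟩
    rw [hw, ← hB]
    rw [ht] at hk
    exact hk.2
  have h4 : ((G.filter (fun k : ℕ => ⌊(B : ℝ) * ((m : ℝ) * t k)⌋ % (B : ℤ) = ((code w : ℕ) : ℤ))).card : ℝ) ≤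
      (((range N).filter (fun n : ℕ => ShowsAt (F^[n] (expansion (m * β))) w j)).card : ℝ) := by
    exact_mod_cast h3
  have hBR : (1 : ℝ) ≤ B := by exact_mod_cast hB1
  have hT₀' : (32 : ℝ) * B * T ≤ T₀ := by rw [hT₀]; push_cast; linarith
  have hlogN : 0 ≤ Real.log N := Real.log_natCast_nonneg N
  have hlog2 : Real.log 2 ≤ 1 := by
    have := Real.log_two_lt_d9
    linarith
  have h5 : (T₀ : ℝ) * (Real.log N / 2) ≤ T₀ * (Real.log N / (2 * Real.log 2)) := by
    apply mul_le_mul_of_nonneg_left _ (by linarith)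
    rw [div_le_div_iff₀ (by norm_num) (by positivity)]
    nlinarith
  have h6 : (32 : ℝ) * B * T * (Real.log N / 2) ≤ T₀ * (Real.log N / 2) :=
    mul_le_mul_of_nonneg_right hT₀' (by linarith)
  have h7 : (16 * (B : ℝ)) * (T * Real.log N) ≤ (16 * (B : ℝ)) *
      (((range N).filter (fun n : ℕ => ShowsAt (F^[n] (expansion (m * β))) w j)).card : ℝ) := by
    have h8 := mul_le_mul_of_nonneg_left h4 (show (0 : ℝ) ≤ 16 * B by positivity)
    linarith
  exact le_of_mul_le_mul_left h7 (by positivity)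

lemma inRow_mono {x : Conf} {w : List (Fin 6)} {A A' : ℤ} {K K' : ℕ} (h1 : A ≤ A')
    (h2 : A' + K' ≤ A + K) : inRow x w A' K' ≤ inRow x w A K := by
  classical
  unfold inRow
  refine card_le_card fun i hi => ?_
  rw [mem_filter, mem_Ico] at hi ⊢
  exact ⟨⟨by omega, by omega⟩, by omega, hi.2.2⟩

open Classical in
/-- **Rows, almost all multiples, all windows.** -/
theorem rows_most (a κ : ℕ) (ha : 1 ≤ a) (L T : ℕ) (hL : 1 ≤ L) {ε δ : ℝ} (hε : 0 < ε)
    (hε1 : ε ≤ 1) (hδ : 0 < δ) :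
    ∃ M₀ n₀ : ℕ, ∀ n : ℕ, n₀ ≤ n → ∀ M : ℕ, M₀ ≤ M →
        (((Icc 1 M).filter (fun m : ℕ => ¬ ∀ (A : ℤ) (K : ℕ), ε * n ≤ K →
          -((1 - ε) * n * lam6) ≤ A → A + K ≤ n → ∀ w : List (Fin 6), w.length = L →
            T ≤ inRow (F^[n] (expansion (m * ((a : ℝ) / 6 ^ κ)))) w A K)).card : ℝ) ≤ δ * M := by
  obtain ⟨J₁, hJ₁⟩ := exists_nat_gt (4 / ε)
  have hJ0 : 0 < J₁ := by
    have h1 : (0 : ℝ) < J₁ := lt_of_le_of_lt (by positivity) hJ₁
    exact_mod_cast h1
  have hJR : (0 : ℝ) < J₁ := by exact_mod_cast hJ0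
  obtain ⟨M₀, n₁, H⟩ := rows_most_one a κ ha L T hL (ε := ε / 4) (δ := δ / (2 * J₁ + 1))
    (by positivity) (by linarith) (by positivity)
  obtain ⟨n₂, hn₂⟩ := exists_nat_gt (4 / ε)
  refine ⟨M₀, n₁ + n₂, fun n hn M hM => ?_⟩
  have hn0 : (0 : ℝ) ≤ n := Nat.cast_nonneg n
  have hlam := lam6_pos
  have hlam1 := lam6_lt
  have hn2 : 4 < ε * n := by
    have h1 : 4 / ε < n := hn₂.trans_le (by exact_mod_cast (by omega : n₂ ≤ n))
    rw [div_lt_iff₀ hε] at h1
    linarith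
  set s : ℕ := ⌊ε * n / 2⌋₊ with hs
  have hs1 : (s : ℝ) ≤ ε * n / 2 := Nat.floor_le (by positivity)
  have hs2 : ε * n / 2 < s + 1 := Nat.lt_floor_add_one _
  have hs3 : ε / 4 * n ≤ s := by linarith
  have hs0 : 0 < s := by
    have : (0 : ℝ) < s := by linarith
    exact_mod_cast this
  set x : ℕ → Conf := fun m => F^[n] (expansion (m * ((a : ℝ) / 6 ^ κ))) with hx
  set Js : Finset ℤ := (Icc (-(J₁ : ℤ)) J₁).filter fun j : ℤ =>
    -((1 - ε / 4) * n * lam6) ≤ ((j * s : ℤ) : ℝ) ∧ j * s + s ≤ n with hJs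
  have hsub : (Icc 1 M).filter (fun m : ℕ => ¬ ∀ (A : ℤ) (K : ℕ), ε * n ≤ K →
          -((1 - ε) * n * lam6) ≤ A → A + K ≤ n → ∀ w : List (Fin 6), w.length = L →
            T ≤ inRow (x m) w A K) ⊆
      Js.biUnion fun j => (Icc 1 M).filter (fun m : ℕ => ∃ w : List (Fin 6), w.length = L ∧
          inRow (x m) w (j * s) s < T) := by
    intro m hm
    rw [mem_filter] at hm
    obtain ⟨hm1, hm2⟩ := hm
    push Not at hm2
    obtain ⟨A, K, hK, hA, hAK, w, hw, hlt⟩ := hm2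
    set j : ℤ := -((-A) / s) with hj
    have hsz : (0 : ℤ) < s := by exact_mod_cast hs0
    have hj1 : A ≤ j * s := by
      have h1 := Int.ediv_mul_le (-A) hsz.ne'
      rw [hj]; linarith
    have hj2 : j * s < A + s := by
      have h1 := Int.lt_ediv_add_one_mul_self (-A) hsz
      rw [hj]; linarith
    have hj3 : j * s + s ≤ A + K := by
      have h1 : (2 : ℝ) * s ≤ K := by linarith
      have h2 : 2 * s ≤ K := by exact_mod_cast h1
      have h3 : 2 * (s : ℤ) ≤ K := by exact_mod_cast h2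
      linarith
    have hj4 : -((1 - ε / 4) * n * lam6) ≤ ((j * s : ℤ) : ℝ) := by
      have h1 : (A : ℝ) ≤ ((j * s : ℤ) : ℝ) := by exact_mod_cast hj1
      refine le_trans ?_ h1
      refine le_trans ?_ hA
      have : 0 ≤ ε * n * lam6 := by positivity
      nlinarith
    have hj5 : j * s + s ≤ n := hj3.trans hAK
    have hnpos : (0 : ℝ) < n := by
      rcases hn0.eq_or_lt with h | h
      · rw [← h] at hn2; linarith
      · exact h
    have hj6 : (j : ℝ) * s ≤ n := by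
      have h1 : ((j * s + s : ℤ) : ℝ) ≤ ((n : ℤ) : ℝ) := by exact_mod_cast hj5
      push_cast at h1
      have : (0 : ℝ) ≤ s := Nat.cast_nonneg s
      linarith
    have hj7 : -(n : ℝ) ≤ (j : ℝ) * s := by
      push_cast at hj4
      refine le_trans ?_ hj4
      have h1 : (1 - ε / 4) * n * lam6 ≤ 1 * n * 1 := by
        have h2 : (1 - ε / 4) * n ≤ 1 * n := by nlinarith
        have h3 : 0 ≤ (1 - ε / 4) * n := by
          apply mul_nonneg _ hn0
          linarith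
        nlinarith
      linarith
    have hj8 : |(j : ℝ)| * s ≤ n := by
      rw [← Nat.abs_cast s, ← abs_mul]
      exact abs_le.2 ⟨hj7, hj6⟩
    have hj9 : |(j : ℝ)| ≤ 4 / ε := by
      have h1 : |(j : ℝ)| * (ε / 4 * n) ≤ n := (mul_le_mul_of_nonneg_left hs3 (abs_nonneg _)).trans hj8
      rw [le_div_iff₀ hε]
      have h2 : (|(j : ℝ)| * ε) * n ≤ 4 * n := by linarith
      exact le_of_mul_le_mul_right h2 hnpos
    have hj10 : |j| ≤ (J₁ : ℤ) := by
      have h1 : ((|j| : ℤ) : ℝ) < ((J₁ : ℤ) : ℝ) := by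
        push_cast
        exact hj9.trans_lt hJ₁
      exact (Int.cast_lt.1 h1).le
    rw [mem_biUnion]
    refine ⟨j, ?_, mem_filter.2 ⟨hm1, w, hw, ?_⟩⟩
    · rw [hJs, mem_filter, mem_Icc]
      exact ⟨abs_le.1 hj10, hj4, hj5⟩
    · exact lt_of_le_of_lt (inRow_mono hj1 hj3) hlt
  have hcard := (card_le_card hsub).trans card_biUnion_le
  have h1 : (((Icc 1 M).filter (fun m : ℕ => ¬ ∀ (A : ℤ) (K : ℕ), ε * n ≤ K →
          -((1 - ε) * n * lam6) ≤ A → A + K ≤ n → ∀ w : List (Fin 6), w.length = L →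
            T ≤ inRow (x m) w A K)).card : ℝ) ≤
      ∑ j ∈ Js, (((Icc 1 M).filter (fun m : ℕ => ∃ w : List (Fin 6), w.length = L ∧
          inRow (x m) w (j * s) s < T)).card : ℝ) := by
    exact_mod_cast hcard
  refine h1.trans ?_
  calc ∑ j ∈ Js, (((Icc 1 M).filter (fun m : ℕ => ∃ w : List (Fin 6), w.length = L ∧
          inRow (x m) w (j * s) s < T)).card : ℝ)
      ≤ ∑ j ∈ Js, δ / (2 * J₁ + 1) * M := by
        refine sum_le_sum fun j hj => ?_
        rw [hJs, mem_filter] at hj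
        exact H n (by omega) (j * s) s hs3 hj.2.1 hj.2.2 M hM
    _ = Js.card * (δ / (2 * J₁ + 1) * M) := by
        rw [sum_const, nsmul_eq_mul]
    _ ≤ (2 * (J₁ : ℝ) + 1) * (δ / (2 * J₁ + 1) * M) := by
        have h2 : Js.card ≤ 2 * J₁ + 1 := by
          refine (card_filter_le _ _).trans ?_
          rw [Int.card_Icc]
          omega
        have h3 : ((Js.card : ℕ) : ℝ) ≤ 2 * J₁ + 1 := by exact_mod_cast h2
        exact mul_le_mul_of_nonneg_right h3 (by positivity)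
    _ = δ * M := by field_simp

end Pool.Agent.Run7.h274.AW
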