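import Mathlib
import Pool.Agent.Run7.h274.Win

/-!
Words in all windows of a region of places of the multiples of a real number which is far from the
rational numbers with small denominators at these places.
-/

set_option autoImplicit false

namespace Pool.Agent.Run7.h274.RW

open Finset Pool.Agent.Run7.h274.WM

/-- number of the places `k`, `u ≤ k`, `k + l ≤ u + L`, such that the digits of `x` in base `b` at the
places `k + 1, …, k + l` after the point are the word with value `W` -/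
noncomputable def wc (b l W : ℕ) (x : ℝ) (u L : ℕ) : ℕ :=
  #{k ∈ Ico u (u + L) | k + l ≤ u + L ∧ ⌊(b : ℝ) ^ (k + l) * x⌋ % ((b : ℤ) ^ l) = (W : ℤ)}

lemma wc_mono {b l W u L u' L' : ℕ} {x : ℝ} (h1 : u ≤ u') (h2 : u' + L' ≤ u + L) :
    wc b l W x u' L' ≤ wc b l W x u L := by
  classical
  unfold wc
  refine card_le_card fun k hk => ?_
  rw [mem_filter, mem_Ico] at hk ⊢
  exact ⟨⟨by omega, by omega⟩, by omega, hk.2.2⟩

lemma occ_le_wc {b l W u L K : ℕ} (hl : 1 ≤ l) (hKL : K + l ≤ L + 1) (x : ℝ) :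
    occ b l W ((b : ℝ) ^ u * x) K ≤ wc b l W x u L := by
  classical
  unfold occ wc
  refine card_le_card_of_injOn (fun k => u + k) ?_ ?_
  · intro k hk
    rw [mem_coe, mem_filter, mem_range] at hk
    rw [mem_coe, mem_filter, mem_Ico]
    simp only
    refine ⟨⟨by omega, by omega⟩, by omega, ?_⟩
    rw [← hk.2]
    congr 2
    rw [← mul_assoc, ← pow_add]
    congr 2
    omega
  · intro a _ c _ hac
    simp only at hac
    omega

lemma far_shift {b D D' w K K' u0 j : ℕ} {y : ℝ} (h : Far b D w K ((b : ℝ) ^ u0 * y)) (hD : D' ≤ D)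
    (hK : j + K' ≤ K) : Far b D' w K' ((b : ℝ) ^ (u0 + j) * y) := by
  intro k hk d hd1 hd2 z
  have h1 := h (j + k) (by omega) d hd1 (by omega) z
  have e : (b : ℝ) ^ (j + k) * ((b : ℝ) ^ u0 * y) = (b : ℝ) ^ k * ((b : ℝ) ^ (u0 + j) * y) := by
    rw [← mul_assoc, ← mul_assoc, ← pow_add, ← pow_add]
    congr 2
    omega
  rwa [e] at h1

lemma exists_exp {c : ℝ} (hc0 : 0 ≤ c) (hc : c < 1) (A : ℝ) {δ : ℝ} (hδ : 0 < δ) :
    ∃ N : ℕ, 1 ≤ N ∧ A * c ^ N ≤ δ := by
  have h := (tendsto_pow_atTop_nhds_zero_of_lt_one hc0 hc).const_mul A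
  rw [mul_zero] at h
  have h1 := (h.eventually (eventually_lt_nhds hδ)).and (Filter.eventually_ge_atTop 1)
  obtain ⟨N, hN1, hN2⟩ := h1.exists
  exact ⟨N, hN2, hN1.le⟩

open Classical in
/-- **All windows.** -/
theorem windows {b l : ℕ} (hb : 2 ≤ b) (hl : 1 ≤ l) (T J : ℕ) (hJ : 1 ≤ J) {δ : ℝ} (hδ : 0 < δ) :
    ∃ D A : ℕ, 1 ≤ D ∧ 1 ≤ A ∧ ∀ (y : ℝ) (u0 s w : ℕ), A * (w + 1) ≤ s →
      Far b D w (J * s) ((b : ℝ) ^ u0 * y) →
      (∀ u : ℕ, u0 ≤ u → u + s ≤ u0 + J * s → ∀ M : ℕ, 4 * (b + 1) * b ^ l ≤ M → ∀ W < b ^ l,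
        M ≤ 16 * b ^ l * ((Icc 1 M).filter (fun m : ℕ => T ≤ wc b l W ((m : ℝ) * y) u s)).card) ∧
      (∀ M : ℕ, D ≤ M →
        (((Icc 1 M).filter (fun m : ℕ => ¬ ∀ u : ℕ, u0 ≤ u → u + 2 * s ≤ u0 + J * s → ∀ W < b ^ l,
          T ≤ wc b l W ((m : ℝ) * y) u (2 * s))).card : ℝ) ≤ δ * M) := by
  classical
  have hBN : 2 ≤ b ^ l := le_trans hb (Nat.le_self_pow (by omega) b)
  have hBR : (2 : ℝ) ≤ (b : ℝ) ^ l := by exact_mod_cast hBN
  have hJR : (1 : ℝ) ≤ J := by exact_mod_cast hJ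
  obtain ⟨N, hN1, hN⟩ := exists_exp (c := ((b : ℝ) ^ l - 1) / (b : ℝ) ^ l)
    (div_nonneg (by linarith) (by linarith)) (by rw [div_lt_one (by linarith)]; linarith)
    (8 * (b : ℝ) ^ l) (δ := δ / J) (by positivity)
  set D : ℕ := 4 * (b + 1) * b ^ (l * N) with hD
  set A : ℕ := 2 * (l * N) * (T + l * N) + 16 * b ^ l * T + l with hA
  have hbl : b ^ l ≤ b ^ (l * N) := Nat.pow_le_pow_right (by omega) (Nat.le_mul_of_pos_right l (by omega))
  have hD1 : 4 * b ^ l ≤ D := by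
    rw [hD]
    have : 4 * b ^ l ≤ 4 * b ^ (l * N) := Nat.mul_le_mul_left _ hbl
    nlinarith
  have hD2 : 4 * b ^ (l * N) ≤ D := by
    rw [hD]
    nlinarith [Nat.zero_le (b ^ (l * N))]
  refine ⟨D, A, by omega, by omega, fun y u0 s w hs hy => ?_⟩
  have hls : l ≤ s := by
    have h1 : l ≤ A := by rw [hA]; omega
    have h2 : A ≤ A * (w + 1) := Nat.le_mul_of_pos_right A (by omega)
    omega
  refine ⟨fun u hu hus M hM W hW => ?_, fun M hM => ?_⟩
  · have hK : 16 * b ^ l * T * (w + 1) ≤ s + 1 - l := by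
      have h1 : (16 * b ^ l * T + l) * (w + 1) ≤ A * (w + 1) :=
        Nat.mul_le_mul_right _ (by rw [hA]; omega)
      have h2 : l ≤ l * (w + 1) := Nat.le_mul_of_pos_right l (by omega)
      have h3 : (16 * b ^ l * T + l) * (w + 1) = 16 * b ^ l * T * (w + 1) + l * (w + 1) := by ring
      omega
    have hf : Far b (4 * b ^ l) w (s + 1 - l) ((b : ℝ) ^ (u0 + (u - u0)) * y) :=
      far_shift hy hD1 (by omega)
    rw [show u0 + (u - u0) = u by omega] at hf
    refine (win_pos hb hM hf hK hW).trans (Nat.mul_le_mul_left _ (card_le_card fun m hm => ?_))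
    rw [mem_filter] at hm ⊢
    refine ⟨hm.1, hm.2.trans ?_⟩
    have e : (m : ℝ) * ((b : ℝ) ^ u * y) = (b : ℝ) ^ u * ((m : ℝ) * y) := by ring
    rw [e]
    exact occ_le_wc hl (by omega) _
  · rcases Nat.eq_zero_or_pos s with hs0 | hs0
    · exfalso
      subst hs0
      have h1 : 1 ≤ A * (w + 1) := Nat.mul_pos (by omega) (by omega)
      omega
    have hK : 2 * (l * N) * (T + l * N) * (w + 1) ≤ s + 1 - l := by
      have h1 : (2 * (l * N) * (T + l * N) + l) * (w + 1) ≤ A * (w + 1) :=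
        Nat.mul_le_mul_right _ (by rw [hA]; omega)
      have h2 : l ≤ l * (w + 1) := Nat.le_mul_of_pos_right l (by omega)
      have h3 : (2 * (l * N) * (T + l * N) + l) * (w + 1) =
        2 * (l * N) * (T + l * N) * (w + 1) + l * (w + 1) := by ring
      omega
    have hone : ∀ j < J, (((Icc 1 M).filter (fun m : ℕ => ∃ W < b ^ l,
        wc b l W ((m : ℝ) * y) (u0 + j * s) s < T)).card : ℝ) ≤ δ / J * M := by
      intro j hj
      have hjs : j * s + (s + 1 - l) ≤ J * s := by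
        have h1 : (j + 1) * s ≤ J * s := Nat.mul_le_mul_right _ hj
        have h2 : (j + 1) * s = j * s + s := by ring
        omega
      have hf : Far b (4 * b ^ (l * N)) w (s + 1 - l) ((b : ℝ) ^ (u0 + j * s) * y) :=
        far_shift hy hD2 hjs
      have h1 := win_most hb hl (M := M) (n := N) hM hf hK
      have h2 : ((Icc 1 M).filter (fun m : ℕ => ∃ W < b ^ l, wc b l W ((m : ℝ) * y) (u0 + j * s) s < T)).card ≤
          ((Icc 1 M).filter (fun m : ℕ => ∃ W < b ^ l,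
            occ b l W ((m : ℝ) * ((b : ℝ) ^ (u0 + j * s) * y)) (s + 1 - l) < T)).card := by
        refine card_le_card fun m hm => ?_
        rw [mem_filter] at hm ⊢
        obtain ⟨hm1, W, hW, hlt⟩ := hm
        refine ⟨hm1, W, hW, lt_of_le_of_lt ?_ hlt⟩
        have e : (m : ℝ) * ((b : ℝ) ^ (u0 + j * s) * y) = (b : ℝ) ^ (u0 + j * s) * ((m : ℝ) * y) := by
          ring
        rw [e]
        exact occ_le_wc hl (by omega) _
      set c1 : ℕ := ((Icc 1 M).filter (fun m : ℕ => ∃ W < b ^ l,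
        occ b l W ((m : ℝ) * ((b : ℝ) ^ (u0 + j * s) * y)) (s + 1 - l) < T)).card with hc1
      have h3 : ((b : ℝ) ^ l) ^ N * c1 ≤ 8 * (b : ℝ) ^ l * ((b : ℝ) ^ l - 1) ^ N * M := by
        have h4 : ((b ^ l) ^ N * c1 : ℕ) ≤ 8 * b ^ l * (b ^ l - 1) ^ N * M := h1
        have h5 : (((b ^ l) ^ N * c1 : ℕ) : ℝ) ≤ ((8 * b ^ l * (b ^ l - 1) ^ N * M : ℕ) : ℝ) := by
          exact_mod_cast h4
        rw [Nat.cast_mul, Nat.cast_mul, Nat.cast_mul, Nat.cast_mul, Nat.cast_pow, Nat.cast_pow,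
          Nat.cast_pow, Nat.cast_sub (by omega)] at h5
        push_cast at h5
        exact h5
      have hpos : (0 : ℝ) < ((b : ℝ) ^ l) ^ N := by positivity
      have h6 : (c1 : ℝ) ≤ 8 * (b : ℝ) ^ l * (((b : ℝ) ^ l - 1) / (b : ℝ) ^ l) ^ N * M := by
        rw [div_pow]
        rw [show 8 * (b : ℝ) ^ l * (((b : ℝ) ^ l - 1) ^ N / ((b : ℝ) ^ l) ^ N) * M =
          (8 * (b : ℝ) ^ l * ((b : ℝ) ^ l - 1) ^ N * M) / ((b : ℝ) ^ l) ^ N by ring]
        rw [le_div_iff₀ hpos]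
        linarith
      have h7 : 8 * (b : ℝ) ^ l * (((b : ℝ) ^ l - 1) / (b : ℝ) ^ l) ^ N * M ≤ δ / J * M :=
        mul_le_mul_of_nonneg_right hN (Nat.cast_nonneg _)
      have h8 : (((Icc 1 M).filter (fun m : ℕ => ∃ W < b ^ l,
        wc b l W ((m : ℝ) * y) (u0 + j * s) s < T)).card : ℝ) ≤ c1 := by exact_mod_cast h2
      linarith
    have hsub : (Icc 1 M).filter (fun m : ℕ => ¬ ∀ u : ℕ, u0 ≤ u → u + 2 * s ≤ u0 + J * s → ∀ W < b ^ l,
          T ≤ wc b l W ((m : ℝ) * y) u (2 * s)) ⊆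
        (range J).biUnion fun j => (Icc 1 M).filter (fun m : ℕ => ∃ W < b ^ l,
          wc b l W ((m : ℝ) * y) (u0 + j * s) s < T) := by
      intro m hm
      rw [mem_filter] at hm
      obtain ⟨hm1, hm2⟩ := hm
      push Not at hm2
      obtain ⟨u, hu, hus, W, hW, hlt⟩ := hm2
      set j : ℕ := (u - u0 + s - 1) / s with hj
      have hj1 : u - u0 ≤ j * s := by
        have h1 := Nat.lt_mul_div_succ (u - u0 + s - 1) hs0
        rw [← hj] at h1
        have : s * (j + 1) = j * s + s := by ring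
        omega
      have hj2 : j * s ≤ u - u0 + s - 1 := Nat.div_mul_le_self _ _
      have hj5 : j < J := by
        by_contra hcon
        push Not at hcon
        have h1 : J * s ≤ j * s := Nat.mul_le_mul_right _ hcon
        omega
      rw [mem_biUnion]
      refine ⟨j, mem_range.2 hj5, mem_filter.2 ⟨hm1, W, hW, ?_⟩⟩
      exact lt_of_le_of_lt (wc_mono (by omega) (by omega)) hlt
    have hcard := (card_le_card hsub).trans card_biUnion_le
    calc (((Icc 1 M).filter (fun m : ℕ => ¬ ∀ u : ℕ, u0 ≤ u → u + 2 * s ≤ u0 + J * s → ∀ W < b ^ l,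
          T ≤ wc b l W ((m : ℝ) * y) u (2 * s))).card : ℝ)
        ≤ ∑ j ∈ range J, (((Icc 1 M).filter (fun m : ℕ => ∃ W < b ^ l,
          wc b l W ((m : ℝ) * y) (u0 + j * s) s < T)).card : ℝ) := by exact_mod_cast hcard
      _ ≤ ∑ j ∈ range J, δ / J * M := sum_le_sum fun j hj => hone j (mem_range.1 hj)
      _ = δ * M := by
        rw [sum_const, card_range, nsmul_eq_mul]
        field_simp

end Pool.Agent.Run7.h274.RW
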