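import Pool.Agent.Run7.h274.CoreB
import Pool.Agent.N324.Dig.Fin

/-!
Digit changes of rational multiples of real numbers which satisfy a polynomial relation.
-/

set_option autoImplicit false

namespace Pool.Agent.Run7.h274.WM

open Finset

lemma emod_floor {b : ℕ} (hb : 2 ≤ b) (y : ℝ) (k : ℕ) :
    ⌊(b : ℝ) ^ (k + 1) * y⌋ % (b : ℤ) = ⌊(b : ℝ) ^ (k + 1) * y⌋ - b * ⌊(b : ℝ) ^ k * y⌋ := by
  have h := floor_div_pow hb y k 1
  rw [pow_one] at h
  rw [← h, Int.emod_def]

lemma chg_eq_dist {b : ℕ} (hb : 2 ≤ b) (y : ℝ) (N : ℕ) :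
    chg b y N = Pool.Agent.N324.Dig.dist b ((b : ℝ) * y) y N := by
  classical
  unfold chg Pool.Agent.N324.Dig.dist Chg
  refine Finset.card_bij (fun k _ => k + 1) ?_ ?_ ?_
  · intro k hk
    simp only [mem_filter, mem_range] at hk
    simp only [mem_filter, mem_Icc]
    refine ⟨⟨by omega, by omega⟩, ?_⟩
    have h1 := emod_floor hb y k
    have h2 := emod_floor hb y (k + 1)
    intro hE
    apply hk.2
    unfold Pool.Agent.N324.Dig.dg at hE
    rw [if_neg (by omega), if_neg (by omega), Nat.add_sub_cancel] at hE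
    rw [h1, show k + 2 = k + 1 + 1 by ring, h2]
    have e1 : (b : ℝ) * y * (b : ℝ) ^ (k + 1) = (b : ℝ) ^ (k + 1 + 1) * y := by
      rw [pow_succ (b : ℝ) (k + 1)]; ring
    have e2 : (b : ℝ) * y * (b : ℝ) ^ k = (b : ℝ) ^ (k + 1) * y := by
      rw [pow_succ (b : ℝ) k]; ring
    rw [e1, e2, mul_comm y, mul_comm y] at hE
    exact hE.symm
  · intro a _ c _ h
    simpa using h
  · intro k hk
    simp only [mem_filter, mem_Icc] at hk
    obtain ⟨j, rfl⟩ := Nat.exists_eq_add_of_le' hk.1.1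
    refine ⟨j, ?_, rfl⟩
    simp only [mem_filter, mem_range]
    refine ⟨by omega, fun hE => hk.2 ?_⟩
    have h1 := emod_floor hb y j
    have h2 := emod_floor hb y (j + 1)
    unfold Pool.Agent.N324.Dig.dg
    rw [if_neg (by omega), if_neg (by omega), Nat.add_sub_cancel]
    rw [h1, show j + 2 = j + 1 + 1 by ring, h2] at hE
    have e1 : (b : ℝ) * y * (b : ℝ) ^ (j + 1) = (b : ℝ) ^ (j + 1 + 1) * y := by
      rw [pow_succ (b : ℝ) (j + 1)]; ring
    have e2 : (b : ℝ) * y * (b : ℝ) ^ j = (b : ℝ) ^ (j + 1) * y := by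
      rw [pow_succ (b : ℝ) j]; ring
    rw [e1, e2, mul_comm y, mul_comm y]
    exact hE.symm

lemma exact_pow {p : ℤ} (e : ℕ) : ∀ a : ℤ, ¬ p ^ (e + 1) ∣ a →
    ∃ e' ≤ e, ∃ a' : ℤ, a = p ^ e' * a' ∧ ¬ p ∣ a' := by
  induction e with
  | zero => intro a ha; exact ⟨0, le_rfl, a, by simp, by simpa using ha⟩
  | succ e ih =>
    intro a ha
    by_cases h : p ∣ a
    · obtain ⟨a1, rfl⟩ := h
      have h1 : ¬ p ^ (e + 1) ∣ a1 := by
        intro h2
        apply ha
        rw [pow_succ' p (e + 1)]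
        exact mul_dvd_mul_left p h2
      obtain ⟨e', he', a', rfl, ha'⟩ := ih a1 h1
      exact ⟨e' + 1, by omega, a', by rw [pow_succ']; ring, ha'⟩
    · exact ⟨0, by omega, a, by simp, h⟩

/-- Polynomial relations between real numbers: the digit changes of the numbers `R ξ_i / s`. -/
theorem chg_rel {σ : Type} [Fintype σ] [DecidableEq σ] {b : ℕ} (hb : 2 ≤ b) {p : ℕ} (hp : p.Prime)
    (hpb : ¬ p ∣ b) (F : MvPolynomial σ ℤ) {e κ : ℕ} (hF0 : ¬ (p : ℤ) ^ (e + 1) ∣ F.coeff 0)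
    {R : ℕ} (hR : ¬ (p : ℤ) ^ (κ + 1) ∣ ((b : ℤ) - 1) * R) {s : ℕ} (hs : s ≠ 0)
    (hps : p ^ (e + κ + 1) ∣ s) (K : ℝ) :
    ∃ c : ℝ, 0 < c ∧ ∀ ξ : σ → ℝ, (∀ i, |ξ i| ≤ K) → MvPolynomial.aeval ξ F = 0 → ∀ N : ℕ,
      c * N ≤ ∑ α ∈ F.support.erase 0, ∏ i, ((chg b ((R : ℝ) * (ξ i / s)) N : ℝ) + 1) ^ α i := by
  classical
  have hpZ : Prime (p : ℤ) := Nat.prime_iff_prime_int.1 hp
  have hp0 : (p : ℤ) ≠ 0 := hpZ.ne_zero
  obtain ⟨e', he', f, hf, hpf⟩ := exact_pow e _ hF0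
  obtain ⟨κ', hκ', S', hS', hpS'⟩ := exact_pow κ _ hR
  set S : ℤ := ((b : ℤ) - 1) * R with hS
  set D : ℕ := F.totalDegree with hD
  set A : MvPolynomial σ ℤ := ∑ α ∈ F.support,
    MvPolynomial.monomial α (F.coeff α * (s : ℤ) ^ (α.sum fun _ n => n) * S ^ (D - α.sum fun _ n => n))
    with hA
  have hcoeff : ∀ α, A.coeff α = F.coeff α * (s : ℤ) ^ (α.sum fun _ n => n) *
      S ^ (D - α.sum fun _ n => n) := by
    intro α
    rw [hA, MvPolynomial.coeff_sum]
    simp only [MvPolynomial.coeff_monomial]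
    rw [Finset.sum_ite_eq']
    by_cases h : α ∈ F.support
    · rw [if_pos h]
    · rw [if_neg h]
      rw [MvPolynomial.notMem_support_iff] at h
      rw [h]; ring
  set n : ℕ := p ^ (e' + D * κ' + 1) with hn
  have hnZ : ((n : ℕ) : ℤ) = (p : ℤ) ^ (e' + D * κ' + 1) := by rw [hn]; push_cast; rfl
  have hcop : IsCoprime (n : ℤ) (b : ℤ) := by
    rw [Nat.isCoprime_iff_coprime, hn]
    exact Nat.Coprime.pow_left _ ((Nat.Prime.coprime_iff_not_dvd hp).2 hpb)
  have hA0 : ¬ (n : ℤ) ∣ A.coeff 0 := by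
    rw [hcoeff, hnZ, hf, hS']
    have e1 : (p : ℤ) ^ e' * f * (s : ℤ) ^ ((0 : σ →₀ ℕ).sum fun _ n => n) *
        ((p : ℤ) ^ κ' * S') ^ (D - (0 : σ →₀ ℕ).sum fun _ n => n) =
        (p : ℤ) ^ (e' + D * κ') * (f * S' ^ D) := by
      rw [Finsupp.sum_zero_index, pow_zero, Nat.sub_zero, mul_pow, ← pow_mul, pow_add,
        mul_comm D κ']
      ring
    rw [e1, pow_succ]
    intro h
    have h1 : (p : ℤ) ∣ f * S' ^ D :=
      (mul_dvd_mul_iff_left (pow_ne_zero _ hp0)).1 h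
    rcases hpZ.dvd_or_dvd h1 with h2 | h2
    · exact hpf h2
    · exact hpS' (hpZ.dvd_of_dvd_pow h2)
  have hA1 : ∀ α, α ≠ 0 → (n : ℤ) ∣ A.coeff α := by
    intro α hα
    rw [hcoeff, hnZ]
    by_cases hmem : α ∈ F.support
    swap
    · rw [MvPolynomial.notMem_support_iff] at hmem
      rw [hmem, zero_mul, zero_mul]
      exact dvd_zero _
    set t : ℕ := α.sum fun _ n => n with ht
    have htD : t ≤ D := MvPolynomial.le_totalDegree hmem
    have ht1 : 1 ≤ t := by
      by_contra h0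
      have h0' : t = 0 := by omega
      apply hα
      ext i
      have h1 : ∑ i ∈ α.support, α i = 0 := h0'
      rw [Finset.sum_eq_zero_iff] at h1
      by_cases hi : i ∈ α.support
      · exact h1 i hi
      · simpa using hi
    have hsZ : (p : ℤ) ^ (e + κ + 1) ∣ (s : ℤ) := by exact_mod_cast hps
    have h1 : (p : ℤ) ^ ((e + κ + 1) * t) ∣ (s : ℤ) ^ t := by
      rw [pow_mul]; exact pow_dvd_pow_of_dvd hsZ t
    have h2 : (p : ℤ) ^ (κ' * (D - t)) ∣ S ^ (D - t) := by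
      rw [pow_mul]; exact pow_dvd_pow_of_dvd ⟨S', hS'⟩ _
    have h3 : (p : ℤ) ^ ((e + κ + 1) * t + κ' * (D - t)) ∣ F.coeff α * (s : ℤ) ^ t * S ^ (D - t) := by
      rw [pow_add]
      exact mul_dvd_mul (h1.mul_left _) h2
    refine (pow_dvd_pow _ ?_).trans h3
    obtain ⟨r, hr⟩ := Nat.exists_eq_add_of_le htD
    have e2 : D - t = r := by omega
    rw [e2, hr]
    have h4 : κ' * t ≤ κ * t := Nat.mul_le_mul_right _ hκ'
    have h5 : e ≤ e * t := Nat.le_mul_of_pos_right e ht1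
    nlinarith
  have hS0 : S ≠ 0 := by
    intro h
    rw [h] at hR
    exact hR (dvd_zero _)
  have hsR : (s : ℝ) ≠ 0 := by exact_mod_cast hs
  obtain ⟨c, hc, h⟩ := Pool.Agent.N324.Dig.general hb hcop A hA0 hA1 (|(S : ℝ)| * (K / s))
  refine ⟨c, hc, fun ξ hξK hξ N => ?_⟩
  have hdiff : ∀ i, (b : ℝ) * ((R : ℝ) * (ξ i / s)) - (R : ℝ) * (ξ i / s) = S * (ξ i / s) := by
    intro i
    rw [hS]; push_cast; ring
  have h1 := h (fun i => (b : ℝ) * ((R : ℝ) * (ξ i / s))) (fun i => (R : ℝ) * (ξ i / s)) (by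
    intro i
    rw [hdiff i, abs_mul, abs_div, Nat.abs_cast]
    gcongr
    exact hξK i) (by
    simp only [hdiff]
    rw [hA, map_sum]
    have h2 : ∀ α ∈ F.support, MvPolynomial.aeval (fun i => (S : ℝ) * (ξ i / s))
        (MvPolynomial.monomial α (F.coeff α * (s : ℤ) ^ (α.sum fun _ n => n) *
          S ^ (D - α.sum fun _ n => n))) =
        (S : ℝ) ^ D * MvPolynomial.aeval ξ (MvPolynomial.monomial α (F.coeff α)) := by
      intro α hα
      have htD : (α.sum fun _ n => n) ≤ D := MvPolynomial.le_totalDegree hα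
      rw [MvPolynomial.aeval_monomial, MvPolynomial.aeval_monomial]
      have h3 : (α.prod fun i k => ((S : ℝ) * (ξ i / s)) ^ k) =
          ((S : ℝ) / s) ^ (α.sum fun _ n => n) * α.prod fun i k => ξ i ^ k := by
        rw [Finsupp.prod, Finsupp.sum, ← Finset.prod_pow_eq_pow_sum, Finsupp.prod,
          ← Finset.prod_mul_distrib]
        refine Finset.prod_congr rfl fun i _ => ?_
        rw [← mul_pow]
        congr 1
        ring
      rw [h3]
      simp only [algebraMap_int_eq, eq_intCast]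
      push_cast
      rw [div_pow]
      have h4 : (S : ℝ) ^ D = (S : ℝ) ^ (D - α.sum fun _ n => n) * (S : ℝ) ^ (α.sum fun _ n => n) := by
        rw [← pow_add]; congr 1; omega
      rw [h4]
      field_simp
    rw [Finset.sum_congr rfl h2, ← Finset.mul_sum, ← map_sum, ← MvPolynomial.as_sum, hξ, mul_zero]) N
  refine h1.trans ?_
  unfold Pool.Agent.N324.Dig.rhs
  have hsub : A.support.erase 0 ⊆ F.support.erase 0 := by
    refine Finset.erase_subset_erase _ ?_
    intro α hα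
    rw [MvPolynomial.mem_support_iff, hcoeff] at hα
    rw [MvPolynomial.mem_support_iff]
    intro h0
    rw [h0] at hα
    simp at hα
  refine (Finset.sum_le_sum_of_subset_of_nonneg hsub ?_).trans (le_of_eq ?_)
  · intro α _ _
    positivity
  · refine Finset.sum_congr rfl fun α _ => Finset.prod_congr rfl fun i _ => ?_
    rw [chg_eq_dist hb]

/-- One algebraic number. -/
theorem chg_pow {b : ℕ} (hb : 2 ≤ b) {p : ℕ} (hp : p.Prime)
    (hpb : ¬ p ∣ b) (P : Polynomial ℤ) {e κ : ℕ} (hP0 : ¬ (p : ℤ) ^ (e + 1) ∣ P.coeff 0)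
    {R : ℕ} (hR : ¬ (p : ℤ) ^ (κ + 1) ∣ ((b : ℤ) - 1) * R) {s : ℕ} (hs : s ≠ 0)
    (hps : p ^ (e + κ + 1) ∣ s) {ξ : ℝ} (hξ : Polynomial.aeval ξ P = 0) :
    ∃ c : ℝ, 0 < c ∧ ∀ N : ℕ,
      c * (N : ℝ) ^ (1 / (P.natDegree : ℝ)) ≤ (chg b ((R : ℝ) * (ξ / s)) N : ℝ) + 1 := by
  classical
  set D := P.natDegree with hD
  have hP00 : P.coeff 0 ≠ 0 := fun h => hP0 (by rw [h]; exact dvd_zero _)
  have hD0 : D ≠ 0 := by
    intro h0
    rw [Polynomial.eq_C_of_natDegree_eq_zero (hD.symm.trans h0)] at hξ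
    rw [Polynomial.aeval_C] at hξ
    have : ((P.coeff 0 : ℤ) : ℝ) = 0 := by simpa using hξ
    exact hP00 (by exact_mod_cast this)
  set F : MvPolynomial Unit ℤ := ∑ i ∈ range (D + 1),
    MvPolynomial.monomial (Finsupp.single () i) (P.coeff i) with hF
  have hcoeff : ∀ α : Unit →₀ ℕ, F.coeff α = if α () ≤ D then P.coeff (α ()) else 0 := by
    intro α
    rw [hF, MvPolynomial.coeff_sum]
    simp only [MvPolynomial.coeff_monomial]
    have e1 : ∀ i, (Finsupp.single () i = α) ↔ (i = α ()) := by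
      intro i
      constructor
      · rintro rfl; simp
      · rintro rfl; ext; simp
    simp only [e1]
    rw [Finset.sum_ite_eq']
    simp
  have hF0 : ¬ (p : ℤ) ^ (e + 1) ∣ F.coeff 0 := by
    rw [hcoeff]
    simpa using hP0
  obtain ⟨c, hc, h⟩ := chg_rel hb hp hpb F hF0 hR hs hps |ξ|
  have hFξ : MvPolynomial.aeval (fun _ : Unit => ξ) F = 0 := by
    rw [hF, map_sum]
    rw [Polynomial.aeval_eq_sum_range] at hξ
    rw [← hξ]
    refine Finset.sum_congr rfl fun i _ => ?_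
    rw [MvPolynomial.aeval_monomial]
    simp
  have hcard : 0 < (F.support.card : ℝ) := by
    have : F.support.Nonempty := by
      refine ⟨0, ?_⟩
      rw [MvPolynomial.mem_support_iff]
      intro h0
      exact hF0 (by rw [h0]; exact dvd_zero _)
    exact_mod_cast Finset.card_pos.2 this
  refine ⟨(c / F.support.card) ^ (1 / (D : ℝ)), by positivity, fun N => ?_⟩
  have h1 := h (fun _ => ξ) (fun _ => le_rfl) hFξ N
  set t : ℝ := (chg b ((R : ℝ) * (ξ / s)) N : ℝ) + 1 with ht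
  have ht1 : 1 ≤ t := by
    have : (0 : ℝ) ≤ (chg b ((R : ℝ) * (ξ / s)) N : ℝ) := Nat.cast_nonneg _
    linarith
  have h2 : ∑ α ∈ F.support.erase 0, ∏ i : Unit, ((chg b ((R : ℝ) * (ξ / s)) N : ℝ) + 1) ^ α i ≤
      F.support.card * t ^ D := by
    calc _ ≤ ∑ α ∈ F.support.erase 0, t ^ D := by
          refine Finset.sum_le_sum fun α hα => ?_
          rw [Fintype.prod_unique, ← ht]
          refine pow_le_pow_right₀ ht1 ?_
          by_contra hcon
          have h3 := MvPolynomial.mem_support_iff.1 (Finset.mem_of_mem_erase hα)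
          rw [hcoeff, if_neg hcon] at h3
          exact h3 rfl
      _ = (F.support.erase 0).card * t ^ D := by rw [Finset.sum_const, nsmul_eq_mul]
      _ ≤ _ := by
          refine mul_le_mul_of_nonneg_right ?_ (by positivity)
          exact_mod_cast Finset.card_le_card (Finset.erase_subset _ _)
  have h3 : c / F.support.card * N ≤ t ^ D := by
    rw [div_mul_eq_mul_div, div_le_iff₀ hcard]
    linarith
  have h4 : (c / F.support.card * N) ^ (1 / (D : ℝ)) ≤ t := by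
    calc _ ≤ (t ^ D) ^ (1 / (D : ℝ)) := Real.rpow_le_rpow (by positivity) h3 (by positivity)
      _ = t := by
        rw [← Real.rpow_natCast, ← Real.rpow_mul (by positivity), mul_one_div,
          div_self (by exact_mod_cast hD0), Real.rpow_one]
  rwa [Real.mul_rpow (by positivity) (by positivity)] at h4

end Pool.Agent.Run7.h274.WM
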