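import Pool.Agent.Run7.h274.Transfer
import Pool.Agent.Run7.h274.Rel
import Pool.Agent.TH842.A3.Uni
import Pool.Agent.Results.MP_7e9a3a_nt.DigitRelations

/-!
Digit changes of the multiples of algebraic numbers.
-/

set_option autoImplicit false

namespace Pool.Agent.Run7.h274.WM

open Finset Filter Topology

/-- digits of `y`, the zeroth one is the integer part -/
noncomputable def dgt (b : ℕ) (y : ℝ) (k : ℕ) : ℤ :=
  if k = 0 then ⌊y⌋ else ⌊(b : ℝ) ^ k * y⌋ % (b : ℤ)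

lemma dgt_sum {b : ℕ} (hb : 2 ≤ b) (y : ℝ) (n : ℕ) :
    ∑ k ∈ range (n + 1), (dgt b y k : ℝ) / (b : ℝ) ^ k = ⌊(b : ℝ) ^ n * y⌋ / (b : ℝ) ^ n := by
  have hb0 : (b : ℝ) ≠ 0 := by positivity
  induction n with
  | zero => simp [dgt]
  | succ n ih =>
    rw [sum_range_succ, ih]
    unfold dgt
    rw [if_neg (by omega), emod_floor hb]
    push_cast
    rw [pow_succ]
    field_simp
    ring

lemma dgt_bound {b : ℕ} (hb : 2 ≤ b) (y : ℝ) (k : ℕ) : |dgt b y k| ≤ |⌊y⌋| + b := by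
  unfold dgt
  split_ifs
  · have : (0 : ℤ) ≤ b := by positivity
    linarith
  · have hbz : (0 : ℤ) < b := by positivity
    have h1 := Int.emod_nonneg ⌊(b : ℝ) ^ k * y⌋ hbz.ne'
    have h2 := Int.emod_lt_of_pos ⌊(b : ℝ) ^ k * y⌋ hbz
    rw [abs_of_nonneg h1]
    have := abs_nonneg ⌊y⌋
    linarith

lemma dgt_hasSum {b : ℕ} (hb : 2 ≤ b) (y : ℝ) :
    HasSum (fun k : ℕ => (dgt b y k : ℝ) / (b : ℝ) ^ k) y := by
  have hbR : (2 : ℝ) ≤ b := by exact_mod_cast hb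
  have hb0 : (0 : ℝ) < b := by linarith
  have hsum : Summable (fun k : ℕ => (dgt b y k : ℝ) / (b : ℝ) ^ k) := by
    refine Summable.of_norm_bounded
      (g := fun k : ℕ => ((|⌊y⌋| + b : ℤ) : ℝ) * (1 / (b : ℝ)) ^ k) ?_ ?_
    · refine Summable.mul_left _ (summable_geometric_of_lt_one (by positivity) ?_)
      rw [div_lt_one hb0]; linarith
    · intro k
      rw [Real.norm_eq_abs, abs_div, abs_of_pos (show (0 : ℝ) < (b : ℝ) ^ k by positivity),
        div_eq_mul_one_div, one_div_pow]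
      refine mul_le_mul_of_nonneg_right ?_ (by positivity)
      have := dgt_bound hb y k
      exact_mod_cast this
  have h1 := hsum.hasSum.tendsto_sum_nat
  have h2 : Tendsto (fun n : ℕ => ∑ k ∈ range (n + 1), (dgt b y k : ℝ) / (b : ℝ) ^ k) atTop (𝓝 y) := by
    simp only [dgt_sum hb]
    have h3 : Tendsto (fun n : ℕ => y - (1 / (b : ℝ)) ^ n) atTop (𝓝 (y - 0)) := by
      refine tendsto_const_nhds.sub (tendsto_pow_atTop_nhds_zero_of_lt_one (by positivity) ?_)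
      rw [div_lt_one hb0]; linarith
    rw [sub_zero] at h3
    refine tendsto_of_tendsto_of_tendsto_of_le_of_le h3 tendsto_const_nhds ?_ ?_
    · intro n
      have hbn : (0 : ℝ) < (b : ℝ) ^ n := by positivity
      have h4 := Int.lt_floor_add_one ((b : ℝ) ^ n * y)
      show y - (1 / (b : ℝ)) ^ n ≤ _
      rw [one_div_pow, le_div_iff₀ hbn, sub_mul, one_div_mul_cancel hbn.ne']
      linarith
    · intro n
      have hbn : (0 : ℝ) < (b : ℝ) ^ n := by positivity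
      have h4 := Int.floor_le ((b : ℝ) ^ n * y)
      show _ ≤ y
      rw [div_le_iff₀ hbn]
      linarith
  have h3 := h1.comp (tendsto_add_atTop_nat 1)
  have h4 := tendsto_nhds_unique h3 h2
  have h5 := hsum.hasSum
  rw [h4] at h5
  exact h5

/-- the function of the bound for all algebraic irrational numbers -/
noncomputable def F3 (N : ℕ) : ℝ := (Real.log N) ^ 3 / (Real.log (Real.log N)) ^ 5

lemma F3_tendsto : Tendsto F3 atTop atTop := by
  have hlog : Tendsto (fun N : ℕ => Real.log N) atTop atTop :=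
    Real.tendsto_log_atTop.comp tendsto_natCast_atTop_atTop
  have h1 : ∀ᶠ u : ℝ in atTop, u ≤ u ^ 3 / (Real.log u) ^ 5 := by
    have h2 := (Real.isLittleO_pow_log_id_atTop (n := 5)).bound (show (0 : ℝ) < 1 by norm_num)
    filter_upwards [h2, eventually_gt_atTop (Real.exp 1)] with u hu hu1
    have hu0 : (1 : ℝ) < u := by
      have := Real.add_one_le_exp (1 : ℝ)
      linarith
    have hl : 1 < Real.log u := by
      rw [Real.lt_log_iff_exp_lt (by linarith)]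
      exact hu1
    rw [le_div_iff₀ (by positivity)]
    rw [Real.norm_eq_abs, Real.norm_eq_abs, abs_of_pos (by positivity), id, abs_of_pos (by linarith),
      one_mul] at hu
    have h3 : u * Real.log u ^ 5 ≤ u * u := mul_le_mul_of_nonneg_left hu (by linarith)
    have h4 : u * u ≤ u ^ 3 := by
      have : 0 < u * u := by nlinarith
      nlinarith
    linarith
  refine tendsto_atTop_mono' atTop ?_ hlog
  exact hlog.eventually h1

lemma chg_alg {b : ℕ} (hb : 2 ≤ b) {y : ℝ} (halg : IsAlgebraic ℚ y) (hirr : Irrational y) :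
    ∃ c : ℝ, 0 < c ∧ ∀ᶠ N : ℕ in atTop, c * F3 N ≤ (chg b y N : ℝ) := by
  classical
  obtain ⟨c, hc, N0, h⟩ := Pool.Agent.TH842.A3.Uni.relations_one y halg hirr b hb (dgt b y)
    (|⌊y⌋| + b) (dgt_bound hb y) (dgt_hasSum hb y) 1 (fun j => if j = 0 then 1 else -1)
    ⟨0, by omega, by simp⟩ 0
  refine ⟨c, hc, eventually_atTop.2 ⟨N0, fun N hN => ?_⟩⟩
  have h1 := h N hN
  unfold F3
  rw [← mul_div_assoc]
  refine h1.trans ?_
  unfold chg
  refine Nat.cast_le.2 ?_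
  refine card_le_card_of_injOn (fun k => k - 1) ?_ ?_
  · intro k hk
    simp only [mem_coe, mem_filter, mem_Icc] at hk
    simp only [mem_coe, mem_filter, mem_range]
    refine ⟨by omega, ?_⟩
    obtain ⟨⟨hk1, hk2⟩, hk3⟩ := hk
    unfold Chg
    intro hE
    apply hk3
    have hdk : ∀ j, 1 ≤ j → dgt b y j = ⌊(b : ℝ) ^ j * y⌋ % (b : ℤ) := fun j hj => by
      unfold dgt; rw [if_neg (by omega)]
    rw [sum_range_succ, sum_range_one, hdk _ (by omega), hdk _ (by omega)]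
    have e1 : k - 1 + 1 = k := by omega
    have e2 : k - 1 + 2 = k + 1 := by omega
    rw [e1, e2] at hE
    simp only [add_zero, if_true, one_ne_zero, if_false]
    rw [hE]
    ring
  · intro a ha c' hc' hac
    simp only [mem_coe, mem_filter, mem_Icc] at ha hc'
    simp only at hac
    omega

lemma mul_alg {R : ℕ} (hR : R ≠ 0) {ξ : ℝ} (halg : IsAlgebraic ℚ ξ) (hirr : Irrational ξ) :
    IsAlgebraic ℚ ((R : ℝ) * ξ) ∧ Irrational ((R : ℝ) * ξ) :=
  ⟨(isAlgebraic_natCast R).mul halg, hirr.natCast_mul hR⟩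

/-- all real algebraic irrational numbers -/
theorem many_alg {b l : ℕ} (hb : 2 ≤ b) (hl : 1 ≤ l) {ξ : ℝ} (halg : IsAlgebraic ℚ ξ)
    (hirr : Irrational ξ) : Many b l ξ F3 := by
  set R := (4 * b ^ l).factorial with hR
  have hR0 : R ≠ 0 := Nat.factorial_ne_zero _
  obtain ⟨c, hc, h⟩ := chg_alg hb (mul_alg hR0 halg hirr).1 (mul_alg hR0 halg hirr).2
  exact many_of_chg hb hl (fact_dvd _) (le_pow_self hb R) ξ F3_tendsto hc (C := 0)
    (by simpa using h)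

theorem most_alg {b l : ℕ} (hb : 2 ≤ b) (hl : 1 ≤ l) {ξ : ℝ} (halg : IsAlgebraic ℚ ξ)
    (hirr : Irrational ξ) {δ : ℝ} (hδ : 0 < δ) : Most b l δ ξ F3 := by
  obtain ⟨n, hn1, hn⟩ := exists_n (l := l) hb hδ
  set R := (4 * b ^ (l * n)).factorial with hR
  have hR0 : R ≠ 0 := Nat.factorial_ne_zero _
  obtain ⟨c, hc, h⟩ := chg_alg hb (mul_alg hR0 halg hirr).1 (mul_alg hR0 halg hirr).2
  exact most_of_chg hb hl hn1 hn (fact_dvd _) (le_pow_self hb R) ξ F3_tendsto hc (C := 0)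
    (by simpa using h)

/-- the power function -/
noncomputable def Fp (D : ℝ) (N : ℕ) : ℝ := (N : ℝ) ^ D

lemma Fp_tendsto {D : ℝ} (hD : 0 < D) : Tendsto (Fp D) atTop atTop :=
  (tendsto_rpow_atTop hD).comp tendsto_natCast_atTop_atTop

lemma natDegree_ne_zero {P : Polynomial ℤ} (h0 : P.coeff 0 ≠ 0) {ξ : ℝ}
    (hξ : Polynomial.aeval ξ P = 0) : 0 < P.natDegree := by
  rw [Nat.pos_iff_ne_zero]
  intro h
  rw [Polynomial.eq_C_of_natDegree_eq_zero h, Polynomial.aeval_C] at hξ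
  have : ((P.coeff 0 : ℤ) : ℝ) = 0 := by simpa using hξ
  exact h0 (by exact_mod_cast this)

/-- rational multiples `m ξ / s` -/
theorem many_pow {b l : ℕ} (hb : 2 ≤ b) (hl : 1 ≤ l) {p : ℕ} (hp : p.Prime)
    (hpb : ¬ p ∣ b) (P : Polynomial ℤ) {e κ : ℕ} (hP0 : ¬ (p : ℤ) ^ (e + 1) ∣ P.coeff 0)
    (hκ : ¬ p ^ (κ + 1) ∣ (b - 1) * (4 * b ^ l).factorial) {s : ℕ} (hs : s ≠ 0)
    (hps : p ^ (e + κ + 1) ∣ s) {ξ : ℝ} (hξ : Polynomial.aeval ξ P = 0) :
    Many b l (ξ / s) (Fp (1 / (P.natDegree : ℝ))) := by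
  have hP00 : P.coeff 0 ≠ 0 := fun h => hP0 (by rw [h]; exact dvd_zero _)
  have hD := natDegree_ne_zero hP00 hξ
  have hκ' : ¬ (p : ℤ) ^ (κ + 1) ∣ ((b : ℤ) - 1) * ((4 * b ^ l).factorial : ℕ) := by
    intro h
    apply hκ
    have h1 : ((b - 1 : ℕ) : ℤ) = (b : ℤ) - 1 := by
      rw [Nat.cast_sub (by omega)]; simp
    rw [← h1] at h
    exact_mod_cast h
  obtain ⟨c, hc, h⟩ := chg_pow hb hp hpb P hP0 hκ' hs hps hξ
  exact many_of_chg hb hl (fact_dvd _) (le_pow_self hb _) (ξ / s)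
    (Fp_tendsto (by positivity)) hc (C := 1) (Eventually.of_forall h)

theorem most_pow {b l : ℕ} (hb : 2 ≤ b) (hl : 1 ≤ l) {p : ℕ} (hp : p.Prime)
    (hpb : ¬ p ∣ b) (P : Polynomial ℤ) (hP0 : P.coeff 0 ≠ 0) {ξ : ℝ}
    (hξ : Polynomial.aeval ξ P = 0) {δ : ℝ} (hδ : 0 < δ) :
    ∃ j : ℕ, ∀ s : ℕ, s ≠ 0 → p ^ j ∣ s → Most b l δ (ξ / s) (Fp (1 / (P.natDegree : ℝ))) := by
  have hD := natDegree_ne_zero hP0 hξ
  obtain ⟨n, hn1, hn⟩ := exists_n (l := l) hb hδ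
  have hpZ : Prime (p : ℤ) := Nat.prime_iff_prime_int.1 hp
  have hex : ∀ a : ℤ, a ≠ 0 → ∃ e : ℕ, ¬ (p : ℤ) ^ (e + 1) ∣ a := by
    intro a ha
    obtain ⟨e, he⟩ := FiniteMultiplicity.of_prime_left hpZ ha
    exact ⟨e, he⟩
  obtain ⟨e, he⟩ := hex _ hP0
  obtain ⟨κ, hκ⟩ := hex (((b : ℤ) - 1) * ((4 * b ^ (l * n)).factorial : ℕ)) (by
    have h1 : (b : ℤ) - 1 ≠ 0 := by
      have : (2 : ℤ) ≤ b := by exact_mod_cast hb
      omega
    have h2 : (((4 * b ^ (l * n)).factorial : ℕ) : ℤ) ≠ 0 := by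
      exact_mod_cast Nat.factorial_ne_zero _
    exact mul_ne_zero h1 h2)
  refine ⟨e + κ + 1, fun s hs hps => ?_⟩
  obtain ⟨c, hc, h⟩ := chg_pow hb hp hpb P he hκ hs hps hξ
  exact most_of_chg hb hl hn1 hn (fact_dvd _) (le_pow_self hb _) (ξ / s)
    (Fp_tendsto (by positivity)) hc (C := 1) (Eventually.of_forall h)

/-- digit changes for ramified primes -/
lemma chg_ram {ξ : ℝ} (halg : IsAlgebraic ℚ ξ) (L : Type) [Field L] [NumberField L]
    (φ : L →+* IntermediateField.adjoin ℚ {ξ}) (p : ℕ) (hp : p.Prime)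
    (h : ∀ P : Ideal (NumberField.RingOfIntegers L), P.IsPrime →
      (p : NumberField.RingOfIntegers L) ∈ P → (p : NumberField.RingOfIntegers L) ∈ P ^ 2)
    {b : ℕ} (hb : 2 ≤ b) (hpb : ¬ p ∣ b) {R : ℕ} (hR : R ≠ 0) :
    ∃ c δ : ℝ, 0 < c ∧ 0 < δ ∧ ∀ᶠ N : ℕ in atTop, c * Fp δ N ≤ (chg b ((R : ℝ) * ξ) N : ℝ) := by
  classical
  have hR' : (R : ℝ) ≠ 0 := by exact_mod_cast hR
  have hmem : ξ ∈ IntermediateField.adjoin ℚ {(R : ℝ) * ξ} := by
    have h1 : (R : ℝ) * ξ ∈ IntermediateField.adjoin ℚ {(R : ℝ) * ξ} :=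
      IntermediateField.subset_adjoin ℚ _ (Set.mem_singleton _)
    have h2 : (R : ℝ)⁻¹ ∈ IntermediateField.adjoin ℚ {(R : ℝ) * ξ} :=
      inv_mem (natCast_mem _ R)
    have h3 := mul_mem h2 h1
    rwa [inv_mul_cancel_left₀ hR'] at h3
  have hle : IntermediateField.adjoin ℚ {ξ} ≤ IntermediateField.adjoin ℚ {(R : ℝ) * ξ} := by
    rw [IntermediateField.adjoin_le_iff]
    intro z hz
    rw [Set.mem_singleton_iff] at hz
    rw [hz]; exact hmem
  have halg' : IsAlgebraic ℚ ((R : ℝ) * ξ) := (isAlgebraic_natCast R).mul halg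
  have hrel := Pool.Agent.Results.MP_7e9a3a_nt.DigitRelations.relations_fail ((R : ℝ) * ξ) halg' L
    (((IntermediateField.inclusion hle).toRingHom).comp φ) p hp h b hb hpb
  obtain ⟨c, δ, hc, hδ, hev⟩ := hrel 1 (fun j => if j = 0 then 1 else -1) 0 (by
    rw [sum_range_succ, sum_range_one]
    simp only [if_true, pow_zero, mul_one, one_ne_zero, if_false, pow_one]
    have : (2 : ℤ) ≤ b := by exact_mod_cast hb
    omega)
  refine ⟨c, δ, hc, hδ, ?_⟩
  filter_upwards [hev] with N hN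
  unfold Fp
  refine hN.trans ?_
  unfold chg
  refine Nat.cast_le.2 (card_le_card fun k hk => ?_)
  rw [mem_filter] at hk ⊢
  refine ⟨hk.1, fun hE => hk.2 ?_⟩
  rw [sum_range_succ, sum_range_one]
  unfold Pool.Agent.Results.MP_7e9a3a_nt.DigitRelations.digit
  have e1 : (R : ℝ) * ξ * (b : ℝ) ^ (k + 1 + 0) = (b : ℝ) ^ (k + 1) * ((R : ℝ) * ξ) := by
    rw [add_zero]; ring
  have e2 : (R : ℝ) * ξ * (b : ℝ) ^ (k + 1 + 1) = (b : ℝ) ^ (k + 2) * ((R : ℝ) * ξ) := by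
    rw [show k + 1 + 1 = k + 2 by ring]; ring
  rw [e1, e2, hE]
  simp

end Pool.Agent.Run7.h274.WM
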