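import Mathlib

set_option autoImplicit false

namespace Pool.Agent.Run7.h274.Del

open Filter Topology MeasureTheory

/-- for an ergodic map the conditional expectation on the invariant sets is constant -/
theorem erg_const {X : Type*} [MeasurableSpace X] (μ : Measure X) [IsProbabilityMeasure μ]
    (R : X → X) (hR : Ergodic R μ) (f : X → ℝ) :
    ∀ᵐ x ∂μ, (μ[f | MeasurableSpace.invariants R]) x = ∫ y, f y ∂μ := by
  have hle := MeasurableSpace.invariants_le R
  set G : X → ℝ := μ[f | MeasurableSpace.invariants R] with hG
  have hGm0 : Measurable[MeasurableSpace.invariants R] G := stronglyMeasurable_condExp.measurable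
  have hGm : Measurable G := hGm0.mono hle le_rfl
  have hGT : G ∘ R = G := MeasurableSpace.comp_eq_of_measurable_invariants hGm0
  obtain ⟨k, hk⟩ := hR.toPreErgodic.ae_eq_const_of_ae_eq_comp hGm hGT
  have h1 : ∫ x, G x ∂μ = k := by
    rw [integral_congr_ae hk]
    simp
  have h2 : ∫ x, G x ∂μ = ∫ y, f y ∂μ := integral_condExp hle
  filter_upwards [hk] with x hx
  rw [hx, ← h2, h1]
  rfl

end Pool.Agent.Run7.h274.Del
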