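import Pool.Agent.Run7.h274.BoxMain
import Pool.Agent.Run7.h274.DelEC

set_option autoImplicit false

namespace Pool.Agent.Run7.h274.Del

open Filter Topology MeasureTheory ProbabilityTheory Finset

universe u v

/-- arbitrary families of maps, windows which depend on the system -/
theorem boxes3 {X : Type u} [MeasurableSpace X] (μ : Measure X) [IsProbabilityMeasure μ]
    {ι : Type} [Countable ι] (m : ℕ)
    (R : Fin m → X → X) (hR : ∀ j, MeasurePreserving (R j) μ μ)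
    (f : Fin m → X → ℝ) (hf : ∀ j, Measurable (f j)) (C : ℝ) (hC : 1 ≤ C)
    (hb : ∀ j x, |f j x| ≤ C) :
    ∃ l : ι → ℕ, (∀ n, 0 < l n) ∧ ∀ (g : Fin m → ι → X → X), (∀ j n, MeasurePreserving (g j n) μ μ) →
      ∀ (L : Fin m → ι → ℕ), (∀ j n, l n ≤ L j n) →
      ∀ (J : Type) [Countable J] (S : J → Finset ι), Wide S →
      ∀ (Ω : Type v) [MeasurableSpace Ω] (P : Measure Ω) [IsProbabilityMeasure P]
        (ξ : ι → Ω → Fin m → ℕ), (∀ n, Measurable (ξ n)) → iIndepFun ξ P →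
      (∀ n, ∀ v : Fin m → ℕ, (∀ j, v j < L j n) → P.real {ω | ξ n ω = v} = ∏ j, (L j n : ℝ)⁻¹) →
      ∀ (c : ι → X → ℝ), (∀ n, Measurable (c n)) → (∀ n x, |c n x| ≤ C) →
    ∀ᵐ ω ∂P, ∀ᵐ x ∂μ, Tendsto (fun M => ((S M).card : ℝ)⁻¹ * ∑ n ∈ S M,
      c n x * (∏ j, f j ((R j)^[ξ n ω j] (g j n x)) -
        ∏ j, (μ[f j | MeasurableSpace.invariants (R j)]) (g j n x))) cofinite (𝓝 0) := by
  have hC0 : 0 ≤ C := by linarith
  set G : Fin m → X → ℝ := fun j => μ[f j | MeasurableSpace.invariants (R j)] with hG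
  have hGm : ∀ j, Measurable (G j) := fun j =>
    (stronglyMeasurable_condExp.measurable).mono (MeasurableSpace.invariants_le _) le_rfl
  set A : Fin m → ℕ → X → ℝ := fun j H x => mean H (fun b => f j ((R j)^[b] x)) with hA
  have hAm : ∀ j H, Measurable (A j H) := fun j H =>
    (Finset.measurable_fun_sum _ fun i _ => (hf j).comp ((hR j).measurable.iterate i)).const_mul _
  have hbirk : ∀ j, ∀ᵐ x ∂μ, Tendsto (fun H => A j H x) atTop (𝓝 (G j x)) := fun j =>
    Pool.Agent.H165R3.BPE.birkhoff (hR j) (f j) (hf j) C (hb j)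
  have hGb : ∀ j, ∀ᵐ x ∂μ, |G j x| ≤ C := by
    intro j
    filter_upwards [hbirk j] with x hx
    exact le_of_tendsto' hx.abs fun H => mean_abs hC0 fun t => hb j _
  have hint : ∀ j, Tendsto (fun H => ∫ x, |A j H x - G j x| ∂μ) atTop (𝓝 0) := by
    intro j
    have h1 : Tendsto (fun H => ∫ x, |A j H x - G j x| ∂μ) atTop (𝓝 (∫ _ : X, (0:ℝ) ∂μ)) := by
      refine tendsto_integral_of_dominated_convergence (fun _ => 2 * C)
        (fun H => (((hAm j H).sub (hGm j)).abs).aestronglyMeasurable) (integrable_const _)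
        (fun H => ?_) ?_
      · filter_upwards [hGb j] with x hx
        rw [Real.norm_eq_abs, abs_abs]
        have k1 : |A j H x| ≤ C := mean_abs hC0 fun t => hb j _
        have k2 := abs_sub (A j H x) (G j x)
        linarith
      · filter_upwards [hbirk j] with x hx
        have h3 : Tendsto (fun H => |A j H x - G j x|) atTop (𝓝 |G j x - G j x|) :=
          (hx.sub_const (G j x)).abs
        simpa using h3
    simpa using h1
  obtain ⟨e, he⟩ := exists_injective_nat ι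
  -- the windows
  have hl : ∀ n : ι, ∃ l : ℕ, 0 < l ∧ ∀ H, l ≤ H → ∀ j,
      ∫ x, |A j H x - G j x| ∂μ ≤ (1 / 2 : ℝ) ^ (e n) := by
    intro n
    have h1 : ∀ j, ∀ᶠ H in atTop, ∫ x, |A j H x - G j x| ∂μ ≤ (1 / 2 : ℝ) ^ (e n) := fun j =>
      ((hint j).eventually_lt_const (show (0:ℝ) < (1 / 2) ^ (e n) by positivity)).mono
        fun _ h => h.le
    obtain ⟨l, hl⟩ := eventually_atTop.1 (eventually_all.2 h1)
    exact ⟨l + 1, by omega, fun H hH j => hl H (by omega) j⟩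
  choose l hl0 hl1 using hl
  refine ⟨l, hl0, fun g hg L hLl J _ S hS Ω _ P _ ξ hm hind hu c hcm hc => ?_⟩
  have hLp : ∀ j n, 0 < L j n := fun j n => (hl0 n).trans_le (hLl j n)
  -- the deterministic part
  have h1 : ∀ᵐ x ∂μ, ∀ j, Tendsto (fun n => |A j (L j n) (g j n x) - G j (g j n x)|)
      cofinite (𝓝 0) := by
    rw [ae_all_iff]
    intro j
    have k0 : ∀ n, Measurable (fun x => |A j (L j n) (g j n x) - G j (g j n x)|) := fun n =>
      (((hAm j (L j n)).sub (hGm j)).abs).comp (hg j n).measurable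
    have k1 : ∀ n, ∫⁻ x, ENNReal.ofReal |A j (L j n) (g j n x) - G j (g j n x)| ∂μ ≤
        ENNReal.ofReal ((1 / 2 : ℝ) ^ (e n)) := by
      intro n
      have e1 : ∫⁻ x, ENNReal.ofReal |A j (L j n) (g j n x) - G j (g j n x)| ∂μ =
          ∫⁻ x, ENNReal.ofReal |A j (L j n) x - G j x| ∂μ :=
        (hg j n).lintegral_comp ((((hAm j (L j n)).sub (hGm j)).abs).ennreal_ofReal)
      have hi : Integrable (fun x => |A j (L j n) x - G j x|) μ := by
        refine Integrable.of_bound (C := 2 * C) (((hAm j _).sub (hGm j)).abs).aestronglyMeasurable ?_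
        filter_upwards [hGb j] with x hx
        rw [Real.norm_eq_abs, abs_abs]
        have k1 : |A j (L j n) x| ≤ C := mean_abs hC0 fun t => hb j _
        have k2 := abs_sub (A j (L j n) x) (G j x)
        linarith
      rw [e1, ← ofReal_integral_eq_lintegral_ofReal hi (Eventually.of_forall fun x => abs_nonneg _)]
      exact ENNReal.ofReal_le_ofReal (hl1 n (L j n) (hLl j n) j)
    have k2 : ∫⁻ x, ∑' n, ENNReal.ofReal |A j (L j n) (g j n x) - G j (g j n x)| ∂μ ≠ ⊤ := by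
      rw [lintegral_tsum fun n => ((k0 n).ennreal_ofReal).aemeasurable]
      refine ne_top_of_le_ne_top ?_ (ENNReal.tsum_le_tsum k1)
      have hs : Summable fun n : ℕ => (1 / 2 : ℝ) ^ n :=
        summable_geometric_of_lt_one (by norm_num) (by norm_num)
      exact (hs.comp_injective he).tsum_ofReal_ne_top
    have k3 := ae_lt_top (Measurable.tsum fun n => (k0 n).ennreal_ofReal) k2
    filter_upwards [k3] with x hx
    have k4 := ENNReal.tendsto_cofinite_zero_of_tsum_ne_top hx.ne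
    have k5 := (ENNReal.tendsto_toReal (by simp)).comp k4
    simpa [Function.comp_def, ENNReal.toReal_ofReal (abs_nonneg _)] using k5
  have h0 : ∀ᵐ x ∂μ, ∀ j n, |G j (g j n x)| ≤ C := by
    rw [ae_all_iff]
    intro j
    rw [ae_all_iff]
    exact fun n => (hg j n).quasiMeasurePreserving.ae (hGb j)
  have h2 := randS (P := P) μ S hS ξ hm hind L hLp hu (fun j n b x => f j ((R j)^[b] (g j n x)))
      (fun j n b => ((hf j).comp ((hR j).measurable.iterate _)).comp (hg j n).measurable) C hC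
      (fun j n b x => hb j _) c hcm hc
  filter_upwards [h2] with ω hω
  filter_upwards [hω, h1, h0] with x hx hx1 hx0
  have h4 : Tendsto (fun n => c n x * (∏ j, A j (L j n) (g j n x) - ∏ j, G j (g j n x)))
      cofinite (𝓝 0) := by
    have h5 : Tendsto (fun n => C * (C ^ m * ∑ j, |A j (L j n) (g j n x) - G j (g j n x)|))
        cofinite (𝓝 0) := by
      have := ((tendsto_finsetSum (univ : Finset (Fin m))
        fun j _ => hx1 j).const_mul (C ^ m)).const_mul C
      simpa using this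
    refine squeeze_zero_norm (fun n => ?_) h5
    rw [Real.norm_eq_abs, abs_mul]
    refine mul_le_mul (hc n x) ?_ (abs_nonneg _) hC0
    have := prod_sub (univ : Finset (Fin m)) (fun j => A j (L j n) (g j n x))
      (fun j => G j (g j n x)) C hC (fun j => mean_abs hC0 fun t => hb j _) (fun j => hx0 j n)
    simpa using this
  have h3 := null_avg S hS _ h4
  have h6 := hx.add h3
  rw [add_zero] at h6
  refine h6.congr fun N => ?_
  rw [← mul_add, ← Finset.sum_add_distrib]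
  congr 1
  refine Finset.sum_congr rfl fun n _ => ?_
  ring

theorem unwS {ι J : Type} (S : J → Finset ι) (hS : Wide S) (F : ι → ℝ) (G : ℝ)
    (h : Tendsto (fun M => ((S M).card : ℝ)⁻¹ * ∑ n ∈ S M, 1 * (F n - G)) cofinite (𝓝 0)) :
    Tendsto (fun M => ((S M).card : ℝ)⁻¹ * ∑ n ∈ S M, F n) cofinite (𝓝 G) := by
  have h8 := h.add_const G
  rw [zero_add] at h8
  refine h8.congr' ?_
  filter_upwards [hS.card.eventually_gt_atTop 0] with N hN'
  simp only [one_mul]
  rw [Finset.sum_sub_distrib, Finset.sum_const, nsmul_eq_mul, mul_sub,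
    inv_mul_cancel_left₀ hN'.ne']
  ring

theorem finB1 {Ω : Type v} {X : Type u} [MeasurableSpace Ω] [MeasurableSpace X] (P : Measure Ω)
    [IsProbabilityMeasure P] (μ : Measure X) [IsProbabilityMeasure μ]
    {ι J : Type} [Countable ι] [Countable J] (S : J → Finset ι) (hS : Wide S) (m : ℕ)
    (T : Fin m → X → X) (hT : ∀ j, MeasurePreserving (T j) μ μ) (f : Fin m → X → ℝ)
    (hf : ∀ j, AEStronglyMeasurable (f j) μ ∧ ∃ C : ℝ, ∀ᵐ x ∂μ, |f j x| ≤ C)
    (a L : Fin m → ι → ℕ) (K : ℕ) (hL : ∀ j n, 0 < L j n) (hLt : ∀ j, Tendsto (L j) cofinite atTop)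
    (ha : ∀ j i, a j i ≤ K * L j i)
    (ξ : ι → Ω → Fin m → ℕ) (hm : ∀ n, Measurable (ξ n)) (hind : iIndepFun ξ P)
    (hu : ∀ n, ∀ v : Fin m → ℕ, (∀ j, v j < L j n) → P.real {ω | ξ n ω = v} = ∏ j, (L j n : ℝ)⁻¹)
    (c : ι → X → ℝ) (hc : ∀ n, AEStronglyMeasurable (c n) μ ∧ ∀ᵐ x ∂μ, |c n x| ≤ 1) :
    ∀ᵐ ω ∂P, ∀ᵐ x ∂μ, Tendsto (fun M => ((S M).card : ℝ)⁻¹ * ∑ n ∈ S M,
      c n x * (∏ j, f j ((T j)^[a j n + ξ n ω j] x) -
        ∏ j, (μ[f j | MeasurableSpace.invariants (T j)]) x)) cofinite (𝓝 0) := by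
  obtain ⟨C, hC, hfC⟩ := bounds μ f hf
  have hC0 : 0 ≤ C := by linarith
  choose f' hf'm hf'b hf'e using fun j => trunc μ (f j) (hf j).1 C hC0 (hfC j)
  choose c' hc'm hc'b hc'e using fun n => trunc μ (c n) (hc n).1 1 (by norm_num) (hc n).2
  have h0 := boxes1 P μ S hS m T hT f' hf'm C hC hf'b a L K hL hLt ha ξ hm hind hu c' hc'm
    (fun n x => (hc'b n x).trans hC)
  have h1 : ∀ᵐ x ∂μ, ∀ j t, f j ((T j)^[t] x) = f' j ((T j)^[t] x) := by
    rw [ae_all_iff]
    intro j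
    rw [ae_all_iff]
    exact fun t => ((hT j).iterate t).quasiMeasurePreserving.ae (hf'e j)
  have h2 : ∀ᵐ x ∂μ, ∀ j, (μ[f j | MeasurableSpace.invariants (T j)]) x =
      (μ[f' j | MeasurableSpace.invariants (T j)]) x := by
    rw [ae_all_iff]
    exact fun j => condExp_congr_ae (hf'e j)
  have h3 : ∀ᵐ x ∂μ, ∀ n, c n x = c' n x := by
    rw [ae_all_iff]
    exact hc'e
  filter_upwards [h0] with ω hω
  filter_upwards [hω, h1, h2, h3] with x k0 k1 k2 k3
  refine k0.congr fun N => ?_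
  congr 1
  refine Finset.sum_congr rfl fun n _ => ?_
  rw [k3 n, Finset.prod_congr rfl fun j _ => k1 j _, Finset.prod_congr rfl fun j _ => k2 j]

theorem finB3 {X : Type u} [MeasurableSpace X] (μ : Measure X) [IsProbabilityMeasure μ]
    {ι : Type} [Countable ι] (m : ℕ)
    (R : Fin m → X → X) (hR : ∀ j, MeasurePreserving (R j) μ μ) (f : Fin m → X → ℝ)
    (hf : ∀ j, AEStronglyMeasurable (f j) μ ∧ ∃ C : ℝ, ∀ᵐ x ∂μ, |f j x| ≤ C) :
    ∃ l : ι → ℕ, (∀ n, 0 < l n) ∧ ∀ (g : Fin m → ι → X → X), (∀ j n, MeasurePreserving (g j n) μ μ) →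
      ∀ (L : Fin m → ι → ℕ), (∀ j n, l n ≤ L j n) →
      ∀ (J : Type) [Countable J] (S : J → Finset ι), Wide S →
      ∀ (Ω : Type v) [MeasurableSpace Ω] (P : Measure Ω) [IsProbabilityMeasure P]
        (ξ : ι → Ω → Fin m → ℕ), (∀ n, Measurable (ξ n)) → iIndepFun ξ P →
      (∀ n, ∀ v : Fin m → ℕ, (∀ j, v j < L j n) → P.real {ω | ξ n ω = v} = ∏ j, (L j n : ℝ)⁻¹) →
      ∀ (c : ι → X → ℝ), (∀ n, AEStronglyMeasurable (c n) μ ∧ ∀ᵐ x ∂μ, |c n x| ≤ 1) →
    ∀ᵐ ω ∂P, ∀ᵐ x ∂μ, Tendsto (fun M => ((S M).card : ℝ)⁻¹ * ∑ n ∈ S M,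
      c n x * (∏ j, f j ((R j)^[ξ n ω j] (g j n x)) -
        ∏ j, (μ[f j | MeasurableSpace.invariants (R j)]) (g j n x))) cofinite (𝓝 0) := by
  obtain ⟨C, hC, hfC⟩ := bounds μ f hf
  have hC0 : 0 ≤ C := by linarith
  choose f' hf'm hf'b hf'e using fun j => trunc μ (f j) (hf j).1 C hC0 (hfC j)
  obtain ⟨l, hl0, hl⟩ := boxes3.{u, v} μ (ι := ι) m R hR f' hf'm C hC hf'b
  refine ⟨l, hl0, fun g hg L hLl J _ S hS Ω _ P _ ξ hm hind hu c hc => ?_⟩
  choose c' hc'm hc'b hc'e using fun n => trunc μ (c n) (hc n).1 1 (by norm_num) (hc n).2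
  have h0 := hl g hg L hLl J S hS Ω P ξ hm hind hu c' hc'm (fun n x => (hc'b n x).trans hC)
  have h1 : ∀ᵐ x ∂μ, ∀ j n t, f j ((R j)^[t] (g j n x)) = f' j ((R j)^[t] (g j n x)) := by
    rw [ae_all_iff]
    intro j
    rw [ae_all_iff]
    intro n
    rw [ae_all_iff]
    exact fun t => (((hR j).iterate t).comp (hg j n)).quasiMeasurePreserving.ae (hf'e j)
  have h2 : ∀ᵐ x ∂μ, ∀ j n, (μ[f j | MeasurableSpace.invariants (R j)]) (g j n x) =
      (μ[f' j | MeasurableSpace.invariants (R j)]) (g j n x) := by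
    rw [ae_all_iff]
    intro j
    rw [ae_all_iff]
    exact fun n => (hg j n).quasiMeasurePreserving.ae (condExp_congr_ae (hf'e j))
  have h3 : ∀ᵐ x ∂μ, ∀ n, c n x = c' n x := by
    rw [ae_all_iff]
    exact hc'e
  filter_upwards [h0] with ω hω
  filter_upwards [hω, h1, h2, h3] with x k0 k1 k2 k3
  refine k0.congr fun N => ?_
  congr 1
  refine Finset.sum_congr rfl fun n _ => ?_
  rw [k3 n, Finset.prod_congr rfl fun j _ => k1 j n _, Finset.prod_congr rfl fun j _ => k2 j n]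

end Pool.Agent.Run7.h274.Del
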