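import Pool.Agent.Run7.h274.DelUni

set_option autoImplicit false

namespace Pool.Agent.Run7.h274.Del

open Filter Topology MeasureTheory ProbabilityTheory Finset
open scoped ENNReal NNReal

section lln

variable {Ω : Type*} [MeasurableSpace Ω] {P : Measure Ω} [IsProbabilityMeasure P]
variable {ι J : Type*}

/-- families of finite sets with few small members -/
def Wide (S : J → Finset ι) : Prop :=
  ∀ κ : ℝ, 0 < κ → Summable fun M => Real.exp (-κ * ((S M).card : ℝ))

theorem Wide.card {S : J → Finset ι} (hS : Wide S) :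
    Tendsto (fun M => ((S M).card : ℝ)) cofinite atTop := by
  have h1 := (hS 1 one_pos).tendsto_cofinite_zero
  rw [tendsto_atTop]
  intro b
  filter_upwards [h1.eventually_lt_const (Real.exp_pos (-b))] with M hM
  have := Real.exp_lt_exp.1 hM
  linarith

/-- one side of the law of large numbers -/
theorem sideS [Countable J] (S : J → Finset ι) (hS : Wide S) (Z : ι → Ω → ℝ) (hm : ∀ n, Measurable (Z n))
    (hind : iIndepFun Z P) (C : ℝ) (hC : 0 < C) (hZ : ∀ n ω, |Z n ω| ≤ C)
    (h0 : ∀ n, ∫ ω, Z n ω ∂P = 0) (ε : ℝ) (hε : 0 < ε) :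
    ∀ᵐ ω ∂P, ∀ᶠ M in cofinite, ∑ n ∈ S M, Z n ω < ε * (S M).card := by
  have hsub : ∀ n, HasSubgaussianMGF (Z n) ((‖C - (-C)‖₊ / 2) ^ 2) P := fun n =>
    hasSubgaussianMGF_of_mem_Icc_of_integral_eq_zero (hm n).aemeasurable
      (Eventually.of_forall fun ω => abs_le.1 (hZ n ω)) (h0 n)
  set c : ℝ≥0 := (‖C - (-C)‖₊ / 2) ^ 2 with hc
  have hcC : (c : ℝ) = C ^ 2 := by
    rw [hc]
    push_cast
    rw [Real.norm_eq_abs, abs_of_pos (by linarith)]
    ring
  have hb : ∀ M, P {ω | ε * (S M).card ≤ ∑ n ∈ S M, Z n ω} ≤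
      ENNReal.ofReal (Real.exp (-(ε ^ 2 / (2 * C ^ 2)) * (S M).card)) := by
    intro M
    have h1 := HasSubgaussianMGF.measure_sum_ge_le_of_iIndepFun hind (c := fun _ => c) (s := S M)
      (fun i _ => hsub i) (ε := ε * (S M).card) (by positivity)
    rw [← ofReal_measureReal]
    refine ENNReal.ofReal_le_ofReal (h1.trans ?_)
    rcases Nat.eq_zero_or_pos (S M).card with hN | hN
    · rw [hN]; simp
    · have hN' : (0:ℝ) < (S M).card := by exact_mod_cast hN
      rw [Finset.sum_const, nsmul_eq_mul, NNReal.coe_mul, NNReal.coe_natCast, hcC]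
      apply le_of_eq
      congr 1
      field_simp
  have hsum : ∑' M, P {ω | ε * (S M).card ≤ ∑ n ∈ S M, Z n ω} ≠ ⊤ :=
    ne_top_of_le_ne_top (hS (ε ^ 2 / (2 * C ^ 2)) (by positivity)).tsum_ofReal_ne_top
      (ENNReal.tsum_le_tsum hb)
  have h3 := measure_limsup_cofinite_eq_zero hsum
  have h4 : ∀ᵐ ω ∂P, ω ∉ limsup (fun M => {ω | ε * (S M).card ≤ ∑ n ∈ S M, Z n ω}) cofinite := by
    rw [ae_iff]
    simpa using h3
  filter_upwards [h4] with ω hω
  rw [Filter.mem_limsup_iff_frequently_mem, Filter.not_frequently] at hω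
  filter_upwards [hω] with N hN
  simpa using hN

/-- the strong law along a wide family of finite sets -/
theorem llnS [Countable J] (S : J → Finset ι) (hS : Wide S) (Z : ι → Ω → ℝ) (hm : ∀ n, Measurable (Z n))
    (hind : iIndepFun Z P) (C : ℝ) (hC : 0 < C) (hZ : ∀ n ω, |Z n ω| ≤ C)
    (h0 : ∀ n, ∫ ω, Z n ω ∂P = 0) :
    ∀ᵐ ω ∂P, Tendsto (fun M => ((S M).card : ℝ)⁻¹ * ∑ n ∈ S M, Z n ω) cofinite (𝓝 0) := by
  have h1 : ∀ᵐ ω ∂P, ∀ q : ℕ, ∀ᶠ M in cofinite,
      ∑ n ∈ S M, Z n ω < (1 / ((q:ℝ) + 1)) * (S M).card := by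
    rw [ae_all_iff]
    intro q
    exact sideS S hS Z hm hind C hC hZ h0 _ (by positivity)
  have h2 : ∀ᵐ ω ∂P, ∀ q : ℕ, ∀ᶠ M in cofinite,
      ∑ n ∈ S M, (-Z n ω) < (1 / ((q:ℝ) + 1)) * (S M).card := by
    rw [ae_all_iff]
    intro q
    refine sideS S hS (fun n ω => -Z n ω) (fun n => (hm n).neg) ?_ C hC
      (fun n ω => by rw [abs_neg]; exact hZ n ω)
      (fun n => by rw [integral_neg, h0 n, neg_zero]) _ (by positivity)
    exact hind.comp (fun _ x => -x) (fun _ => measurable_neg)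
  filter_upwards [h1, h2] with ω ha hb
  rw [Metric.tendsto_nhds]
  intro ε hε
  obtain ⟨q, hq⟩ := exists_nat_one_div_lt hε
  filter_upwards [ha q, hb q, hS.card.eventually_gt_atTop 0] with M g1 g2 hN'
  rw [Real.dist_eq, sub_zero, abs_mul, abs_inv, Nat.abs_cast, inv_mul_lt_iff₀ hN', abs_lt]
  rw [Finset.sum_neg_distrib] at g2
  constructor <;> nlinarith

end lln

theorem cof_gen {J : Type*} [Countable J] : (cofinite : Filter J).IsCountablyGenerated := by
  have h1 : ({t : Set J | t.Finite}).Countable := by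
    have := Set.countable_ofPred_finite_subset (Set.countable_univ (α := J))
    simpa using this
  exact HasCountableBasis.isCountablyGenerated ⟨Filter.hasBasis_cofinite, h1⟩

/-- averages of a null family along a wide family of finite sets -/
theorem null_avg {ι J : Type*} (S : J → Finset ι) (hS : Wide S) (h : ι → ℝ)
    (hh : Tendsto h cofinite (𝓝 0)) :
    Tendsto (fun M => ((S M).card : ℝ)⁻¹ * ∑ n ∈ S M, h n) cofinite (𝓝 0) := by
  classical
  rw [Metric.tendsto_nhds] at hh ⊢
  intro ε hε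
  have h1 := hh (ε / 2) (by positivity)
  rw [Filter.eventually_cofinite] at h1
  set F : Finset ι := h1.toFinset with hF
  have hout : ∀ i, i ∉ F → |h i| < ε / 2 := by
    intro i hi
    rw [hF, Set.Finite.mem_toFinset, Set.mem_ofPred_eq, not_not, Real.dist_eq, sub_zero] at hi
    exact hi
  set D : ℝ := ∑ i ∈ F, |h i| with hD
  have hD0 : 0 ≤ D := Finset.sum_nonneg fun i _ => abs_nonneg _
  filter_upwards [hS.card.eventually_gt_atTop (2 * D / ε)] with M hM
  have hc0 : (0:ℝ) < (S M).card := lt_of_le_of_lt (by positivity) hM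
  rw [Real.dist_eq, sub_zero, abs_mul, abs_inv, Nat.abs_cast, inv_mul_lt_iff₀ hc0]
  have h2 : ∑ n ∈ S M, |h n| ≤ D + (S M).card * (ε / 2) := by
    rw [← Finset.sum_filter_add_sum_filter_not (S M) (fun i => i ∈ F)]
    refine add_le_add ?_ ?_
    · refine Finset.sum_le_sum_of_subset_of_nonneg ?_ fun i _ _ => abs_nonneg _
      intro i hi
      exact (Finset.mem_filter.1 hi).2
    · refine (Finset.sum_le_sum fun i hi => (hout i (Finset.mem_filter.1 hi).2).le).trans ?_
      rw [Finset.sum_const, nsmul_eq_mul]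
      refine mul_le_mul_of_nonneg_right ?_ (by positivity)
      exact_mod_cast Finset.card_filter_le _ _
  rw [div_lt_iff₀ hε] at hM
  have h3 := Finset.abs_sum_le_sum_abs h (S M)
  linarith

/-- the products over `Fin k` of geometric sequences are summable -/
theorem summ_pi (κ : ℝ) (hκ : 0 < κ) (k : ℕ) :
    Summable fun M : Fin k → ℕ => ∏ i, Real.exp (-κ * (M i : ℝ)) := by
  induction k with
  | zero => exact Summable.of_finite
  | succ k ih =>
    have hg : Summable fun n : ℕ => Real.exp (-κ * (n : ℝ)) := by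
      have h2 : ∀ N : ℕ, Real.exp (-κ * (N : ℝ)) = (Real.exp (-κ)) ^ N := by
        intro N
        rw [← Real.exp_nat_mul]
        congr 1
        ring
      simp_rw [h2]
      refine summable_geometric_of_lt_one (Real.exp_nonneg _) ?_
      rw [Real.exp_lt_one_iff]
      linarith
    have h1 := hg.mul_of_nonneg ih (fun _ => Real.exp_nonneg _)
      (fun _ => Finset.prod_nonneg fun _ _ => Real.exp_nonneg _)
    rw [← (Fin.consEquiv (fun _ : Fin (k + 1) => ℕ)).summable_iff]
    refine h1.congr fun x => ?_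
    simp [Fin.consEquiv, Fin.prod_univ_succ]

/-- the boxes `[0, M_1] × ⋯ × [0, M_k]` -/
def box (k : ℕ) (M : Fin k → ℕ) : Finset (Fin k → ℕ) := Fintype.piFinset fun i => range (M i + 1)

theorem wide_box (k : ℕ) : Wide (box k) := by
  intro κ hκ
  refine Summable.of_nonneg_of_le (fun M => Real.exp_nonneg _) (fun M => ?_) (summ_pi κ hκ k)
  have hcard : ((box k M).card : ℝ) = ∏ i, (1 + (M i : ℝ)) := by
    rw [box, Fintype.card_piFinset]
    push_cast
    simp [add_comm]
  rw [← Real.exp_sum, ← Finset.mul_sum]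
  apply Real.exp_le_exp.2
  have h1 : ∑ i, (M i : ℝ) ≤ ∏ i, (1 + (M i : ℝ)) := by
    have h2 : ∀ s : Finset (Fin k), 1 + ∑ i ∈ s, (M i : ℝ) ≤ ∏ i ∈ s, (1 + (M i : ℝ)) := by
      intro s
      classical
      induction s using Finset.induction_on with
      | empty => simp
      | @insert i s hi ih =>
        rw [Finset.sum_insert hi, Finset.prod_insert hi]
        have k1 : (0:ℝ) ≤ M i := Nat.cast_nonneg _
        have k2 : (0:ℝ) ≤ ∑ i ∈ s, (M i : ℝ) := Finset.sum_nonneg fun _ _ => Nat.cast_nonneg _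
        nlinarith
    have := h2 univ
    linarith
  rw [hcard]
  nlinarith

end Pool.Agent.Run7.h274.Del
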