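import Pool.Agent.Run7.h274.DelMain

set_option autoImplicit false

namespace Pool.Agent.Run7.h274.Del

open Filter Topology MeasureTheory ProbabilityTheory Finset

universe u v

theorem trunc {X : Type*} [MeasurableSpace X] (μ : Measure X) (f : X → ℝ)
    (hf : AEStronglyMeasurable f μ) (C : ℝ) (hC0 : 0 ≤ C) (hb : ∀ᵐ x ∂μ, |f x| ≤ C) :
    ∃ g : X → ℝ, Measurable g ∧ (∀ x, |g x| ≤ C) ∧ ∀ᵐ x ∂μ, f x = g x := by
  refine ⟨fun x => max (-C) (min (hf.mk f x) C), ?_, ?_, ?_⟩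
  · exact measurable_const.max (hf.stronglyMeasurable_mk.measurable.min measurable_const)
  · intro x
    rw [abs_le]
    exact ⟨le_max_left _ _, max_le (by linarith) (min_le_right _ _)⟩
  · filter_upwards [hf.ae_eq_mk, hb] with x h1 h2
    rw [← h1]
    have := abs_le.1 h2
    rw [min_eq_left this.2, max_eq_right this.1]

theorem bounds {X : Type*} [MeasurableSpace X] (μ : Measure X) {m : ℕ} (f : Fin m → X → ℝ)
    (hf : ∀ j, AEStronglyMeasurable (f j) μ ∧ ∃ C : ℝ, ∀ᵐ x ∂μ, |f j x| ≤ C) :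
    ∃ C : ℝ, 1 ≤ C ∧ ∀ j, ∀ᵐ x ∂μ, |f j x| ≤ C := by
  choose h1 C hC using hf
  refine ⟨1 + ∑ j, |C j|, ?_, fun j => ?_⟩
  · have : 0 ≤ ∑ j, |C j| := Finset.sum_nonneg fun j _ => abs_nonneg _
    linarith
  · filter_upwards [hC j] with x hx
    have h2 : |C j| ≤ ∑ j, |C j| :=
      Finset.single_le_sum (f := fun j => |C j|) (fun j _ => abs_nonneg _) (mem_univ j)
    have := le_abs_self (C j)
    linarith

theorem unw (F : ℕ → ℝ) (G : ℝ)
    (h : Tendsto (fun N : ℕ => (N : ℝ)⁻¹ * ∑ n ∈ range N, 1 * (F n - G)) atTop (𝓝 0)) :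
    Tendsto (fun N : ℕ => (N : ℝ)⁻¹ * ∑ n ∈ range N, F n) atTop (𝓝 G) := by
  have h8 := h.add_const G
  rw [zero_add] at h8
  refine h8.congr' ?_
  filter_upwards [eventually_gt_atTop 0] with N hN
  have hN' : (0:ℝ) < N := by exact_mod_cast hN
  simp only [one_mul]
  rw [Finset.sum_sub_distrib, Finset.sum_const, card_range, nsmul_eq_mul, mul_sub,
    inv_mul_cancel_left₀ hN'.ne']
  ring

theorem fin1 {Ω : Type v} {X : Type u} [MeasurableSpace Ω] [MeasurableSpace X] (P : Measure Ω)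
    [IsProbabilityMeasure P] (μ : Measure X) [IsProbabilityMeasure μ] (m : ℕ)
    (T : Fin m → X → X) (hT : ∀ j, MeasurePreserving (T j) μ μ)
    (f : Fin m → X → ℝ)
    (hf : ∀ j, AEStronglyMeasurable (f j) μ ∧ ∃ C : ℝ, ∀ᵐ x ∂μ, |f j x| ≤ C)
    (a L : Fin m → ℕ → ℕ) (K : ℕ) (hR : ∀ j, Reg K (a j) (L j))
    (ξ : ℕ → Ω → Fin m → ℕ) (hm : ∀ n, Measurable (ξ n)) (hind : iIndepFun ξ P)
    (hu : ∀ n, ∀ v : Fin m → ℕ, (∀ j, v j < L j n) → P.real {ω | ξ n ω = v} = ∏ j, (L j n : ℝ)⁻¹)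
    (c : ℕ → X → ℝ) (hc : ∀ n, AEStronglyMeasurable (c n) μ ∧ ∀ᵐ x ∂μ, |c n x| ≤ 1) :
    ∀ᵐ ω ∂P, ∀ᵐ x ∂μ, Tendsto (fun N : ℕ => (N : ℝ)⁻¹ * ∑ n ∈ range N,
      c n x * (∏ j, f j ((T j)^[a j n + ξ n ω j] x) -
        ∏ j, (μ[f j | MeasurableSpace.invariants (T j)]) x)) atTop (𝓝 0) := by
  obtain ⟨C, hC, hfC⟩ := bounds μ f hf
  have hC0 : 0 ≤ C := by linarith
  choose f' hf'm hf'b hf'e using fun j => trunc μ (f j) (hf j).1 C hC0 (hfC j)
  choose c' hc'm hc'b hc'e using fun n => trunc μ (c n) (hc n).1 1 (by norm_num) (hc n).2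
  have h0 := main0 P μ m T hT f' hf'm C hC hf'b a L (fun j n => (hR j).pos n)
    (fun j => (hR j).lim) (fun j => (hR j).dom) ξ hm hind hu c' hc'm
    (fun n x => (hc'b n x).trans hC)
  have h1 : ∀ᵐ x ∂μ, ∀ j t, f j ((T j)^[t] x) = f' j ((T j)^[t] x) := by
    rw [ae_all_iff]
    intro j
    rw [ae_all_iff]
    exact fun t => ((hT j).iterate t).quasiMeasurePreserving.ae (hf'e j)
  have h2 : ∀ᵐ x ∂μ, ∀ j, (μ[f j | MeasurableSpace.invariants (T j)]) x =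
      (μ[f' j | MeasurableSpace.invariants (T j)]) x := by
    rw [ae_all_iff]
    exact fun j => condExp_congr_ae (hf'e j)
  have h3 : ∀ᵐ x ∂μ, ∀ n, c n x = c' n x := by
    rw [ae_all_iff]
    exact hc'e
  filter_upwards [h0] with ω hω
  filter_upwards [hω, h1, h2, h3] with x k0 k1 k2 k3
  refine k0.congr fun N => ?_
  congr 1
  refine Finset.sum_congr rfl fun n _ => ?_
  rw [k3 n, Finset.prod_congr rfl fun j _ => k1 j _, Finset.prod_congr rfl fun j _ => k2 j]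

theorem fin3 {X : Type u} [MeasurableSpace X] (μ : Measure X) [IsProbabilityMeasure μ] (m : ℕ)
    (R : Fin m → X → X) (hR : ∀ j, MeasurePreserving (R j) μ μ) (f : Fin m → X → ℝ)
    (hf : ∀ j, AEStronglyMeasurable (f j) μ ∧ ∃ C : ℝ, ∀ᵐ x ∂μ, |f j x| ≤ C) :
    ∃ l : ℕ → ℕ, (∀ n, 0 < l n) ∧ ∀ (g : Fin m → ℕ → X → X), (∀ j n, MeasurePreserving (g j n) μ μ) →
      ∀ (L : Fin m → ℕ → ℕ), (∀ j n, l n ≤ L j n) →
      ∀ (Ω : Type v) [MeasurableSpace Ω] (P : Measure Ω) [IsProbabilityMeasure P]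
        (ξ : ℕ → Ω → Fin m → ℕ), (∀ n, Measurable (ξ n)) → iIndepFun ξ P →
      (∀ n, ∀ v : Fin m → ℕ, (∀ j, v j < L j n) → P.real {ω | ξ n ω = v} = ∏ j, (L j n : ℝ)⁻¹) →
      ∀ (c : ℕ → X → ℝ), (∀ n, AEStronglyMeasurable (c n) μ ∧ ∀ᵐ x ∂μ, |c n x| ≤ 1) →
    ∀ᵐ ω ∂P, ∀ᵐ x ∂μ, Tendsto (fun N : ℕ => (N : ℝ)⁻¹ * ∑ n ∈ range N,
      c n x * (∏ j, f j ((R j)^[ξ n ω j] (g j n x)) -
        ∏ j, (μ[f j | MeasurableSpace.invariants (R j)]) (g j n x))) atTop (𝓝 0) := by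
  obtain ⟨C, hC, hfC⟩ := bounds μ f hf
  have hC0 : 0 ≤ C := by linarith
  choose f' hf'm hf'b hf'e using fun j => trunc μ (f j) (hf j).1 C hC0 (hfC j)
  obtain ⟨l, hl0, hl⟩ := main3.{u, v} μ m R hR f' hf'm C hC hf'b
  refine ⟨l, hl0, fun g hg L hLl Ω _ P _ ξ hm hind hu c hc => ?_⟩
  choose c' hc'm hc'b hc'e using fun n => trunc μ (c n) (hc n).1 1 (by norm_num) (hc n).2
  have h0 := hl g hg L hLl Ω P ξ hm hind hu c' hc'm (fun n x => (hc'b n x).trans hC)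
  have h1 : ∀ᵐ x ∂μ, ∀ j n t, f j ((R j)^[t] (g j n x)) = f' j ((R j)^[t] (g j n x)) := by
    rw [ae_all_iff]
    intro j
    rw [ae_all_iff]
    intro n
    rw [ae_all_iff]
    exact fun t => (((hR j).iterate t).comp (hg j n)).quasiMeasurePreserving.ae (hf'e j)
  have h2 : ∀ᵐ x ∂μ, ∀ j n, (μ[f j | MeasurableSpace.invariants (R j)]) (g j n x) =
      (μ[f' j | MeasurableSpace.invariants (R j)]) (g j n x) := by
    rw [ae_all_iff]
    intro j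
    rw [ae_all_iff]
    exact fun n => (hg j n).quasiMeasurePreserving.ae (condExp_congr_ae (hf'e j))
  have h3 : ∀ᵐ x ∂μ, ∀ n, c n x = c' n x := by
    rw [ae_all_iff]
    exact hc'e
  filter_upwards [h0] with ω hω
  filter_upwards [hω, h1, h2, h3] with x k0 k1 k2 k3
  refine k0.congr fun N => ?_
  congr 1
  refine Finset.sum_congr rfl fun n _ => ?_
  rw [k3 n, Finset.prod_congr rfl fun j _ => k1 j n _, Finset.prod_congr rfl fun j _ => k2 j n]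

end Pool.Agent.Run7.h274.Del
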