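import Pool.Agent.Run7.h274.BoxLLN
import Pool.Agent.Run7.h274.DelFin

set_option autoImplicit false

namespace Pool.Agent.Run7.h274.Del

open Filter Topology MeasureTheory ProbabilityTheory Finset

universe u v

section

variable {Ω : Type*} [MeasurableSpace Ω] {P : Measure Ω} [IsProbabilityMeasure P]
variable {ι J : Type*} [Countable J]

theorem pointS {m : ℕ} (S : J → Finset ι) (hS : Wide S) (ξ : ι → Ω → Fin m → ℕ)
    (hm : ∀ n, Measurable (ξ n)) (hind : iIndepFun ξ P)
    (L : Fin m → ι → ℕ) (hL : ∀ j n, 0 < L j n)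
    (hu : ∀ n, ∀ v : Fin m → ℕ, (∀ j, v j < L j n) → P.real {ω | ξ n ω = v} = ∏ j, (L j n : ℝ)⁻¹)
    (u : Fin m → ι → ℕ → ℝ) (C : ℝ) (hC : 1 ≤ C) (hub : ∀ j n t, |u j n t| ≤ C)
    (c : ι → ℝ) (hc : ∀ n, |c n| ≤ C) :
    ∀ᵐ ω ∂P, Tendsto (fun M => ((S M).card : ℝ)⁻¹ * ∑ n ∈ S M,
      c n * (∏ j, u j n (ξ n ω j) - ∏ j, mean (L j n) (u j n))) cofinite (𝓝 0) := by
  set g : ι → (Fin m → ℕ) → ℝ := fun n v =>
    c n * (∏ j, u j n (v j) - ∏ j, mean (L j n) (u j n)) with hg
  have hgm : ∀ n, Measurable (g n) := fun n => Measurable.of_discrete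
  have hC0 : 0 ≤ C := by linarith
  have hpb : ∀ y : Fin m → ℝ, (∀ j, |y j| ≤ C) → |∏ j, y j| ≤ C ^ m := by
    intro y hy
    rw [Finset.abs_prod]
    refine (Finset.prod_le_prod (fun _ _ => abs_nonneg _) fun j _ => hy j).trans ?_
    simp
  have hgb : ∀ n v, |g n v| ≤ C * (2 * C ^ m) := by
    intro n v
    have k1 := hpb (fun j => u j n (v j)) fun j => hub j n _
    have k2 := hpb (fun j => mean (L j n) (u j n)) fun j => mean_abs hC0 (hub j n)
    rw [hg]
    simp only
    rw [abs_mul]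
    exact mul_le_mul (hc n) ((abs_sub _ _).trans (by linarith)) (abs_nonneg _) hC0
  refine llnS S hS (fun n ω => g n (ξ n ω)) (fun n => (hgm n).comp (hm n))
    (hind.comp g hgm) (C * (2 * C ^ m)) (by positivity) (fun n ω => hgb n _) fun n => ?_
  have hi : Integrable (fun ω => ∏ j, u j n (ξ n ω j)) P := by
    refine Integrable.of_bound (C := C ^ m) ?_ ?_
    · have : Measurable (fun v : Fin m → ℕ => ∏ j, u j n (v j)) := Measurable.of_discrete
      exact (this.comp (hm n)).aestronglyMeasurable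
    · exact Eventually.of_forall fun ω => by
        rw [Real.norm_eq_abs]; exact hpb _ fun j => hub j n _
  rw [hg]
  simp only
  rw [integral_const_mul, integral_sub hi (integrable_const _), integral_const, probReal_univ,
    one_smul,
    unif (ξ n) (hm n) (fun j => L j n) (fun j => hL j n) (hu n) (fun j b => u j n b)]
  simp [mean]

theorem randS {X : Type*} [MeasurableSpace X] (μ : Measure X) [IsProbabilityMeasure μ]
    {m : ℕ} (S : J → Finset ι) (hS : Wide S) (ξ : ι → Ω → Fin m → ℕ) (hm : ∀ n, Measurable (ξ n))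
    (hind : iIndepFun ξ P) (L : Fin m → ι → ℕ) (hL : ∀ j n, 0 < L j n)
    (hu : ∀ n, ∀ v : Fin m → ℕ, (∀ j, v j < L j n) → P.real {ω | ξ n ω = v} = ∏ j, (L j n : ℝ)⁻¹)
    (u : Fin m → ι → ℕ → X → ℝ) (hum : ∀ j n t, Measurable (u j n t))
    (C : ℝ) (hC : 1 ≤ C) (hub : ∀ j n t x, |u j n t x| ≤ C)
    (c : ι → X → ℝ) (hcm : ∀ n, Measurable (c n)) (hc : ∀ n x, |c n x| ≤ C) :
    ∀ᵐ ω ∂P, ∀ᵐ x ∂μ, Tendsto (fun M => ((S M).card : ℝ)⁻¹ * ∑ n ∈ S M,
      c n x * (∏ j, u j n (ξ n ω j) x - ∏ j, mean (L j n) (fun t => u j n t x)))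
        cofinite (𝓝 0) := by
  have hmeas : ∀ M : J, Measurable (fun z : Ω × X => ((S M).card : ℝ)⁻¹ * ∑ n ∈ S M,
      c n z.2 * (∏ j, u j n (ξ n z.1 j) z.2 -
        ∏ j, mean (L j n) (fun t => u j n t z.2))) := by
    intro N
    have k1 : ∀ j n, Measurable (fun p : ℕ × X => u j n p.1 p.2) := fun j n =>
      measurable_from_prod_countable_right fun k => hum j n k
    have k2 : ∀ n j, Measurable (fun z : Ω × X => u j n (ξ n z.1 j) z.2) := by
      intro n j
      have e1 : Measurable (fun z : Ω × X => ((ξ n z.1 j : ℕ), z.2)) := by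
        refine Measurable.prodMk ?_ measurable_snd
        have : Measurable (fun ω : Ω => ξ n ω j) := (measurable_pi_apply j).comp (hm n)
        exact this.comp measurable_fst
      exact (k1 j n).comp e1
    have k3 : ∀ n j, Measurable (fun z : Ω × X => mean (L j n) (fun t => u j n t z.2)) := by
      intro n j
      unfold mean
      refine (Finset.measurable_fun_sum _ fun b _ => ?_).const_mul _
      exact (hum j n b).comp measurable_snd
    refine (Finset.measurable_fun_sum _ fun n _ => ?_).const_mul _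
    exact ((hcm n).comp measurable_snd).mul
      ((Finset.measurable_fun_prod _ fun j _ => k2 n j).sub
        (Finset.measurable_fun_prod _ fun j _ => k3 n j))
  have : (cofinite : Filter J).IsCountablyGenerated := cof_gen
  rw [Measure.ae_ae_comm (measurableSet_tendsto _ hmeas)]
  refine Eventually.of_forall fun x => ?_
  exact pointS S hS ξ hm hind L hL hu (fun j n t => u j n t x) C hC (fun j n t => hub j n t x)
      (fun n => c n x) (fun n => hc n x)

end

/-- windows of the size of the times -/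
theorem mean_window {ι : Type*} (u : ℕ → ℝ) (G : ℝ)
    (hG : Tendsto (fun N : ℕ => (N : ℝ)⁻¹ * ∑ t ∈ range N, u t) atTop (𝓝 G)) (a L : ι → ℕ) (K : ℕ)
    (hL : ∀ i, 0 < L i) (hLt : Tendsto L cofinite atTop) (ha : ∀ i, a i ≤ K * L i) :
    Tendsto (fun i => mean (L i) (fun b => u (a i + b))) cofinite (𝓝 G) := by
  rw [Metric.tendsto_nhds]
  intro ε hε
  set δ : ℝ := ε / (2 * (2 * K + 1)) with hδ
  have hδ0 : 0 < δ := by positivity
  rw [Metric.tendsto_atTop] at hG
  obtain ⟨n0, hn0⟩ := hG δ hδ0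
  set s : ℕ → ℝ := fun n => ∑ t ∈ range n, u t - n * G with hs
  set D : ℝ := ∑ n ∈ range (n0 + 1), |s n| with hD
  have hD0 : 0 ≤ D := Finset.sum_nonneg fun i _ => abs_nonneg _
  have hsb : ∀ n, |s n| ≤ δ * n + D := by
    intro n
    by_cases hn : n ≤ n0
    · have h1 : |s n| ≤ D :=
        Finset.single_le_sum (f := fun n => |s n|) (fun j _ => abs_nonneg _)
          (Finset.mem_range.2 (by omega))
      have h2 : 0 ≤ δ * n := by positivity
      linarith
    · have hn' : (0:ℝ) < n := by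
        have : 0 < n := by omega
        exact_mod_cast this
      have h1 := (hn0 n (by omega)).le
      rw [Real.dist_eq] at h1
      have h2 : s n = n * ((n : ℝ)⁻¹ * ∑ t ∈ range n, u t - G) := by
        simp only [hs]
        field_simp
      rw [h2, abs_mul, Nat.abs_cast]
      nlinarith
  have h3 := (tendsto_natCast_atTop_atTop (R := ℝ)).comp hLt
  filter_upwards [h3.eventually_gt_atTop (4 * D / ε)] with i hi
  have hLi : (0:ℝ) < L i := by exact_mod_cast hL i
  rw [Function.comp_apply, div_lt_iff₀ hε] at hi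
  have e1 : mean (L i) (fun b => u (a i + b)) - G = (L i : ℝ)⁻¹ * (s (a i + L i) - s (a i)) := by
    have e2 : ∑ t ∈ range (a i + L i), u t =
        ∑ t ∈ range (a i), u t + ∑ b ∈ range (L i), u (a i + b) := Finset.sum_range_add _ _ _
    simp only [mean, hs]
    rw [e2]
    push_cast
    field_simp
    ring
  rw [Real.dist_eq, e1, abs_mul, abs_inv, Nat.abs_cast, inv_mul_lt_iff₀ hLi]
  have h4 := hsb (a i + L i)
  have h5 := hsb (a i)
  have h6 := abs_sub (s (a i + L i)) (s (a i))
  have h7 : (a i : ℝ) ≤ K * L i := by exact_mod_cast ha i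
  push_cast at h4
  have h8 : |s (a i + L i) - s (a i)| ≤ δ * ((2 * K + 1) * L i) + 2 * D := by nlinarith
  have h9 : δ * ((2 * K + 1) * L i) = ε / 2 * L i := by
    rw [hδ]; field_simp
  rw [h9] at h8
  nlinarith

/-- arbitrary times, windows of the size of the times, averages along wide families -/
theorem boxes1 {Ω : Type v} {X : Type u} [MeasurableSpace Ω] [MeasurableSpace X] (P : Measure Ω)
    [IsProbabilityMeasure P] (μ : Measure X) [IsProbabilityMeasure μ] {ι J : Type} [Countable J]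
    (S : J → Finset ι) (hS : Wide S) (m : ℕ)
    (T : Fin m → X → X) (hT : ∀ j, MeasurePreserving (T j) μ μ)
    (f : Fin m → X → ℝ) (hf : ∀ j, Measurable (f j)) (C : ℝ) (hC : 1 ≤ C)
    (hb : ∀ j x, |f j x| ≤ C)
    (a L : Fin m → ι → ℕ) (K : ℕ) (hL : ∀ j n, 0 < L j n) (hLt : ∀ j, Tendsto (L j) cofinite atTop)
    (ha : ∀ j i, a j i ≤ K * L j i)
    (ξ : ι → Ω → Fin m → ℕ) (hm : ∀ n, Measurable (ξ n)) (hind : iIndepFun ξ P)
    (hu : ∀ n, ∀ v : Fin m → ℕ, (∀ j, v j < L j n) → P.real {ω | ξ n ω = v} = ∏ j, (L j n : ℝ)⁻¹)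
    (c : ι → X → ℝ) (hcm : ∀ n, Measurable (c n)) (hc : ∀ n x, |c n x| ≤ C) :
    ∀ᵐ ω ∂P, ∀ᵐ x ∂μ, Tendsto (fun M => ((S M).card : ℝ)⁻¹ * ∑ n ∈ S M,
      c n x * (∏ j, f j ((T j)^[a j n + ξ n ω j] x) -
        ∏ j, (μ[f j | MeasurableSpace.invariants (T j)]) x)) cofinite (𝓝 0) := by
  have hC0 : 0 ≤ C := by linarith
  have hbirk : ∀ᵐ x ∂μ, ∀ j, Tendsto (fun n : ℕ => (n : ℝ)⁻¹ * ∑ k ∈ range n, f j ((T j)^[k] x))
      atTop (𝓝 ((μ[f j | MeasurableSpace.invariants (T j)]) x)) := by
    rw [ae_all_iff]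
    exact fun j => Pool.Agent.H165R3.BPE.birkhoff (hT j) (f j) (hf j) C (hb j)
  have h2 := randS (P := P) μ S hS ξ hm hind L hL hu (fun j n b x => f j ((T j)^[a j n + b] x))
      (fun j n b => (hf j).comp ((hT j).measurable.iterate _)) C hC (fun j n b x => hb j _) c hcm hc
  filter_upwards [h2] with ω hω
  filter_upwards [hω, hbirk] with x hx hx1
  have hGb : ∀ j, |(μ[f j | MeasurableSpace.invariants (T j)]) x| ≤ C := fun j =>
    le_of_tendsto' (hx1 j).abs fun H => av_bound (T j) (f j) C hC0 (hb j) H x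
  have h1 : ∀ j, Tendsto (fun i => |mean (L j i) (fun b => f j ((T j)^[a j i + b] x)) -
      (μ[f j | MeasurableSpace.invariants (T j)]) x|) cofinite (𝓝 0) := by
    intro j
    have k1 := mean_window (fun t => f j ((T j)^[t] x)) _ (hx1 j) (a j) (L j) K (hL j) (hLt j) (ha j)
    have k2 := (k1.sub_const ((μ[f j | MeasurableSpace.invariants (T j)]) x)).abs
    simpa using k2
  have h4 : Tendsto (fun n => c n x * (∏ j, mean (L j n) (fun b => f j ((T j)^[a j n + b] x)) -
      ∏ j, (μ[f j | MeasurableSpace.invariants (T j)]) x)) cofinite (𝓝 0) := by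
    have h5 : Tendsto (fun n => C * (C ^ m * ∑ j, |mean (L j n) (fun b => f j ((T j)^[a j n + b] x)) -
        (μ[f j | MeasurableSpace.invariants (T j)]) x|)) cofinite (𝓝 0) := by
      have := ((tendsto_finsetSum (univ : Finset (Fin m))
        fun j _ => h1 j).const_mul (C ^ m)).const_mul C
      simpa using this
    refine squeeze_zero_norm (fun n => ?_) h5
    rw [Real.norm_eq_abs, abs_mul]
    refine mul_le_mul (hc n x) ?_ (abs_nonneg _) hC0
    have := prod_sub (univ : Finset (Fin m))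
      (fun j => mean (L j n) (fun b => f j ((T j)^[a j n + b] x)))
      (fun j => (μ[f j | MeasurableSpace.invariants (T j)]) x) C hC
      (fun j => mean_abs hC0 fun t => hb j _) (fun j => hGb j)
    simpa using this
  have h3 := null_avg S hS _ h4
  have h6 := hx.add h3
  rw [add_zero] at h6
  refine h6.congr fun N => ?_
  rw [← mul_add, ← Finset.sum_add_distrib]
  congr 1
  refine Finset.sum_congr rfl fun n _ => ?_
  ring

end Pool.Agent.Run7.h274.Del
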