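import Mathlib

/-!
Words in bounded multiples of a real number: the counting form of Mahler's theorem.
-/

set_option autoImplicit false

namespace Pool.Agent.Run7.h274.WM

open Finset

/-- One good place: if `t` has an approximation `p / q` with `4 B ≤ q ≤ M` and
`|t - p / q| ≤ 1 / ((M + 1) q)`, then at least `M / (8 B)` of the `m ∈ [1, M]` have the word with
value `W` right behind the point of `m t`. -/
lemma block_count {B M q W : ℕ} (hB : 1 ≤ B) (hW : W < B) (hq : 4 * B ≤ q) (hqM : q ≤ M)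
    (t : ℝ) (p : ℤ) (hco : IsCoprime p (q : ℤ))
    (hδ : |t - p / q| ≤ 1 / (((M : ℝ) + 1) * q)) :
    M ≤ 8 * B * ((Icc 1 M).filter (fun m : ℕ => ⌊(B : ℝ) * ((m : ℝ) * t)⌋ % (B : ℤ) = (W : ℤ))).card := by
  classical
  have hq0 : 0 < q := by omega
  have hqz : (0 : ℤ) < q := by exact_mod_cast hq0
  obtain ⟨u, v, huv⟩ := hco
  -- the set of residues
  set C : Finset ℕ := Finset.Ico (W * q / B + 2) ((W + 1) * q / B) with hC
  -- the multiplier with residue c
  set f : ℕ → ℕ := fun c => (((u * c - 1) % (q : ℤ)).toNat) with hf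
  have hf0 : ∀ c, ((f c : ℕ) : ℤ) = (u * c - 1) % (q : ℤ) := by
    intro c
    simp only [hf]
    exact Int.toNat_of_nonneg (Int.emod_nonneg _ hqz.ne')
  have hflt : ∀ c, f c < q := by
    intro c
    have := Int.emod_lt_of_pos (u * c - 1) hqz
    rw [← hf0] at this
    exact_mod_cast this
  have hfp : ∀ c : ℕ, ∃ z : ℤ, ((f c : ℤ) + 1) * p = c + q * z := by
    intro c
    have h1 := Int.emod_add_mul_ediv (u * c - 1) (q : ℤ)
    rw [← hf0] at h1
    refine ⟨-((u * c - 1) / (q : ℤ)) * p - c * v, ?_⟩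
    have h2 : (f c : ℤ) + 1 = u * c - q * ((u * c - 1) / (q : ℤ)) := by linarith
    rw [h2]
    have h3 : u * p = 1 - v * q := by linarith
    calc (u * ↑c - ↑q * ((u * ↑c - 1) / ↑q)) * p
        = c * (u * p) - q * ((u * c - 1) / (q : ℤ)) * p := by ring
      _ = c * (1 - v * q) - q * ((u * c - 1) / (q : ℤ)) * p := by rw [h3]
      _ = c + q * (-((u * c - 1) / (q : ℤ)) * p - c * v) := by ring
  have hBR : (0 : ℝ) < B := by exact_mod_cast hB
  have hqR : (0 : ℝ) < q := by exact_mod_cast hq0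
  have hBz : (0 : ℤ) < B := by exact_mod_cast hB
  -- the injection
  have hinj : #((range (M / q)) ×ˢ C) ≤
      ((Icc 1 M).filter (fun m : ℕ => ⌊(B : ℝ) * ((m : ℝ) * t)⌋ % (B : ℤ) = (W : ℤ))).card := by
    refine Finset.card_le_card_of_injOn (fun x => x.1 * q + (f x.2 + 1)) ?_ ?_
    · rintro ⟨j, c⟩ hx
      rw [Finset.mem_coe, Finset.mem_product, Finset.mem_range, hC, Finset.mem_Ico] at hx
      obtain ⟨hj, hc1, hc2⟩ := hx
      simp only at hj hc1 hc2 ⊢
      have hm : j * q + (f c + 1) ≤ M := by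
        have h1 : (j + 1) * q ≤ M := by
          calc (j + 1) * q ≤ (M / q) * q := Nat.mul_le_mul_right _ hj
            _ ≤ M := Nat.div_mul_le_self M q
        have h2 := hflt c
        nlinarith
      rw [Finset.mem_coe, Finset.mem_filter, Finset.mem_Icc]
      refine ⟨⟨by omega, hm⟩, ?_⟩
      obtain ⟨z, hz⟩ := hfp c
      set m : ℕ := j * q + (f c + 1) with hmdef
      -- c bounds
      have hcB1 : W * q + B ≤ c * B := by
        have h1 : W * q < B * (W * q / B + 1) := Nat.lt_mul_div_succ _ (by omega)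
        have h2 : B * (W * q / B + 1 + 1) ≤ B * c := Nat.mul_le_mul_left _ hc1
        nlinarith
      have hcB2 : c * B + B ≤ (W + 1) * q := by
        have h1 : (c + 1) * B ≤ ((W + 1) * q / B) * B := Nat.mul_le_mul_right _ hc2
        have h2 := Nat.div_mul_le_self ((W + 1) * q) B
        nlinarith
      have hmp : (m : ℤ) * p = c + q * (z + j * p) := by
        rw [hmdef]; push_cast
        linarith
      set δ : ℝ := t - p / q with hδdef
      have ht : t = p / q + δ := by rw [hδdef]; ring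
      have hmt : (B : ℝ) * ((m : ℝ) * t) =
          ((B * (z + j * p) : ℤ) : ℝ) + ((B : ℝ) * c / q + B * (m * δ)) := by
        have h1 : (m : ℝ) * p = c + q * (z + j * p) := by exact_mod_cast hmp
        rw [ht, mul_add]
        have h2 : (m : ℝ) * (p / q) = c / q + (z + j * p) := by
          rw [← mul_div_assoc, h1]
          field_simp
        rw [h2]; push_cast; ring
      have hmδ : |(B : ℝ) * (m * δ)| < B / q := by
        rw [abs_mul, abs_mul, abs_of_pos hBR, abs_of_nonneg (Nat.cast_nonneg m), div_eq_mul_one_div]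
        refine mul_lt_mul_of_pos_left ?_ hBR
        have hmR : (m : ℝ) ≤ M := by exact_mod_cast hm
        have hM1 : (0 : ℝ) < (M : ℝ) + 1 := by positivity
        calc (m : ℝ) * |δ| ≤ M * (1 / (((M : ℝ) + 1) * q)) :=
              mul_le_mul hmR hδ (abs_nonneg _) (Nat.cast_nonneg M)
          _ < (M + 1) * (1 / (((M : ℝ) + 1) * q)) := by
              refine mul_lt_mul_of_pos_right (by linarith) (by positivity)
          _ = 1 / q := by field_simp
      have hw1 : (W : ℝ) ≤ (B : ℝ) * c / q + B * (m * δ) := by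
        have h1 : ((W * q + B : ℕ) : ℝ) ≤ ((c * B : ℕ) : ℝ) := by exact_mod_cast hcB1
        push_cast at h1
        have h2 := (abs_lt.1 hmδ).1
        have h3 : (W : ℝ) + B / q ≤ (B : ℝ) * c / q := by
          rw [le_div_iff₀ hqR]
          have : ((W : ℝ) + B / q) * q = W * q + B := by field_simp
          rw [this]; linarith
        linarith
      have hw2 : (B : ℝ) * c / q + B * (m * δ) < W + 1 := by
        have h1 : ((c * B + B : ℕ) : ℝ) ≤ (((W + 1) * q : ℕ) : ℝ) := by exact_mod_cast hcB2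
        push_cast at h1
        have h2 := (abs_lt.1 hmδ).2
        have h3 : (B : ℝ) * c / q + B / q ≤ W + 1 := by
          rw [← add_div, div_le_iff₀ hqR]
          linarith
        linarith
      have hfl : ⌊(B : ℝ) * c / q + B * (m * δ)⌋ = (W : ℤ) := by
        rw [Int.floor_eq_iff]
        push_cast
        exact ⟨hw1, hw2⟩
      rw [hmt, Int.floor_intCast_add, hfl, Int.mul_add_emod_self_left]
      exact Int.emod_eq_of_lt (by positivity) (by exact_mod_cast hW)
    · rintro ⟨j, c⟩ hx ⟨j', c'⟩ hx' hE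
      rw [Finset.mem_coe, Finset.mem_product, Finset.mem_range, hC, Finset.mem_Ico] at hx hx'
      simp only at hx hx' hE
      have h1 := hflt c
      have h2 := hflt c'
      have hjj : j = j' := by
        rcases lt_trichotomy j j' with h | h | h
        · exfalso
          have : (j + 1) * q ≤ j' * q := Nat.mul_le_mul_right _ h
          nlinarith
        · exact h
        · exfalso
          have : (j' + 1) * q ≤ j * q := Nat.mul_le_mul_right _ h
          nlinarith
      subst hjj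
      have hff : f c = f c' := by omega
      obtain ⟨z, hz⟩ := hfp c
      obtain ⟨z', hz'⟩ := hfp c'
      rw [hff] at hz
      have h3 : (c : ℤ) - c' = q * (z' - z) := by linarith
      have hcq : ∀ d : ℕ, d < (W + 1) * q / B → d < q := by
        intro d hd
        refine lt_of_lt_of_le hd ?_
        refine Nat.div_le_of_le_mul ?_
        exact Nat.mul_le_mul_right _ hW
      have hc1 := hcq c hx.2.2
      have hc2 := hcq c' hx'.2.2
      have h4 : z' - z = 0 := by
        by_contra hne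
        have h5 : (1 : ℤ) ≤ |z' - z| := Int.one_le_abs hne
        have h6 : |(c : ℤ) - c'| < q := by
          rw [abs_lt]; constructor <;> omega
        rw [h3, abs_mul, abs_of_pos hqz] at h6
        nlinarith
      rw [h4] at h3
      have : c = c' := by omega
      rw [this]
  rw [Finset.card_product, Finset.card_range, hC, Nat.card_Ico] at hinj
  -- estimates
  have hCq : q ≤ 4 * B * ((W + 1) * q / B - (W * q / B + 2)) := by
    have h1 : (W + 1) * q < B * ((W + 1) * q / B + 1) := Nat.lt_mul_div_succ _ (by omega)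
    have h2 : B * (W * q / B) ≤ W * q := Nat.mul_div_le _ _
    have h3 : W * q / B + 2 ≤ (W + 1) * q / B := by
      by_contra h
      push Not at h
      have : B * ((W + 1) * q / B + 1) ≤ B * (W * q / B + 2) := Nat.mul_le_mul_left _ (by omega)
      nlinarith
    obtain ⟨s, hs⟩ := Nat.exists_eq_add_of_le h3
    rw [hs, Nat.add_sub_cancel_left]
    rw [hs] at h1
    nlinarith
  have hMq : M ≤ 2 * ((M / q) * q) := by
    have h1 : M < q * (M / q + 1) := Nat.lt_mul_div_succ _ hq0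
    have h2 : 1 ≤ M / q := (Nat.one_le_div_iff hq0).2 hqM
    nlinarith
  calc M ≤ 2 * ((M / q) * q) := hMq
    _ ≤ 2 * ((M / q) * (4 * B * ((W + 1) * q / B - (W * q / B + 2)))) := by gcongr
    _ = 8 * B * ((M / q) * ((W + 1) * q / B - (W * q / B + 2))) := by ring
    _ ≤ _ := by gcongr

/-- a rational approximation of `t` with denominator at most `M` -/
noncomputable def ap (M : ℕ) (t : ℝ) : ℚ :=
  if h : 0 < M then Classical.choose (Real.exists_rat_abs_sub_le_and_den_le t h) else 0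

lemma ap_spec {M : ℕ} (hM : 0 < M) (t : ℝ) :
    |t - ap M t| ≤ 1 / (((M : ℝ) + 1) * (ap M t).den) ∧ (ap M t).den ≤ M := by
  unfold ap
  rw [dif_pos hM]
  exact Classical.choose_spec (Real.exists_rat_abs_sub_le_and_den_le t hM)

/-- the place `k` is good for `x` -/
def Good (b B M : ℕ) (x : ℝ) (k : ℕ) : Prop := 4 * B ≤ (ap M ((b : ℝ) ^ k * x)).den

/-- Good places serve all words. -/
lemma good_count {b B M W : ℕ} (hB : 1 ≤ B) (hW : W < B) (hM : 0 < M) (x : ℝ) (k : ℕ)
    (hk : Good b B M x k) :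
    M ≤ 8 * B * ((Icc 1 M).filter (fun m : ℕ => ⌊(B : ℝ) * ((m : ℝ) * ((b : ℝ) ^ k * x))⌋ % (B : ℤ) = (W : ℤ))).card := by
  obtain ⟨h1, h2⟩ := ap_spec hM ((b : ℝ) ^ k * x)
  refine block_count hB hW hk h2 _ (ap M ((b : ℝ) ^ k * x)).num ?_ ?_
  · rw [Int.isCoprime_iff_gcd_eq_one]
    have := (ap M ((b : ℝ) ^ k * x)).reduced
    rw [Int.gcd, Int.natAbs_natCast]
    exact this
  · rw [Rat.cast_def] at h1
    exact h1

/-- two consecutive bad places -/
lemma bad_step {b B M : ℕ} (hM : 4 * (b + 1) * B ≤ M) (hB : 1 ≤ B) (t : ℝ)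
    (h0 : (ap M t).den < 4 * B) (h1 : (ap M ((b : ℝ) * t)).den < 4 * B) :
    ap M ((b : ℝ) * t) = b * ap M t := by
  have hM0 : 0 < M := by nlinarith
  obtain ⟨a1, -⟩ := ap_spec hM0 t
  obtain ⟨a2, -⟩ := ap_spec hM0 ((b : ℝ) * t)
  set r := ap M t
  set r' := ap M ((b : ℝ) * t)
  by_contra hne
  have hne' : r' - b * r ≠ 0 := sub_ne_zero.2 hne
  -- lower bound
  have hd : (0 : ℚ) < (r.den : ℚ) := by exact_mod_cast r.pos
  have hd' : (0 : ℚ) < (r'.den : ℚ) := by exact_mod_cast r'.pos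
  have hlow : (1 : ℚ) ≤ |(r' - b * r) * (r'.den * r.den)| := by
    have e : (r' - b * r) * (r'.den * r.den) =
        ((r'.num * r.den - b * r.num * r'.den : ℤ) : ℚ) := by
      push_cast
      have e1 : r' * r'.den = r'.num := Rat.mul_den_eq_num r'
      have e2 : r * r.den = r.num := Rat.mul_den_eq_num r
      rw [← e1, ← e2]; ring
    have hne2 : (r'.num * r.den - b * r.num * r'.den : ℤ) ≠ 0 := by
      intro h
      rw [h, Int.cast_zero] at e
      rcases mul_eq_zero.1 e with h' | h'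
      · exact hne' h'
      · exact (mul_pos hd' hd).ne' h'
    rw [e, ← Int.cast_abs]
    exact_mod_cast Int.one_le_abs hne2
  have hlowR : (1 : ℝ) ≤ |((r' : ℝ) - b * r) * (r'.den * r.den)| := by exact_mod_cast hlow
  have hM1 : (0 : ℝ) < (M : ℝ) + 1 := by positivity
  have hdR : (0 : ℝ) < (r.den : ℝ) := by exact_mod_cast r.pos
  have hdR' : (0 : ℝ) < (r'.den : ℝ) := by exact_mod_cast r'.pos
  have hup : |(r' : ℝ) - b * r| ≤ 1 / (((M : ℝ) + 1) * r'.den) + b * (1 / (((M : ℝ) + 1) * r.den)) := by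
    have e : (r' : ℝ) - b * r = -((b : ℝ) * t - r') + b * (t - r) := by ring
    rw [e]
    refine (abs_add_le _ _).trans (add_le_add ?_ ?_)
    · rw [abs_neg]; exact a2
    · rw [abs_mul, Nat.abs_cast]
      exact mul_le_mul_of_nonneg_left a1 (Nat.cast_nonneg b)
  have hfin : |((r' : ℝ) - b * r) * (r'.den * r.den)| < 1 := by
    rw [abs_mul, abs_of_pos (mul_pos hdR' hdR)]
    have h2 : |(r' : ℝ) - b * r| * (r'.den * r.den) ≤
        (1 / (((M : ℝ) + 1) * r'.den) + b * (1 / (((M : ℝ) + 1) * r.den))) * (r'.den * r.den) :=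
      mul_le_mul_of_nonneg_right hup (by positivity)
    refine lt_of_le_of_lt h2 ?_
    have e : (1 / (((M : ℝ) + 1) * r'.den) + b * (1 / (((M : ℝ) + 1) * r.den))) *
        (r'.den * r.den) = (r.den + b * r'.den) / ((M : ℝ) + 1) := by
      field_simp
    rw [e, div_lt_one hM1]
    have h3 : r.den + b * r'.den < M + 1 := by
      have h4 : b * r'.den ≤ b * (4 * B) := Nat.mul_le_mul_left _ h1.le
      nlinarith
    exact_mod_cast h3
  linarith

/-- a run of bad places -/
lemma bad_run {b B M : ℕ} (hM : 4 * (b + 1) * B ≤ M) (hB : 1 ≤ B) (x : ℝ) (k h : ℕ)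
    (hbad : ∀ i ≤ h, ¬ Good b B M x (k + i)) :
    ap M ((b : ℝ) ^ (k + h) * x) = (b : ℚ) ^ h * ap M ((b : ℝ) ^ k * x) := by
  induction h with
  | zero => simp
  | succ h ih =>
    have h1 := ih fun i hi => hbad i (by omega)
    have h2 := hbad h (by omega)
    have h3 := hbad (h + 1) le_rfl
    unfold Good at h2 h3
    push Not at h2 h3
    have e : (b : ℝ) ^ (k + (h + 1)) * x = b * ((b : ℝ) ^ (k + h) * x) := by
      rw [← add_assoc, pow_succ]; ring
    rw [e] at h3 ⊢
    rw [bad_step hM hB _ h2 h3, h1, pow_succ]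
    ring

/-- the digits of `y` behind the `k`-th and the `(k+1)`-st place are different -/
def Chg (b : ℕ) (y : ℝ) (k : ℕ) : Prop :=
  ⌊(b : ℝ) ^ (k + 1) * y⌋ % (b : ℤ) ≠ ⌊(b : ℝ) ^ (k + 2) * y⌋ % (b : ℤ)

lemma no_chg {b : ℕ} (hb : 2 ≤ b) {y : ℝ} {k : ℕ} {n : ℤ}
    (h : |(b : ℝ) ^ k * y - n| < 1 / (b : ℝ) ^ 2) : ¬ Chg b y k := by
  unfold Chg
  push Not
  have hbR : (2 : ℝ) ≤ b := by exact_mod_cast hb
  have hb0 : (0 : ℝ) < b := by linarith
  set ε : ℝ := (b : ℝ) ^ k * y - n with hε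
  have e1 : (b : ℝ) ^ (k + 1) * y = ((b * n : ℤ) : ℝ) + b * ε := by
    rw [hε, pow_succ]; push_cast; ring
  have e2 : (b : ℝ) ^ (k + 2) * y = ((b * (b * n) : ℤ) : ℝ) + b ^ 2 * ε := by
    rw [hε, pow_add]; push_cast; ring
  rw [abs_lt] at h
  obtain ⟨h1, h2⟩ := h
  have hb2 : (0 : ℝ) < (b : ℝ) ^ 2 := by positivity
  have h3 : (b : ℝ) ^ 2 * ε < 1 := by
    have := mul_lt_mul_of_pos_left h2 hb2
    rwa [mul_one_div_cancel hb2.ne'] at this
  have h4 : -1 < (b : ℝ) ^ 2 * ε := by
    have := mul_lt_mul_of_pos_left h1 hb2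
    rw [mul_neg, mul_one_div_cancel hb2.ne'] at this
    exact this
  rw [e1, e2, Int.floor_intCast_add, Int.floor_intCast_add, Int.mul_add_emod_self_left,
    Int.mul_add_emod_self_left]
  congr 1
  rcases le_or_gt 0 ε with h0 | h0
  · have a1 : ⌊(b : ℝ) ^ 2 * ε⌋ = 0 := by
      rw [Int.floor_eq_iff]; push_cast
      exact ⟨by positivity, by linarith⟩
    have a2 : ⌊(b : ℝ) * ε⌋ = 0 := by
      rw [Int.floor_eq_iff]; push_cast
      refine ⟨by positivity, ?_⟩
      have : (b : ℝ) * ε ≤ b ^ 2 * ε := mul_le_mul_of_nonneg_right (by nlinarith) h0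
      linarith
    rw [a1, a2]
  · have a1 : ⌊(b : ℝ) ^ 2 * ε⌋ = -1 := by
      rw [Int.floor_eq_iff]; push_cast
      refine ⟨by linarith, ?_⟩
      have : (b : ℝ) ^ 2 * ε < 0 := mul_neg_of_pos_of_neg hb2 h0
      linarith
    have a2 : ⌊(b : ℝ) * ε⌋ = -1 := by
      rw [Int.floor_eq_iff]; push_cast
      have h5 : (b : ℝ) * ε < 0 := mul_neg_of_pos_of_neg hb0 h0
      have h6 : (b : ℝ) ^ 2 * ε ≤ b * ε := by
        nlinarith
      exact ⟨by linarith, by linarith⟩
    rw [a1, a2]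

/-- behind a digit change of `R x` there is soon a good place of `x` -/
lemma chg_good {b B M R h : ℕ} (hb : 2 ≤ b) (hB : b ≤ B) (hM : 4 * (b + 1) * B ≤ M)
    (hR : ∀ q, 1 ≤ q → q < 4 * B → q ∣ R) (hRh : R ≤ b ^ h) (x : ℝ) (k : ℕ)
    (hc : Chg b ((R : ℝ) * x) k) : ∃ i ≤ h, Good b B M x (k + i) := by
  by_contra hcon
  push Not at hcon
  have hB1 : 1 ≤ B := by omega
  have hM0 : 0 < M := by nlinarith
  have hrun := bad_run hM hB1 x k h hcon
  have hbad0 := hcon 0 (Nat.zero_le _)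
  unfold Good at hbad0
  push Not at hbad0
  rw [add_zero] at hbad0
  set r := ap M ((b : ℝ) ^ k * x) with hr
  obtain ⟨a1, -⟩ := ap_spec hM0 ((b : ℝ) ^ (k + h) * x)
  rw [hrun] at a1
  have hbR : (2 : ℝ) ≤ b := by exact_mod_cast hb
  have hM1 : (0 : ℝ) < (M : ℝ) + 1 := by positivity
  have hbh : (0 : ℝ) < (b : ℝ) ^ h := by positivity
  have h1 : (b : ℝ) ^ h * |(b : ℝ) ^ k * x - r| ≤ 1 / ((M : ℝ) + 1) := by
    have e : (b : ℝ) ^ (k + h) * x - (((b : ℚ) ^ h * r : ℚ) : ℝ) =
        (b : ℝ) ^ h * ((b : ℝ) ^ k * x - r) := by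
      push_cast; rw [pow_add]; ring
    rw [e, abs_mul, abs_of_pos hbh] at a1
    refine a1.trans ?_
    refine one_div_le_one_div_of_le hM1 ?_
    have hden : (1 : ℝ) ≤ (((b : ℚ) ^ h * r).den : ℝ) := by
      exact_mod_cast ((b : ℚ) ^ h * r).pos
    nlinarith
  obtain ⟨s, hs⟩ := hR r.den r.pos hbad0
  -- R r is an integer
  have hRr : (R : ℝ) * r = ((s * r.num : ℤ) : ℝ) := by
    have e1 : (r : ℚ) * r.den = r.num := Rat.mul_den_eq_num r
    have e2 : (r : ℝ) * r.den = r.num := by exact_mod_cast e1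
    rw [hs]; push_cast
    calc (r.den : ℝ) * s * r = s * (r * r.den) := by ring
      _ = s * r.num := by rw [e2]
  refine no_chg hb (y := (R : ℝ) * x) (k := k) (n := s * r.num) ?_ hc
  have e : (b : ℝ) ^ k * ((R : ℝ) * x) - ((s * r.num : ℤ) : ℝ) =
      R * ((b : ℝ) ^ k * x - r) := by
    rw [← hRr]; ring
  rw [e, abs_mul, Nat.abs_cast]
  have hRhR : (R : ℝ) ≤ (b : ℝ) ^ h := by exact_mod_cast hRh
  have h2 : (R : ℝ) * |(b : ℝ) ^ k * x - r| ≤ 1 / ((M : ℝ) + 1) :=
    (mul_le_mul_of_nonneg_right hRhR (abs_nonneg _)).trans h1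
  refine lt_of_le_of_lt h2 ?_
  refine one_div_lt_one_div_of_lt (by positivity) ?_
  have h3 : b ^ 2 < M + 1 := by
    have : b * b ≤ (b + 1) * B := Nat.mul_le_mul (by omega) hB
    nlinarith
  exact_mod_cast h3

open Classical in
/-- number of digit changes -/
noncomputable def chg (b : ℕ) (y : ℝ) (N : ℕ) : ℕ := #{k ∈ range N | Chg b y k}

open Classical in
/-- number of good places -/
noncomputable def gd (b B M : ℕ) (x : ℝ) (N : ℕ) : ℕ := #{k ∈ range N | Good b B M x k}

lemma chg_le_gd {b B M R h : ℕ} (hb : 2 ≤ b) (hB : b ≤ B) (hM : 4 * (b + 1) * B ≤ M)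
    (hR : ∀ q, 1 ≤ q → q < 4 * B → q ∣ R) (hRh : R ≤ b ^ h) (x : ℝ) (N : ℕ) :
    chg b ((R : ℝ) * x) N ≤ (h + 1) * (gd b B M x N + h) := by
  classical
  unfold chg gd
  have hsub : {k ∈ range N | Chg b ((R : ℝ) * x) k} ⊆
      (range (h + 1)).biUnion fun i => {k ∈ range N | Good b B M x (k + i)} := by
    intro k hk
    rw [mem_filter] at hk
    obtain ⟨i, hi, hg⟩ := chg_good hb hB hM hR hRh x k hk.2
    rw [mem_biUnion]
    exact ⟨i, by rw [mem_range]; omega, by rw [mem_filter]; exact ⟨hk.1, hg⟩⟩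
  refine (card_le_card hsub).trans (card_biUnion_le.trans ?_)
  have hone : ∀ i ∈ range (h + 1), #{k ∈ range N | Good b B M x (k + i)} ≤
      #{k ∈ range N | Good b B M x k} + h := by
    intro i hi
    rw [mem_range] at hi
    have h1 : #{k ∈ range N | Good b B M x (k + i)} ≤ #{k ∈ range (N + h) | Good b B M x k} := by
      refine card_le_card_of_injOn (fun k => k + i) ?_ ?_
      · intro k hk
        simp only [mem_coe, mem_filter, mem_range] at hk ⊢
        exact ⟨by omega, hk.2⟩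
      · intro a _ b _ hab
        simpa using hab
    refine h1.trans ?_
    have h2 : {k ∈ range (N + h) | Good b B M x k} ⊆
        {k ∈ range N | Good b B M x k} ∪ Ico N (N + h) := by
      intro k hk
      rw [mem_filter, mem_range] at hk
      rw [mem_union, mem_filter, mem_range, mem_Ico]
      by_cases hkN : k < N
      · exact Or.inl ⟨hkN, hk.2⟩
      · exact Or.inr ⟨by omega, hk.1⟩
    refine (card_le_card h2).trans ((card_union_le _ _).trans ?_)
    rw [Nat.card_Ico]; omega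
  refine (sum_le_sum hone).trans ?_
  rw [sum_const, card_range, smul_eq_mul]

/-- the number of `k < N` such that the word of length `l` with value `W` stands in the base `b`
expansion of `y` right after the `k`-th digit -/
noncomputable def occ (b l W : ℕ) (y : ℝ) (N : ℕ) : ℕ :=
  #{k ∈ range N | ⌊(b : ℝ) ^ (k + l) * y⌋ % ((b : ℤ) ^ l) = (W : ℤ)}

/-- reverse Markov inequality for finite sets: if every `k ∈ G` is related to at least `M / (8 B)`
elements of `S`, `#S = M`, then at least `M / (16 B)` elements of `S` are related to at least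
`#G / (16 B)` elements of `G`. -/
lemma markov {α : Type*} (S : Finset α) (G : Finset ℕ) (r : α → ℕ → Prop)
    [∀ a k, Decidable (r a k)] (B : ℕ) (hB : 1 ≤ B)
    (h : ∀ k ∈ G, #S ≤ 8 * B * #{a ∈ S | r a k}) :
    #S ≤ 16 * B * #{a ∈ S | #G ≤ 16 * B * #{k ∈ G | r a k}} := by
  classical
  rcases Nat.eq_zero_or_pos (#G) with h0 | h0
  · have : {a ∈ S | #G ≤ 16 * B * #{k ∈ G | r a k}} = S := by
      apply filter_true_of_mem
      intro a _
      rw [h0]; exact Nat.zero_le _
    rw [this]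
    nlinarith
  -- double counting
  have hsum : #G * #S ≤ 8 * B * ∑ a ∈ S, #{k ∈ G | r a k} := by
    have e : ∑ a ∈ S, #{k ∈ G | r a k} = ∑ k ∈ G, #{a ∈ S | r a k} := by
      simp only [card_filter]
      exact sum_comm
    rw [e, mul_sum, ← smul_eq_mul, ← sum_const]
    exact sum_le_sum h
  set T := {a ∈ S | #G ≤ 16 * B * #{k ∈ G | r a k}} with hT
  have hup : 16 * B * ∑ a ∈ S, #{k ∈ G | r a k} ≤ 16 * B * (#T * #G) + #S * #G := by
    rw [mul_sum]
    calc ∑ a ∈ S, 16 * B * #{k ∈ G | r a k}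
        ≤ ∑ a ∈ S, ((if a ∈ T then 16 * B * #G else 0) + #G) := by
          refine sum_le_sum fun a ha => ?_
          by_cases hat : a ∈ T
          · rw [if_pos hat]
            have := card_filter_le G (fun k => r a k)
            nlinarith
          · rw [if_neg hat, zero_add]
            by_contra hc
            push Not at hc
            exact hat (by rw [hT, mem_filter]; exact ⟨ha, hc.le⟩)
      _ = 16 * B * (#T * #G) + #S * #G := by
          rw [sum_add_distrib, sum_const, smul_eq_mul, ← sum_filter]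
          congr 1
          rw [sum_const, smul_eq_mul]
          have : {a ∈ S | a ∈ T} = T := by
            ext a; rw [mem_filter]
            constructor
            · exact fun h => h.2
            · intro h; exact ⟨(mem_filter.1 h).1, h⟩
          rw [this]; ring
  have hfin : #S * #G ≤ 16 * B * (#T) * #G := by nlinarith
  exact Nat.le_of_mul_le_mul_right hfin h0

/-- **Core inequality.** -/
theorem core {b l M R h : ℕ} (hb : 2 ≤ b) (hl : 1 ≤ l) (hM : 4 * (b + 1) * b ^ l ≤ M)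
    (hR : ∀ q, 1 ≤ q → q < 4 * b ^ l → q ∣ R) (hRh : R ≤ b ^ h) (x : ℝ) (N : ℕ) :
    ∃ g : ℕ, chg b ((R : ℝ) * x) N ≤ (h + 1) * (g + h) ∧ ∀ W < b ^ l,
      g * M ≤ 8 * b ^ l * ∑ m ∈ Icc 1 M, occ b l W ((m : ℝ) * x) N ∧
      M ≤ 16 * b ^ l * ((Icc 1 M).filter (fun m : ℕ => g ≤ 16 * b ^ l * occ b l W ((m : ℝ) * x) N)).card := by
  classical
  have hB : b ≤ b ^ l := Nat.le_self_pow (by omega) b
  have hB1 : 1 ≤ b ^ l := by omega
  have hM0 : 0 < M := by nlinarith
  refine ⟨gd b (b ^ l) M x N, chg_le_gd hb hB hM hR hRh x N, fun W hW => ?_⟩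
  set G : Finset ℕ := {k ∈ range N | Good b (b ^ l) M x k} with hG
  have hkey : ∀ k ∈ G, #(Icc 1 M) ≤ 8 * b ^ l * ((Icc 1 M).filter (fun m : ℕ =>
      ⌊(b : ℝ) ^ (k + l) * ((m : ℝ) * x)⌋ % ((b : ℤ) ^ l) = (W : ℤ))).card := by
    intro k hk
    rw [hG, mem_filter] at hk
    have h1 := good_count hB1 hW hM0 x k hk.2
    rw [Nat.card_Icc, Nat.add_sub_cancel]
    have e : ∀ m : ℕ, (b : ℝ) ^ l * ((m : ℝ) * ((b : ℝ) ^ k * x)) =
        (b : ℝ) ^ (k + l) * ((m : ℝ) * x) := by
      intro m; rw [pow_add]; ring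
    simp only [Nat.cast_pow, e] at h1
    exact h1
  have hocc : ∀ m : ℕ, #{k ∈ G | ⌊(b : ℝ) ^ (k + l) * ((m : ℝ) * x)⌋ % ((b : ℤ) ^ l) = (W : ℤ)} ≤
      occ b l W ((m : ℝ) * x) N := by
    intro m
    unfold occ
    refine card_le_card fun k hk => ?_
    rw [hG, mem_filter, mem_filter] at hk
    rw [mem_filter]
    exact ⟨hk.1.1, hk.2⟩
  have hgd : gd b (b ^ l) M x N = #G := rfl
  rw [hgd]
  constructor
  · have e : ∑ m ∈ Icc 1 M, #{k ∈ G | ⌊(b : ℝ) ^ (k + l) * ((m : ℝ) * x)⌋ % ((b : ℤ) ^ l) = (W : ℤ)} =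
        ∑ k ∈ G, ((Icc 1 M).filter (fun m : ℕ =>
          ⌊(b : ℝ) ^ (k + l) * ((m : ℝ) * x)⌋ % ((b : ℤ) ^ l) = (W : ℤ))).card := by
      simp only [card_filter]
      exact sum_comm
    calc #G * M = ∑ k ∈ G, #(Icc 1 M) := by
          rw [sum_const, smul_eq_mul, Nat.card_Icc, Nat.add_sub_cancel]
      _ ≤ ∑ k ∈ G, 8 * b ^ l * ((Icc 1 M).filter (fun m : ℕ =>
          ⌊(b : ℝ) ^ (k + l) * ((m : ℝ) * x)⌋ % ((b : ℤ) ^ l) = (W : ℤ))).card := sum_le_sum hkey
      _ = 8 * b ^ l * ∑ m ∈ Icc 1 M,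
          #{k ∈ G | ⌊(b : ℝ) ^ (k + l) * ((m : ℝ) * x)⌋ % ((b : ℤ) ^ l) = (W : ℤ)} := by
          rw [← mul_sum, e]
      _ ≤ _ := Nat.mul_le_mul_left _ (sum_le_sum fun m _ => hocc m)
  · have h1 := markov (Icc 1 M) G
      (fun (m : ℕ) k => ⌊(b : ℝ) ^ (k + l) * ((m : ℝ) * x)⌋ % ((b : ℤ) ^ l) = (W : ℤ))
      (b ^ l) hB1 hkey
    rw [Nat.card_Icc, Nat.add_sub_cancel] at h1
    refine h1.trans (Nat.mul_le_mul_left _ (card_le_card fun m hm => ?_))
    rw [mem_filter] at hm ⊢
    exact ⟨hm.1, hm.2.trans (Nat.mul_le_mul_left _ (hocc m))⟩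

end Pool.Agent.Run7.h274.WM
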