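import Pool.Agent.Run7.h274.Core

/-!
Words in almost all multiples of a real number.
-/

set_option autoImplicit false

namespace Pool.Agent.Run7.h274.WM

open Finset

/-- Upper bound for the number of multipliers with a given word at a good place. -/
lemma block_upper {B M q U : ℕ} (hB : 1 ≤ B) (hU : U < B) (hq : 4 * B ≤ q) (hqM : q ≤ M)
    (t : ℝ) (p : ℤ) (hco : IsCoprime p (q : ℤ))
    (hδ : |t - p / q| ≤ 1 / (((M : ℝ) + 1) * q)) :
    B * ((Icc 1 M).filter (fun m : ℕ =>
      ⌊(B : ℝ) * ((m : ℝ) * t)⌋ % (B : ℤ) = (U : ℤ))).card ≤ 4 * M := by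
  classical
  have hq0 : 0 < q := by omega
  have hqz : (0 : ℤ) < q := by exact_mod_cast hq0
  have hBR : (0 : ℝ) < B := by exact_mod_cast hB
  have hqR : (0 : ℝ) < q := by exact_mod_cast hq0
  have hBz : (0 : ℤ) < B := by exact_mod_cast hB
  have hM0 : 0 < M := by omega
  set A : ℤ := U * q - B with hA
  set A' : ℤ := (U + 1) * q + B with hA'
  set J : Finset ℤ := Finset.Icc (A / B + 1) ((A' - 1) / B) with hJ
  set c : ℕ → ℤ := fun m => m * p - q * (⌊(B : ℝ) * ((m : ℝ) * t)⌋ / (B : ℤ)) with hc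
  have hinj : ((Icc 1 M).filter (fun m : ℕ =>
      ⌊(B : ℝ) * ((m : ℝ) * t)⌋ % (B : ℤ) = (U : ℤ))).card ≤
      (range ((M - 1) / q + 1) ×ˢ J).card := by
    refine Finset.card_le_card_of_injOn (fun m => ((m - 1) / q, c m)) ?_ ?_
    · intro m hm
      rw [Finset.mem_coe, Finset.mem_filter, Finset.mem_Icc] at hm
      obtain ⟨⟨hm1, hmM⟩, hmU⟩ := hm
      rw [Finset.mem_coe, Finset.mem_product, Finset.mem_range]
      refine ⟨Nat.lt_succ_of_le (Nat.div_le_div_right (by omega)), ?_⟩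
      simp only
      set z : ℤ := ⌊(B : ℝ) * ((m : ℝ) * t)⌋ / (B : ℤ) with hz
      have hfl : ⌊(B : ℝ) * ((m : ℝ) * t)⌋ = B * z + U := by
        have := Int.emod_add_mul_ediv ⌊(B : ℝ) * ((m : ℝ) * t)⌋ (B : ℤ)
        rw [hmU] at this
        linarith
      have h1 : ((B * z + U : ℤ) : ℝ) ≤ (B : ℝ) * ((m : ℝ) * t) := by
        rw [← hfl]; exact Int.floor_le _
      have h2 : (B : ℝ) * ((m : ℝ) * t) < ((B * z + U : ℤ) : ℝ) + 1 := by
        rw [← hfl]; exact Int.lt_floor_add_one _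
      push_cast at h1 h2
      set δ : ℝ := t - p / q with hδdef
      have hmδ : |(m : ℝ) * δ| * q < 1 := by
        rw [abs_mul, abs_of_nonneg (Nat.cast_nonneg m)]
        have hmR : (m : ℝ) ≤ M := by exact_mod_cast hmM
        have hM1 : (0 : ℝ) < (M : ℝ) + 1 := by positivity
        calc (m : ℝ) * |δ| * q ≤ M * (1 / (((M : ℝ) + 1) * q)) * q := by gcongr
          _ < (M + 1) * (1 / (((M : ℝ) + 1) * q)) * q := by
              refine mul_lt_mul_of_pos_right ?_ hqR
              exact mul_lt_mul_of_pos_right (by linarith) (by positivity)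
          _ = 1 := by field_simp
      have hcR : ((c m : ℤ) : ℝ) = q * ((m : ℝ) * t) - q * z - (m * δ) * q := by
        simp only [hc]
        rw [← hz, hδdef]
        push_cast
        field_simp
        ring
      have h3 : -1 < (m : ℝ) * δ * q := by
        have := neg_abs_le ((m : ℝ) * δ)
        nlinarith
      have h4 : (m : ℝ) * δ * q < 1 := by
        have := le_abs_self ((m : ℝ) * δ)
        nlinarith
      have hlow : ((A : ℤ) : ℝ) < (c m : ℤ) * B := by
        rw [hcR, hA]; push_cast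
        nlinarith
      have hup : ((c m : ℤ) : ℝ) * B < (A' : ℤ) := by
        rw [hcR, hA']; push_cast
        nlinarith
      have hlow' : A < c m * B := by exact_mod_cast hlow
      have hup' : c m * B < A' := by exact_mod_cast hup
      rw [hJ, Finset.mem_Icc]
      constructor
      · have := Int.ediv_lt_of_lt_mul hBz hlow'
        omega
      · exact Int.le_ediv_of_mul_le hBz (by omega)
    · intro m hm m' hm' hE
      rw [Finset.mem_coe, Finset.mem_filter, Finset.mem_Icc] at hm hm'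
      simp only [Prod.mk.injEq] at hE
      obtain ⟨hE1, hE2⟩ := hE
      simp only [hc] at hE2
      have hdvd : (q : ℤ) ∣ ((m : ℤ) - m') * p := by
        refine ⟨(⌊(B : ℝ) * ((m : ℝ) * t)⌋ / (B : ℤ)) - (⌊(B : ℝ) * ((m' : ℝ) * t)⌋ / (B : ℤ)), ?_⟩
        linarith
      have hdvd2 : (q : ℤ) ∣ (m : ℤ) - m' := (hco.symm.dvd_of_dvd_mul_right hdvd)
      obtain ⟨s, hs⟩ := hdvd2
      have h1 := Nat.div_add_mod (m - 1) q
      have h2 := Nat.div_add_mod (m' - 1) q
      have h3 := Nat.mod_lt (m - 1) hq0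
      have h4 := Nat.mod_lt (m' - 1) hq0
      rw [hE1] at h1
      have habs : |(m : ℤ) - m'| < q := by
        rw [abs_lt]
        constructor <;> omega
      rw [hs, abs_mul, abs_of_pos hqz] at habs
      have hs0 : s = 0 := by
        by_contra hne
        have := Int.one_le_abs hne
        nlinarith
      rw [hs0] at hs
      omega
  rw [Finset.card_product, Finset.card_range, hJ, Int.card_Icc] at hinj
  have hBJ : (B : ℤ) * (((A' - 1) / B + 1 - (A / B + 1)).toNat : ℤ) ≤ q + 3 * B := by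
    have h1 := Int.emod_add_mul_ediv A (B : ℤ)
    have h2 := Int.emod_add_mul_ediv (A' - 1) (B : ℤ)
    have h3 := Int.emod_lt_of_pos A hBz
    have h4 := Int.emod_nonneg (A' - 1) hBz.ne'
    rcases le_total 0 ((A' - 1) / B + 1 - (A / B + 1)) with h | h
    · rw [Int.toNat_of_nonneg h]
      nlinarith
    · rw [Int.toNat_of_nonpos h]
      push_cast
      positivity
  have hBJ' : B * ((A' - 1) / B + 1 - (A / B + 1)).toNat ≤ q + 3 * B := by exact_mod_cast hBJ
  have hMq : ((M - 1) / q + 1) * q ≤ 2 * M := by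
    have := Nat.div_mul_le_self (M - 1) q
    nlinarith [Nat.sub_le M 1]
  -- conclude after multiplication with q
  set cnt := ((Icc 1 M).filter (fun m : ℕ =>
      ⌊(B : ℝ) * ((m : ℝ) * t)⌋ % (B : ℤ) = (U : ℤ))).card with hcnt
  have hfin : q * (B * cnt) ≤ q * (4 * M) := by
    calc q * (B * cnt) ≤ q * (B * (((M - 1) / q + 1) *
          ((A' - 1) / B + 1 - (A / B + 1)).toNat)) := by gcongr
      _ = (((M - 1) / q + 1) * q) * (B * ((A' - 1) / B + 1 - (A / B + 1)).toNat) := by ring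
      _ ≤ (2 * M) * (q + 3 * B) := by gcongr
      _ ≤ q * (4 * M) := by nlinarith
  exact Nat.le_of_mul_le_mul_left hfin hq0

lemma good_upper {b B M U : ℕ} (hB : 1 ≤ B) (hU : U < B) (hM : 0 < M) (x : ℝ) (k : ℕ)
    (hk : Good b B M x k) :
    B * ((Icc 1 M).filter (fun m : ℕ =>
      ⌊(B : ℝ) * ((m : ℝ) * ((b : ℝ) ^ k * x))⌋ % (B : ℤ) = (U : ℤ))).card ≤ 4 * M := by
  obtain ⟨h1, h2⟩ := ap_spec hM ((b : ℝ) ^ k * x)
  refine block_upper hB hU hk h2 _ (ap M ((b : ℝ) ^ k * x)).num ?_ ?_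
  · rw [Int.isCoprime_iff_gcd_eq_one]
    have := (ap M ((b : ℝ) ^ k * x)).reduced
    rw [Int.gcd, Int.natAbs_natCast]
    exact this
  · rw [Rat.cast_def] at h1
    exact h1

/-- words of length `n` over the alphabet `{0, …, B - 1}` which avoid the letter `W` -/
def Av (B n W : ℕ) : Finset ℕ := (range (B ^ n)).filter fun U => ∀ i < n, U / B ^ i % B ≠ W

lemma card_Av {B W : ℕ} (hW : W < B) (n : ℕ) : #(Av B n W) ≤ (B - 1) ^ n := by
  have hB : 0 < B := by omega
  induction n with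
  | zero =>
    unfold Av
    refine (card_filter_le _ _).trans ?_
    simp
  | succ n ih =>
    have h : #(Av B (n + 1) W) ≤ #(((range B).erase W) ×ˢ (Av B n W)) := by
      refine card_le_card_of_injOn (fun U => (U % B, U / B)) ?_ ?_
      · intro U hU
        unfold Av at hU ⊢
        rw [mem_coe, mem_filter, mem_range] at hU
        rw [mem_coe, mem_product, mem_erase, mem_range, mem_filter, mem_range]
        refine ⟨⟨?_, Nat.mod_lt _ hB⟩, ?_, ?_⟩
        · have := hU.2 0 (by omega)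
          simpa using this
        · refine Nat.div_lt_of_lt_mul ?_
          rw [← pow_succ']
          exact hU.1
        · intro i hi
          have := hU.2 (i + 1) (by omega)
          simp only
          rw [Nat.div_div_eq_div_mul, ← pow_succ']
          exact this
      · intro U _ V _ hE
        simp only [Prod.mk.injEq] at hE
        rw [← Nat.div_add_mod U B, ← Nat.div_add_mod V B, hE.1, hE.2]
    refine h.trans ?_
    rw [card_product, card_erase_of_mem (mem_range.2 hW), card_range, pow_succ']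
    exact Nat.mul_le_mul_left _ ih

/-- division of a floor -/
lemma floor_div_pow {b : ℕ} (hb : 2 ≤ b) (y : ℝ) (i j : ℕ) :
    ⌊(b : ℝ) ^ (i + j) * y⌋ / ((b : ℤ) ^ j) = ⌊(b : ℝ) ^ i * y⌋ := by
  have hb0 : (0 : ℝ) < (b : ℝ) ^ j := by positivity
  have h := Int.floor_div_natCast ((b : ℝ) ^ (i + j) * y) (b ^ j)
  push_cast at h
  rw [← h]
  congr 1
  rw [pow_add]
  field_simp

/-- If the word of length `l n` behind the `k`-th place of `y` does not avoid `W` (as a word over the
alphabet of blocks of length `l`) then `W` occurs between the places `k` and `k + l n`. -/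
lemma occurs_of_not_av {b l n W : ℕ} (hb : 2 ≤ b) (hl : 1 ≤ l) (y : ℝ) (k : ℕ)
    (h : ∀ U ∈ Av (b ^ l) n W, ⌊(b : ℝ) ^ (k + l * n) * y⌋ % ((b : ℤ) ^ (l * n)) ≠ (U : ℤ)) :
    ∃ i < l * n, ⌊(b : ℝ) ^ (k + i + l) * y⌋ % ((b : ℤ) ^ l) = (W : ℤ) := by
  set Z : ℤ := ⌊(b : ℝ) ^ (k + l * n) * y⌋ with hZ
  have hbz : (0 : ℤ) < b := by positivity
  have hpz : (0 : ℤ) < (b : ℤ) ^ (l * n) := by positivity
  set r : ℤ := Z % ((b : ℤ) ^ (l * n)) with hr
  have hr0 : 0 ≤ r := Int.emod_nonneg _ hpz.ne'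
  have hr1 : r < (b : ℤ) ^ (l * n) := Int.emod_lt_of_pos _ hpz
  obtain ⟨U, hU⟩ := Int.eq_ofNat_of_zero_le hr0
  have hUlt : U < (b ^ l) ^ n := by
    rw [← pow_mul]
    rw [hU] at hr1
    exact_mod_cast hr1
  have hUn : U ∉ Av (b ^ l) n W := fun hmem => h U hmem hU
  unfold Av at hUn
  rw [mem_filter, mem_range] at hUn
  push Not at hUn
  obtain ⟨i, hi, hUi⟩ := hUn hUlt
  refine ⟨l * (n - 1 - i), ?_, ?_⟩
  · refine Nat.mul_lt_mul_of_pos_left (by omega) (by omega)
  · have e0 : l * n = l * (n - 1 - i) + l + l * i := by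
      have : n = (n - 1 - i) + 1 + i := by omega
      calc l * n = l * ((n - 1 - i) + 1 + i) := by rw [← this]
        _ = _ := by ring
    have e1 : Z / ((b : ℤ) ^ (l * i)) = ⌊(b : ℝ) ^ (k + l * (n - 1 - i) + l) * y⌋ := by
      rw [← floor_div_pow hb y (k + l * (n - 1 - i) + l) (l * i), hZ]
      congr 3
      rw [e0]; ring
    rw [← e1]
    have hpi : (0 : ℤ) < (b : ℤ) ^ (l * i) := by positivity
    have e2 : Z = (b : ℤ) ^ (l * (n - 1 - i)) * (b : ℤ) ^ l * (Z / ((b : ℤ) ^ (l * n))) * (b : ℤ) ^ (l * i) + r := by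
      have h1 := Int.emod_add_mul_ediv Z ((b : ℤ) ^ (l * n))
      rw [← hr] at h1
      have h2 : (b : ℤ) ^ (l * n) = (b : ℤ) ^ (l * (n - 1 - i)) * (b : ℤ) ^ l * (b : ℤ) ^ (l * i) := by
        rw [e0, pow_add, pow_add]
      calc Z = r + (b : ℤ) ^ (l * n) * (Z / ((b : ℤ) ^ (l * n))) := h1.symm
        _ = r + ((b : ℤ) ^ (l * (n - 1 - i)) * (b : ℤ) ^ l * (b : ℤ) ^ (l * i)) * (Z / ((b : ℤ) ^ (l * n))) := by
            rw [← h2]
        _ = _ := by ring
    have e3 : Z / ((b : ℤ) ^ (l * i)) = r / ((b : ℤ) ^ (l * i)) +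
        (b : ℤ) ^ l * ((b : ℤ) ^ (l * (n - 1 - i)) * (Z / ((b : ℤ) ^ (l * n)))) := by
      conv_lhs => rw [e2]
      rw [add_comm, Int.add_mul_ediv_right _ _ hpi.ne']
      ring
    rw [e3, Int.add_mul_emod_self_left, hU]
    rw [← pow_mul] at hUi
    exact_mod_cast hUi

/-- Words in almost all multiples, in terms of the good places. -/
theorem almost_all {b l n M : ℕ} (hb : 2 ≤ b) (hl : 1 ≤ l) (hM : 1 ≤ M) (x : ℝ) (N : ℕ) :
    (b ^ l) ^ n * ((Icc 1 M).filter (fun m : ℕ => ∃ W < b ^ l,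
        2 * (l * n) * (occ b l W ((m : ℝ) * x) N + l * n) < gd b (b ^ (l * n)) M x N)).card ≤
      8 * b ^ l * (b ^ l - 1) ^ n * M := by
  classical
  set B : ℕ := b ^ (l * n) with hBdef
  have hB1 : 1 ≤ B := Nat.one_le_pow _ _ (by omega)
  have hBB : (b ^ l) ^ n = B := by rw [hBdef, pow_mul]
  rw [hBB]
  set G : Finset ℕ := {k ∈ range N | Good b B M x k} with hG
  have hgd : gd b B M x N = #G := rfl
  rw [hgd]
  set P : ℕ → ℕ → Prop := fun m k => ∃ W < b ^ l, ∃ U ∈ Av (b ^ l) n W,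
    ⌊(B : ℝ) * ((m : ℝ) * ((b : ℝ) ^ k * x))⌋ % (B : ℤ) = (U : ℤ) with hP
  have hkey : ∀ k ∈ G, B * ((Icc 1 M).filter (fun m : ℕ => P m k)).card ≤
      4 * b ^ l * (b ^ l - 1) ^ n * M := by
    intro k hk
    rw [hG, mem_filter] at hk
    have hsub : (Icc 1 M).filter (fun m : ℕ => P m k) ⊆
        (range (b ^ l)).biUnion fun W => (Av (b ^ l) n W).biUnion fun U =>
          (Icc 1 M).filter (fun m : ℕ =>
            ⌊(B : ℝ) * ((m : ℝ) * ((b : ℝ) ^ k * x))⌋ % (B : ℤ) = (U : ℤ)) := by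
      intro m hm
      rw [mem_filter] at hm
      obtain ⟨hm1, W, hW, U, hU, hmU⟩ := hm
      simp only [mem_biUnion, mem_filter]
      exact ⟨W, mem_range.2 hW, U, hU, hm1, hmU⟩
    have hcard := (card_le_card hsub).trans card_biUnion_le
    calc B * ((Icc 1 M).filter (fun m : ℕ => P m k)).card
        ≤ B * ∑ W ∈ range (b ^ l), ((Av (b ^ l) n W).biUnion fun U =>
          (Icc 1 M).filter (fun m : ℕ =>
            ⌊(B : ℝ) * ((m : ℝ) * ((b : ℝ) ^ k * x))⌋ % (B : ℤ) = (U : ℤ))).card :=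
          Nat.mul_le_mul_left _ hcard
      _ ≤ B * ∑ W ∈ range (b ^ l), ∑ U ∈ Av (b ^ l) n W,
          ((Icc 1 M).filter (fun m : ℕ =>
            ⌊(B : ℝ) * ((m : ℝ) * ((b : ℝ) ^ k * x))⌋ % (B : ℤ) = (U : ℤ))).card := by
          refine Nat.mul_le_mul_left _ (sum_le_sum fun W _ => card_biUnion_le)
      _ = ∑ W ∈ range (b ^ l), ∑ U ∈ Av (b ^ l) n W, B *
          ((Icc 1 M).filter (fun m : ℕ =>
            ⌊(B : ℝ) * ((m : ℝ) * ((b : ℝ) ^ k * x))⌋ % (B : ℤ) = (U : ℤ))).card := by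
          rw [mul_sum]
          refine sum_congr rfl fun W _ => ?_
          rw [mul_sum]
      _ ≤ ∑ W ∈ range (b ^ l), ∑ U ∈ Av (b ^ l) n W, 4 * M := by
          refine sum_le_sum fun W _ => sum_le_sum fun U hU => ?_
          have hUlt : U < B := by
            unfold Av at hU
            rw [mem_filter, mem_range, hBB] at hU
            exact hU.1
          exact good_upper hB1 hUlt (by omega) x k hk.2
      _ ≤ ∑ W ∈ range (b ^ l), (b ^ l - 1) ^ n * (4 * M) := by
          refine sum_le_sum fun W hW => ?_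
          rw [sum_const, smul_eq_mul]
          exact Nat.mul_le_mul_right _ (card_Av (mem_range.1 hW) n)
      _ = 4 * b ^ l * (b ^ l - 1) ^ n * M := by
          rw [sum_const, card_range, smul_eq_mul]; ring
  set T : Finset ℕ := (Icc 1 M).filter (fun m : ℕ => ∃ W < b ^ l,
        2 * (l * n) * (occ b l W ((m : ℝ) * x) N + l * n) < #G) with hT
  -- members of T are bad at more than half of the places
  have hTk : ∀ m ∈ T, #G ≤ 2 * #{k ∈ G | P m k} := by
    intro m hm
    rw [hT, mem_filter] at hm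
    obtain ⟨hm1, W, hW, hlt⟩ := hm
    by_contra hcon
    push Not at hcon
    have hsplit : #{k ∈ G | P m k} + #{k ∈ G | ¬ P m k} = #G :=
      card_filter_add_card_filter_not _
    -- occurrences
    set O : Finset ℕ := {k ∈ range (N + l * n) | ⌊(b : ℝ) ^ (k + l) * ((m : ℝ) * x)⌋ % ((b : ℤ) ^ l) = (W : ℤ)} with hO
    have hOcard : #O ≤ occ b l W ((m : ℝ) * x) N + l * n := by
      unfold occ
      have hsub : O ⊆ {k ∈ range N | ⌊(b : ℝ) ^ (k + l) * ((m : ℝ) * x)⌋ % ((b : ℤ) ^ l) = (W : ℤ)} ∪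
          Ico N (N + l * n) := by
        intro k hk
        rw [hO, mem_filter, mem_range] at hk
        rw [mem_union, mem_filter, mem_range, mem_Ico]
        by_cases hkN : k < N
        · exact Or.inl ⟨hkN, hk.2⟩
        · exact Or.inr ⟨by omega, hk.1⟩
      refine (card_le_card hsub).trans ((card_union_le _ _).trans ?_)
      rw [Nat.card_Ico]; omega
    have hsub2 : {k ∈ G | ¬ P m k} ⊆ (range (l * n)).biUnion fun i =>
        {k ∈ G | k + i ∈ O} := by
      intro k hk
      rw [mem_filter] at hk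
      obtain ⟨hkG, hkP⟩ := hk
      have hk2 := hkG
      rw [hG, mem_filter, mem_range] at hk2
      have hav : ∀ U ∈ Av (b ^ l) n W,
          ⌊(b : ℝ) ^ (k + l * n) * ((m : ℝ) * x)⌋ % ((b : ℤ) ^ (l * n)) ≠ (U : ℤ) := by
        intro U hU hE
        refine hkP ⟨W, hW, U, hU, ?_⟩
        have e : (B : ℝ) * ((m : ℝ) * ((b : ℝ) ^ k * x)) = (b : ℝ) ^ (k + l * n) * ((m : ℝ) * x) := by
          rw [hBdef]; push_cast; rw [pow_add]; ring
        rw [e, hBdef]
        push_cast
        exact hE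
      obtain ⟨i, hi, hoc⟩ := occurs_of_not_av hb hl ((m : ℝ) * x) k hav
      rw [mem_biUnion]
      refine ⟨i, mem_range.2 hi, ?_⟩
      refine mem_filter.2 ⟨hkG, ?_⟩
      rw [hO]
      exact mem_filter.2 ⟨mem_range.2 (by omega), hoc⟩
    have hcard2 : #{k ∈ G | ¬ P m k} ≤ (l * n) * #O := by
      refine (card_le_card hsub2).trans (card_biUnion_le.trans ?_)
      calc ∑ i ∈ range (l * n), #{k ∈ G | k + i ∈ O} ≤ ∑ i ∈ range (l * n), #O := by
            refine sum_le_sum fun i _ => ?_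
            refine card_le_card_of_injOn (fun k => k + i) ?_ ?_
            · intro k hk
              simp only [mem_coe, mem_filter] at hk ⊢
              exact hk.2
            · intro a _ c _ hac
              simpa using hac
        _ = (l * n) * #O := by rw [sum_const, card_range, smul_eq_mul]
    have h3 : 2 * ((l * n) * #O) ≤ 2 * (l * n) * (occ b l W ((m : ℝ) * x) N + l * n) := by
      rw [← mul_assoc]
      exact Nat.mul_le_mul_left _ hOcard
    omega
  rcases Nat.eq_zero_or_pos (#G) with h0 | h0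
  · have hTe : T = ∅ := by
      rw [hT]
      refine filter_false_of_mem ?_
      rintro m _ ⟨W, _, hlt⟩
      rw [h0] at hlt
      omega
    rw [hTe]
    simp
  have hsum : B * (#T * #G) ≤ 2 * (#G * (4 * b ^ l * (b ^ l - 1) ^ n * M)) := by
    calc B * (#T * #G) = B * ∑ m ∈ T, #G := by rw [sum_const, smul_eq_mul]
      _ ≤ B * ∑ m ∈ T, 2 * #{k ∈ G | P m k} := Nat.mul_le_mul_left _ (sum_le_sum hTk)
      _ ≤ B * ∑ m ∈ Icc 1 M, 2 * #{k ∈ G | P m k} := by
          refine Nat.mul_le_mul_left _ (sum_le_sum_of_subset (filter_subset _ _))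
      _ = 2 * ∑ k ∈ G, B * ((Icc 1 M).filter (fun m : ℕ => P m k)).card := by
          rw [← mul_sum, ← mul_sum]
          have e : ∑ m ∈ Icc 1 M, #{k ∈ G | P m k} =
              ∑ k ∈ G, ((Icc 1 M).filter (fun m : ℕ => P m k)).card := by
            simp only [card_filter]
            exact sum_comm
          rw [e]; ring
      _ ≤ 2 * ∑ k ∈ G, 4 * b ^ l * (b ^ l - 1) ^ n * M :=
          Nat.mul_le_mul_left _ (sum_le_sum hkey)
      _ = _ := by rw [sum_const, smul_eq_mul]
  refine Nat.le_of_mul_le_mul_right (c := #G) ?_ h0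
  calc B * #T * #G = B * (#T * #G) := by ring
    _ ≤ _ := hsum
    _ = _ := by ring

end Pool.Agent.Run7.h274.WM
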