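import Pool.Agent.Run7.h274.DelWin

set_option autoImplicit false

namespace Pool.Agent.Run7.h274.Del

open Filter Topology Finset

/-- regular times `a` with regular window lengths `L` -/
structure Reg (K : ℕ) (a L : ℕ → ℕ) : Prop where
  pos : ∀ n, 0 < L n
  mono : Monotone L
  lim : Tendsto L atTop atTop
  dblL : ∀ n, 1 ≤ n → L (2 * n) ≤ K * L n
  dblA : ∀ n, 1 ≤ n → a (2 * n) ≤ K * a n
  gap : ∀ n, 1 ≤ n → a n ≤ K * n * (a (n + 1) - a n)
  low : ∀ n, 1 ≤ n → a n ≤ K * n * L n
  high : ∀ n, 1 ≤ n → L n ≤ K * a n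

theorem Reg.step {K : ℕ} {a L : ℕ → ℕ} (h : Reg K a L) (n : ℕ) (hn : 1 ≤ n) : a n ≤ a (n + 1) := by
  by_contra hc
  have h1 := h.gap n hn
  have h2 : a (n + 1) - a n = 0 := by omega
  rw [h2, mul_zero] at h1
  omega

theorem Reg.amono {K : ℕ} {a L : ℕ → ℕ} (h : Reg K a L) (n n' : ℕ) (hn : 1 ≤ n) (hnn : n ≤ n') :
    a n ≤ a n' := by
  induction n', hnn using Nat.le_induction with
  | base => exact le_rfl
  | succ k hk ih => exact ih.trans (h.step k (by omega))

theorem Reg.sep {K : ℕ} {a L : ℕ → ℕ} (h : Reg K a L) (N : ℕ) (hN : 1 ≤ N) (n0 n1 : ℕ)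
    (h0 : N ≤ n0) (h01 : n0 ≤ n1) (h1 : n1 < 2 * N) :
    (n1 - n0) * a N + 2 * K * N * a n0 ≤ 2 * K * N * a n1 := by
  induction n1, h01 using Nat.le_induction with
  | base => simp
  | succ k hk ih =>
    have i1 := ih (by omega)
    have g1 := h.gap k (by omega)
    have g2 := h.step k (by omega)
    have g3 := h.amono N k hN (by omega)
    obtain ⟨d, hd⟩ : ∃ d, a (k + 1) = a k + d := ⟨a (k + 1) - a k, by omega⟩
    have g4 : a (k + 1) - a k = d := by omega
    rw [g4] at g1
    have g5 : K * k * d ≤ 2 * K * N * d := by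
      have : k ≤ 2 * N := by omega
      calc K * k * d ≤ K * (2 * N) * d := by gcongr
        _ = 2 * K * N * d := by ring
    obtain ⟨e, he⟩ : ∃ e, k = n0 + e := ⟨k - n0, by omega⟩
    have e1 : k + 1 - n0 = e + 1 := by omega
    have e2 : k - n0 = e := by omega
    rw [e2] at i1
    rw [e1, hd]
    calc (e + 1) * a N + 2 * K * N * a n0 = (e * a N + 2 * K * N * a n0) + a N := by ring
      _ ≤ 2 * K * N * a k + 2 * K * N * d := by
        have := g3.trans (g1.trans g5)
        omega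
      _ = 2 * K * N * (a k + d) := by ring

theorem Reg.count {K : ℕ} {a L : ℕ → ℕ} (h : Reg K a L) (N : ℕ) (hN : 1 ≤ N) (t : ℕ) :
    ((Ico N (2 * N)).filter (fun n => a n ≤ t ∧ t < a n + L n)).card * a N ≤
      (K + 2 * K * K) * N * L N := by
  set S := (Ico N (2 * N)).filter (fun n => a n ≤ t ∧ t < a n + L n) with hS
  rcases S.eq_empty_or_nonempty with h0 | hne
  · rw [h0]; simp
  · have m0 := Finset.min'_mem S hne
    have m1 := Finset.max'_mem S hne
    set n0 := S.min' hne
    set n1 := S.max' hne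
    have h01 : n0 ≤ n1 := Finset.min'_le _ _ m1
    have hsub : S ⊆ Icc n0 n1 := fun x hx =>
      Finset.mem_Icc.2 ⟨Finset.min'_le _ _ hx, Finset.le_max' _ _ hx⟩
    have hcard : S.card ≤ n1 + 1 - n0 := by
      have := Finset.card_le_card hsub
      rwa [Nat.card_Icc] at this
    simp only [hS, mem_filter, mem_Ico] at m0 m1
    have s := h.sep N hN n0 n1 m0.1.1 h01 m1.1.2
    have hLn : L n0 ≤ K * L N := (h.mono (by omega)).trans (h.dblL N hN)
    have hgapA : a n1 ≤ a n0 + K * L N := by omega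
    have hlow := h.low N hN
    obtain ⟨e, he⟩ : ∃ e, n1 = n0 + e := ⟨n1 - n0, by omega⟩
    have e1 : n1 - n0 = e := by omega
    have e2 : n1 + 1 - n0 = e + 1 := by omega
    rw [e1] at s
    rw [e2] at hcard
    have s2 : e * a N ≤ 2 * K * N * (K * L N) := by
      have h3 : 2 * K * N * a n1 ≤ 2 * K * N * (a n0 + K * L N) := Nat.mul_le_mul_left _ hgapA
      rw [Nat.mul_add] at h3
      omega
    calc S.card * a N ≤ (e + 1) * a N := Nat.mul_le_mul_right _ hcard
      _ = e * a N + a N := by ring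
      _ ≤ 2 * K * N * (K * L N) + K * N * L N := by omega
      _ = _ := by ring

theorem Reg.block {K : ℕ} {a L : ℕ → ℕ} (h : Reg K a L) (N : ℕ) (hN : 1 ≤ N) (φ : ℕ → ℝ)
    (hφ : ∀ t, 0 ≤ φ t) :
    ∑ n ∈ Ico N (2 * N), win a L φ n ≤
      ((K + 2 * K * K) * (K + K * K) : ℕ) * N *
        (((a (2 * N) + L (2 * N) : ℕ) : ℝ)⁻¹ * ∑ t ∈ range (a (2 * N) + L (2 * N)), φ t) := by
  set M := a (2 * N) + L (2 * N) with hM
  have hLN : (0:ℝ) < L N := by exact_mod_cast h.pos N
  have hM0 : (0:ℝ) < M := by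
    have : 0 < M := by have := h.pos (2 * N); omega
    exact_mod_cast this
  have haN : 0 < a N := by
    have h1 := h.pos N
    have h2 := h.high N hN
    by_contra hc
    have : a N = 0 := by omega
    rw [this, mul_zero] at h2
    omega
  have haN' : (0:ℝ) < a N := by exact_mod_cast haN
  -- each window
  have h1 : ∀ n ∈ Ico N (2 * N), win a L φ n ≤
      (L N : ℝ)⁻¹ * ∑ t ∈ range M, if (a n ≤ t ∧ t < a n + L n) then φ t else 0 := by
    intro n hn
    rw [mem_Ico] at hn
    have hLn : (L N : ℝ) ≤ L n := by exact_mod_cast h.mono hn.1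
    have hs : ∑ b ∈ range (L n), φ (a n + b) =
        ∑ t ∈ range M, if (a n ≤ t ∧ t < a n + L n) then φ t else 0 := by
      rw [← Finset.sum_filter]
      have hI : (range M).filter (fun t => a n ≤ t ∧ t < a n + L n) = Ico (a n) (a n + L n) := by
        ext t
        simp only [mem_filter, mem_range, mem_Ico]
        constructor
        · exact fun hh => hh.2
        · intro hh
          refine ⟨?_, hh⟩
          have k1 := h.amono n (2 * N) (by omega) (by omega)
          have k2 : L n ≤ L (2 * N) := h.mono (by omega)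
          omega
      rw [hI, Finset.sum_Ico_eq_sum_range]
      simp
    unfold win
    rw [hs]
    refine mul_le_mul_of_nonneg_right (inv_anti₀ hLN hLn) (Finset.sum_nonneg fun t _ => ?_)
    split_ifs
    · exact hφ t
    · exact le_rfl
  refine (Finset.sum_le_sum h1).trans ?_
  rw [← Finset.mul_sum, Finset.sum_comm]
  have h2 : ∀ t ∈ range M, ∑ n ∈ Ico N (2 * N), (if (a n ≤ t ∧ t < a n + L n) then φ t else 0) ≤
      ((K + 2 * K * K : ℕ) * N * L N) * (a N : ℝ)⁻¹ * φ t := by
    intro t _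
    rw [← Finset.sum_filter, Finset.sum_const, nsmul_eq_mul]
    refine mul_le_mul_of_nonneg_right ?_ (hφ t)
    rw [le_mul_inv_iff₀ haN']
    have := h.count N hN t
    exact_mod_cast this
  have h3 : (L N : ℝ)⁻¹ * ∑ t ∈ range M, ∑ n ∈ Ico N (2 * N),
      (if (a n ≤ t ∧ t < a n + L n) then φ t else 0) ≤
      (L N : ℝ)⁻¹ * (((K + 2 * K * K : ℕ) * N * L N) * (a N : ℝ)⁻¹ * ∑ t ∈ range M, φ t) := by
    refine mul_le_mul_of_nonneg_left ?_ (by positivity)
    rw [Finset.mul_sum]
    exact Finset.sum_le_sum h2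
  refine h3.trans ?_
  have hMa : (M : ℝ) ≤ (K + K * K : ℕ) * a N := by
    have k1 := h.dblA N hN
    have k2 := h.dblL N hN
    have k3 := h.high N hN
    have : M ≤ (K + K * K) * a N := by
      calc M ≤ K * a N + K * L N := by omega
        _ ≤ K * a N + K * (K * a N) := by gcongr
        _ = _ := by ring
    exact_mod_cast this
  have hinv : (a N : ℝ)⁻¹ ≤ (K + K * K : ℕ) * (M : ℝ)⁻¹ := by
    rw [inv_eq_one_div, div_le_iff₀ haN', mul_assoc, inv_mul_eq_div, mul_div_assoc',
      le_div_iff₀ hM0, one_mul]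
    exact hMa
  have hS : 0 ≤ ∑ t ∈ range M, φ t := Finset.sum_nonneg fun t _ => hφ t
  calc (L N : ℝ)⁻¹ * (((K + 2 * K * K : ℕ) * N * L N) * (a N : ℝ)⁻¹ * ∑ t ∈ range M, φ t)
      = ((K + 2 * K * K : ℕ) * N * ∑ t ∈ range M, φ t) * (a N : ℝ)⁻¹ := by
        field_simp
    _ ≤ ((K + 2 * K * K : ℕ) * N * ∑ t ∈ range M, φ t) * ((K + K * K : ℕ) * (M : ℝ)⁻¹) :=
        mul_le_mul_of_nonneg_left hinv (by positivity)
    _ = _ := by push_cast; ring

theorem Reg.dom {K : ℕ} {a L : ℕ → ℕ} (h : Reg K a L) : Dom a L := by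
  set c : ℝ := (((K + 2 * K * K) * (K + K * K) : ℕ) : ℝ) with hc
  have hc0 : 0 ≤ c := Nat.cast_nonneg _
  refine ⟨3 * c, by positivity, fun φ B hφ hB ε hε => ?_⟩
  have hB0 : 0 ≤ B := ge_of_tendsto' hB fun M =>
    mul_nonneg (by positivity) (Finset.sum_nonneg fun t _ => hφ t)
  set δ : ℝ := ε / (6 * (c + 1)) with hδ
  have hδ0 : 0 < δ := by positivity
  have hMt : Tendsto (fun N => a (2 * N) + L (2 * N)) atTop atTop := by
    refine tendsto_atTop_mono (fun N => ?_) (h.lim.comp (tendsto_id.const_mul_atTop' (by norm_num : 0 < 2)))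
    simp
  have h1 := hB.comp hMt
  rw [Metric.tendsto_atTop] at h1
  obtain ⟨N0, hN0⟩ := h1 δ hδ0
  have hblk : ∀ N, N0 ≤ N → 1 ≤ N → ∑ n ∈ Ico N (2 * N), win a L φ n ≤ c * (B + δ) * N := by
    intro N hN hN1
    have g1 := h.block N hN1 φ hφ
    have g2 := hN0 N hN
    rw [Real.dist_eq] at g2
    have g3 := (abs_lt.1 g2).2
    simp only [Function.comp] at g3
    refine g1.trans ?_
    have g4 : (((a (2 * N) + L (2 * N) : ℕ) : ℝ)⁻¹ * ∑ t ∈ range (a (2 * N) + L (2 * N)), φ t) ≤
        B + δ := by linarith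
    calc c * N * (((a (2 * N) + L (2 * N) : ℕ) : ℝ)⁻¹ *
          ∑ t ∈ range (a (2 * N) + L (2 * N)), φ t) ≤ c * N * (B + δ) :=
          mul_le_mul_of_nonneg_left g4 (by positivity)
      _ = _ := by ring
  set D : ℝ := ∑ n ∈ range (2 * N0 + 4), win a L φ n with hD
  have hDn : 0 ≤ D := Finset.sum_nonneg fun n _ => win_nonneg hφ n
  have hind : ∀ N : ℕ, ∑ n ∈ range N, win a L φ n ≤ D + 3 * (c * (B + δ)) * N := by
    intro N
    induction N using Nat.strong_induction_on with
    | _ N ih =>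
      by_cases hN : N ≤ 2 * N0 + 4
      · have k1 : ∑ n ∈ range N, win a L φ n ≤ D :=
          Finset.sum_le_sum_of_subset_of_nonneg (Finset.range_subset_range.2 hN)
            fun n _ _ => win_nonneg hφ n
        have k2 : 0 ≤ 3 * (c * (B + δ)) * N := by positivity
        linarith
      · set N' := (N + 1) / 2 with hN'
        have e1 : N' < N := by omega
        have e2 : N ≤ 2 * N' := by omega
        have k1 := ih N' e1
        have k2 := hblk N' (by omega) (by omega)
        have k3 : ∑ n ∈ range N, win a L φ n ≤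
            ∑ n ∈ range N', win a L φ n + ∑ n ∈ Ico N' (2 * N'), win a L φ n := by
          rw [Finset.sum_range_add_sum_Ico _ (by omega)]
          exact Finset.sum_le_sum_of_subset_of_nonneg (Finset.range_subset_range.2 e2)
            fun n _ _ => win_nonneg hφ n
        have e3 : (4:ℝ) * N' ≤ 3 * N := by
          have : 4 * N' ≤ 3 * N := by omega
          exact_mod_cast this
        have e4 : 0 ≤ c * (B + δ) := by positivity
        nlinarith
  have hlim : Tendsto (fun N : ℕ => D * (N : ℝ)⁻¹) atTop (𝓝 0) := by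
    simpa using (tendsto_inv_atTop_nhds_zero_nat (𝕜 := ℝ)).const_mul D
  filter_upwards [hlim.eventually_lt_const (show (0:ℝ) < ε / 2 by positivity), eventually_ge_atTop 1] with N hN hN1
  have hN' : (0:ℝ) < N := by exact_mod_cast hN1
  have k1 := hind N
  have k2 : (N : ℝ)⁻¹ * ∑ n ∈ range N, win a L φ n ≤
      (N : ℝ)⁻¹ * (D + 3 * (c * (B + δ)) * N) := mul_le_mul_of_nonneg_left k1 (by positivity)
  refine k2.trans ?_
  have e : (N : ℝ)⁻¹ * (D + 3 * (c * (B + δ)) * N) = D * (N:ℝ)⁻¹ + 3 * (c * (B + δ)) := by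
    field_simp
  rw [e]
  have e2 : 3 * c * δ ≤ ε / 2 := by
    rw [hδ, mul_div_assoc', div_le_div_iff₀ (by positivity) (by norm_num)]
    nlinarith
  nlinarith

end Pool.Agent.Run7.h274.Del
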