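import Pool.Agent.Run7.h274.DelWin
import Pool.Agent.H165R3.BPE

set_option autoImplicit false

namespace Pool.Agent.Run7.h274.Del

open Filter Topology MeasureTheory Finset

theorem av_bound {X : Type*} (T : X → X) (f : X → ℝ) (C : ℝ) (hC0 : 0 ≤ C) (hb : ∀ x, |f x| ≤ C)
    (H : ℕ) (x : X) : |(H : ℝ)⁻¹ * ∑ h ∈ range H, f (T^[h] x)| ≤ C := by
  rw [abs_mul, abs_inv, Nat.abs_cast]
  have h1 : |∑ h ∈ range H, f (T^[h] x)| ≤ (H : ℝ) * C := by
    refine (Finset.abs_sum_le_sum_abs _ _).trans ?_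
    refine (Finset.sum_le_sum fun b _ => hb (T^[b] x)).trans ?_
    simp
  rcases Nat.eq_zero_or_pos H with h0 | h0
  · rw [h0]; simp [hC0]
  · have h2 : (0:ℝ) < H := by exact_mod_cast h0
    rw [inv_mul_le_iff₀ h2]
    exact h1

/-- the averages over windows converge in mean along almost every orbit -/
theorem ergo {X : Type*} [MeasurableSpace X] (μ : Measure X) [IsProbabilityMeasure μ] (T : X → X)
    (hT : MeasurePreserving T μ μ) (f : X → ℝ) (hf : Measurable f) (C : ℝ) (hC0 : 0 ≤ C)
    (hb : ∀ x, |f x| ≤ C) {a L : ℕ → ℕ} (hL : ∀ n, 0 < L n) (hLt : Tendsto L atTop atTop)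
    (hD : Dom a L) :
    ∀ᵐ x ∂μ, |(μ[f | MeasurableSpace.invariants T]) x| ≤ C ∧
      Tendsto (fun N : ℕ => (N : ℝ)⁻¹ * ∑ n ∈ range N,
        |win a L (fun t => f (T^[t] x)) n - (μ[f | MeasurableSpace.invariants T]) x|) atTop (𝓝 0) := by
  have hle := MeasurableSpace.invariants_le T
  set G : X → ℝ := μ[f | MeasurableSpace.invariants T] with hG
  have hGm0 : Measurable[MeasurableSpace.invariants T] G := stronglyMeasurable_condExp.measurable
  have hGm : Measurable G := hGm0.mono hle le_rfl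
  have hGT : ∀ x, G (T x) = G x := fun x =>
    congrFun (MeasurableSpace.comp_eq_of_measurable_invariants hGm0) x
  have hGt : ∀ t x, G (T^[t] x) = G x := by
    intro t x
    induction t generalizing x with
    | zero => rfl
    | succ t ih => rw [Function.iterate_succ_apply, ih, hGT]
  have hbirk := Pool.Agent.H165R3.BPE.birkhoff hT f hf C hb
  have hGb : ∀ᵐ x ∂μ, |G x| ≤ C := by
    filter_upwards [hbirk] with x hx
    exact le_of_tendsto' hx.abs fun H => av_bound T f C hC0 hb H x
  set A : ℕ → X → ℝ := fun H x => (H : ℝ)⁻¹ * ∑ h ∈ range H, f (T^[h] x) with hA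
  have hAm : ∀ H, Measurable (A H) := fun H =>
    (Finset.measurable_fun_sum _ fun i _ => hf.comp (hT.measurable.iterate i)).const_mul _
  set F : ℕ → X → ℝ := fun H x => min |A H x - G x| (2 * C) with hF
  have hFm : ∀ H, Measurable (F H) := fun H => (((hAm H).sub hGm).abs).min measurable_const
  have hF0 : ∀ H x, 0 ≤ F H x := fun H x => le_min (abs_nonneg _) (by positivity)
  have hFb : ∀ H x, |F H x| ≤ 2 * C := fun H x => by
    rw [abs_of_nonneg (hF0 H x)]; exact min_le_right _ _
  have hFi : ∀ H, Integrable (F H) μ := fun H =>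
    Integrable.of_bound (hFm H).aestronglyMeasurable (2 * C)
      (Eventually.of_forall fun x => by rw [Real.norm_eq_abs]; exact hFb H x)
  have hbF : ∀ᵐ x ∂μ, ∀ H, Tendsto (fun n : ℕ => (n : ℝ)⁻¹ * ∑ k ∈ range n, F H (T^[k] x)) atTop
      (𝓝 ((μ[F H | MeasurableSpace.invariants T]) x)) := by
    rw [ae_all_iff]
    exact fun H => Pool.Agent.H165R3.BPE.birkhoff hT (F H) (hFm H) (2 * C) (hFb H)
  -- the integrals tend to zero
  have hint : Tendsto (fun H => ∫ x, F H x ∂μ) atTop (𝓝 0) := by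
    have h1 : Tendsto (fun H => ∫ x, F H x ∂μ) atTop (𝓝 (∫ _ : X, (0:ℝ) ∂μ)) := by
      refine tendsto_integral_of_dominated_convergence (fun _ => 2 * C)
        (fun H => (hFm H).aestronglyMeasurable) (integrable_const _)
        (fun H => Eventually.of_forall fun x => by rw [Real.norm_eq_abs]; exact hFb H x) ?_
      filter_upwards [hbirk] with x hx
      have h2 : Tendsto (fun H => |A H x - G x|) atTop (𝓝 0) := by
        have h3 : Tendsto (fun H => |A H x - G x|) atTop (𝓝 |G x - G x|) := (hx.sub_const (G x)).abs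
        simpa using h3
      exact squeeze_zero (fun H => hF0 H x) (fun H => min_le_left _ _) h2
    simpa using h1
  have hsm : ∀ᵐ x ∂μ, ∀ q : ℕ, ∃ H : ℕ, 0 < H ∧
      (μ[F H | MeasurableSpace.invariants T]) x < 1 / ((q:ℝ) + 1) := by
    rw [ae_all_iff]
    intro q
    set δ : ℝ := 1 / ((q:ℝ) + 1) with hδ
    have hδ0 : 0 < δ := by positivity
    have hb2 : ∀ H : ℕ, 0 < H → μ.real {x | ¬ ∃ H : ℕ, 0 < H ∧
        (μ[F H | MeasurableSpace.invariants T]) x < δ} ≤ (∫ x, F H x ∂μ) / δ := by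
      intro H hH
      have hnn : 0 ≤ᵐ[μ] μ[F H | MeasurableSpace.invariants T] :=
        condExp_nonneg (Eventually.of_forall fun x => hF0 H x)
      have h1 := mul_meas_ge_le_integral_of_nonneg hnn integrable_condExp δ
      rw [integral_condExp hle] at h1
      rw [le_div_iff₀ hδ0]
      refine le_trans ?_ h1
      rw [mul_comm]
      refine mul_le_mul_of_nonneg_left (measureReal_mono ?_) hδ0.le
      intro x hx
      by_contra hc
      exact hx ⟨H, hH, not_le.1 hc⟩
    have h3 : μ.real {x | ¬ ∃ H : ℕ, 0 < H ∧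
        (μ[F H | MeasurableSpace.invariants T]) x < δ} ≤ 0 := by
      have hl : Tendsto (fun H => (∫ x, F H x ∂μ) / δ) atTop (𝓝 0) := by
        simpa using hint.div_const δ
      refine ge_of_tendsto hl ?_
      filter_upwards [eventually_gt_atTop 0] with H hH
      exact hb2 H hH
    rw [ae_iff]
    exact (measureReal_eq_zero_iff).1 (le_antisymm h3 measureReal_nonneg)
  filter_upwards [hGb, hbF, hsm] with x hx1 hx2 hx3
  refine ⟨hx1, conv hL hLt hD (fun t => f (T^[t] x)) C hC0 (fun t => hb _) (G x) ?_⟩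
  intro δ hδ
  obtain ⟨q, hq⟩ := exists_nat_one_div_lt hδ
  obtain ⟨H, hH, hBH⟩ := hx3 q
  refine ⟨H, hH, _, (hBH.trans hq).le, ?_⟩
  refine (hx2 H).congr fun M => ?_
  congr 1
  refine Finset.sum_congr rfl fun t _ => ?_
  have e1 : sl H (fun t => f (T^[t] x)) t = A H (T^[t] x) := by
    simp only [sl, hA]
    congr 1
    refine Finset.sum_congr rfl fun h _ => ?_
    rw [add_comm, Function.iterate_add_apply]
  rw [e1]
  simp only [hF]
  rw [hGt, min_eq_left]
  have k1 := av_bound T f C hC0 hb H (T^[t] x)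
  have k2 := abs_sub (A H (T^[t] x)) (G x)
  have k3 : |A H (T^[t] x)| ≤ C := k1
  linarith

end Pool.Agent.Run7.h274.Del
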