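import Mathlib

set_option autoImplicit false

namespace Pool.Agent.Run7.h274.Del

open Filter Topology MeasureTheory ProbabilityTheory Finset
open scoped ENNReal NNReal

variable {Ω : Type*} [MeasurableSpace Ω] {P : Measure Ω} [IsProbabilityMeasure P]

/-- one side of the law of large numbers -/
theorem side (Z : ℕ → Ω → ℝ) (hm : ∀ n, Measurable (Z n)) (hind : iIndepFun Z P)
    (C : ℝ) (hC : 0 < C) (hZ : ∀ n ω, |Z n ω| ≤ C) (h0 : ∀ n, ∫ ω, Z n ω ∂P = 0) (ε : ℝ) (hε : 0 < ε) :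
    ∀ᵐ ω ∂P, ∀ᶠ N : ℕ in atTop, ∑ n ∈ range N, Z n ω < ε * N := by
  have hsub : ∀ n, HasSubgaussianMGF (Z n) ((‖C - (-C)‖₊ / 2) ^ 2) P := fun n =>
    hasSubgaussianMGF_of_mem_Icc_of_integral_eq_zero (hm n).aemeasurable
      (Eventually.of_forall fun ω => abs_le.1 (hZ n ω)) (h0 n)
  set c : ℝ≥0 := (‖C - (-C)‖₊ / 2) ^ 2 with hc
  have hcC : (c : ℝ) = C ^ 2 := by
    rw [hc]
    push_cast
    rw [Real.norm_eq_abs, abs_of_pos (by linarith)]
    ring
  have hb : ∀ N : ℕ, P {ω | ε * N ≤ ∑ n ∈ range N, Z n ω} ≤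
      ENNReal.ofReal (Real.exp (-(ε ^ 2 / (2 * C ^ 2)) * N)) := by
    intro N
    have h1 := HasSubgaussianMGF.measure_sum_range_ge_le_of_iIndepFun hind (c := c) (n := N)
      (fun i _ => hsub i) (ε := ε * N) (by positivity)
    rw [← ofReal_measureReal]
    refine ENNReal.ofReal_le_ofReal (h1.trans ?_)
    rcases Nat.eq_zero_or_pos N with rfl | hN
    · simp
    · have hN' : (0:ℝ) < N := by exact_mod_cast hN
      rw [hcC]
      apply le_of_eq
      congr 1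
      field_simp
  have hsum : ∑' N : ℕ, P {ω | ε * N ≤ ∑ n ∈ range N, Z n ω} ≠ ⊤ := by
    have hr : Summable fun N : ℕ => Real.exp (-(ε ^ 2 / (2 * C ^ 2)) * N) := by
      have h2 : ∀ N : ℕ, Real.exp (-(ε ^ 2 / (2 * C ^ 2)) * N) =
          (Real.exp (-(ε ^ 2 / (2 * C ^ 2)))) ^ N := by
        intro N
        rw [← Real.exp_nat_mul]
        congr 1
        ring
      simp_rw [h2]
      refine summable_geometric_of_lt_one (Real.exp_nonneg _) ?_
      rw [Real.exp_lt_one_iff]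
      have : 0 < ε ^ 2 / (2 * C ^ 2) := by positivity
      linarith
    refine ne_top_of_le_ne_top ?_ (ENNReal.tsum_le_tsum hb)
    exact hr.tsum_ofReal_ne_top
  have h3 := measure_limsup_atTop_eq_zero hsum
  have h4 : ∀ᵐ ω ∂P, ω ∉ limsup (fun N : ℕ => {ω | ε * N ≤ ∑ n ∈ range N, Z n ω}) atTop := by
    rw [ae_iff]
    simpa using h3
  filter_upwards [h4] with ω hω
  rw [Filter.mem_limsup_iff_frequently_mem, Filter.not_frequently] at hω
  filter_upwards [hω] with N hN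
  simpa using hN

/-- the strong law for independent bounded variables of mean zero -/
theorem lln (Z : ℕ → Ω → ℝ) (hm : ∀ n, Measurable (Z n)) (hind : iIndepFun Z P)
    (C : ℝ) (hC : 0 < C) (hZ : ∀ n ω, |Z n ω| ≤ C) (h0 : ∀ n, ∫ ω, Z n ω ∂P = 0) :
    ∀ᵐ ω ∂P, Tendsto (fun N : ℕ => (N : ℝ)⁻¹ * ∑ n ∈ range N, Z n ω) atTop (𝓝 0) := by
  have h1 : ∀ᵐ ω ∂P, ∀ q : ℕ, ∀ᶠ N : ℕ in atTop, ∑ n ∈ range N, Z n ω < (1 / ((q:ℝ) + 1)) * N := by
    rw [ae_all_iff]
    intro q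
    exact side Z hm hind C hC hZ h0 _ (by positivity)
  have h2 : ∀ᵐ ω ∂P, ∀ q : ℕ, ∀ᶠ N : ℕ in atTop,
      ∑ n ∈ range N, (-Z n ω) < (1 / ((q:ℝ) + 1)) * N := by
    rw [ae_all_iff]
    intro q
    refine side (fun n ω => -Z n ω) (fun n => (hm n).neg) ?_ C hC (fun n ω => by rw [abs_neg]; exact hZ n ω)
      (fun n => by rw [integral_neg, h0 n, neg_zero]) _ (by positivity)
    exact hind.comp (fun _ x => -x) (fun _ => measurable_neg)
  filter_upwards [h1, h2] with ω ha hb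
  rw [Metric.tendsto_atTop]
  intro ε hε
  obtain ⟨q, hq⟩ := exists_nat_one_div_lt hε
  obtain ⟨N1, hN1⟩ := eventually_atTop.1 (ha q)
  obtain ⟨N2, hN2⟩ := eventually_atTop.1 (hb q)
  refine ⟨max (max N1 N2) 1, fun N hN => ?_⟩
  have g1 := hN1 N (by omega)
  have g2 := hN2 N (by omega)
  have hN' : (0:ℝ) < N := by
    have : 0 < N := by omega
    exact_mod_cast this
  rw [Real.dist_eq, sub_zero, abs_mul, abs_inv, Nat.abs_cast, inv_mul_lt_iff₀ hN', abs_lt]
  rw [Finset.sum_neg_distrib] at g2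
  constructor <;> nlinarith

end Pool.Agent.Run7.h274.Del
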