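import Pool.Agent.Run7.h274.DelWin
import Pool.Agent.Run7.h274.DelLLN

set_option autoImplicit false

namespace Pool.Agent.Run7.h274.Del

open Filter Topology MeasureTheory ProbabilityTheory Finset

variable {Ω : Type*} [MeasurableSpace Ω] {P : Measure Ω} [IsProbabilityMeasure P]

/-- the expectation of a product of functions of the coordinates of a uniform vector -/
theorem unif {m : ℕ} (V : Ω → Fin m → ℕ) (hV : Measurable V) (Λ : Fin m → ℕ) (hΛ : ∀ j, 0 < Λ j)
    (hu : ∀ v : Fin m → ℕ, (∀ j, v j < Λ j) → P.real {ω | V ω = v} = ∏ j, (Λ j : ℝ)⁻¹)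
    (φ : Fin m → ℕ → ℝ) :
    ∫ ω, ∏ j, φ j (V ω j) ∂P = ∏ j, ((Λ j : ℝ)⁻¹ * ∑ b ∈ range (Λ j), φ j b) := by
  classical
  set box : Finset (Fin m → ℕ) := Fintype.piFinset fun j => range (Λ j) with hbox
  have hmem : ∀ v, v ∈ box ↔ ∀ j, v j < Λ j := by
    intro v; simp [hbox, Fintype.mem_piFinset]
  have hms : ∀ v : Fin m → ℕ, MeasurableSet {ω | V ω = v} := fun v =>
    hV (measurableSet_singleton v)
  have hcard : (box.card : ℝ) = ∏ j, (Λ j : ℝ) := by
    rw [hbox, Fintype.card_piFinset]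
    push_cast
    simp
  have hone : P.real (⋃ v ∈ box, {ω | V ω = v}) = 1 := by
    rw [measureReal_biUnion_finset]
    · rw [Finset.sum_congr rfl fun v hv => hu v ((hmem v).1 hv), Finset.sum_const, nsmul_eq_mul,
        hcard, ← Finset.prod_mul_distrib]
      refine Finset.prod_eq_one fun j _ => ?_
      have : (0:ℝ) < Λ j := by exact_mod_cast hΛ j
      exact mul_inv_cancel₀ this.ne'
    · intro v _ w _ hvw
      rw [Function.onFun, Set.disjoint_left]
      intro ω h1 h2
      exact hvw (h1.symm.trans h2)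
    · exact fun v _ => hms v
  have hae : ∀ᵐ ω ∂P, V ω ∈ box := by
    have h1 : MeasurableSet (⋃ v ∈ box, {ω | V ω = v}) := Finset.measurableSet_biUnion _ fun v _ => hms v
    have h2 : P.real (⋃ v ∈ box, {ω | V ω = v})ᶜ = 0 := by
      rw [measureReal_compl h1, hone]
      simp
    rw [measureReal_eq_zero_iff] at h2
    rw [ae_iff]
    refine measure_mono_null ?_ h2
    intro ω hω
    simp only [Set.mem_compl_iff, Set.mem_iUnion, exists_prop, not_exists, not_and]
    intro v hv hVv
    apply hω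
    have : V ω = v := hVv
    rw [this]
    exact hv
  have heq : (fun ω => ∏ j, φ j (V ω j)) =ᵐ[P]
      fun ω => ∑ v ∈ box, {ω | V ω = v}.indicator (fun _ => ∏ j, φ j (v j)) ω := by
    filter_upwards [hae] with ω hω
    rw [Finset.sum_eq_single_of_mem (V ω) hω]
    · simp [Set.indicator]
    · intro v _ hv
      have hn : ω ∉ {ω | V ω = v} := fun h => hv (show V ω = v from h).symm
      exact Set.indicator_of_notMem hn (fun _ => ∏ j, φ j (v j))
  rw [integral_congr_ae heq, integral_finsetSum]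
  · have h1 : ∀ v ∈ box, ∫ ω, {ω | V ω = v}.indicator (fun _ => ∏ j, φ j (v j)) ω ∂P =
        (∏ j, (Λ j : ℝ)⁻¹) * ∏ j, φ j (v j) := by
      intro v hv
      rw [integral_indicator_const _ (hms v), hu v ((hmem v).1 hv), smul_eq_mul]
    rw [Finset.sum_congr rfl h1, ← Finset.mul_sum, hbox, ← Finset.prod_univ_sum,
      ← Finset.prod_mul_distrib]
  · intro v _
    exact (integrable_const _).indicator (hms v)

/-- the mean over a window -/
noncomputable def mean (l : ℕ) (u : ℕ → ℝ) : ℝ := (l : ℝ)⁻¹ * ∑ b ∈ range l, u b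

theorem mean_abs {l : ℕ} {u : ℕ → ℝ} {C : ℝ} (hC0 : 0 ≤ C) (h : ∀ t, |u t| ≤ C) :
    |mean l u| ≤ C := by
  unfold mean
  rw [abs_mul, abs_inv, Nat.abs_cast]
  have h1 : |∑ b ∈ range l, u b| ≤ (l : ℝ) * C := by
    refine (Finset.abs_sum_le_sum_abs _ _).trans ?_
    refine (Finset.sum_le_sum fun b _ => h b).trans ?_
    simp
  rcases Nat.eq_zero_or_pos l with h0 | h0
  · rw [h0]; simp [hC0]
  · have h2 : (0:ℝ) < l := by exact_mod_cast h0
    rw [inv_mul_le_iff₀ h2]
    exact h1

/-- for one point: the weighted averages of the products minus the products of the window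
averages -/
theorem point {m : ℕ} (ξ : ℕ → Ω → Fin m → ℕ) (hm : ∀ n, Measurable (ξ n)) (hind : iIndepFun ξ P)
    (L : Fin m → ℕ → ℕ) (hL : ∀ j n, 0 < L j n)
    (hu : ∀ n, ∀ v : Fin m → ℕ, (∀ j, v j < L j n) → P.real {ω | ξ n ω = v} = ∏ j, (L j n : ℝ)⁻¹)
    (u : Fin m → ℕ → ℕ → ℝ) (C : ℝ) (hC : 1 ≤ C) (hub : ∀ j n t, |u j n t| ≤ C)
    (c : ℕ → ℝ) (hc : ∀ n, |c n| ≤ C) :
    ∀ᵐ ω ∂P, Tendsto (fun N : ℕ => (N : ℝ)⁻¹ * ∑ n ∈ range N,
      c n * (∏ j, u j n (ξ n ω j) - ∏ j, mean (L j n) (u j n))) atTop (𝓝 0) := by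
  set g : ℕ → (Fin m → ℕ) → ℝ := fun n v =>
    c n * (∏ j, u j n (v j) - ∏ j, mean (L j n) (u j n)) with hg
  have hgm : ∀ n, Measurable (g n) := fun n => Measurable.of_discrete
  have hC0 : 0 ≤ C := by linarith
  have hpb : ∀ y : Fin m → ℝ, (∀ j, |y j| ≤ C) → |∏ j, y j| ≤ C ^ m := by
    intro y hy
    rw [Finset.abs_prod]
    refine (Finset.prod_le_prod (fun _ _ => abs_nonneg _) fun j _ => hy j).trans ?_
    simp
  have hgb : ∀ n v, |g n v| ≤ C * (2 * C ^ m) := by
    intro n v
    have k1 := hpb (fun j => u j n (v j)) fun j => hub j n _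
    have k2 := hpb (fun j => mean (L j n) (u j n)) fun j => mean_abs hC0 (hub j n)
    rw [hg]
    simp only
    rw [abs_mul]
    exact mul_le_mul (hc n) ((abs_sub _ _).trans (by linarith)) (abs_nonneg _) hC0
  refine lln (fun n ω => g n (ξ n ω)) (fun n => (hgm n).comp (hm n))
    (hind.comp g hgm) (C * (2 * C ^ m)) (by positivity) (fun n ω => hgb n _) fun n => ?_
  have hi : Integrable (fun ω => ∏ j, u j n (ξ n ω j)) P := by
    refine Integrable.of_bound (C := C ^ m) ?_ ?_
    · have : Measurable (fun v : Fin m → ℕ => ∏ j, u j n (v j)) := Measurable.of_discrete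
      exact (this.comp (hm n)).aestronglyMeasurable
    · exact Eventually.of_forall fun ω => by
        rw [Real.norm_eq_abs]; exact hpb _ fun j => hub j n _
  rw [hg]
  simp only
  rw [integral_const_mul, integral_sub hi (integrable_const _), integral_const, probReal_univ,
    one_smul,
    unif (ξ n) (hm n) (fun j => L j n) (fun j => hL j n) (hu n) (fun j b => u j n b)]
  simp [mean]

/-- almost every choice of the delays is good for almost every point -/
theorem rand {X : Type*} [MeasurableSpace X] (μ : Measure X) [IsProbabilityMeasure μ]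
    {m : ℕ} (ξ : ℕ → Ω → Fin m → ℕ) (hm : ∀ n, Measurable (ξ n)) (hind : iIndepFun ξ P)
    (L : Fin m → ℕ → ℕ) (hL : ∀ j n, 0 < L j n)
    (hu : ∀ n, ∀ v : Fin m → ℕ, (∀ j, v j < L j n) → P.real {ω | ξ n ω = v} = ∏ j, (L j n : ℝ)⁻¹)
    (u : Fin m → ℕ → ℕ → X → ℝ) (hum : ∀ j n t, Measurable (u j n t))
    (C : ℝ) (hC : 1 ≤ C) (hub : ∀ j n t x, |u j n t x| ≤ C)
    (c : ℕ → X → ℝ) (hcm : ∀ n, Measurable (c n)) (hc : ∀ n x, |c n x| ≤ C) :
    ∀ᵐ ω ∂P, ∀ᵐ x ∂μ, Tendsto (fun N : ℕ => (N : ℝ)⁻¹ * ∑ n ∈ range N,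
      c n x * (∏ j, u j n (ξ n ω j) x - ∏ j, mean (L j n) (fun t => u j n t x))) atTop (𝓝 0) := by
  have hmeas : ∀ N : ℕ, Measurable (fun z : Ω × X => (N : ℝ)⁻¹ * ∑ n ∈ range N,
      c n z.2 * (∏ j, u j n (ξ n z.1 j) z.2 -
        ∏ j, mean (L j n) (fun t => u j n t z.2))) := by
    intro N
    have k1 : ∀ j n, Measurable (fun p : ℕ × X => u j n p.1 p.2) := fun j n =>
      measurable_from_prod_countable_right fun k => hum j n k
    have k2 : ∀ n j, Measurable (fun z : Ω × X => u j n (ξ n z.1 j) z.2) := by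
      intro n j
      have e1 : Measurable (fun z : Ω × X => ((ξ n z.1 j : ℕ), z.2)) := by
        refine Measurable.prodMk ?_ measurable_snd
        have : Measurable (fun ω : Ω => ξ n ω j) := (measurable_pi_apply j).comp (hm n)
        exact this.comp measurable_fst
      exact (k1 j n).comp e1
    have k3 : ∀ n j, Measurable (fun z : Ω × X => mean (L j n) (fun t => u j n t z.2)) := by
      intro n j
      unfold mean
      refine (Finset.measurable_fun_sum _ fun b _ => ?_).const_mul _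
      exact (hum j n b).comp measurable_snd
    refine (Finset.measurable_fun_sum _ fun n _ => ?_).const_mul _
    exact ((hcm n).comp measurable_snd).mul
      ((Finset.measurable_fun_prod _ fun j _ => k2 n j).sub
        (Finset.measurable_fun_prod _ fun j _ => k3 n j))
  rw [Measure.ae_ae_comm (measurableSet_tendsto _ hmeas)]
  refine Eventually.of_forall fun x => ?_
  exact point ξ hm hind L hL hu (fun j n t => u j n t x) C hC (fun j n t => hub j n t x)
      (fun n => c n x) (fun n => hc n x)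

end Pool.Agent.Run7.h274.Del
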