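import Mathlib

set_option autoImplicit false

namespace Pool.Agent.Run7.h274.Del

open Filter Topology Finset

/-- the average of `u` over the window `{a n, …, a n + L n - 1}` -/
noncomputable def win (a L : ℕ → ℕ) (u : ℕ → ℝ) (n : ℕ) : ℝ :=
  (L n : ℝ)⁻¹ * ∑ b ∈ range (L n), u (a n + b)

/-- the sliding averages of length `H` -/
noncomputable def sl (H : ℕ) (u : ℕ → ℝ) (t : ℕ) : ℝ := (H : ℝ)⁻¹ * ∑ h ∈ range H, u (t + h)

theorem win_le {a L : ℕ → ℕ} {u v : ℕ → ℝ} (h : ∀ t, u t ≤ v t) (n : ℕ) :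
    win a L u n ≤ win a L v n := by
  unfold win
  exact mul_le_mul_of_nonneg_left (Finset.sum_le_sum fun b _ => h _) (by positivity)

theorem win_nonneg {a L : ℕ → ℕ} {u : ℕ → ℝ} (h : ∀ t, 0 ≤ u t) (n : ℕ) : 0 ≤ win a L u n := by
  unfold win
  exact mul_nonneg (by positivity) (Finset.sum_nonneg fun b _ => h _)

theorem win_abs {a L : ℕ → ℕ} {u : ℕ → ℝ} {C : ℝ} (hC0 : 0 ≤ C) (h : ∀ t, |u t| ≤ C) (n : ℕ) :
    |win a L u n| ≤ C := by
  unfold win
  rw [abs_mul, abs_inv, Nat.abs_cast]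
  have h1 : |∑ b ∈ range (L n), u (a n + b)| ≤ (L n : ℝ) * C := by
    refine (Finset.abs_sum_le_sum_abs _ _).trans ?_
    refine (Finset.sum_le_sum fun b _ => h (a n + b)).trans ?_
    simp
  rcases Nat.eq_zero_or_pos (L n) with h0 | h0
  · rw [h0]; simp [hC0]
  · have h2 : (0:ℝ) < L n := by exact_mod_cast h0
    rw [inv_mul_le_iff₀ h2]
    exact h1

theorem shift_sum (v : ℕ → ℝ) (C : ℝ) (hv : ∀ t, |v t| ≤ C) (l h : ℕ) :
    |∑ b ∈ range l, v (b + h) - ∑ b ∈ range l, v b| ≤ 2 * C * h := by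
  have e1 := Finset.sum_range_add (fun b => v b) l h
  have e2 := Finset.sum_range_add (fun b => v b) h l
  rw [add_comm h l] at e2
  have e3 : ∑ b ∈ range l, v (b + h) = ∑ b ∈ range l, v (h + b) :=
    Finset.sum_congr rfl fun b _ => by rw [add_comm]
  have e4 : ∑ b ∈ range l, v (b + h) - ∑ b ∈ range l, v b =
      ∑ b ∈ range h, v (l + b) - ∑ b ∈ range h, v b := by
    rw [e3]; linarith
  rw [e4]
  have h1 : |∑ b ∈ range h, v (l + b)| ≤ (h:ℝ) * C := by
    refine (Finset.abs_sum_le_sum_abs _ _).trans ?_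
    refine (Finset.sum_le_sum fun b _ => hv (l + b)).trans ?_
    simp
  have h2 : |∑ b ∈ range h, v b| ≤ (h:ℝ) * C := by
    refine (Finset.abs_sum_le_sum_abs _ _).trans ?_
    refine (Finset.sum_le_sum fun b _ => hv b).trans ?_
    simp
  have h3 := abs_sub (∑ b ∈ range h, v (l + b)) (∑ b ∈ range h, v b)
  linarith

theorem win_sl {a L : ℕ → ℕ} (hL : ∀ n, 0 < L n) (u : ℕ → ℝ) (C : ℝ) (hC0 : 0 ≤ C)
    (hu : ∀ t, |u t| ≤ C) (H : ℕ) (hH : 0 < H) (n : ℕ) :
    |win a L u n - win a L (sl H u) n| ≤ 2 * C * H * (L n : ℝ)⁻¹ := by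
  have hH' : (0:ℝ) < H := by exact_mod_cast hH
  have hLn : (0:ℝ) < L n := by exact_mod_cast hL n
  have e1 : win a L (sl H u) n =
      (L n : ℝ)⁻¹ * ((H : ℝ)⁻¹ * ∑ h ∈ range H, ∑ b ∈ range (L n), u (a n + b + h)) := by
    unfold win sl
    rw [← Finset.mul_sum, Finset.sum_comm]
  have e2 : win a L u n =
      (L n : ℝ)⁻¹ * ((H : ℝ)⁻¹ * ∑ h ∈ range H, ∑ b ∈ range (L n), u (a n + b)) := by
    unfold win
    rw [Finset.sum_const, card_range, nsmul_eq_mul, inv_mul_cancel_left₀ hH'.ne']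
  rw [e1, e2, ← mul_sub, ← mul_sub, ← Finset.sum_sub_distrib, abs_mul, abs_mul, abs_inv, abs_inv,
    Nat.abs_cast, Nat.abs_cast, mul_comm (2 * C * H)]
  refine mul_le_mul_of_nonneg_left ?_ (by positivity)
  rw [inv_mul_le_iff₀ hH']
  refine (Finset.abs_sum_le_sum_abs _ _).trans ?_
  calc ∑ h ∈ range H, |∑ b ∈ range (L n), u (a n + b) - ∑ b ∈ range (L n), u (a n + b + h)|
      ≤ ∑ h ∈ range H, 2 * C * H := by
        refine Finset.sum_le_sum fun h hh => ?_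
        have h1 := shift_sum (fun b => u (a n + b)) C (fun t => hu _) (L n) h
        rw [abs_sub_comm]
        have h2 : (h:ℝ) ≤ H := by
          have := Finset.mem_range.1 hh
          exact_mod_cast this.le
        refine le_trans ?_ (mul_le_mul_of_nonneg_left h2 (by positivity))
        simpa [add_assoc] using h1
    _ = (H:ℝ) * (2 * C * H) := by simp

/-- averages over windows are dominated by ordinary averages -/
def Dom (a L : ℕ → ℕ) : Prop :=
  ∃ K : ℝ, 0 ≤ K ∧ ∀ (φ : ℕ → ℝ) (B : ℝ), (∀ t, 0 ≤ φ t) →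
    Tendsto (fun M : ℕ => (M : ℝ)⁻¹ * ∑ t ∈ range M, φ t) atTop (𝓝 B) → ∀ ε : ℝ, 0 < ε →
      ∀ᶠ N : ℕ in atTop, (N : ℝ)⁻¹ * ∑ n ∈ range N, win a L φ n ≤ K * B + ε

theorem conv {a L : ℕ → ℕ} (hL : ∀ n, 0 < L n) (hLt : Tendsto L atTop atTop) (hD : Dom a L)
    (u : ℕ → ℝ) (C : ℝ) (hC0 : 0 ≤ C) (hu : ∀ t, |u t| ≤ C) (G : ℝ)
    (hB : ∀ δ : ℝ, 0 < δ → ∃ H : ℕ, 0 < H ∧ ∃ B : ℝ, B ≤ δ ∧
      Tendsto (fun M : ℕ => (M : ℝ)⁻¹ * ∑ t ∈ range M, |sl H u t - G|) atTop (𝓝 B)) :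
    Tendsto (fun N : ℕ => (N : ℝ)⁻¹ * ∑ n ∈ range N, |win a L u n - G|) atTop (𝓝 0) := by
  obtain ⟨K, hK0, hK⟩ := hD
  rw [Metric.tendsto_atTop]
  intro ε hε
  obtain ⟨H, hH, B, hBδ, hBt⟩ := hB (ε / (4 * (K + 1))) (by positivity)
  have h1 := hK (fun t => |sl H u t - G|) B (fun t => abs_nonneg _) hBt (ε / 4) (by positivity)
  have h2 : Tendsto (fun n : ℕ => 2 * C * H * (L n : ℝ)⁻¹) atTop (𝓝 0) := by
    have : Tendsto (fun n : ℕ => ((L n : ℕ) : ℝ)⁻¹) atTop (𝓝 0) :=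
      tendsto_inv_atTop_zero.comp (tendsto_natCast_atTop_atTop.comp hLt)
    simpa using this.const_mul (2 * C * H)
  have h3 := h2.cesaro
  rw [Metric.tendsto_atTop] at h3
  obtain ⟨N3, hN3⟩ := h3 (ε / 4) (by positivity)
  obtain ⟨N1, hN1⟩ := eventually_atTop.1 h1
  refine ⟨max (max N1 N3) 1, fun N hN => ?_⟩
  have g1 := hN1 N (by omega)
  have g3 := hN3 N (by omega)
  rw [Real.dist_eq, sub_zero] at g3 ⊢
  have g3' := (abs_lt.1 g3).2
  have hN' : (0:ℝ) < N := by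
    have : 0 < N := by omega
    exact_mod_cast this
  rw [abs_of_nonneg (mul_nonneg (by positivity) (Finset.sum_nonneg fun n _ => abs_nonneg _))]
  have hpt : ∀ n, |win a L u n - G| ≤ 2 * C * H * (L n : ℝ)⁻¹ +
      win a L (fun t => |sl H u t - G|) n := by
    intro n
    have k1 := win_sl hL u C hC0 hu H hH (a := a) n
    have k2 : |win a L (sl H u) n - G| ≤ win a L (fun t => |sl H u t - G|) n := by
      have hLn : (0:ℝ) < L n := by exact_mod_cast hL n
      have e : win a L (sl H u) n - G =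
          (L n : ℝ)⁻¹ * ∑ b ∈ range (L n), (sl H u (a n + b) - G) := by
        unfold win
        rw [Finset.sum_sub_distrib, mul_sub, Finset.sum_const, card_range, nsmul_eq_mul,
          inv_mul_cancel_left₀ hLn.ne']
      rw [e, abs_mul, abs_inv, Nat.abs_cast]
      unfold win
      exact mul_le_mul_of_nonneg_left (Finset.abs_sum_le_sum_abs _ _) (by positivity)
    calc |win a L u n - G| = |(win a L u n - win a L (sl H u) n) + (win a L (sl H u) n - G)| := by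
          congr 1; ring
      _ ≤ _ := (abs_add_le _ _).trans (add_le_add k1 k2)
  have hsum : (N:ℝ)⁻¹ * ∑ n ∈ range N, |win a L u n - G| ≤
      (N:ℝ)⁻¹ * ∑ n ∈ range N, (2 * C * H * (L n : ℝ)⁻¹) +
        (N:ℝ)⁻¹ * ∑ n ∈ range N, win a L (fun t => |sl H u t - G|) n := by
    rw [← mul_add, ← Finset.sum_add_distrib]
    exact mul_le_mul_of_nonneg_left (Finset.sum_le_sum fun n _ => hpt n) (by positivity)
  have hKB : K * B ≤ ε / 4 := by
    have : K * B ≤ K * (ε / (4 * (K + 1))) := mul_le_mul_of_nonneg_left hBδ hK0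
    refine this.trans ?_
    rw [mul_div_assoc', div_le_div_iff₀ (by positivity) (by norm_num)]
    nlinarith
  linarith

theorem prod_sub {m : ℕ} (s : Finset (Fin m)) (x y : Fin m → ℝ) (C : ℝ) (hC : 1 ≤ C)
    (hx : ∀ j, |x j| ≤ C) (hy : ∀ j, |y j| ≤ C) :
    |∏ j ∈ s, x j - ∏ j ∈ s, y j| ≤ C ^ s.card * ∑ j ∈ s, |x j - y j| := by
  classical
  induction s using Finset.induction_on with
  | empty => simp
  | @insert i s hi ih =>
    rw [Finset.prod_insert hi, Finset.prod_insert hi, Finset.sum_insert hi,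
      Finset.card_insert_of_notMem hi]
    have hP : |∏ j ∈ s, y j| ≤ C ^ s.card := by
      rw [Finset.abs_prod]
      refine (Finset.prod_le_prod (fun _ _ => abs_nonneg _) fun j _ => hy j).trans ?_
      simp
    have e : x i * ∏ j ∈ s, x j - y i * ∏ j ∈ s, y j =
        x i * (∏ j ∈ s, x j - ∏ j ∈ s, y j) + (x i - y i) * ∏ j ∈ s, y j := by ring
    rw [e]
    refine (abs_add_le _ _).trans ?_
    rw [abs_mul, abs_mul]
    have k1 : |x i| * |∏ j ∈ s, x j - ∏ j ∈ s, y j| ≤ C * (C ^ s.card * ∑ j ∈ s, |x j - y j|) :=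
      mul_le_mul (hx i) ih (abs_nonneg _) (by linarith)
    have k2 : |x i - y i| * |∏ j ∈ s, y j| ≤ |x i - y i| * (C * C ^ s.card) := by
      refine mul_le_mul_of_nonneg_left (hP.trans ?_) (abs_nonneg _)
      have : 0 ≤ C ^ s.card := by positivity
      nlinarith
    rw [pow_succ]
    nlinarith

end Pool.Agent.Run7.h274.Del
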