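import Mathlib

/-!
Random changes of a set of parts, part 1: expectations of products of functions of independent
binary variables, the first `N` of them being frozen.
-/

open MeasureTheory ProbabilityTheory Finset
open scoped ENNReal

namespace Pool.Agent.Run7.h274.ParCore

variable {Ω : Type*} [MeasurableSpace Ω] {P : Measure Ω} [IsProbabilityMeasure P]

omit [IsProbabilityMeasure P] in
theorem prodInt (χ : ℕ → Ω → Bool) (hm : ∀ n, Measurable (χ n)) (hind : iIndepFun χ P)
    (F : Finset ℕ) (g : ℕ → Bool → ℝ) :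
    ∫ ω, ∏ m ∈ F, g m (χ m ω) ∂P = ∏ m ∈ F, ∫ ω, g m (χ m ω) ∂P := by
  have h1 : iIndepFun (fun m : F => χ m) P := hind.precomp Subtype.val_injective
  have h2 := h1.integral_fun_prod_comp (f := fun (m : F) b => g m b)
    (fun m => (hm m).aemeasurable) (fun m => (measurable_of_finite _).aestronglyMeasurable)
  rw [← Finset.prod_coe_sort, ← h2]
  congr 1
  funext ω
  rw [← Finset.prod_coe_sort]

theorem boolInt (χ : Ω → Bool) (hm : Measurable χ) (g : Bool → ℝ) :
    ∫ ω, g (χ ω) ∂P = P.real {ω | χ ω = true} * g true + (1 - P.real {ω | χ ω = true}) * g false := by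
  have hS : MeasurableSet {ω | χ ω = true} := hm (measurableSet_singleton true)
  have h1 : ∀ ω, g (χ ω) = g false + Set.indicator {ω | χ ω = true} (fun _ => g true - g false) ω := by
    intro ω
    by_cases h : χ ω = true
    · rw [Set.indicator_of_mem (by exact h), h]
      ring
    · rw [Set.indicator_of_notMem (by exact h)]
      have : χ ω = false := by simpa using h
      rw [this]
      ring
  simp_rw [h1]
  rw [integral_add (integrable_const _) ((integrable_const _).indicator hS),
    integral_indicator hS, setIntegral_const]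
  simp only [integral_const, probReal_univ, smul_eq_mul]
  ring

/-- truncation -/
def tr (N : ℕ) (x : ℕ → Bool) : ℕ → Bool := fun j => if j < N then x j else false

/-- functions of finitely many of the binary variables are integrable -/
theorem intLocal (χ : ℕ → Ω → Bool) (hm : ∀ n, Measurable (χ n)) (R : ℕ)
    (H : (ℕ → Bool) → ℝ) (hH : ∀ x y, (∀ j < R, x j = y j) → H x = H y) :
    Integrable (fun ω => H (fun n => χ n ω)) P := by
  let X : Ω → (Fin R → Bool) := fun ω i => χ i ω
  have hX : Measurable X := measurable_pi_iff.mpr (fun i => hm i)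
  let ext : (Fin R → Bool) → (ℕ → Bool) := fun a n => if h : n < R then a ⟨n, h⟩ else false
  have h1 : (fun ω => H (fun n => χ n ω)) = (fun a => H (ext a)) ∘ X := by
    funext ω
    refine hH _ _ (fun j hj => ?_)
    show χ j ω = ext (X ω) j
    simp only [ext, hj, dif_pos, X]
  rw [h1]
  refine (integrable_map_measure (measurable_of_finite _).aestronglyMeasurable
    hX.aemeasurable).mp ?_
  exact Integrable.of_finite

theorem key (χ : ℕ → Ω → Bool) (hm : ∀ n, Measurable (χ n)) (hind : iIndepFun χ P)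
    (ρ : ℕ → ℝ) (hρ : ∀ m, P.real {ω | χ m ω = true} = ρ m) (N R : ℕ)
    (Φ : (ℕ → Bool) → ℝ) (hΦ : ∀ x y, (∀ j < N, x j = y j) → Φ x = Φ y)
    (φ : (ℕ → Bool) → ℕ → Bool → ℝ)
    (hφ : ∀ x y, (∀ j < N, x j = y j) → ∀ m ∈ Ico N R, ∀ b, φ x m b = φ y m b) :
    ∫ ω, Φ (fun n => χ n ω) * ∏ m ∈ Ico N R, φ (fun n => χ n ω) m (χ m ω) ∂P =
      ∫ ω, Φ (fun n => χ n ω) * ∏ m ∈ Ico N R, (ρ m * φ (fun n => χ n ω) m true +
        (1 - ρ m) * φ (fun n => χ n ω) m false) ∂P := by
  classical
  let ext : (Fin N → Bool) → (ℕ → Bool) := fun a n => if h : n < N then a ⟨n, h⟩ else false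
  let I : (Fin N → Bool) → ℕ → Bool → ℝ := fun a i b => if b = ext a i then 1 else 0
  have hext : ∀ ω, ∀ j < N, χ j ω = ext (fun i => χ i ω) j := by
    intro ω j hj
    simp only [ext, hj, dif_pos]
  -- decomposition according to the frozen values
  have dec : ∀ (H : (ℕ → Bool) → Ω → ℝ) (_ : ∀ x y, (∀ j < N, x j = y j) → ∀ ω, H x ω = H y ω) ω,
      H (fun n => χ n ω) ω = ∑ a : Fin N → Bool, (∏ i ∈ range N, I a i (χ i ω)) * H (ext a) ω := by
    intro H hH ω
    rw [Finset.sum_eq_single (fun i : Fin N => χ i ω)]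
    · rw [hH _ _ (hext ω) ω, Finset.prod_eq_one, one_mul]
      intro i hi
      rw [Finset.mem_range] at hi
      simp only [I]
      rw [if_pos (hext ω i hi)]
    · intro a _ ha
      have : ∃ i : Fin N, χ i ω ≠ a i := by
        by_contra hcon
        push Not at hcon
        exact ha (funext fun i => (hcon i).symm)
      obtain ⟨i, hi⟩ := this
      rw [Finset.prod_eq_zero (Finset.mem_range.mpr i.2), zero_mul]
      simp only [I, ext, i.2, dif_pos]
      rw [if_neg hi]
    · intro h
      exact absurd (Finset.mem_univ _) h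
  have hdisj : Disjoint (range N) (Ico N R) := by
    rw [Finset.disjoint_left]
    intro i h1 h2
    rw [Finset.mem_range] at h1
    rw [Finset.mem_Ico] at h2
    omega
  have hI : ∀ a, Integrable (fun ω => ∏ i ∈ range N, I a i (χ i ω)) P := fun a =>
    intLocal χ hm N (fun x => ∏ i ∈ range N, I a i (x i)) (fun x y h =>
      Finset.prod_congr rfl fun i hi => by rw [h i (Finset.mem_range.mp hi)])
  have hI2 : ∀ a, Integrable (fun ω => (∏ i ∈ range N, I a i (χ i ω)) *
      ∏ m ∈ Ico N R, φ (ext a) m (χ m ω)) P := fun a =>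
    intLocal χ hm (N + R) (fun x => (∏ i ∈ range N, I a i (x i)) * ∏ m ∈ Ico N R, φ (ext a) m (x m))
      (fun x y h => by
        congr 1
        · exact Finset.prod_congr rfl fun i hi => by rw [h i (by have := Finset.mem_range.mp hi; omega)]
        · exact Finset.prod_congr rfl fun i hi => by rw [h i (by have := (Finset.mem_Ico.mp hi).2; omega)])
  have hprod : ∀ a, ∫ ω, (∏ i ∈ range N, I a i (χ i ω)) * ∏ m ∈ Ico N R, φ (ext a) m (χ m ω) ∂P =
      (∫ ω, ∏ i ∈ range N, I a i (χ i ω) ∂P) * ∏ m ∈ Ico N R, (ρ m * φ (ext a) m true +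
        (1 - ρ m) * φ (ext a) m false) := by
    intro a
    let g : ℕ → Bool → ℝ := fun m b => if m < N then I a m b else φ (ext a) m b
    have e1 : ∀ ω, (∏ i ∈ range N, I a i (χ i ω)) * ∏ m ∈ Ico N R, φ (ext a) m (χ m ω) =
        ∏ m ∈ range N ∪ Ico N R, g m (χ m ω) := by
      intro ω
      rw [Finset.prod_union hdisj]
      congr 1
      · exact Finset.prod_congr rfl fun i hi => by
          simp only [g]
          rw [if_pos (Finset.mem_range.mp hi)]
      · exact Finset.prod_congr rfl fun i hi => by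
          simp only [g]
          rw [if_neg (by have := (Finset.mem_Ico.mp hi).1; omega)]
    simp_rw [e1]
    rw [prodInt χ hm hind, Finset.prod_union hdisj]
    congr 1
    · rw [prodInt χ hm hind]
      exact Finset.prod_congr rfl fun i hi => by
        simp only [g]
        simp_rw [if_pos (Finset.mem_range.mp hi)]
    · refine Finset.prod_congr rfl fun i hi => ?_
      rw [boolInt (χ i) (hm i) (g i), hρ i]
      simp only [g]
      rw [if_neg (by have := (Finset.mem_Ico.mp hi).1; omega),
        if_neg (by have := (Finset.mem_Ico.mp hi).1; omega)]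
  have lhs : ∫ ω, Φ (fun n => χ n ω) * ∏ m ∈ Ico N R, φ (fun n => χ n ω) m (χ m ω) ∂P =
      ∑ a : Fin N → Bool, Φ (ext a) * ((∫ ω, ∏ i ∈ range N, I a i (χ i ω) ∂P) *
        ∏ m ∈ Ico N R, (ρ m * φ (ext a) m true + (1 - ρ m) * φ (ext a) m false)) := by
    have e2 : ∀ ω, Φ (fun n => χ n ω) * ∏ m ∈ Ico N R, φ (fun n => χ n ω) m (χ m ω) =
        ∑ a : Fin N → Bool, Φ (ext a) * ((∏ i ∈ range N, I a i (χ i ω)) *
          ∏ m ∈ Ico N R, φ (ext a) m (χ m ω)) := by
      intro ω
      have := dec (fun x ω => Φ x * ∏ m ∈ Ico N R, φ x m (χ m ω)) (fun x y h ω => by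
        rw [hΦ x y h]
        congr 1
        exact Finset.prod_congr rfl fun m hm' => hφ x y h m hm' _) ω
      rw [this]
      exact Finset.sum_congr rfl fun a _ => by ring
    simp_rw [e2]
    rw [integral_finsetSum _ (fun a _ => (hI2 a).const_mul _)]
    exact Finset.sum_congr rfl fun a _ => by rw [integral_const_mul, hprod a]
  have rhs : ∫ ω, Φ (fun n => χ n ω) * ∏ m ∈ Ico N R, (ρ m * φ (fun n => χ n ω) m true +
        (1 - ρ m) * φ (fun n => χ n ω) m false) ∂P =
      ∑ a : Fin N → Bool, Φ (ext a) * ((∫ ω, ∏ i ∈ range N, I a i (χ i ω) ∂P) *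
        ∏ m ∈ Ico N R, (ρ m * φ (ext a) m true + (1 - ρ m) * φ (ext a) m false)) := by
    have e2 : ∀ ω, Φ (fun n => χ n ω) * ∏ m ∈ Ico N R, (ρ m * φ (fun n => χ n ω) m true +
        (1 - ρ m) * φ (fun n => χ n ω) m false) =
        ∑ a : Fin N → Bool, (Φ (ext a) * ∏ m ∈ Ico N R, (ρ m * φ (ext a) m true +
          (1 - ρ m) * φ (ext a) m false)) * (∏ i ∈ range N, I a i (χ i ω)) := by
      intro ω
      have := dec (fun x _ => Φ x * ∏ m ∈ Ico N R, (ρ m * φ x m true + (1 - ρ m) * φ x m false))
        (fun x y h _ => by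
          rw [hΦ x y h]
          congr 1
          exact Finset.prod_congr rfl fun m hm' => by rw [hφ x y h m hm', hφ x y h m hm']) ω
      rw [this]
      exact Finset.sum_congr rfl fun a _ => by ring
    simp_rw [e2]
    rw [integral_finsetSum _ (fun a _ => (hI a).const_mul _)]
    exact Finset.sum_congr rfl fun a _ => by rw [integral_const_mul]; ring
  rw [lhs, rhs]

end Pool.Agent.Run7.h274.ParCore
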