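import Pool.Agent.Run7.h274.ParVar

/-!
Random changes of a set of parts, part 3: the number of odd values grows.
-/

open MeasureTheory ProbabilityTheory Finset
open scoped ENNReal

namespace Pool.Agent.Run7.h274.ParGrow

open Pool.Agent.Run7.h274.ParCore Pool.Agent.Run7.h274.ParVar

theorem cnt_le_D (G : (ℕ → Bool) → ℕ → Bool) (x : ℕ → Bool) (M n : ℕ)
    (hn : n ∈ Ico (3 * M) (4 * M)) :
    cnt G x M ≤ ((Ico (2 * M) (4 * M)).filter (fun m => dn G x n m = true)).card := by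
  rw [Finset.mem_Ico] at hn
  unfold cnt
  refine Finset.card_le_card_of_injOn (fun j => n - j) ?_ ?_
  · intro j hj
    rw [Finset.mem_coe, Finset.mem_filter, Finset.mem_range] at hj
    rw [Finset.mem_coe, Finset.mem_filter, Finset.mem_Ico]
    show (2 * M ≤ n - j ∧ n - j < 4 * M) ∧ dn G x n (n - j) = true
    refine ⟨⟨by omega, by omega⟩, ?_⟩
    unfold dn
    rw [decide_eq_true (by omega), Bool.true_and, show n - (n - j) = j by omega]
    exact hj.2
  · intro j hj j' hj' h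
    rw [Finset.mem_coe, Finset.mem_filter, Finset.mem_range] at hj hj'
    have h' : n - j = n - j' := h
    omega

theorem D_le_cnt (G : (ℕ → Bool) → ℕ → Bool) (x : ℕ → Bool) (M m : ℕ)
    (hm : m ∈ Ico (2 * M) (4 * M)) :
    ((Ico (3 * M) (4 * M)).filter (fun n => dn G x n m = true)).card ≤ cnt G x (2 * M) := by
  rw [Finset.mem_Ico] at hm
  unfold cnt
  have key : ∀ n ∈ (Ico (3 * M) (4 * M)).filter (fun n => dn G x n m = true),
      m ≤ n ∧ n < 4 * M ∧ G x (n - m) = true := by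
    intro n hn
    rw [Finset.mem_filter, Finset.mem_Ico] at hn
    unfold dn at hn
    rw [Bool.and_eq_true, decide_eq_true_eq] at hn
    exact ⟨hn.2.1, hn.1.2, hn.2.2⟩
  refine Finset.card_le_card_of_injOn (fun n => n - m) ?_ ?_
  · intro n hn
    obtain ⟨h1, h2, h3⟩ := key n hn
    rw [Finset.mem_coe, Finset.mem_filter, Finset.mem_range]
    show n - m < 2 * M ∧ G x (n - m) = true
    exact ⟨by omega, h3⟩
  · intro n hn n' hn' h
    obtain ⟨h1, _, _⟩ := key n hn
    obtain ⟨h1', _, _⟩ := key n' hn'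
    have h' : n - m = n' - m := h
    omega

theorem sumR (G : (ℕ → Bool) → ℕ → Bool) (x : ℕ → Bool) (M : ℕ) :
    ∑ n ∈ Ico (3 * M) (4 * M), ∑ n' ∈ Ico (3 * M) (4 * M),
      (((Ico (2 * M) (4 * M)).filter (fun m => dn G x n m = true ∧ dn G x n' m = true)).card) ≤
      2 * M * (cnt G x (2 * M)) ^ 2 := by
  classical
  have h1 : ∀ n n', ((Ico (2 * M) (4 * M)).filter
      (fun m => dn G x n m = true ∧ dn G x n' m = true)).card =
      ∑ m ∈ Ico (2 * M) (4 * M), (if dn G x n m = true then 1 else 0) *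
        (if dn G x n' m = true then 1 else 0) := by
    intro n n'
    rw [Finset.card_filter]
    refine Finset.sum_congr rfl fun m _ => ?_
    cases dn G x n m <;> cases dn G x n' m <;> simp
  simp_rw [h1]
  have h2 : ∀ n ∈ Ico (3 * M) (4 * M), ∑ n' ∈ Ico (3 * M) (4 * M), ∑ m ∈ Ico (2 * M) (4 * M),
      (if dn G x n m = true then 1 else 0) * (if dn G x n' m = true then 1 else 0) =
      ∑ m ∈ Ico (2 * M) (4 * M), (if dn G x n m = true then 1 else 0) *
        ((Ico (3 * M) (4 * M)).filter (fun n' => dn G x n' m = true)).card := by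
    intro n _
    rw [Finset.sum_comm]
    refine Finset.sum_congr rfl fun m _ => ?_
    rw [← Finset.mul_sum, Finset.card_filter]
  rw [Finset.sum_congr rfl h2, Finset.sum_comm]
  calc ∑ m ∈ Ico (2 * M) (4 * M), ∑ n ∈ Ico (3 * M) (4 * M),
      (if dn G x n m = true then 1 else 0) *
        ((Ico (3 * M) (4 * M)).filter (fun n' => dn G x n' m = true)).card
      = ∑ m ∈ Ico (2 * M) (4 * M), ((Ico (3 * M) (4 * M)).filter
          (fun n' => dn G x n' m = true)).card ^ 2 := by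
        refine Finset.sum_congr rfl fun m _ => ?_
        rw [← Finset.sum_mul, ← Finset.card_filter, sq]
    _ ≤ ∑ _m ∈ Ico (2 * M) (4 * M), (cnt G x (2 * M)) ^ 2 :=
        Finset.sum_le_sum fun m hm => Nat.pow_le_pow_left (D_le_cnt G x M m hm) 2
    _ = 2 * M * (cnt G x (2 * M)) ^ 2 := by
        rw [Finset.sum_const, Nat.card_Ico, smul_eq_mul]
        congr 1
        omega

theorem sg_abs (b : Bool) : |sg b| = 1 := by
  unfold sg
  cases b <;> simp

theorem cnt_loc (G : (ℕ → Bool) → ℕ → Bool)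
    (hL : ∀ x y n, (∀ j ≤ n, x j = y j) → G x n = G y n) (N M : ℕ) (hMN : M ≤ N)
    (x y : ℕ → Bool) (h : ∀ j < N, x j = y j) : cnt G x M = cnt G y M := by
  unfold cnt
  congr 1
  refine Finset.filter_congr fun j hj => ?_
  rw [Finset.mem_range] at hj
  rw [hL x y j (fun i hi => h i (by omega))]

variable {Ω : Type*} [MeasurableSpace Ω] {P : Measure Ω} [IsProbabilityMeasure P]

/-- block sum of the signs -/
noncomputable def Y (G : (ℕ → Bool) → ℕ → Bool) (M : ℕ) (x : ℕ → Bool) : ℝ :=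
  ∑ n ∈ Ico (3 * M) (4 * M), sg (G x n)

/-- block sum of the conditional means -/
noncomputable def U (G : (ℕ → Bool) → ℕ → Bool) (ρ : ℕ → ℝ) (M : ℕ) (x : ℕ → Bool) : ℝ :=
  ∑ n ∈ Ico (3 * M) (4 * M), mu G ρ (2 * M) (4 * M) x n

theorem mu_loc (G : (ℕ → Bool) → ℕ → Bool)
    (hL : ∀ x y n, (∀ j ≤ n, x j = y j) → G x n = G y n) (ρ : ℕ → ℝ) (N R n : ℕ) (hn : n < 2 * N)
    (x y : ℕ → Bool) (h : ∀ j < N, x j = y j) : mu G ρ N R x n = mu G ρ N R y n := by
  unfold mu
  rw [tr_loc N x y h]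
  congr 1
  refine Finset.prod_congr rfl fun m hm => ?_
  rw [dn_loc G hL N n hn x y h m (Finset.mem_Ico.mp hm).1]

theorem variance (χ : ℕ → Ω → Bool) (hm : ∀ n, Measurable (χ n)) (hind : iIndepFun χ P)
    (ρ : ℕ → ℝ) (hρ : ∀ m, P.real {ω | χ m ω = true} = ρ m)
    (G : (ℕ → Bool) → ℕ → Bool) (hL : ∀ x y n, (∀ j ≤ n, x j = y j) → G x n = G y n)
    (hA : ∀ x N n, N ≤ n → n < 2 * N → sg (G x n) = sg (G (tr N x) n) *
      ∏ m ∈ Ico N (n + 1), fac (G x (n - m)) (x m))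
    (M : ℕ) (hM : 1 ≤ M) (r₀ κ : ℝ) (hr : 0 < r₀) (hκ : 1 ≤ κ)
    (hρ1 : ∀ m ∈ Ico (2 * M) (4 * M), r₀ ≤ ρ m) (hρ2 : ∀ m ∈ Ico (2 * M) (4 * M), ρ m ≤ κ * r₀)
    (hρ3 : ∀ m ∈ Ico (2 * M) (4 * M), ρ m ≤ 1 / 2)
    (Φ : (ℕ → Bool) → ℝ) (hΦ : ∀ x y, (∀ j < 2 * M, x j = y j) → Φ x = Φ y)
    (hΦ0 : ∀ x, 0 ≤ Φ x) (hΦ1 : ∀ x, Φ x ≠ 0 → 1 ≤ cnt G x M) :
    ∫ ω, Φ (fun i => χ i ω) * (Y G M (fun i => χ i ω) - U G ρ M (fun i => χ i ω)) ^ 2 ∂P ≤
    ∫ ω, Φ (fun i => χ i ω) * (4 * κ / (cnt G (fun i => χ i ω) M) *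
      min (r₀ * cnt G (fun i => χ i ω) M) 1 *
      (2 * M * (cnt G (fun i => χ i ω) (2 * M) : ℝ) ^ 2)) ∂P := by
  classical
  let I : Finset ℕ := Ico (3 * M) (4 * M)
  let Dv : (ℕ → Bool) → ℕ → ℝ := fun x n => sg (G x n) - mu G ρ (2 * M) (4 * M) x n
  let Q : (ℕ → Bool) → ℕ → ℕ → ℝ := fun x n n' =>
    (sg (G (tr (2 * M) x) n) * sg (G (tr (2 * M) x) n')) *
      (∏ m ∈ Ico (2 * M) (4 * M), (if (dn G x n m).xor (dn G x n' m) then 1 - 2 * ρ m else 1) -
        ∏ m ∈ Ico (2 * M) (4 * M), ((if dn G x n m then 1 - 2 * ρ m else 1) *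
          (if dn G x n' m then 1 - 2 * ρ m else 1)))
  have e1 : ∀ ω, Φ (fun i => χ i ω) * (Y G M (fun i => χ i ω) - U G ρ M (fun i => χ i ω)) ^ 2 =
      ∑ n ∈ I, ∑ n' ∈ I, Φ (fun i => χ i ω) * (Dv (fun i => χ i ω) n * Dv (fun i => χ i ω) n') := by
    intro ω
    unfold Y U
    rw [← Finset.sum_sub_distrib, sq, Finset.sum_mul_sum, Finset.mul_sum]
    exact Finset.sum_congr rfl fun n _ => by rw [Finset.mul_sum]
  have hint1 : ∀ n ∈ I, ∀ n' ∈ I, Integrable (fun ω => Φ (fun i => χ i ω) *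
      (Dv (fun i => χ i ω) n * Dv (fun i => χ i ω) n')) P := by
    intro n hn n' hn'
    have hn2 := (Finset.mem_Ico.mp hn).2
    have hn2' := (Finset.mem_Ico.mp hn').2
    refine intLocal χ hm (4 * M) (fun x => Φ x * (Dv x n * Dv x n')) (fun x y h => ?_)
    have h' : ∀ j < 2 * M, x j = y j := fun j hj => h j (by omega)
    show Φ x * (Dv x n * Dv x n') = Φ y * (Dv y n * Dv y n')
    simp only [Dv]
    rw [hΦ x y h', mu_loc G hL ρ (2 * M) (4 * M) n (by omega) x y h',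
      mu_loc G hL ρ (2 * M) (4 * M) n' (by omega) x y h',
      hL x y n (fun j hj => h j (by omega)), hL x y n' (fun j hj => h j (by omega))]
  have hint2 : ∀ n ∈ I, ∀ n' ∈ I, Integrable (fun ω => Φ (fun i => χ i ω) *
      Q (fun i => χ i ω) n n') P := by
    intro n hn n' hn'
    have hn2 := (Finset.mem_Ico.mp hn).2
    have hn2' := (Finset.mem_Ico.mp hn').2
    refine intLocal χ hm (2 * M) (fun x => Φ x * Q x n n') (fun x y h => ?_)
    show Φ x * Q x n n' = Φ y * Q y n n'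
    simp only [Q]
    rw [hΦ x y h, tr_loc (2 * M) x y h]
    congr 2
    congr 1
    · refine Finset.prod_congr rfl fun m hm => ?_
      rw [dn_loc G hL (2 * M) n (by omega) x y h m (Finset.mem_Ico.mp hm).1,
        dn_loc G hL (2 * M) n' (by omega) x y h m (Finset.mem_Ico.mp hm).1]
    · refine Finset.prod_congr rfl fun m hm => ?_
      rw [dn_loc G hL (2 * M) n (by omega) x y h m (Finset.mem_Ico.mp hm).1,
        dn_loc G hL (2 * M) n' (by omega) x y h m (Finset.mem_Ico.mp hm).1]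
  have e2 : ∫ ω, Φ (fun i => χ i ω) * (Y G M (fun i => χ i ω) - U G ρ M (fun i => χ i ω)) ^ 2 ∂P =
      ∫ ω, ∑ n ∈ I, ∑ n' ∈ I, Φ (fun i => χ i ω) * Q (fun i => χ i ω) n n' ∂P := by
    simp_rw [e1]
    rw [integral_finsetSum _ (fun n hn => integrable_finsetSum _ (fun n' hn' => hint1 n hn n' hn')),
      integral_finsetSum _ (fun n hn => integrable_finsetSum _ (fun n' hn' => hint2 n hn n' hn'))]
    refine Finset.sum_congr rfl fun n hn => ?_
    rw [integral_finsetSum _ (fun n' hn' => hint1 n hn n' hn'),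
      integral_finsetSum _ (fun n' hn' => hint2 n hn n' hn')]
    refine Finset.sum_congr rfl fun n' hn' => ?_
    have hn2 := Finset.mem_Ico.mp hn
    have hn2' := Finset.mem_Ico.mp hn'
    exact pair χ hm hind ρ hρ G hL hA (2 * M) (4 * M) n n' (by omega) (by omega) (by omega)
      (by omega) (by omega) Φ hΦ
  rw [e2]
  refine integral_mono (integrable_finsetSum _ fun n hn => integrable_finsetSum _
    fun n' hn' => hint2 n hn n' hn') ?_ (fun ω => ?_)
  · refine intLocal χ hm (2 * M) (fun x => Φ x * (4 * κ / (cnt G x M) *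
      min (r₀ * cnt G x M) 1 * (2 * M * (cnt G x (2 * M) : ℝ) ^ 2))) (fun x y h => ?_)
    show Φ x * (4 * κ / (cnt G x M) * min (r₀ * cnt G x M) 1 *
      (2 * M * (cnt G x (2 * M) : ℝ) ^ 2)) = Φ y * (4 * κ / (cnt G y M) *
      min (r₀ * cnt G y M) 1 * (2 * M * (cnt G y (2 * M) : ℝ) ^ 2))
    rw [hΦ x y h, cnt_loc G hL (2 * M) M (by omega) x y h,
      cnt_loc G hL (2 * M) (2 * M) le_rfl x y h]
  · show ∑ n ∈ I, ∑ n' ∈ I, Φ (fun i => χ i ω) * Q (fun i => χ i ω) n n' ≤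
      Φ (fun i => χ i ω) * (4 * κ / (cnt G (fun i => χ i ω) M) *
      min (r₀ * cnt G (fun i => χ i ω) M) 1 *
      (2 * M * (cnt G (fun i => χ i ω) (2 * M) : ℝ) ^ 2))
    generalize (fun i => χ i ω) = x
    by_cases hz : Φ x = 0
    · rw [hz]
      simp
    have hW := hΦ1 x hz
    have hWR : (0 : ℝ) < cnt G x M := by
      have : (1 : ℝ) ≤ cnt G x M := by exact_mod_cast hW
      linarith
    have e3 : ∑ n ∈ I, ∑ n' ∈ I, Φ x * Q x n n' = Φ x * ∑ n ∈ I, ∑ n' ∈ I, Q x n n' := by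
      rw [Finset.mul_sum]
      exact Finset.sum_congr rfl fun n _ => by rw [Finset.mul_sum]
    rw [e3]
    refine mul_le_mul_of_nonneg_left ?_ (hΦ0 x)
    have hQ : ∀ n ∈ I, ∀ n' ∈ I, Q x n n' ≤ 4 * κ / (cnt G x M) * min (r₀ * cnt G x M) 1 *
        (((Ico (2 * M) (4 * M)).filter
          (fun m => dn G x n m = true ∧ dn G x n' m = true)).card : ℝ) := by
      intro n hn n' hn'
      have hb := prodBound (Ico (2 * M) (4 * M)) (dn G x n) (dn G x n') (fun m => 1 - 2 * ρ m)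
        r₀ κ (cnt G x M) hr hκ (fun m hm => by have := hρ3 m hm; linarith)
        (fun m hm => by have := hρ1 m hm; linarith) (fun m hm => by have := hρ2 m hm; linarith)
        hWR (by exact_mod_cast cnt_le_D G x M n hn) (by exact_mod_cast cnt_le_D G x M n' hn')
      refine le_trans (le_abs_self _) ?_
      simp only [Q]
      rw [abs_mul, abs_mul, sg_abs, sg_abs, one_mul, one_mul]
      refine le_trans hb (le_of_eq ?_)
      ring
    calc ∑ n ∈ I, ∑ n' ∈ I, Q x n n'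
        ≤ ∑ n ∈ I, ∑ n' ∈ I, 4 * κ / (cnt G x M) * min (r₀ * cnt G x M) 1 *
          (((Ico (2 * M) (4 * M)).filter
            (fun m => dn G x n m = true ∧ dn G x n' m = true)).card : ℝ) :=
          Finset.sum_le_sum fun n hn => Finset.sum_le_sum fun n' hn' => hQ n hn n' hn'
      _ = 4 * κ / (cnt G x M) * min (r₀ * cnt G x M) 1 *
          ((∑ n ∈ I, ∑ n' ∈ I, (((Ico (2 * M) (4 * M)).filter
            (fun m => dn G x n m = true ∧ dn G x n' m = true)).card) : ℕ) : ℝ) := by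
          push_cast
          rw [Finset.mul_sum]
          exact Finset.sum_congr rfl fun n _ => by rw [Finset.mul_sum]
      _ ≤ 4 * κ / (cnt G x M) * min (r₀ * cnt G x M) 1 *
          (2 * M * (cnt G x (2 * M) : ℝ) ^ 2) := by
          refine mul_le_mul_of_nonneg_left ?_ ?_
          · have := sumR G x M
            exact_mod_cast this
          · have h1 : 0 ≤ min (r₀ * cnt G x M) 1 := le_min (by positivity) zero_le_one
            have h2 : 0 ≤ 4 * κ / (cnt G x M : ℝ) := div_nonneg (by linarith) hWR.le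
            exact mul_nonneg h2 h1

end Pool.Agent.Run7.h274.ParGrow
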