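import Pool.Agent.Run7.h274.ParLow

/-!
Random changes of a set of parts, part 6: second moments of weighted sums of signs.
-/

open MeasureTheory ProbabilityTheory Finset Filter
open scoped ENNReal

namespace Pool.Agent.Run7.h274.ParLaw

open Pool.Agent.Run7.h274.ParCore Pool.Agent.Run7.h274.ParVar Pool.Agent.Run7.h274.ParGrow
  Pool.Agent.Run7.h274.ParStep Pool.Agent.Run7.h274.ParLow

/-- indicator of many odd values below `H` -/
noncomputable def good (G : (ℕ → Bool) → ℕ → Bool) (H : ℕ) (x : ℕ → Bool) : ℝ := by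
  classical
  exact if (H : ℝ) ≤ 16 * (Real.log H) ^ 2 * cnt G x H then 1 else 0

theorem good_loc (G : (ℕ → Bool) → ℕ → Bool)
    (hL : ∀ x y n, (∀ j ≤ n, x j = y j) → G x n = G y n) (N H : ℕ) (hHN : H ≤ N)
    (x y : ℕ → Bool) (h : ∀ j < N, x j = y j) : good G H x = good G H y := by
  unfold good
  rw [cnt_loc G hL N H hHN x y h]

theorem good_nonneg (G : (ℕ → Bool) → ℕ → Bool) (H : ℕ) (x : ℕ → Bool) : 0 ≤ good G H x := by
  unfold good
  split_ifs
  · exact zero_le_one
  · exact le_refl _

theorem good_le (G : (ℕ → Bool) → ℕ → Bool) (H : ℕ) (x : ℕ → Bool) : good G H x ≤ 1 := by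
  unfold good
  split_ifs
  · exact le_refl _
  · exact zero_le_one

variable {Ω : Type*} [MeasurableSpace Ω] {P : Measure Ω} [IsProbabilityMeasure P]

theorem far (χ : ℕ → Ω → Bool) (hm : ∀ n, Measurable (χ n)) (hind : iIndepFun χ P)
    (ρ : ℕ → ℝ) (hρ : ∀ m, P.real {ω | χ m ω = true} = ρ m)
    (G : (ℕ → Bool) → ℕ → Bool) (hL : ∀ x y n, (∀ j ≤ n, x j = y j) → G x n = G y n)
    (hA : ∀ x N n, N ≤ n → n < 2 * N → sg (G x n) = sg (G (tr N x) n) *
      ∏ m ∈ Ico N (n + 1), fac (G x (n - m)) (x m))
    (H y : ℕ) (hH : 1 ≤ H) (r E : ℝ) (hr : 0 ≤ r)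
    (hρ1 : ∀ m, H ≤ m → m < y → r ≤ ρ m) (hρ3 : ∀ m, H ≤ m → m < y → ρ m ≤ 1 / 2)
    (hE : ∀ K : ℝ, (H : ℝ) ≤ 16 * (Real.log H) ^ 2 * K → Real.exp (-(2 * (r * K))) ≤ E)
    (hE0 : 0 ≤ E)
    (n n' : ℕ) (hn' : n' < y) (hnn : n + 2 * H ≤ n') :
    |∫ ω, good G H (fun i => χ i ω) * (sg (G (fun i => χ i ω) n) *
      sg (G (fun i => χ i ω) n')) ∂P| ≤ E := by
  classical
  set N : ℕ := max (n + 1) (n' / 2 + 1) with hN
  have hN1 : n + 1 ≤ N := le_max_left _ _
  have hN2 : n' / 2 + 1 ≤ N := le_max_right _ _
  have hNn' : N ≤ n' := max_le (by omega) (by omega)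
  have h2N : n' < 2 * N := by omega
  have hNH : H ≤ N := by omega
  have hNup : N + H ≤ n' + 1 := by
    rw [hN]
    have h1 : n + 1 + H ≤ n' + 1 := by omega
    have h2 : n' / 2 + 1 + H ≤ n' + 1 := by omega
    rcases max_choice (n + 1) (n' / 2 + 1) with h | h <;> rw [h] <;> assumption
  let Φ : (ℕ → Bool) → ℝ := fun x => good G H x * (sg (G x n) * sg (G (tr N x) n'))
  have hΦ : ∀ x y, (∀ j < N, x j = y j) → Φ x = Φ y := by
    intro x y h
    simp only [Φ]
    rw [good_loc G hL N H hNH x y h, tr_loc N x y h, hL x y n (fun j hj => h j (by omega))]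
  have hdn : ∀ x y : ℕ → Bool, (∀ j < N, x j = y j) → ∀ m ∈ Ico N (n' + 1),
      ∀ b, fac (dn G x n' m) b = fac (dn G y n' m) b :=
    fun x y h m hm b => by rw [dn_loc G hL N n' h2N x y h m (Finset.mem_Ico.mp hm).1]
  have hk := key (P := P) χ hm hind ρ hρ N (n' + 1) Φ hΦ (fun x m b => fac (dn G x n' m) b) hdn
  have e1 : ∀ ω, good G H (fun i => χ i ω) * (sg (G (fun i => χ i ω) n) *
      sg (G (fun i => χ i ω) n')) = Φ (fun i => χ i ω) *
      ∏ m ∈ Ico N (n' + 1), fac (dn G (fun i => χ i ω) n' m) (χ m ω) := by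
    intro ω
    rw [sign_eq G hA (fun i => χ i ω) N n' (n' + 1) hNn' h2N (by omega)]
    simp only [Φ]
    ring
  simp_rw [e1]
  rw [hk]
  have e2 : ∀ (x : ℕ → Bool) m, ρ m * fac (dn G x n' m) true + (1 - ρ m) * fac (dn G x n' m) false =
      (if dn G x n' m then 1 - 2 * ρ m else 1) := by
    intro x m
    unfold fac
    cases dn G x n' m <;> simp <;> ring
  simp_rw [e2]
  have hpt : ∀ x : ℕ → Bool, |Φ x * ∏ m ∈ Ico N (n' + 1), (if dn G x n' m then 1 - 2 * ρ m else 1)| ≤
      E := by
    intro x
    simp only [Φ]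
    rw [abs_mul, abs_mul, abs_mul, sg_abs, sg_abs, one_mul, mul_one,
      abs_of_nonneg (good_nonneg G H x)]
    by_cases hg : (H : ℝ) ≤ 16 * (Real.log H) ^ 2 * cnt G x H
    · have h1 : good G H x ≤ 1 := good_le G H x
      have hprod0 : 0 ≤ ∏ m ∈ Ico N (n' + 1), (if dn G x n' m then 1 - 2 * ρ m else 1) :=
        Finset.prod_nonneg fun m hm => by
          rw [Finset.mem_Ico] at hm
          split_ifs
          · have := hρ3 m (by omega) (by omega)
            linarith
          · exact zero_le_one
      rw [abs_of_nonneg hprod0]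
      have h2 : ∏ m ∈ Ico N (n' + 1), (if dn G x n' m then 1 - 2 * ρ m else 1) ≤
          Real.exp (-(2 * (r * cnt G x H))) := by
        calc ∏ m ∈ Ico N (n' + 1), (if dn G x n' m then 1 - 2 * ρ m else 1)
            ≤ ∏ m ∈ Ico N (n' + 1), Real.exp (if dn G x n' m then -(2 * r) else 0) := by
              refine Finset.prod_le_prod (fun m hm => ?_) (fun m hm => ?_)
              · rw [Finset.mem_Ico] at hm
                split_ifs
                · have := hρ3 m (by omega) (by omega)
                  linarith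
                · exact zero_le_one
              · rw [Finset.mem_Ico] at hm
                split_ifs
                · have h3 := Real.one_sub_le_exp_neg (2 * r)
                  have := hρ1 m (by omega) (by omega)
                  linarith
                · rw [Real.exp_zero]
          _ = Real.exp (-(2 * r) *
              ((Ico N (n' + 1)).filter (fun m => dn G x n' m = true)).card) := by
              rw [← Real.exp_sum, ← Finset.sum_filter, Finset.sum_const, nsmul_eq_mul, mul_comm]
          _ ≤ Real.exp (-(2 * (r * cnt G x H))) := by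
              refine Real.exp_le_exp.mpr ?_
              have h3 : (cnt G x H : ℝ) ≤
                  ((Ico N (n' + 1)).filter (fun m => dn G x n' m = true)).card := by
                have : cnt G x H ≤ ((Ico N (n' + 1)).filter (fun m => dn G x n' m = true)).card := by
                  unfold cnt
                  refine Finset.card_le_card_of_injOn (fun j => n' - j) ?_ ?_
                  · intro j hj
                    rw [Finset.mem_coe, Finset.mem_filter, Finset.mem_range] at hj
                    rw [Finset.mem_coe, Finset.mem_filter, Finset.mem_Ico]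
                    show (N ≤ n' - j ∧ n' - j < n' + 1) ∧ dn G x n' (n' - j) = true
                    refine ⟨⟨by omega, by omega⟩, ?_⟩
                    unfold dn
                    rw [decide_eq_true (by omega), Bool.true_and, show n' - (n' - j) = j by omega]
                    exact hj.2
                  · intro j hj j' hj' h
                    rw [Finset.mem_coe, Finset.mem_filter, Finset.mem_range] at hj hj'
                    have h' : n' - j = n' - j' := h
                    omega
                exact_mod_cast this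
              nlinarith
      calc good G H x * ∏ m ∈ Ico N (n' + 1), (if dn G x n' m then 1 - 2 * ρ m else 1)
          ≤ 1 * Real.exp (-(2 * (r * cnt G x H))) :=
            mul_le_mul h1 h2 hprod0 zero_le_one
        _ = Real.exp (-(2 * (r * cnt G x H))) := one_mul _
        _ ≤ E := hE _ hg
    · have : good G H x = 0 := by
        unfold good
        rw [if_neg hg]
      rw [this, zero_mul]
      exact hE0
  calc |∫ ω, Φ (fun i => χ i ω) * ∏ m ∈ Ico N (n' + 1),
        (if dn G (fun i => χ i ω) n' m then 1 - 2 * ρ m else 1) ∂P|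
      ≤ ∫ ω, |Φ (fun i => χ i ω) * ∏ m ∈ Ico N (n' + 1),
        (if dn G (fun i => χ i ω) n' m then 1 - 2 * ρ m else 1)| ∂P := abs_integral_le_integral_abs
    _ ≤ ∫ _ω, E ∂P := by
        refine integral_mono ?_ (integrable_const _) (fun ω => hpt _)
        refine (intLocal χ hm N (fun x => Φ x * ∏ m ∈ Ico N (n' + 1),
          (if dn G x n' m then 1 - 2 * ρ m else 1)) (fun x y h => ?_)).abs
        show Φ x * _ = Φ y * _
        rw [hΦ x y h]
        congr 1
        refine Finset.prod_congr rfl fun m hm => ?_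
        rw [dn_loc G hL N n' h2N x y h m (Finset.mem_Ico.mp hm).1]
    _ = E := by simp

/-- weighted sum of signs -/
noncomputable def S (G : (ℕ → Bool) → ℕ → Bool) (w : ℕ → ℝ) (y : ℕ) (x : ℕ → Bool) : ℝ :=
  ∑ n ∈ range y, w n * sg (G x n)

theorem second (χ : ℕ → Ω → Bool) (hm : ∀ n, Measurable (χ n)) (hind : iIndepFun χ P)
    (ρ : ℕ → ℝ) (hρ : ∀ m, P.real {ω | χ m ω = true} = ρ m)
    (G : (ℕ → Bool) → ℕ → Bool) (hL : ∀ x y n, (∀ j ≤ n, x j = y j) → G x n = G y n)
    (hA : ∀ x N n, N ≤ n → n < 2 * N → sg (G x n) = sg (G (tr N x) n) *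
      ∏ m ∈ Ico N (n + 1), fac (G x (n - m)) (x m))
    (w : ℕ → ℝ) (hw : ∀ n, |w n| ≤ 1)
    (H y : ℕ) (hH : 1 ≤ H) (r E : ℝ) (hr : 0 ≤ r)
    (hρ1 : ∀ m, H ≤ m → m < y → r ≤ ρ m) (hρ3 : ∀ m, H ≤ m → m < y → ρ m ≤ 1 / 2)
    (hE : ∀ K : ℝ, (H : ℝ) ≤ 16 * (Real.log H) ^ 2 * K → Real.exp (-(2 * (r * K))) ≤ E)
    (hE0 : 0 ≤ E) :
    ∫ ω, good G H (fun i => χ i ω) * (S G w y (fun i => χ i ω)) ^ 2 ∂P ≤
      4 * H * y + y ^ 2 * E := by
  classical
  let A : ℕ → ℕ → Ω → ℝ := fun n n' ω => good G H (fun i => χ i ω) * (sg (G (fun i => χ i ω) n) *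
      sg (G (fun i => χ i ω) n'))
  have hAint : ∀ n n', Integrable (A n n') P := by
    intro n n'
    refine intLocal χ hm (H + n + n' + 1) (fun x => good G H x * (sg (G x n) * sg (G x n')))
      (fun x y h => ?_)
    show good G H x * (sg (G x n) * sg (G x n')) = good G H y * (sg (G y n) * sg (G y n'))
    rw [good_loc G hL (H + n + n' + 1) H (by omega) x y h, hL x y n (fun j hj => h j (by omega)),
      hL x y n' (fun j hj => h j (by omega))]
  have hA1 : ∀ n n', |∫ ω, A n n' ω ∂P| ≤ 1 := by
    intro n n'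
    calc |∫ ω, A n n' ω ∂P| ≤ ∫ ω, |A n n' ω| ∂P := abs_integral_le_integral_abs
      _ ≤ ∫ _ω, (1 : ℝ) ∂P := by
          refine integral_mono (hAint n n').abs (integrable_const _) (fun ω => ?_)
          simp only [A]
          rw [abs_mul, abs_mul, sg_abs, sg_abs, one_mul, mul_one,
            abs_of_nonneg (good_nonneg G H _)]
          exact good_le G H _
      _ = 1 := by simp
  have hA2 : ∀ n ∈ range y, ∀ n' ∈ range y, (n + 2 * H ≤ n' ∨ n' + 2 * H ≤ n) →
      |∫ ω, A n n' ω ∂P| ≤ E := by
    intro n hn n' hn' hor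
    rw [Finset.mem_range] at hn hn'
    rcases hor with h | h
    · exact far χ hm hind ρ hρ G hL hA H y hH r E hr hρ1 hρ3 hE hE0 n n' hn' h
    · have := far χ hm hind ρ hρ G hL hA H y hH r E hr hρ1 hρ3 hE hE0 n' n hn h
      have e : ∀ ω, A n n' ω = good G H (fun i => χ i ω) * (sg (G (fun i => χ i ω) n') *
        sg (G (fun i => χ i ω) n)) := by
        intro ω
        simp only [A]
        ring
      simp_rw [e]
      exact this
  have e1 : ∀ ω, good G H (fun i => χ i ω) * (S G w y (fun i => χ i ω)) ^ 2 =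
      ∑ n ∈ range y, ∑ n' ∈ range y, (w n * w n') * A n n' ω := by
    intro ω
    unfold S
    rw [sq, Finset.sum_mul_sum, Finset.mul_sum]
    refine Finset.sum_congr rfl fun n _ => ?_
    rw [Finset.mul_sum]
    refine Finset.sum_congr rfl fun n' _ => ?_
    simp only [A]
    ring
  simp_rw [e1]
  rw [integral_finsetSum _ (fun n _ => integrable_finsetSum _
    (fun n' _ => (hAint n n').const_mul _))]
  have e2 : ∀ n ∈ range y, ∫ ω, ∑ n' ∈ range y, (w n * w n') * A n n' ω ∂P ≤
      4 * H + y * E := by
    intro n hn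
    rw [integral_finsetSum _ (fun n' _ => (hAint n n').const_mul _)]
    calc ∑ n' ∈ range y, ∫ ω, (w n * w n') * A n n' ω ∂P
        ≤ ∑ n' ∈ range y, ((if n + 2 * H ≤ n' ∨ n' + 2 * H ≤ n then 0 else 1) + E) := by
          refine Finset.sum_le_sum fun n' hn' => ?_
          rw [integral_const_mul]
          refine le_trans (le_abs_self _) ?_
          rw [abs_mul, abs_mul]
          have hww : |w n| * |w n'| ≤ 1 := by
            have := mul_le_mul (hw n) (hw n') (abs_nonneg _) zero_le_one
            linarith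
          split_ifs with hc
          · have := hA2 n hn n' hn' hc
            calc |w n| * |w n'| * |∫ ω, A n n' ω ∂P| ≤ 1 * E :=
                  mul_le_mul hww this (abs_nonneg _) zero_le_one
              _ = 0 + E := by ring
          · calc |w n| * |w n'| * |∫ ω, A n n' ω ∂P| ≤ 1 * 1 :=
                  mul_le_mul hww (hA1 n n') (abs_nonneg _) zero_le_one
              _ ≤ 1 + E := by linarith
      _ = ((range y).filter (fun n' => ¬ (n + 2 * H ≤ n' ∨ n' + 2 * H ≤ n))).card + y * E := by
          rw [Finset.sum_add_distrib, Finset.sum_const, Finset.card_range, nsmul_eq_mul]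
          congr 1
          rw [Finset.card_filter]
          push_cast
          refine Finset.sum_congr rfl fun n' _ => ?_
          by_cases hc : n + 2 * H ≤ n' ∨ n' + 2 * H ≤ n
          · simp [hc]
          · simp [hc]
      _ ≤ 4 * H + y * E := by
          have h1 : ((range y).filter (fun n' => ¬ (n + 2 * H ≤ n' ∨ n' + 2 * H ≤ n))).card ≤
              4 * H := by
            have hsub : (range y).filter (fun n' => ¬ (n + 2 * H ≤ n' ∨ n' + 2 * H ≤ n)) ⊆
                Ico (n + 1 - 2 * H) (n + 2 * H) := by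
              intro n' hn'
              rw [Finset.mem_filter] at hn'
              rw [Finset.mem_Ico]
              omega
            refine le_trans (Finset.card_le_card hsub) ?_
            rw [Nat.card_Ico]
            omega
          have h2 : ((((range y).filter
            (fun n' => ¬ (n + 2 * H ≤ n' ∨ n' + 2 * H ≤ n))).card : ℕ) : ℝ) ≤ 4 * H := by
            exact_mod_cast h1
          linarith
  calc ∑ n ∈ range y, ∫ ω, ∑ n' ∈ range y, (w n * w n') * A n n' ω ∂P
      ≤ ∑ _n ∈ range y, (4 * H + y * E : ℝ) := Finset.sum_le_sum e2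
    _ = 4 * H * y + y ^ 2 * E := by
        rw [Finset.sum_const, Finset.card_range, nsmul_eq_mul]
        ring

end Pool.Agent.Run7.h274.ParLaw
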