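import Pool.Agent.Run7.h274.ParLaw

/-!
Random changes of a set of parts, part 7: almost sure convergence of the weighted averages.
-/

open MeasureTheory ProbabilityTheory Finset Filter Topology
open scoped ENNReal

namespace Pool.Agent.Run7.h274.ParLim

open Pool.Agent.Run7.h274.ParCore Pool.Agent.Run7.h274.ParVar Pool.Agent.Run7.h274.ParGrow
  Pool.Agent.Run7.h274.ParStep Pool.Agent.Run7.h274.ParLow Pool.Agent.Run7.h274.ParLaw

/-- the cut-off -/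
noncomputable def hh (y : ℕ) : ℕ := ⌊(y : ℝ) / (Real.log y) ^ 4⌋₊

theorem params (m₀ : ℕ) : ∀ᶠ y : ℕ in atTop,
    1 ≤ Real.log y ∧ 1 ≤ hh y ∧ m₀ ≤ hh y ∧ (hh y : ℝ) ≤ y / (Real.log y) ^ 4 ∧
    y / (2 * (Real.log y) ^ 4) ≤ hh y ∧ Real.log y / 2 ≤ Real.log (hh y) ∧
    Real.log (hh y) ≤ Real.log y ∧
    Real.exp (-((Real.log y) ^ 2 / 4096)) ≤ 1 / (Real.log y) ^ 4 := by
  have hlog : Tendsto (fun y : ℕ => Real.log y) atTop atTop :=
    Real.tendsto_log_atTop.comp tendsto_natCast_atTop_atTop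
  have h1 := hlog.eventually_ge_atTop 1
  have h2 : ∀ᶠ y : ℕ in atTop, 4 * (Real.log y) ^ 8 ≤ y := by
    have h := (Real.isLittleO_pow_log_id_atTop (n := 8)).bound (show (0 : ℝ) < 1 / 4 by norm_num)
    have h' := tendsto_natCast_atTop_atTop.eventually h
    filter_upwards [h', eventually_ge_atTop 1] with y hy hy1
    rw [Real.norm_of_nonneg (by positivity), id, Real.norm_of_nonneg (Nat.cast_nonneg y)] at hy
    linarith
  have h3 : ∀ᶠ y : ℕ in atTop, ((m₀ : ℝ) + 2) ≤ Real.sqrt y := by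
    have : Tendsto (fun y : ℕ => Real.sqrt y) atTop atTop :=
      Real.tendsto_sqrt_atTop.comp tendsto_natCast_atTop_atTop
    exact this.eventually_ge_atTop _
  have h4 : ∀ᶠ y : ℕ in atTop, Real.exp (-((Real.log y) ^ 2 / 4096)) ≤ 1 / (Real.log y) ^ 4 := by
    have h5 := Real.tendsto_pow_mul_exp_neg_atTop_nhds_zero 2
    have h6 : Tendsto (fun y : ℕ => (Real.log y) ^ 2 / 4096) atTop atTop := by
      refine Tendsto.atTop_div_const (by norm_num) ?_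
      exact (tendsto_pow_atTop (by norm_num)).comp hlog
    have h7 := (h5.comp h6).eventually (gt_mem_nhds (show (0 : ℝ) < 1 / 4096 ^ 2 by norm_num))
    filter_upwards [h7, h1] with y hy hy1
    simp only [Function.comp_apply] at hy
    rw [le_div_iff₀ (by positivity)]
    have h8 : ((Real.log y) ^ 2 / 4096) ^ 2 = (Real.log y) ^ 4 / 4096 ^ 2 := by ring
    rw [h8, div_mul_eq_mul_div, div_lt_div_iff_of_pos_right (by norm_num)] at hy
    linarith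
  filter_upwards [h1, h2, h3, h4] with y a1 a2 a3 a4
  set ℓ : ℝ := Real.log y with hℓ
  have hypos : (0 : ℝ) < y := by
    have : 4 * (1 : ℝ) ^ 8 ≤ 4 * ℓ ^ 8 := by gcongr
    linarith
  have hℓ4 : (1 : ℝ) ≤ ℓ ^ 4 := one_le_pow₀ a1
  have hs : 0 ≤ Real.sqrt y := Real.sqrt_nonneg _
  have hsq : Real.sqrt y * Real.sqrt y = y := Real.mul_self_sqrt hypos.le
  have b1 : 2 * ℓ ^ 4 ≤ Real.sqrt y := by
    apply Real.le_sqrt_of_sq_le
    nlinarith [a2]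
  have b2 : Real.sqrt y ≤ y / (2 * ℓ ^ 4) := by
    rw [le_div_iff₀ (by positivity)]
    calc Real.sqrt y * (2 * ℓ ^ 4) ≤ Real.sqrt y * Real.sqrt y := by gcongr
      _ = y := hsq
  have b3 : (2 : ℝ) ≤ y / (2 * ℓ ^ 4) := by
    have : (0 : ℝ) ≤ m₀ := Nat.cast_nonneg _
    linarith
  have b4 : y / ℓ ^ 4 = 2 * (y / (2 * ℓ ^ 4)) := by field_simp
  have b5 : (hh y : ℝ) ≤ y / ℓ ^ 4 := Nat.floor_le (by positivity)
  have b6 : y / ℓ ^ 4 < hh y + 1 := Nat.lt_floor_add_one _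
  have b7 : y / (2 * ℓ ^ 4) ≤ hh y := by linarith
  have b8 : Real.sqrt y ≤ hh y := le_trans b2 b7
  have b9 : (m₀ : ℝ) + 2 ≤ hh y := le_trans a3 b8
  refine ⟨a1, ?_, ?_, b5, b7, ?_, ?_, a4⟩
  · have : (1 : ℝ) ≤ hh y := by
      have : (0 : ℝ) ≤ m₀ := Nat.cast_nonneg _
      linarith
    exact_mod_cast this
  · have : (m₀ : ℝ) ≤ hh y := by linarith
    exact_mod_cast this
  · have c1 : Real.log (Real.sqrt y) ≤ Real.log (hh y) :=
      Real.log_le_log (by linarith [(Nat.cast_nonneg m₀ : (0 : ℝ) ≤ m₀)]) b8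
    rw [Real.log_sqrt hypos.le] at c1
    exact c1
  · refine Real.log_le_log ?_ ?_
    · linarith [(Nat.cast_nonneg m₀ : (0 : ℝ) ≤ m₀)]
    · refine le_trans b5 ?_
      rw [div_le_iff₀ (by positivity)]
      nlinarith

variable {Ω : Type*} [MeasurableSpace Ω] {P : Measure Ω} [IsProbabilityMeasure P]

theorem prob (χ : ℕ → Ω → Bool) (hm : ∀ n, Measurable (χ n)) (hind : iIndepFun χ P)
    (ρ : ℕ → ℝ) (hρ : ∀ m, P.real {ω | χ m ω = true} = ρ m)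
    (G : (ℕ → Bool) → ℕ → Bool) (hL : ∀ x y n, (∀ j ≤ n, x j = y j) → G x n = G y n)
    (hA : ∀ x N n, N ≤ n → n < 2 * N → sg (G x n) = sg (G (tr N x) n) *
      ∏ m ∈ Ico N (n + 1), fac (G x (n - m)) (x m))
    (m₀ : ℕ) (hρ1 : ∀ m : ℕ, m₀ ≤ m → (Real.log m) ^ 8 / m ≤ ρ m)
    (hρ3 : ∀ m, m₀ ≤ m → ρ m ≤ 1 / 2) (w : ℕ → ℝ) (hw : ∀ n, |w n| ≤ 1) :
    ∀ᶠ y : ℕ in atTop, P.real {ω | (hh y : ℝ) ≤ 16 * (Real.log (hh y)) ^ 2 *
        cnt G (fun i => χ i ω) (hh y) ∧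
        (y : ℝ) ≤ Real.sqrt (Real.log y) * |S G w y (fun i => χ i ω)|} ≤
      5 / (Real.log y) ^ 3 := by
  classical
  filter_upwards [params m₀, eventually_ge_atTop 1] with y hy hy1
  obtain ⟨a1, a2, a3, a4, a5, a6, a7, a8⟩ := hy
  set ℓ : ℝ := Real.log y with hℓ
  set H : ℕ := hh y with hH
  have hypos : (0 : ℝ) < y := by exact_mod_cast hy1
  have hℓpos : 0 < ℓ := by linarith
  have hHpos : (0 : ℝ) < H := by exact_mod_cast a2
  set r : ℝ := ℓ ^ 8 / (256 * y) with hr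
  have hr0 : 0 ≤ r := by positivity
  have hρr : ∀ m, H ≤ m → m < y → r ≤ ρ m := by
    intro m h1 h2
    refine le_trans ?_ (hρ1 m (le_trans a3 h1))
    have h1R : (H : ℝ) ≤ m := by exact_mod_cast h1
    have h2R : (m : ℝ) ≤ y := by exact_mod_cast h2.le
    have h3 : ℓ / 2 ≤ Real.log m := le_trans a6 (Real.log_le_log hHpos h1R)
    have h4 : (ℓ / 2) ^ 8 ≤ (Real.log m) ^ 8 := pow_le_pow_left₀ (by linarith) h3 8
    have h5 : r = (ℓ / 2) ^ 8 / y := by rw [hr]; field_simp; norm_num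
    rw [h5]
    have hmpos : (0 : ℝ) < m := by linarith
    gcongr
  have hE : ∀ K : ℝ, (H : ℝ) ≤ 16 * (Real.log H) ^ 2 * K → Real.exp (-(2 * (r * K))) ≤ 1 / ℓ ^ 4 := by
    intro K hK
    refine le_trans (Real.exp_le_exp.mpr ?_) a8
    rw [neg_le_neg_iff]
    have hlogH : 0 < Real.log H := by linarith
    have hK0 : 0 < K := by
      by_contra hcon
      push Not at hcon
      have : 16 * (Real.log H) ^ 2 * K ≤ 0 :=
        mul_nonpos_of_nonneg_of_nonpos (by positivity) hcon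
      linarith
    have h1 : (H : ℝ) ≤ 16 * ℓ ^ 2 * K := by
      refine le_trans hK ?_
      have : (Real.log H) ^ 2 ≤ ℓ ^ 2 := pow_le_pow_left₀ hlogH.le a7 2
      gcongr
    have h2 : y / (2 * ℓ ^ 4) ≤ 16 * ℓ ^ 2 * K := le_trans a5 h1
    have h3 : (y : ℝ) ≤ 32 * ℓ ^ 6 * K := by
      rw [div_le_iff₀ (by positivity)] at h2
      calc (y : ℝ) ≤ 16 * ℓ ^ 2 * K * (2 * ℓ ^ 4) := h2
        _ = 32 * ℓ ^ 6 * K := by ring
    calc ℓ ^ 2 / 4096 = ℓ ^ 2 / 4096 * (y / y) := by field_simp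
      _ ≤ ℓ ^ 2 / 4096 * (32 * ℓ ^ 6 * K / y) := by gcongr
      _ = 2 * (r * K) := by rw [hr]; field_simp; norm_num
  have hsec := second χ hm hind ρ hρ G hL hA w hw H y a2 r (1 / ℓ ^ 4) hr0 hρr
    (fun m h1 _ => hρ3 m (le_trans a3 h1)) hE (by positivity)
  have hsec2 : ∫ ω, good G H (fun i => χ i ω) * (S G w y (fun i => χ i ω)) ^ 2 ∂P ≤
      5 * y ^ 2 / ℓ ^ 4 := by
    refine le_trans hsec ?_
    calc 4 * (H : ℝ) * y + y ^ 2 * (1 / ℓ ^ 4) ≤ 4 * (y / ℓ ^ 4) * y + y ^ 2 * (1 / ℓ ^ 4) := by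
          gcongr
      _ = 5 * y ^ 2 / ℓ ^ 4 := by ring
  let f : Ω → ℝ := fun ω => ℓ / (y : ℝ) ^ 2 * (good G H (fun i => χ i ω) *
    (S G w y (fun i => χ i ω)) ^ 2)
  have hfint : Integrable f P := by
    refine Integrable.const_mul ?_ _
    refine intLocal χ hm (H + y) (fun x => good G H x * (S G w y x) ^ 2) (fun x z h => ?_)
    show good G H x * (S G w y x) ^ 2 = good G H z * (S G w y z) ^ 2
    rw [good_loc G hL (H + y) H (by omega) x z h]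
    congr 2
    unfold S
    refine Finset.sum_congr rfl fun n hn => ?_
    rw [Finset.mem_range] at hn
    rw [hL x z n (fun j hj => h j (by omega))]
  have hfnn : 0 ≤ f := fun ω => by
    simp only [f, Pi.zero_apply]
    exact mul_nonneg (by positivity) (mul_nonneg (good_nonneg G H _) (sq_nonneg _))
  have hmark := mul_meas_ge_le_integral_of_nonneg (μ := P) (Filter.Eventually.of_forall hfnn) hfint 1
  rw [one_mul] at hmark
  have hsub : {ω | (H : ℝ) ≤ 16 * (Real.log H) ^ 2 * cnt G (fun i => χ i ω) H ∧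
      (y : ℝ) ≤ Real.sqrt ℓ * |S G w y (fun i => χ i ω)|} ⊆ {ω | 1 ≤ f ω} := by
    rintro ω ⟨h1, h2⟩
    show 1 ≤ ℓ / (y : ℝ) ^ 2 * (good G H (fun i => χ i ω) * (S G w y (fun i => χ i ω)) ^ 2)
    have hg : good G H (fun i => χ i ω) = 1 := by
      unfold good
      rw [if_pos h1]
    rw [hg, one_mul, div_mul_eq_mul_div, le_div_iff₀ (by positivity), one_mul]
    have h3 : (y : ℝ) ^ 2 ≤ (Real.sqrt ℓ * |S G w y (fun i => χ i ω)|) ^ 2 :=
      pow_le_pow_left₀ hypos.le h2 2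
    rw [mul_pow, Real.sq_sqrt hℓpos.le, sq_abs] at h3
    exact h3
  have hfi : ∫ ω, f ω ∂P = ℓ / (y : ℝ) ^ 2 *
      ∫ ω, good G H (fun i => χ i ω) * (S G w y (fun i => χ i ω)) ^ 2 ∂P :=
    integral_const_mul _ _
  calc P.real {ω | (H : ℝ) ≤ 16 * (Real.log H) ^ 2 * cnt G (fun i => χ i ω) H ∧
      (y : ℝ) ≤ Real.sqrt ℓ * |S G w y (fun i => χ i ω)|}
      ≤ P.real {ω | 1 ≤ f ω} := measureReal_mono hsub
    _ ≤ ∫ ω, f ω ∂P := hmark
    _ ≤ ℓ / (y : ℝ) ^ 2 * (5 * y ^ 2 / ℓ ^ 4) := by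
        rw [hfi]
        gcongr
    _ = 5 / ℓ ^ 3 := by
        field_simp

theorem along (χ : ℕ → Ω → Bool) (hm : ∀ n, Measurable (χ n)) (hind : iIndepFun χ P)
    (ρ : ℕ → ℝ) (hρ : ∀ m, P.real {ω | χ m ω = true} = ρ m)
    (G : (ℕ → Bool) → ℕ → Bool) (hL : ∀ x y n, (∀ j ≤ n, x j = y j) → G x n = G y n)
    (hA : ∀ x N n, N ≤ n → n < 2 * N → sg (G x n) = sg (G (tr N x) n) *
      ∏ m ∈ Ico N (n + 1), fac (G x (n - m)) (x m))
    (j₀ : ℕ) (hNZ : ∀ x, G x j₀ = true) (κ : ℝ) (hκ : 1 ≤ κ)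
    (m₀ : ℕ) (hρ1 : ∀ m : ℕ, m₀ ≤ m → (Real.log m) ^ 8 / m ≤ ρ m)
    (hρ3 : ∀ m, m₀ ≤ m → ρ m ≤ 1 / 2)
    (hρ2 : ∀ m m' : ℕ, m₀ ≤ m → m ≤ m' → m' ≤ 2 * m → ρ m' ≤ κ * ρ m ∧ ρ m ≤ κ * ρ m')
    (w : ℕ → ℝ) (hw : ∀ n, |w n| ≤ 1) (c : ℝ) (hc : 1 < c) :
    ∀ᵐ ω ∂P, Tendsto (fun n : ℕ => S G w ⌊c ^ n⌋₊ (fun i => χ i ω) / ((⌊c ^ n⌋₊ : ℕ) : ℝ))
      atTop (𝓝 0) := by
  classical
  have hlogc : 0 < Real.log c := Real.log_pos hc
  have htop : Tendsto (fun n : ℕ => ⌊c ^ n⌋₊) atTop atTop :=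
    tendsto_nat_floor_atTop.comp (tendsto_pow_atTop_atTop_of_one_lt hc)
  -- logarithms along the sequence
  have hlogy : ∀ᶠ n : ℕ in atTop, (n : ℝ) / 2 * Real.log c ≤ Real.log ((⌊c ^ n⌋₊ : ℕ) : ℝ) := by
    have h1 : ∀ᶠ n : ℕ in atTop, 2 * Real.log 2 ≤ n * Real.log c :=
      (tendsto_natCast_atTop_atTop.atTop_mul_const hlogc).eventually_ge_atTop _
    have h2 : ∀ᶠ n : ℕ in atTop, (2 : ℝ) ≤ c ^ n :=
      (tendsto_pow_atTop_atTop_of_one_lt hc).eventually_ge_atTop 2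
    filter_upwards [h1, h2] with n a1 a2
    have hcn : (0 : ℝ) < c ^ n := by linarith
    have h3 : c ^ n < ⌊c ^ n⌋₊ + 1 := Nat.lt_floor_add_one _
    have h4 : c ^ n / 2 ≤ ⌊c ^ n⌋₊ := by linarith
    have h5 : Real.log (c ^ n / 2) ≤ Real.log ((⌊c ^ n⌋₊ : ℕ) : ℝ) :=
      Real.log_le_log (by positivity) h4
    rw [Real.log_div (ne_of_gt hcn) (by norm_num), Real.log_pow] at h5
    linarith
  have hprob := htop.eventually (prob χ hm hind ρ hρ G hL hA m₀ hρ1 hρ3 w hw)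
  obtain ⟨n₀, hn₀⟩ := eventually_atTop.mp (hprob.and (hlogy.and (eventually_ge_atTop 1)))
  set bad : ℕ → Set Ω := fun y => {ω | (hh y : ℝ) ≤ 16 * (Real.log (hh y)) ^ 2 *
        cnt G (fun i => χ i ω) (hh y) ∧
        (y : ℝ) ≤ Real.sqrt (Real.log y) * |S G w y (fun i => χ i ω)|} with hbaddef
  have hbad : ∀ n, n₀ ≤ n → P.real (bad ⌊c ^ n⌋₊) ≤ 40 / (Real.log c) ^ 3 * (1 / (n : ℝ) ^ 3) := by
    intro n hn
    obtain ⟨a1, a2, a3⟩ := hn₀ n hn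
    have hnpos : (0 : ℝ) < n := by exact_mod_cast a3
    refine le_trans a1 ?_
    have h1 : ((n : ℝ) / 2 * Real.log c) ^ 3 ≤ (Real.log ((⌊c ^ n⌋₊ : ℕ) : ℝ)) ^ 3 :=
      pow_le_pow_left₀ (by positivity) a2 3
    calc 5 / (Real.log ((⌊c ^ n⌋₊ : ℕ) : ℝ)) ^ 3 ≤ 5 / ((n : ℝ) / 2 * Real.log c) ^ 3 := by gcongr
      _ = 40 / (Real.log c) ^ 3 * (1 / (n : ℝ) ^ 3) := by field_simp; norm_num
  have hsum : Summable (fun n : ℕ => 40 / (Real.log c) ^ 3 * (1 / (n : ℝ) ^ 3)) :=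
    (Real.summable_one_div_nat_pow.mpr (by norm_num)).mul_left _
  have hfin : ∑' n : ℕ, P {ω | n₀ ≤ n ∧ ω ∈ bad ⌊c ^ n⌋₊} ≠ ∞ := by
    refine ne_top_of_le_ne_top hsum.tsum_ofReal_ne_top (ENNReal.tsum_le_tsum fun n => ?_)
    by_cases h : n₀ ≤ n
    · refine le_trans (measure_mono (fun ω hω => hω.2)) ?_
      rw [← ofReal_measureReal]
      exact ENNReal.ofReal_le_ofReal (hbad n h)
    · have : {ω | n₀ ≤ n ∧ ω ∈ bad ⌊c ^ n⌋₊} = ∅ := by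
        rw [Set.eq_empty_iff_forall_notMem]
        rintro ω ⟨h1, _⟩
        exact h h1
      rw [this, measure_empty]
      exact zero_le
  have hHtop : Tendsto hh atTop atTop := by
    rw [tendsto_atTop]
    intro b
    filter_upwards [params b] with y hy
    exact hy.2.2.1
  filter_upwards [ae_eventually_notMem hfin,
    lower χ hm hind ρ hρ G hL hA j₀ hNZ κ hκ m₀ hρ1 hρ3 hρ2] with ω h1 h2
  have h3 := (hHtop.comp htop).eventually h2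
  have hlogtop : Tendsto (fun n : ℕ => Real.sqrt (Real.log ((⌊c ^ n⌋₊ : ℕ) : ℝ))) atTop atTop :=
    Real.tendsto_sqrt_atTop.comp (Real.tendsto_log_atTop.comp
      (tendsto_natCast_atTop_atTop.comp htop))
  have h4 : Tendsto (fun n : ℕ => 1 / Real.sqrt (Real.log ((⌊c ^ n⌋₊ : ℕ) : ℝ))) atTop (𝓝 0) :=
    tendsto_const_nhds.div_atTop hlogtop
  refine squeeze_zero_norm' ?_ h4
  filter_upwards [h1, h3, eventually_ge_atTop n₀, hlogtop.eventually_ge_atTop 1,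
    htop.eventually_ge_atTop 1] with n a1 a2 a3 a4 a5
  have hypos : (0 : ℝ) < ((⌊c ^ n⌋₊ : ℕ) : ℝ) := by exact_mod_cast a5
  have h5 : ¬ ((⌊c ^ n⌋₊ : ℕ) : ℝ) ≤ Real.sqrt (Real.log ((⌊c ^ n⌋₊ : ℕ) : ℝ)) *
      |S G w ⌊c ^ n⌋₊ (fun i => χ i ω)| := by
    intro h
    exact a1 ⟨a3, a2, h⟩
  push Not at h5
  rw [Real.norm_eq_abs, abs_div, abs_of_pos hypos, div_le_div_iff₀ hypos (by linarith), one_mul,
    mul_comm]
  exact h5.le

theorem limit (χ : ℕ → Ω → Bool) (hm : ∀ n, Measurable (χ n)) (hind : iIndepFun χ P)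
    (ρ : ℕ → ℝ) (hρ : ∀ m, P.real {ω | χ m ω = true} = ρ m)
    (G : (ℕ → Bool) → ℕ → Bool) (hL : ∀ x y n, (∀ j ≤ n, x j = y j) → G x n = G y n)
    (hA : ∀ x N n, N ≤ n → n < 2 * N → sg (G x n) = sg (G (tr N x) n) *
      ∏ m ∈ Ico N (n + 1), fac (G x (n - m)) (x m))
    (j₀ : ℕ) (hNZ : ∀ x, G x j₀ = true) (κ : ℝ) (hκ : 1 ≤ κ)
    (m₀ : ℕ) (hρ1 : ∀ m : ℕ, m₀ ≤ m → (Real.log m) ^ 8 / m ≤ ρ m)
    (hρ3 : ∀ m, m₀ ≤ m → ρ m ≤ 1 / 2)
    (hρ2 : ∀ m m' : ℕ, m₀ ≤ m → m ≤ m' → m' ≤ 2 * m → ρ m' ≤ κ * ρ m ∧ ρ m ≤ κ * ρ m')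
    (w : ℕ → ℝ) (hw : ∀ n, |w n| ≤ 1) :
    ∀ᵐ ω ∂P, Tendsto (fun y : ℕ => (∑ n ∈ range y, w n * sg (G (fun i => χ i ω) n)) / (y : ℝ))
      atTop (𝓝 0) := by
  have hall : ∀ᵐ ω ∂P, ∀ k : ℕ, Tendsto (fun n : ℕ =>
      S G w ⌊(1 + 1 / ((k : ℝ) + 1)) ^ n⌋₊ (fun i => χ i ω) /
        ((⌊(1 + 1 / ((k : ℝ) + 1)) ^ n⌋₊ : ℕ) : ℝ)) atTop (𝓝 0) := by
    rw [ae_all_iff]
    intro k
    exact along χ hm hind ρ hρ G hL hA j₀ hNZ κ hκ m₀ hρ1 hρ3 hρ2 w hw _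
      (by have : (0 : ℝ) < 1 / ((k : ℝ) + 1) := by positivity
          linarith)
  filter_upwards [hall] with ω hω
  set x : ℕ → Bool := fun i => χ i ω with hx
  have hmono : Monotone (fun y : ℕ => S G w y x + y) := by
    refine monotone_nat_of_le_succ fun y => ?_
    show S G w y x + (y : ℝ) ≤ S G w (y + 1) x + ((y + 1 : ℕ) : ℝ)
    unfold S
    rw [Finset.sum_range_succ]
    push_cast
    have h1 : |w y * sg (G x y)| ≤ 1 := by
      rw [abs_mul, sg_abs, mul_one]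
      exact hw y
    have h2 := (abs_le.mp h1).1
    linarith
  have hconv := tendsto_div_of_monotone_of_tendsto_div_floor_pow (fun y : ℕ => S G w y x + y) 1 hmono
    (fun k => 1 + 1 / ((k : ℝ) + 1))
    (fun k => by
      have : (0 : ℝ) < 1 / ((k : ℝ) + 1) := by positivity
      linarith)
    (by
      have := (tendsto_one_div_add_atTop_nhds_zero_nat (𝕜 := ℝ)).const_add 1
      simpa using this)
    (fun k => by
      have h1 := (hω k).add_const 1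
      rw [zero_add] at h1
      refine h1.congr' ?_
      have hc : (1 : ℝ) < 1 + 1 / ((k : ℝ) + 1) := by
        have : (0 : ℝ) < 1 / ((k : ℝ) + 1) := by positivity
        linarith
      have htop : Tendsto (fun n : ℕ => ⌊(1 + 1 / ((k : ℝ) + 1)) ^ n⌋₊) atTop atTop :=
        tendsto_nat_floor_atTop.comp (tendsto_pow_atTop_atTop_of_one_lt hc)
      filter_upwards [htop.eventually_ge_atTop 1] with n hn
      have hypos : (0 : ℝ) < ((⌊(1 + 1 / ((k : ℝ) + 1)) ^ n⌋₊ : ℕ) : ℝ) := by exact_mod_cast hn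
      rw [add_div, div_self (ne_of_gt hypos)])
  have h2 := hconv.sub_const 1
  rw [sub_self] at h2
  refine h2.congr' ?_
  filter_upwards [eventually_ge_atTop 1] with y hy
  have hypos : (0 : ℝ) < (y : ℝ) := by exact_mod_cast hy
  rw [add_div, div_self (ne_of_gt hypos), add_sub_cancel_right]
  rfl

end Pool.Agent.Run7.h274.ParLim
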