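import Pool.Agent.Run7.h274.ParStep

/-!
Random changes of a set of parts, part 5: almost surely the number of odd values below `x` is at
least `x / (16 (log x) ^ 2)` for all large `x`.
-/

open MeasureTheory ProbabilityTheory Finset Filter
open scoped ENNReal

namespace Pool.Agent.Run7.h274.ParLow

open Pool.Agent.Run7.h274.ParCore Pool.Agent.Run7.h274.ParVar Pool.Agent.Run7.h274.ParGrow
  Pool.Agent.Run7.h274.ParStep

/-- the deterministic recursion -/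
theorem recursion (c : ℕ → ℕ) (hc1 : ∀ i, c i ≤ 4 ^ i) (hmono : ∀ i, c i ≤ c (i + 1)) (i₀ : ℕ)
    (hpos : 1 ≤ c i₀) (hi₀ : 1 ≤ i₀)
    (hstep : ∀ i, i₀ ≤ i → i ^ 2 * c i ≤ 4 ^ i → 16 * c i ≤ c (i + 1)) :
    ∃ i₁, 1 ≤ i₁ ∧ ∀ i, i₁ ≤ i → 4 ^ i ≤ 4 * i ^ 2 * c i := by
  have h1 : ∃ i₁, i₀ ≤ i₁ ∧ 4 ^ i₁ < i₁ ^ 2 * c i₁ := by
    by_contra hcon
    push Not at hcon
    have h2 : ∀ k, 16 ^ k ≤ c (i₀ + k) := by
      intro k
      induction k with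
      | zero => simpa using hpos
      | succ k ih =>
        have h3 := hstep (i₀ + k) (by omega) (hcon (i₀ + k) (by omega))
        rw [pow_succ, show i₀ + (k + 1) = i₀ + k + 1 by ring]
        omega
    have h4 := h2 (i₀ + 1)
    have h5 := hc1 (i₀ + (i₀ + 1))
    have h6 : 16 ^ (i₀ + 1) ≤ 4 ^ (i₀ + (i₀ + 1)) := le_trans h4 h5
    have h7 : (16 : ℕ) ^ (i₀ + 1) = 4 ^ (i₀ + (i₀ + 1)) * 4 := by
      rw [show (16 : ℕ) = 4 ^ 2 by norm_num, ← pow_mul, ← pow_succ]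
      congr 1
      ring
    have h8 : 0 < 4 ^ (i₀ + (i₀ + 1)) := by positivity
    omega
  obtain ⟨i₁, hi₁, hlt⟩ := h1
  refine ⟨i₁, by omega, fun i hi => ?_⟩
  induction i, hi using Nat.le_induction with
  | base => nlinarith [hlt]
  | succ i hi ih =>
    have hsq : i ^ 2 ≤ (i + 1) ^ 2 := Nat.pow_le_pow_left (by omega) 2
    rcases le_or_gt (i ^ 2 * c i) (4 ^ i) with h | h
    · have h3 := hstep i (by omega) h
      calc 4 ^ (i + 1) = 4 ^ i * 4 := pow_succ 4 i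
        _ ≤ (4 * i ^ 2 * c i) * 4 := Nat.mul_le_mul_right 4 ih
        _ = i ^ 2 * (16 * c i) := by ring
        _ ≤ (i + 1) ^ 2 * c (i + 1) := Nat.mul_le_mul hsq h3
        _ ≤ 4 * (i + 1) ^ 2 * c (i + 1) := by nlinarith [Nat.zero_le ((i + 1) ^ 2 * c (i + 1))]
    · calc 4 ^ (i + 1) = 4 * 4 ^ i := by ring
        _ ≤ 4 * (i ^ 2 * c i) := Nat.mul_le_mul_left 4 h.le
        _ ≤ 4 * ((i + 1) ^ 2 * c (i + 1)) := Nat.mul_le_mul_left 4 (Nat.mul_le_mul hsq (hmono i))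
        _ = 4 * (i + 1) ^ 2 * c (i + 1) := by ring

theorem cnt_mono (G : (ℕ → Bool) → ℕ → Bool) (x : ℕ → Bool) {a b : ℕ} (h : a ≤ b) :
    cnt G x a ≤ cnt G x b := by
  unfold cnt
  exact Finset.card_le_card (Finset.filter_subset_filter _ (Finset.range_subset_range.mpr h))

theorem cnt_le (G : (ℕ → Bool) → ℕ → Bool) (x : ℕ → Bool) (a : ℕ) : cnt G x a ≤ a := by
  unfold cnt
  exact le_trans (Finset.card_filter_le _ _) (by rw [Finset.card_range])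

theorem log_four : (1 : ℝ) ≤ Real.log 4 := by
  have h := Real.log_two_gt_d9
  have : Real.log 4 = 2 * Real.log 2 := by
    rw [show (4 : ℝ) = 2 ^ 2 by norm_num, Real.log_pow]
    norm_num
  rw [this]
  linarith

variable {Ω : Type*} [MeasurableSpace Ω] {P : Measure Ω} [IsProbabilityMeasure P]

theorem lower (χ : ℕ → Ω → Bool) (hm : ∀ n, Measurable (χ n)) (hind : iIndepFun χ P)
    (ρ : ℕ → ℝ) (hρ : ∀ m, P.real {ω | χ m ω = true} = ρ m)
    (G : (ℕ → Bool) → ℕ → Bool) (hL : ∀ x y n, (∀ j ≤ n, x j = y j) → G x n = G y n)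
    (hA : ∀ x N n, N ≤ n → n < 2 * N → sg (G x n) = sg (G (tr N x) n) *
      ∏ m ∈ Ico N (n + 1), fac (G x (n - m)) (x m))
    (j₀ : ℕ) (hNZ : ∀ x, G x j₀ = true) (κ : ℝ) (hκ : 1 ≤ κ) (m₀ : ℕ)
    (hρ1 : ∀ m : ℕ, m₀ ≤ m → (Real.log m) ^ 8 / m ≤ ρ m) (hρ3 : ∀ m, m₀ ≤ m → ρ m ≤ 1 / 2)
    (hρ2 : ∀ m m' : ℕ, m₀ ≤ m → m ≤ m' → m' ≤ 2 * m → ρ m' ≤ κ * ρ m ∧ ρ m ≤ κ * ρ m') :
    ∀ᵐ ω ∂P, ∀ᶠ x : ℕ in atTop,
      (x : ℝ) ≤ 16 * (Real.log x) ^ 2 * cnt G (fun i => χ i ω) x := by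
  classical
  let bad : ℕ → Set Ω := fun i => {ω | 1 ≤ cnt G (fun i => χ i ω) (4 ^ i) ∧
    (cnt G (fun i => χ i ω) (4 ^ i) : ℝ) ≤ (1 / (i : ℝ) ^ 2) * ((4 ^ i : ℕ) : ℝ) ∧
      cnt G (fun i => χ i ω) (4 * 4 ^ i) < 16 * cnt G (fun i => χ i ω) (4 ^ i)}
  obtain ⟨i₁, hi₁⟩ : ∃ i₁ : ℕ, 10 ≤ i₁ ∧ m₀ ≤ i₁ ∧ (192 * κ : ℝ) ≤ i₁ := by
    obtain ⟨a, ha⟩ := exists_nat_ge (192 * κ)
    refine ⟨max 10 (max m₀ a), le_max_left _ _, le_trans (le_max_left _ _) (le_max_right _ _), ?_⟩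
    refine le_trans ha ?_
    exact_mod_cast le_trans (le_max_right m₀ a) (le_max_right _ _)
  obtain ⟨h10, hm0, hκi⟩ := hi₁
  have hbad : ∀ i, i₁ ≤ i → P.real (bad i) ≤ 60000 * κ ^ 3 * (1 / (i : ℝ) ^ 2) := by
    intro i hi
    have hiR : (10 : ℝ) ≤ i := by exact_mod_cast le_trans h10 hi
    have hi1R : (i₁ : ℝ) ≤ i := by exact_mod_cast hi
    have hipos : (0 : ℝ) < i := by linarith
    have hM1 : 1 ≤ 4 ^ i := Nat.one_le_pow _ _ (by norm_num)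
    have hii : i < 4 ^ i := Nat.lt_pow_self (by norm_num)
    have hMm : m₀ ≤ 2 * 4 ^ i := by omega
    have hMR : (0 : ℝ) < ((4 ^ i : ℕ) : ℝ) := by exact_mod_cast hM1
    have h2M := hρ1 (2 * 4 ^ i) hMm
    have hlog : (i : ℝ) ≤ Real.log ((2 * 4 ^ i : ℕ) : ℝ) := by
      have h1 : Real.log ((4 : ℝ) ^ i) = i * Real.log 4 := Real.log_pow _ _
      have h2 : Real.log ((4 : ℝ) ^ i) ≤ Real.log ((2 * 4 ^ i : ℕ) : ℝ) := by
        refine Real.log_le_log (by positivity) ?_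
        push_cast
        nlinarith [show (0 : ℝ) < 4 ^ i by positivity]
      have h3 := log_four
      nlinarith
    have hlog8 : (i : ℝ) ^ 8 ≤ (Real.log ((2 * 4 ^ i : ℕ) : ℝ)) ^ 8 :=
      pow_le_pow_left₀ hipos.le hlog 8
    have hρbig : (i : ℝ) ^ 8 / ((2 * 4 ^ i : ℕ) : ℝ) ≤ ρ (2 * 4 ^ i) := by
      refine le_trans ?_ h2M
      gcongr
    set r₀ : ℝ := ρ (2 * 4 ^ i) / κ with hr₀
    have hρpos : 0 < ρ (2 * 4 ^ i) := lt_of_lt_of_le (by positivity) hρbig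
    have hr₀pos : 0 < r₀ := div_pos hρpos (by linarith)
    have hr₀M : (i : ℝ) ^ 8 / (2 * κ) ≤ r₀ * ((4 ^ i : ℕ) : ℝ) := by
      rw [hr₀, div_mul_eq_mul_div, div_le_div_iff₀ (by linarith) (by linarith)]
      have h4 : (i : ℝ) ^ 8 ≤ ρ (2 * 4 ^ i) * (2 * ((4 ^ i : ℕ) : ℝ)) := by
        rw [div_le_iff₀ (by positivity)] at hρbig
        push_cast at hρbig ⊢
        linarith
      nlinarith
    have hi7 : (i : ℝ) ≤ (i : ℝ) ^ 8 := le_self_pow₀ (by linarith) (by norm_num)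
    have h96 : 96 ≤ r₀ * ((4 ^ i : ℕ) : ℝ) := by
      refine le_trans ?_ hr₀M
      rw [le_div_iff₀ (by linarith)]
      linarith
    have hT : ∀ m ∈ Ico (2 * 4 ^ i) (4 * 4 ^ i), ρ m ≤ κ * ρ (2 * 4 ^ i) ∧
        ρ (2 * 4 ^ i) ≤ κ * ρ m := by
      intro m hm
      rw [Finset.mem_Ico] at hm
      exact hρ2 (2 * 4 ^ i) m hMm hm.1 (by omega)
    have hε : 1 / (i : ℝ) ^ 2 ≤ 1 / 96 := by
      apply one_div_le_one_div_of_le (by norm_num)
      nlinarith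
    have hg := growth χ hm hind ρ hρ G hL hA (4 ^ i) hM1 r₀ (κ ^ 2) hr₀pos (by nlinarith)
      (fun m hm => by
        rw [hr₀, div_le_iff₀ (by linarith)]
        have := (hT m hm).2
        linarith)
      (fun m hm => by
        refine le_trans (hT m hm).1 (le_of_eq ?_)
        rw [hr₀]
        field_simp)
      (fun m hm => hρ3 m (by rw [Finset.mem_Ico] at hm; omega))
      (1 / (i : ℝ) ^ 2) hε h96
    refine le_trans hg ?_
    have h5 : |1 / (i : ℝ) ^ 2| = 1 / (i : ℝ) ^ 2 := abs_of_nonneg (by positivity)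
    have h6 : 1 / (r₀ * ((4 ^ i : ℕ) : ℝ)) ≤ 2 * κ * (1 / (i : ℝ) ^ 2) := by
      have h7 : 1 / (r₀ * ((4 ^ i : ℕ) : ℝ)) ≤ 1 / ((i : ℝ) ^ 8 / (2 * κ)) :=
        one_div_le_one_div_of_le (by positivity) hr₀M
      refine le_trans h7 ?_
      rw [one_div_div, mul_one_div]
      apply div_le_div_of_nonneg_left (by linarith) (by positivity)
      exact pow_le_pow_right₀ (by linarith) (by norm_num)
    rw [h5]
    calc 20000 * κ ^ 2 * (1 / (i : ℝ) ^ 2 + 1 / (r₀ * ((4 ^ i : ℕ) : ℝ)))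
        ≤ 20000 * κ ^ 2 * (1 / (i : ℝ) ^ 2 + 2 * κ * (1 / (i : ℝ) ^ 2)) := by gcongr
      _ = 20000 * κ ^ 2 * (1 + 2 * κ) * (1 / (i : ℝ) ^ 2) := by ring
      _ ≤ 60000 * κ ^ 3 * (1 / (i : ℝ) ^ 2) := by
          have h8 : 20000 * κ ^ 2 * (1 + 2 * κ) ≤ 60000 * κ ^ 3 := by
            nlinarith [sq_nonneg κ, mul_nonneg (sq_nonneg κ) (by linarith : (0 : ℝ) ≤ κ - 1)]
          gcongr
  have hsum : Summable (fun i : ℕ => 60000 * κ ^ 3 * (1 / (i : ℝ) ^ 2)) :=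
    (Real.summable_one_div_nat_pow.mpr (by norm_num)).mul_left _
  have hfin : ∑' i : ℕ, P {ω | i₁ ≤ i ∧ ω ∈ bad i} ≠ ∞ := by
    refine ne_top_of_le_ne_top hsum.tsum_ofReal_ne_top (ENNReal.tsum_le_tsum fun i => ?_)
    by_cases h : i₁ ≤ i
    · refine le_trans (measure_mono (fun ω hω => hω.2)) ?_
      rw [← ofReal_measureReal]
      exact ENNReal.ofReal_le_ofReal (hbad i h)
    · have : {ω | i₁ ≤ i ∧ ω ∈ bad i} = ∅ := by
        rw [Set.eq_empty_iff_forall_notMem]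
        rintro ω ⟨h1, _⟩
        exact h h1
      rw [this, measure_empty]
      exact zero_le
  filter_upwards [ae_eventually_notMem hfin] with ω hω
  obtain ⟨i₂, hi₂⟩ := eventually_atTop.mp hω
  set x : ℕ → Bool := fun i => χ i ω with hx
  have hpos : ∀ i, j₀ ≤ i → 1 ≤ cnt G x (4 ^ i) := by
    intro i hi
    have h1 : j₀ < 4 ^ i := lt_of_le_of_lt hi (Nat.lt_pow_self (by norm_num))
    unfold cnt
    rw [Nat.one_le_iff_ne_zero, Finset.card_ne_zero]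
    exact ⟨j₀, Finset.mem_filter.mpr ⟨Finset.mem_range.mpr h1, hNZ x⟩⟩
  obtain ⟨i₃, hi₃1, hi₃⟩ := recursion (fun i => cnt G x (4 ^ i)) (fun i => cnt_le G x _)
    (fun i => cnt_mono G x (Nat.pow_le_pow_right (by norm_num) (by omega)))
    (max (max i₁ i₂) j₀) (hpos _ (le_max_right _ _))
    (le_trans (by omega) (le_trans (le_max_left i₁ i₂) (le_max_left _ _)))
    (by
      intro i hi hle
      have hii1 : i₁ ≤ i := le_trans (le_trans (le_max_left i₁ i₂) (le_max_left _ _)) hi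
      have hii2 : i₂ ≤ i := le_trans (le_trans (le_max_right i₁ i₂) (le_max_left _ _)) hi
      have hii3 : j₀ ≤ i := le_trans (le_max_right _ _) hi
      by_contra hcon
      push Not at hcon
      refine hi₂ i hii2 ⟨hii1, hpos i hii3, ?_, ?_⟩
      · have hipos : (0 : ℝ) < (i : ℝ) ^ 2 := by
          have : (1 : ℝ) ≤ i := by exact_mod_cast (show 1 ≤ i by omega)
          positivity
        rw [one_div, ← div_eq_inv_mul, le_div_iff₀ hipos, mul_comm]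
        exact_mod_cast hle
      · show cnt G x (4 * 4 ^ i) < 16 * cnt G x (4 ^ i)
        rw [show 4 * 4 ^ i = 4 ^ (i + 1) by ring]
        exact hcon)
  rw [eventually_atTop]
  refine ⟨4 ^ i₃, fun y hy => ?_⟩
  obtain ⟨i, hi, hi'⟩ : ∃ i, 4 ^ i ≤ y ∧ y < 4 ^ (i + 1) := by
    have hy0 : y ≠ 0 := by
      have : 0 < 4 ^ i₃ := by positivity
      omega
    exact ⟨Nat.log 4 y, Nat.pow_log_le_self 4 hy0, Nat.lt_pow_succ_log_self (by norm_num) y⟩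
  have hii : i₃ ≤ i := by
    by_contra h
    have h1 : 4 ^ (i + 1) ≤ 4 ^ i₃ := Nat.pow_le_pow_right (by norm_num) (by omega)
    omega
  have h1 := hi₃ i hii
  have h2 := cnt_mono G x hi
  have h3 : y ≤ 16 * i ^ 2 * cnt G x y := by
    calc y ≤ 4 ^ (i + 1) := hi'.le
      _ = 4 * 4 ^ i := by ring
      _ ≤ 4 * (4 * i ^ 2 * cnt G x (4 ^ i)) := Nat.mul_le_mul_left 4 h1
      _ = 16 * i ^ 2 * cnt G x (4 ^ i) := by ring
      _ ≤ 16 * i ^ 2 * cnt G x y := Nat.mul_le_mul_left _ h2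
  have h4 : (y : ℝ) ≤ 16 * (i : ℝ) ^ 2 * cnt G x y := by exact_mod_cast h3
  have h5 : (i : ℝ) ≤ Real.log y := by
    have h6 : Real.log ((4 : ℝ) ^ i) = i * Real.log 4 := Real.log_pow _ _
    have h7 : Real.log ((4 : ℝ) ^ i) ≤ Real.log y := by
      refine Real.log_le_log (by positivity) ?_
      exact_mod_cast hi
    have h8 := log_four
    have h9 : (0 : ℝ) ≤ i := Nat.cast_nonneg i
    nlinarith
  have h10 : (i : ℝ) ^ 2 ≤ Real.log y ^ 2 := pow_le_pow_left₀ (Nat.cast_nonneg i) h5 2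
  refine le_trans h4 ?_
  gcongr

end Pool.Agent.Run7.h274.ParLow
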