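import Pool.Agent.Run7.h274.ParLim

/-!
Random changes of a set of parts, part 8: partitions with parts in a set, and how their number
depends on the large parts.
-/

open Finset Filter Topology

namespace Pool.Agent.Run7.h274.ParPart

open Pool.Agent.Run7.h274.ParCore Pool.Agent.Run7.h274.ParVar

/-- number of partitions of `n` with all parts in `A` -/
noncomputable def pc (A : Set ℕ) (n : ℕ) : ℕ := {π : n.Partition | ∀ i ∈ π.parts, i ∈ A}.ncard

/-- the partitions as multisets -/
def MS (A : Set ℕ) (n : ℕ) : Set (Multiset ℕ) := {s | s.sum = n ∧ ∀ i ∈ s, 0 < i ∧ i ∈ A}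

theorem MS_image (A : Set ℕ) (n : ℕ) :
    (fun π : n.Partition => π.parts) '' {π : n.Partition | ∀ i ∈ π.parts, i ∈ A} = MS A n := by
  ext s
  constructor
  · rintro ⟨π, hπ, rfl⟩
    exact ⟨π.parts_sum, fun i hi => ⟨π.parts_pos hi, hπ i hi⟩⟩
  · rintro ⟨h1, h2⟩
    refine ⟨⟨s, fun {i} hi => (h2 i hi).1, h1⟩, fun i hi => (h2 i hi).2, rfl⟩

theorem pc_eq (A : Set ℕ) (n : ℕ) : pc A n = (MS A n).ncard := by
  unfold pc
  rw [← MS_image]
  refine (Set.ncard_image_of_injective _ ?_).symm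
  intro π π' h
  exact Nat.Partition.ext h

theorem MS_finite (A : Set ℕ) (n : ℕ) : (MS A n).Finite := by
  rw [← MS_image]
  exact (Set.toFinite _).image _

theorem part_le (A : Set ℕ) (n : ℕ) (s : Multiset ℕ) (hs : s ∈ MS A n) (i : ℕ) (hi : i ∈ s) :
    i ≤ n := by
  rw [← hs.1]
  exact Multiset.single_le_sum (fun _ _ => Nat.zero_le _) i hi

theorem MS_congr (A A' : Set ℕ) (n : ℕ) (h : ∀ i, 0 < i → i ≤ n → (i ∈ A ↔ i ∈ A')) :
    MS A n = MS A' n := by
  ext s
  constructor
  · intro hs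
    exact ⟨hs.1, fun i hi => ⟨(hs.2 i hi).1, (h i (hs.2 i hi).1 (part_le A n s hs i hi)).mp
      (hs.2 i hi).2⟩⟩
  · intro hs
    exact ⟨hs.1, fun i hi => ⟨(hs.2 i hi).1, (h i (hs.2 i hi).1 (part_le A' n s hs i hi)).mpr
      (hs.2 i hi).2⟩⟩

theorem pc_congr (A A' : Set ℕ) (n : ℕ) (h : ∀ i, 0 < i → i ≤ n → (i ∈ A ↔ i ∈ A')) :
    pc A n = pc A' n := by
  rw [pc_eq, pc_eq, MS_congr A A' n h]

theorem pc_zero (A : Set ℕ) : pc A 0 = 1 := by
  rw [pc_eq]
  have : MS A 0 = {0} := by
    ext s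
    rw [Set.mem_singleton_iff]
    constructor
    · intro hs
      refine Multiset.eq_zero_of_forall_notMem fun i hi => ?_
      have h1 := part_le A 0 s hs i hi
      have h2 := (hs.2 i hi).1
      omega
    · rintro rfl
      exact ⟨by simp, fun i hi => absurd hi (Multiset.notMem_zero i)⟩
  rw [this, Set.ncard_singleton]

/-- One more admissible part `M`, more than half of `n`. -/
theorem pc_step (A : Set ℕ) (n M : ℕ) (hM0 : 0 < M) (hMn : M ≤ n) (hn : n < 2 * M) (hMA : M ∈ A) :
    pc {i | i ∈ A ∧ i < M + 1} n = pc {i | i ∈ A ∧ i < M} n + pc A (n - M) := by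
  classical
  rw [pc_eq, pc_eq, pc_eq]
  have h1 : MS {i | i ∈ A ∧ i < M + 1} n = MS {i | i ∈ A ∧ i < M} n ∪
      (fun s => M ::ₘ s) '' MS A (n - M) := by
    ext s
    constructor
    · intro hs
      by_cases hM : M ∈ s
      · right
        refine ⟨s.erase M, ⟨?_, fun i hi => ?_⟩, Multiset.cons_erase hM⟩
        · have h2 := hs.1
          rw [← Multiset.cons_erase hM, Multiset.sum_cons] at h2
          omega
        · have hi' := hs.2 i (Multiset.mem_of_mem_erase hi)
          exact ⟨hi'.1, hi'.2.1⟩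
      · left
        refine ⟨hs.1, fun i hi => ⟨(hs.2 i hi).1, (hs.2 i hi).2.1, ?_⟩⟩
        have h2 : i < M + 1 := (hs.2 i hi).2.2
        have h3 : i ≠ M := fun h => hM (h ▸ hi)
        omega
    · rintro (hs | ⟨s', hs', rfl⟩)
      · refine ⟨hs.1, fun i hi => ⟨(hs.2 i hi).1, (hs.2 i hi).2.1, ?_⟩⟩
        have h2 : i < M := (hs.2 i hi).2.2
        omega
      · refine ⟨?_, fun i hi => ?_⟩
        · show (M ::ₘ s').sum = n
          rw [Multiset.sum_cons, hs'.1]
          omega
        · rw [Multiset.mem_cons] at hi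
          rcases hi with rfl | hi
          · exact ⟨hM0, hMA, by omega⟩
          · refine ⟨(hs'.2 i hi).1, (hs'.2 i hi).2, ?_⟩
            have h2 := part_le A (n - M) s' hs' i hi
            omega
  have hdisj : Disjoint (MS {i | i ∈ A ∧ i < M} n) ((fun s => M ::ₘ s) '' MS A (n - M)) := by
    rw [Set.disjoint_left]
    rintro s hs ⟨s', _, rfl⟩
    have h2 := (hs.2 M (Multiset.mem_cons_self M s')).2.2
    omega
  rw [h1, Set.ncard_union_eq hdisj (MS_finite _ _) ((MS_finite _ _).image _),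
    Set.ncard_image_of_injective _ (fun a b h => (Multiset.cons_inj_right M).mp h)]

theorem pc_step' (A : Set ℕ) (n M : ℕ) (hMA : M ∉ A) :
    pc {i | i ∈ A ∧ i < M + 1} n = pc {i | i ∈ A ∧ i < M} n := by
  have : {i | i ∈ A ∧ i < M + 1} = {i | i ∈ A ∧ i < M} := by
    ext i
    constructor
    · rintro ⟨h1, h2⟩
      refine ⟨h1, ?_⟩
      have : i ≠ M := fun h => hMA (h ▸ h1)
      omega
    · rintro ⟨h1, h2⟩
      exact ⟨h1, by omega⟩
  rw [this]

/-- The number of partitions of `n < 2 N` in terms of the parts that are at least `N`. -/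
theorem pc_large (A : Set ℕ) [DecidablePred (· ∈ A)] (n N : ℕ) (hn : n < 2 * N) :
    pc A n = pc {i | i ∈ A ∧ i < N} n +
      ∑ m ∈ Ico N (n + 1), (if m ∈ A then pc A (n - m) else 0) := by
  have h1 : ∀ K, N ≤ K → K ≤ n + 1 → pc {i | i ∈ A ∧ i < K} n = pc {i | i ∈ A ∧ i < N} n +
      ∑ m ∈ Ico N K, (if m ∈ A then pc A (n - m) else 0) := by
    intro K hK
    induction K, hK using Nat.le_induction with
    | base => intro _; simp
    | succ K hK ih =>
      intro hKn
      rw [Finset.sum_Ico_succ_top hK, ← add_assoc, ← ih (by omega)]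
      split_ifs with h
      · exact pc_step A n K (by omega) (by omega) (by omega) h
      · rw [add_zero]
        exact pc_step' A n K h
  rcases le_or_gt N (n + 1) with h | h
  · rw [← h1 (n + 1) h le_rfl]
    refine pc_congr _ _ n (fun i _ hi => ?_)
    constructor
    · intro hA
      exact ⟨hA, by omega⟩
    · exact fun hA => hA.1
  · rw [Finset.Ico_eq_empty (by omega), Finset.sum_empty, add_zero]
    refine pc_congr _ _ n (fun i _ hi => ?_)
    constructor
    · intro hA
      exact ⟨hA, by omega⟩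
    · exact fun hA => hA.1

/-- the changed set of parts -/
def chg (B : Set ℕ) (x : ℕ → Bool) : Set ℕ := symmDiff B {m | x m = true}

theorem mem_chg (B : Set ℕ) (x : ℕ → Bool) (m : ℕ) :
    m ∈ chg B x ↔ (m ∈ B ∧ x m = false) ∨ (x m = true ∧ m ∉ B) := by
  unfold chg
  rw [Set.mem_symmDiff]
  simp

/-- weighted counts modulo two -/
noncomputable def bb (B : Set ℕ) (f : ℕ → ℕ) (x : ℕ → Bool) (n : ℕ) : ZMod 2 :=
  ∑ j ∈ range (n + 1), (f j : ZMod 2) * (pc (chg B x) (n - j) : ZMod 2)

theorem pc_mod (B : Set ℕ) (x : ℕ → Bool) (n N : ℕ) (hn : n < 2 * N) :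
    (pc (chg B x) n : ZMod 2) = (pc (chg B (tr N x)) n : ZMod 2) +
      ∑ m ∈ Ico N (n + 1), (if x m = true then (pc (chg B x) (n - m) : ZMod 2) else 0) := by
  classical
  have h1 := pc_large (chg B x) n N hn
  have h2 := pc_large (chg B (tr N x)) n N hn
  have h3 : pc {i | i ∈ chg B x ∧ i < N} n = pc {i | i ∈ chg B (tr N x) ∧ i < N} n := by
    refine pc_congr _ _ n (fun i _ _ => ?_)
    show (i ∈ chg B x ∧ i < N) ↔ (i ∈ chg B (tr N x) ∧ i < N)
    constructor
    · rintro ⟨h4, h5⟩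
      refine ⟨?_, h5⟩
      rw [mem_chg] at h4 ⊢
      unfold tr
      rw [if_pos h5]
      exact h4
    · rintro ⟨h4, h5⟩
      refine ⟨?_, h5⟩
      rw [mem_chg] at h4 ⊢
      unfold tr at h4
      rw [if_pos h5] at h4
      exact h4
  have h4 : ∀ m ∈ Ico N (n + 1), pc (chg B (tr N x)) (n - m) = pc (chg B x) (n - m) := by
    intro m hm
    rw [Finset.mem_Ico] at hm
    refine pc_congr _ _ _ (fun i _ hi => ?_)
    rw [mem_chg, mem_chg]
    unfold tr
    rw [if_pos (by omega)]
  rw [h1, h2, h3]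
  push_cast
  rw [add_assoc, ← Finset.sum_add_distrib]
  congr 1
  refine Finset.sum_congr rfl fun m hm => ?_
  rw [h4 m hm]
  have hmN : ¬ m < N := by rw [Finset.mem_Ico] at hm; omega
  have h5 : (m ∈ chg B (tr N x)) ↔ m ∈ B := by
    rw [mem_chg]
    unfold tr
    rw [if_neg hmN]
    simp
  have h2' : ∀ z : ZMod 2, z + z = 0 := by decide
  by_cases hB : m ∈ B
  · cases hx : x m
    · have h6 : m ∈ chg B x := by rw [mem_chg]; left; exact ⟨hB, hx⟩
      rw [if_pos h6, if_pos (h5.mpr hB)]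
      simp
    · have h6 : m ∉ chg B x := by rw [mem_chg]; simp [hB, hx]
      rw [if_neg h6, if_pos (h5.mpr hB)]
      simp [h2']
  · cases hx : x m
    · have h6 : m ∉ chg B x := by rw [mem_chg]; simp [hB, hx]
      rw [if_neg h6, if_neg (fun h => hB (h5.mp h))]
      simp
    · have h6 : m ∈ chg B x := by rw [mem_chg]; right; exact ⟨hx, hB⟩
      rw [if_pos h6, if_neg (fun h => hB (h5.mp h))]
      simp

theorem bb_mod (B : Set ℕ) (f : ℕ → ℕ) (x : ℕ → Bool) (n N : ℕ) (hn : n < 2 * N) :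
    bb B f x n = bb B f (tr N x) n +
      ∑ m ∈ Ico N (n + 1), (if x m = true then bb B f x (n - m) else 0) := by
  classical
  unfold bb
  have h1 : ∀ j ∈ range (n + 1), (f j : ZMod 2) * (pc (chg B x) (n - j) : ZMod 2) =
      (f j : ZMod 2) * (pc (chg B (tr N x)) (n - j) : ZMod 2) +
      ∑ m ∈ Ico N (n + 1), (if x m = true ∧ m + j ≤ n then
        (f j : ZMod 2) * (pc (chg B x) (n - m - j) : ZMod 2) else 0) := by
    intro j hj
    rw [Finset.mem_range] at hj
    rw [pc_mod B x (n - j) N (by omega), mul_add]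
    congr 1
    rw [Finset.mul_sum]
    have hsub : Ico N (n - j + 1) ⊆ Ico N (n + 1) := Finset.Ico_subset_Ico_right (by omega)
    rw [← Finset.sum_subset hsub (f := fun m => if x m = true ∧ m + j ≤ n then
        (f j : ZMod 2) * (pc (chg B x) (n - m - j) : ZMod 2) else 0)]
    · refine Finset.sum_congr rfl fun m hm => ?_
      rw [Finset.mem_Ico] at hm
      rw [show n - j - m = n - m - j by omega]
      by_cases hx : x m = true
      · rw [if_pos hx, if_pos ⟨hx, by omega⟩]
      · rw [if_neg hx, if_neg (fun h => hx h.1), mul_zero]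
    · intro m hm hm'
      rw [Finset.mem_Ico] at hm hm'
      rw [if_neg]
      rintro ⟨_, h⟩
      omega
  rw [Finset.sum_congr rfl h1, Finset.sum_add_distrib, Finset.sum_comm]
  congr 1
  refine Finset.sum_congr rfl fun m hm => ?_
  rw [Finset.mem_Ico] at hm
  by_cases hx : x m = true
  · rw [if_pos hx]
    have hsub : range (n - m + 1) ⊆ range (n + 1) := Finset.range_subset_range.mpr (by omega)
    rw [← Finset.sum_subset hsub]
    · refine Finset.sum_congr rfl fun j hj => ?_
      rw [Finset.mem_range] at hj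
      rw [if_pos ⟨hx, by omega⟩]
    · intro j hj hj'
      rw [Finset.mem_range] at hj hj'
      rw [if_neg]
      rintro ⟨_, h⟩
      omega
  · rw [if_neg hx]
    refine Finset.sum_eq_zero fun j _ => ?_
    rw [if_neg (fun h => hx h.1)]

/-- sign of an element of `ZMod 2` -/
def sz (z : ZMod 2) : ℝ := if z = 0 then 1 else -1

theorem sz_add (a b : ZMod 2) : sz (a + b) = sz a * sz b := by
  have ha : a = 0 ∨ a = 1 := by revert a; decide
  have hb : b = 0 ∨ b = 1 := by revert b; decide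
  unfold sz
  rcases ha with rfl | rfl <;> rcases hb with rfl | rfl
  · simp
  · simp
  · simp
  · have : (1 : ZMod 2) + 1 = 0 := by decide
    rw [this]
    simp

theorem sz_sum (s : Finset ℕ) (g : ℕ → ZMod 2) : sz (∑ i ∈ s, g i) = ∏ i ∈ s, sz (g i) := by
  classical
  induction s using Finset.induction_on with
  | empty => simp [sz]
  | insert a s ha ih => rw [Finset.sum_insert ha, Finset.prod_insert ha, sz_add, ih]

/-- the binary sequence attached to the random set -/
noncomputable def GG (B : Set ℕ) (f : ℕ → ℕ) (x : ℕ → Bool) (n : ℕ) : Bool :=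
  decide (bb B f x n ≠ 0)

theorem sg_GG (B : Set ℕ) (f : ℕ → ℕ) (x : ℕ → Bool) (n : ℕ) :
    sg (GG B f x n) = sz (bb B f x n) := by
  unfold sg GG sz
  by_cases h : bb B f x n = 0
  · simp [h]
  · simp [h]

theorem GG_loc (B : Set ℕ) (f : ℕ → ℕ) (x y : ℕ → Bool) (n : ℕ) (h : ∀ j ≤ n, x j = y j) :
    GG B f x n = GG B f y n := by
  unfold GG bb
  have h1 : ∀ j ∈ range (n + 1), pc (chg B x) (n - j) = pc (chg B y) (n - j) := by
    intro j hj
    rw [Finset.mem_range] at hj
    refine pc_congr _ _ _ (fun i _ hi => ?_)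
    rw [mem_chg, mem_chg, h i (by omega)]
  rw [Finset.sum_congr rfl (fun j hj => by rw [h1 j hj])]

theorem GG_aff (B : Set ℕ) (f : ℕ → ℕ) (x : ℕ → Bool) (N n : ℕ) (hn : n < 2 * N) :
    sg (GG B f x n) = sg (GG B f (tr N x) n) *
      ∏ m ∈ Ico N (n + 1), fac (GG B f x (n - m)) (x m) := by
  rw [sg_GG, sg_GG, bb_mod B f x n N hn, sz_add, sz_sum]
  congr 1
  refine Finset.prod_congr rfl fun m _ => ?_
  unfold fac GG sz
  by_cases h : bb B f x (n - m) = 0
  · cases x m <;> simp [h]
  · cases x m <;> simp [h]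

theorem GG_one (B : Set ℕ) (f : ℕ → ℕ) (hf : ∃ j, Odd (f j)) : ∃ j₀, ∀ x, GG B f x j₀ = true := by
  classical
  refine ⟨Nat.find hf, fun x => ?_⟩
  unfold GG bb
  rw [Finset.sum_eq_single (Nat.find hf)]
  · have h1 : (f (Nat.find hf) : ZMod 2) = 1 := by
      rw [ZMod.natCast_eq_one_iff_odd]
      exact Nat.find_spec hf
    rw [Nat.sub_self, pc_zero, h1]
    simp
  · intro j hj hj'
    rw [Finset.mem_range] at hj
    have h1 : ¬ Odd (f j) := Nat.find_min hf (by omega)
    have h2 : (f j : ZMod 2) = 0 := by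
      rw [ZMod.natCast_eq_zero_iff_even]
      exact Nat.not_odd_iff_even.mp h1
    rw [h2, zero_mul]
  · intro h
    exact absurd (Finset.mem_range.mpr (Nat.lt_succ_self _)) h

end Pool.Agent.Run7.h274.ParPart
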