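import Pool.Agent.Run7.h274.ParGrow

/-!
Random changes of a set of parts, part 4: the growth step, by Chebyshev's inequality.
-/

open MeasureTheory ProbabilityTheory Finset
open scoped ENNReal

namespace Pool.Agent.Run7.h274.ParStep

open Pool.Agent.Run7.h274.ParCore Pool.Agent.Run7.h274.ParVar Pool.Agent.Run7.h274.ParGrow

theorem Y_low (G : (ℕ → Bool) → ℕ → Bool) (x : ℕ → Bool) (M : ℕ) :
    (M : ℝ) - 2 * cnt G x (4 * M) ≤ Y G M x := by
  classical
  have h1 : Y G M x = M - 2 * (((Ico (3 * M) (4 * M)).filter (fun n => G x n = true)).card : ℝ) := by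
    unfold Y
    have h2 : ∀ n, sg (G x n) = 1 - 2 * (if G x n = true then 1 else 0) := by
      intro n
      unfold sg
      cases G x n <;> simp <;> norm_num
    simp_rw [h2]
    rw [Finset.sum_sub_distrib, Finset.sum_const, Nat.card_Ico, ← Finset.mul_sum,
      Finset.card_filter]
    push_cast
    have : 4 * M - 3 * M = M := by omega
    rw [this]
    simp
  have h3 : ((Ico (3 * M) (4 * M)).filter (fun n => G x n = true)).card ≤ cnt G x (4 * M) := by
    unfold cnt
    refine Finset.card_le_card (Finset.filter_subset_filter _ (fun n hn => ?_))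
    rw [Finset.mem_Ico] at hn
    rw [Finset.mem_range]
    exact hn.2
  have h4 : (((Ico (3 * M) (4 * M)).filter (fun n => G x n = true)).card : ℝ) ≤ cnt G x (4 * M) := by
    exact_mod_cast h3
  rw [h1]
  linarith

theorem U_up (G : (ℕ → Bool) → ℕ → Bool) (ρ : ℕ → ℝ) (x : ℕ → Bool) (M : ℕ) (r₀ : ℝ)
    (hρ1 : ∀ m ∈ Ico (2 * M) (4 * M), r₀ ≤ ρ m)
    (hρ3 : ∀ m ∈ Ico (2 * M) (4 * M), ρ m ≤ 1 / 2) (hr : 0 < r₀) :
    U G ρ M x ≤ M * Real.exp (-(2 * (r₀ * cnt G x M))) := by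
  classical
  have h1 : ∀ n ∈ Ico (3 * M) (4 * M), mu G ρ (2 * M) (4 * M) x n ≤
      Real.exp (-(2 * (r₀ * cnt G x M))) := by
    intro n hn
    refine le_trans (le_abs_self _) ?_
    unfold mu
    rw [abs_mul, sg_abs, one_mul, abs_of_nonneg (Finset.prod_nonneg fun m hm => by
      split_ifs
      · have := hρ3 m hm
        linarith
      · exact zero_le_one)]
    calc ∏ m ∈ Ico (2 * M) (4 * M), (if dn G x n m then 1 - 2 * ρ m else 1)
        ≤ ∏ m ∈ Ico (2 * M) (4 * M), Real.exp (if dn G x n m then -(2 * r₀) else 0) := by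
          refine Finset.prod_le_prod (fun m hm => ?_) (fun m hm => ?_)
          · split_ifs
            · have := hρ3 m hm
              linarith
            · exact zero_le_one
          · split_ifs
            · have h2 := Real.one_sub_le_exp_neg (2 * r₀)
              have := hρ1 m hm
              linarith
            · rw [Real.exp_zero]
      _ = Real.exp (-(2 * r₀) *
          ((Ico (2 * M) (4 * M)).filter (fun m => dn G x n m = true)).card) := by
          rw [← Real.exp_sum, ← Finset.sum_filter, Finset.sum_const, nsmul_eq_mul, mul_comm]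
      _ ≤ Real.exp (-(2 * (r₀ * cnt G x M))) := by
          refine Real.exp_le_exp.mpr ?_
          have h3 : (cnt G x M : ℝ) ≤
              ((Ico (2 * M) (4 * M)).filter (fun m => dn G x n m = true)).card := by
            exact_mod_cast cnt_le_D G x M n hn
          nlinarith
  calc U G ρ M x ≤ ∑ _n ∈ Ico (3 * M) (4 * M), Real.exp (-(2 * (r₀ * cnt G x M))) :=
        Finset.sum_le_sum h1
    _ = M * Real.exp (-(2 * (r₀ * cnt G x M))) := by
        rw [Finset.sum_const, Nat.card_Ico, nsmul_eq_mul, show 4 * M - 3 * M = M by omega]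

theorem exp_gap (z : ℝ) (hz : 0 < z) : (2 / 3) * min z 1 ≤ 1 - Real.exp (-(2 * z)) := by
  have h1 := Real.add_one_le_exp (2 * z)
  have h2 : Real.exp (-(2 * z)) ≤ 1 / (1 + 2 * z) := by
    rw [Real.exp_neg, ← one_div]
    exact one_div_le_one_div_of_le (by linarith) (by linarith)
  have h3 : (2 / 3) * min z 1 ≤ 1 - 1 / (1 + 2 * z) := by
    have h4 : 1 - 1 / (1 + 2 * z) = 2 * z / (1 + 2 * z) := by field_simp; ring
    rw [h4, le_div_iff₀ (by linarith)]
    rcases le_or_gt z 1 with h | h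
    · rw [min_eq_left h]
      nlinarith
    · rw [min_eq_right h.le]
      nlinarith
  linarith

variable {Ω : Type*} [MeasurableSpace Ω] {P : Measure Ω} [IsProbabilityMeasure P]

theorem growth (χ : ℕ → Ω → Bool) (hm : ∀ n, Measurable (χ n)) (hind : iIndepFun χ P)
    (ρ : ℕ → ℝ) (hρ : ∀ m, P.real {ω | χ m ω = true} = ρ m)
    (G : (ℕ → Bool) → ℕ → Bool) (hL : ∀ x y n, (∀ j ≤ n, x j = y j) → G x n = G y n)
    (hA : ∀ x N n, N ≤ n → n < 2 * N → sg (G x n) = sg (G (tr N x) n) *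
      ∏ m ∈ Ico N (n + 1), fac (G x (n - m)) (x m))
    (M : ℕ) (hM : 1 ≤ M) (r₀ κ : ℝ) (hr : 0 < r₀) (hκ : 1 ≤ κ)
    (hρ1 : ∀ m ∈ Ico (2 * M) (4 * M), r₀ ≤ ρ m) (hρ2 : ∀ m ∈ Ico (2 * M) (4 * M), ρ m ≤ κ * r₀)
    (hρ3 : ∀ m ∈ Ico (2 * M) (4 * M), ρ m ≤ 1 / 2) (ε : ℝ) (hε : ε ≤ 1 / 96)
    (hrM : 96 ≤ r₀ * M) :
    P.real {ω | 1 ≤ cnt G (fun i => χ i ω) M ∧ (cnt G (fun i => χ i ω) M : ℝ) ≤ ε * M ∧
      cnt G (fun i => χ i ω) (4 * M) < 16 * cnt G (fun i => χ i ω) M} ≤
      20000 * κ * (|ε| + 1 / (r₀ * M)) := by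
  classical
  have hMR : (1 : ℝ) ≤ M := by exact_mod_cast hM
  have hMpos : (0 : ℝ) < M := by linarith
  let W : (ℕ → Bool) → ℝ := fun x => cnt G x M
  let ζ : (ℕ → Bool) → ℝ := fun x => min (r₀ * W x) 1
  let cond : (ℕ → Bool) → Prop := fun x => 1 ≤ cnt G x M ∧ W x ≤ ε * M ∧
    cnt G x (2 * M) < 16 * cnt G x M
  let Φ : (ℕ → Bool) → ℝ := fun x => if cond x then 1 / (ζ x) ^ 2 else 0
  have hΦ : ∀ x y, (∀ j < 2 * M, x j = y j) → Φ x = Φ y := by
    intro x y h
    have h1 := cnt_loc G hL (2 * M) M (by omega) x y h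
    have h2 := cnt_loc G hL (2 * M) (2 * M) le_rfl x y h
    simp only [Φ, cond, ζ, W]
    rw [h1, h2]
  have hΦ0 : ∀ x, 0 ≤ Φ x := by
    intro x
    simp only [Φ]
    split_ifs
    · positivity
    · exact le_refl _
  have hΦ1 : ∀ x, Φ x ≠ 0 → 1 ≤ cnt G x M := by
    intro x hx
    simp only [Φ] at hx
    split_ifs at hx with hc
    · exact hc.1
    · exact absurd rfl hx
  have hvar := variance χ hm hind ρ hρ G hL hA M hM r₀ κ hr hκ hρ1 hρ2 hρ3 Φ hΦ hΦ0 hΦ1
  -- pointwise bound of the right-hand side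
  have hpt : ∀ x, Φ x * (4 * κ / (cnt G x M) * min (r₀ * cnt G x M) 1 *
      (2 * M * (cnt G x (2 * M) : ℝ) ^ 2)) ≤ 2048 * κ * M * (|ε| * M + 1 / r₀) := by
    intro x
    have hRnn : 0 ≤ 2048 * κ * M * (|ε| * M + 1 / r₀) := by positivity
    simp only [Φ]
    split_ifs with hc
    · obtain ⟨c1, c2, c3⟩ := hc
      have hW1 : (1 : ℝ) ≤ cnt G x M := by exact_mod_cast c1
      have hWpos : (0 : ℝ) < cnt G x M := by linarith
      have hO : (cnt G x (2 * M) : ℝ) ≤ 16 * cnt G x M := by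
        have : cnt G x (2 * M) ≤ 16 * cnt G x M := c3.le
        exact_mod_cast this
      have hO2 : (cnt G x (2 * M) : ℝ) ^ 2 ≤ 256 * (cnt G x M : ℝ) ^ 2 := by
        have h0 : (0 : ℝ) ≤ cnt G x (2 * M) := Nat.cast_nonneg _
        nlinarith
      have hζpos : 0 < ζ x := lt_min (by positivity) one_pos
      have hζ : ζ x = min (r₀ * cnt G x M) 1 := rfl
      have hWζ : (cnt G x M : ℝ) / ζ x ≤ |ε| * M + 1 / r₀ := by
        rw [hζ]
        rcases le_or_gt (r₀ * (cnt G x M : ℝ)) 1 with h | h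
        · rw [min_eq_left h]
          have : (cnt G x M : ℝ) / (r₀ * cnt G x M) = 1 / r₀ := by field_simp
          rw [this]
          have : 0 ≤ |ε| * M := by positivity
          linarith
        · rw [min_eq_right h.le, div_one]
          have h2 : ε * M ≤ |ε| * M := mul_le_mul_of_nonneg_right (le_abs_self ε) hMpos.le
          have h3 : (cnt G x M : ℝ) ≤ ε * M := c2
          have : 0 ≤ 1 / r₀ := by positivity
          linarith
      rw [← hζ]
      calc 1 / ζ x ^ 2 * (4 * κ / (cnt G x M) * ζ x * (2 * M * (cnt G x (2 * M) : ℝ) ^ 2))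
          ≤ 1 / ζ x ^ 2 * (4 * κ / (cnt G x M) * ζ x * (2 * M * (256 * (cnt G x M : ℝ) ^ 2))) := by
            have h4 : 0 ≤ 4 * κ / (cnt G x M : ℝ) * ζ x :=
              mul_nonneg (div_nonneg (by linarith) hWpos.le) hζpos.le
            gcongr
        _ = 2048 * κ * M * ((cnt G x M : ℝ) / ζ x) := by
            field_simp
            ring
        _ ≤ 2048 * κ * M * (|ε| * M + 1 / r₀) :=
            mul_le_mul_of_nonneg_left hWζ (by positivity)
    · rw [zero_mul]
      exact hRnn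
  have hvar2 : ∫ ω, Φ (fun i => χ i ω) * (Y G M (fun i => χ i ω) - U G ρ M (fun i => χ i ω)) ^ 2 ∂P ≤
      2048 * κ * M * (|ε| * M + 1 / r₀) := by
    refine le_trans hvar ?_
    calc ∫ ω, Φ (fun i => χ i ω) * (4 * κ / (cnt G (fun i => χ i ω) M) *
          min (r₀ * cnt G (fun i => χ i ω) M) 1 *
          (2 * M * (cnt G (fun i => χ i ω) (2 * M) : ℝ) ^ 2)) ∂P
        ≤ ∫ _ω, 2048 * κ * M * (|ε| * M + 1 / r₀) ∂P := by
          refine integral_mono ?_ (integrable_const _) (fun ω => hpt _)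
          refine intLocal χ hm (2 * M) (fun x => Φ x * (4 * κ / (cnt G x M) *
            min (r₀ * cnt G x M) 1 * (2 * M * (cnt G x (2 * M) : ℝ) ^ 2))) (fun x y h => ?_)
          show Φ x * (4 * κ / (cnt G x M) * min (r₀ * cnt G x M) 1 *
            (2 * M * (cnt G x (2 * M) : ℝ) ^ 2)) = Φ y * (4 * κ / (cnt G y M) *
            min (r₀ * cnt G y M) 1 * (2 * M * (cnt G y (2 * M) : ℝ) ^ 2))
          rw [hΦ x y h, cnt_loc G hL (2 * M) M (by omega) x y h,
            cnt_loc G hL (2 * M) (2 * M) le_rfl x y h]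
      _ = 2048 * κ * M * (|ε| * M + 1 / r₀) := by simp
  -- Markov
  let f : Ω → ℝ := fun ω => 9 / (M : ℝ) ^ 2 * (Φ (fun i => χ i ω) *
    (Y G M (fun i => χ i ω) - U G ρ M (fun i => χ i ω)) ^ 2)
  have hfint : Integrable f P := by
    refine Integrable.const_mul ?_ _
    refine intLocal χ hm (4 * M) (fun x => Φ x * (Y G M x - U G ρ M x) ^ 2) (fun x y h => ?_)
    have h' : ∀ j < 2 * M, x j = y j := fun j hj => h j (by omega)
    show Φ x * (Y G M x - U G ρ M x) ^ 2 = Φ y * (Y G M y - U G ρ M y) ^ 2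
    rw [hΦ x y h']
    congr 2
    unfold Y U
    congr 1
    · refine Finset.sum_congr rfl fun n hn => ?_
      rw [Finset.mem_Ico] at hn
      rw [hL x y n (fun j hj => h j (by omega))]
    · refine Finset.sum_congr rfl fun n hn => ?_
      rw [Finset.mem_Ico] at hn
      exact mu_loc G hL ρ (2 * M) (4 * M) n (by omega) x y h'
  have hfnn : 0 ≤ f := fun ω => by
    simp only [f, Pi.zero_apply]
    exact mul_nonneg (by positivity) (mul_nonneg (hΦ0 _) (sq_nonneg _))
  have hmark := mul_meas_ge_le_integral_of_nonneg (μ := P) (Filter.Eventually.of_forall hfnn) hfint 1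
  rw [one_mul] at hmark
  have hsub : {ω | 1 ≤ cnt G (fun i => χ i ω) M ∧ (cnt G (fun i => χ i ω) M : ℝ) ≤ ε * M ∧
      cnt G (fun i => χ i ω) (4 * M) < 16 * cnt G (fun i => χ i ω) M} ⊆ {ω | 1 ≤ f ω} := by
    intro ω hω
    obtain ⟨c1, c2, c3⟩ := hω
    show 1 ≤ 9 / (M : ℝ) ^ 2 * (Φ (fun i => χ i ω) *
      (Y G M (fun i => χ i ω) - U G ρ M (fun i => χ i ω)) ^ 2)
    generalize (fun i => χ i ω) = x at c1 c2 c3 ⊢
    have hmono : cnt G x (2 * M) ≤ cnt G x (4 * M) := by
      unfold cnt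
      exact Finset.card_le_card (Finset.filter_subset_filter _
        (Finset.range_subset_range.mpr (by omega)))
    have hc : cond x := ⟨c1, c2, lt_of_le_of_lt hmono c3⟩
    have hΦx : Φ x = 1 / (ζ x) ^ 2 := by
      simp only [Φ]
      rw [if_pos hc]
    have hW1 : (1 : ℝ) ≤ cnt G x M := by exact_mod_cast c1
    have hWpos : (0 : ℝ) < cnt G x M := by linarith
    have hζpos : 0 < ζ x := lt_min (by positivity) one_pos
    have hY := Y_low G x M
    have hU := U_up G ρ x M r₀ hρ1 hρ3 hr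
    have hg := exp_gap (r₀ * cnt G x M) (by positivity)
    have h4 : (cnt G x (4 * M) : ℝ) ≤ 16 * cnt G x M := by
      have : cnt G x (4 * M) ≤ 16 * cnt G x M := c3.le
      exact_mod_cast this
    have h5 : 96 * (cnt G x M : ℝ) ≤ M * ζ x := by
      have hζ : ζ x = min (r₀ * cnt G x M) 1 := rfl
      rw [hζ]
      rcases le_or_gt (r₀ * (cnt G x M : ℝ)) 1 with h | h
      · rw [min_eq_left h]
        nlinarith
      · rw [min_eq_right h.le, mul_one]
        have : ε * M ≤ 1 / 96 * M := mul_le_mul_of_nonneg_right hε hMpos.le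
        linarith
    have h6 : M * ζ x / 3 ≤ Y G M x - U G ρ M x := by
      have h7 : (M : ℝ) * ((2 / 3) * ζ x) ≤ M * (1 - Real.exp (-(2 * (r₀ * cnt G x M)))) :=
        mul_le_mul_of_nonneg_left hg hMpos.le
      linarith
    have h7 : (M * ζ x / 3) ^ 2 ≤ (Y G M x - U G ρ M x) ^ 2 :=
      pow_le_pow_left₀ (by positivity) h6 2
    rw [hΦx]
    calc (1 : ℝ) = 9 / (M : ℝ) ^ 2 * (1 / ζ x ^ 2 * (M * ζ x / 3) ^ 2) := by
          field_simp
          norm_num
      _ ≤ 9 / (M : ℝ) ^ 2 * (1 / ζ x ^ 2 * (Y G M x - U G ρ M x) ^ 2) := by gcongr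
  have hfi : ∫ ω, f ω ∂P = 9 / (M : ℝ) ^ 2 *
      ∫ ω, Φ (fun i => χ i ω) * (Y G M (fun i => χ i ω) - U G ρ M (fun i => χ i ω)) ^ 2 ∂P :=
    integral_const_mul _ _
  calc P.real {ω | 1 ≤ cnt G (fun i => χ i ω) M ∧ (cnt G (fun i => χ i ω) M : ℝ) ≤ ε * M ∧
      cnt G (fun i => χ i ω) (4 * M) < 16 * cnt G (fun i => χ i ω) M}
      ≤ P.real {ω | 1 ≤ f ω} := measureReal_mono hsub
    _ ≤ ∫ ω, f ω ∂P := hmark
    _ ≤ 9 / (M : ℝ) ^ 2 * (2048 * κ * M * (|ε| * M + 1 / r₀)) := by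
        rw [hfi]
        gcongr
    _ = 18432 * κ * (|ε| + 1 / (r₀ * M)) := by
        field_simp
        ring
    _ ≤ 20000 * κ * (|ε| + 1 / (r₀ * M)) := by
        have : 0 ≤ |ε| + 1 / (r₀ * M) := by positivity
        gcongr
        norm_num

end Pool.Agent.Run7.h274.ParStep
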