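import Pool.Agent.Run7.h274.ParCore

/-!
Random changes of a set of parts, part 2: the variance of a sum of signs, given the frozen part.
-/

open MeasureTheory ProbabilityTheory Finset
open scoped ENNReal

namespace Pool.Agent.Run7.h274.ParVar

open Pool.Agent.Run7.h274.ParCore

/-- sign -/
def sg (b : Bool) : ℝ := if b then -1 else 1

/-- factor -/
def fac (g b : Bool) : ℝ := if g && b then -1 else 1

/-- number of odd values below `M` -/
def cnt (G : (ℕ → Bool) → ℕ → Bool) (x : ℕ → Bool) (M : ℕ) : ℕ :=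
  ((range M).filter (fun j => G x j = true)).card

theorem one_sub_prod_le (T : Finset ℕ) (c : ℕ → ℝ) (h0 : ∀ m ∈ T, 0 ≤ c m) (h1 : ∀ m ∈ T, c m ≤ 1) :
    1 - ∏ m ∈ T, c m ≤ ∑ m ∈ T, (1 - c m) := by
  classical
  induction T using Finset.induction_on with
  | empty => simp
  | insert a T ha ih =>
    rw [Finset.prod_insert ha, Finset.sum_insert ha]
    have ih' := ih (fun m hm => h0 m (Finset.mem_insert_of_mem hm))
      (fun m hm => h1 m (Finset.mem_insert_of_mem hm))
    have hp : ∏ m ∈ T, c m ≤ 1 := Finset.prod_le_one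
      (fun m hm => h0 m (Finset.mem_insert_of_mem hm))
      (fun m hm => h1 m (Finset.mem_insert_of_mem hm))
    have ha0 := h0 a (Finset.mem_insert_self a T)
    have ha1 := h1 a (Finset.mem_insert_self a T)
    nlinarith

theorem prodBound (T : Finset ℕ) (d d' : ℕ → Bool) (u : ℕ → ℝ) (r₀ κ W : ℝ) (hr : 0 < r₀)
    (hκ : 1 ≤ κ) (hu0 : ∀ m ∈ T, 0 ≤ u m) (hu1 : ∀ m ∈ T, u m ≤ 1 - 2 * r₀)
    (hu2 : ∀ m ∈ T, 1 - 2 * (κ * r₀) ≤ u m) (hW : 0 < W)
    (hD : W ≤ (T.filter (fun m => d m = true)).card)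
    (hD' : W ≤ (T.filter (fun m => d' m = true)).card) :
    |∏ m ∈ T, (if (d m).xor (d' m) then u m else 1) -
        ∏ m ∈ T, ((if d m then u m else 1) * (if d' m then u m else 1))| ≤
      4 * κ * (((T.filter (fun m => d m = true ∧ d' m = true)).card : ℝ) / W) * min (r₀ * W) 1 := by
  classical
  set r : ℝ := ((T.filter (fun m => d m = true ∧ d' m = true)).card : ℝ) with hrdef
  set a : ℝ := ((T.filter (fun m => (d m).xor (d' m) = true)).card : ℝ) with hadef
  have hcards : a + 2 * r = ((T.filter (fun m => d m = true)).card : ℝ) +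
      ((T.filter (fun m => d' m = true)).card : ℝ) := by
    rw [hadef, hrdef]
    simp only [Finset.card_filter, Nat.cast_sum, Nat.cast_ite, Nat.cast_one, Nat.cast_zero]
    rw [Finset.mul_sum, ← Finset.sum_add_distrib, ← Finset.sum_add_distrib]
    refine Finset.sum_congr rfl fun m _ => ?_
    cases d m <;> cases d' m <;> (simp; try norm_num)
  have hr0 : 0 ≤ r := by rw [hrdef]; positivity
  set E : ℝ := ∏ m ∈ T, (if (d m).xor (d' m) then u m else 1) with hE
  set C : ℝ := ∏ m ∈ T, (if d m = true ∧ d' m = true then u m ^ 2 else 1) with hC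
  have hfac : ∏ m ∈ T, ((if d m then u m else 1) * (if d' m then u m else 1)) = E * C := by
    rw [hE, hC, ← Finset.prod_mul_distrib]
    refine Finset.prod_congr rfl fun m _ => ?_
    cases d m <;> cases d' m <;> simp [sq]
  have hE0 : 0 ≤ E := Finset.prod_nonneg fun m hm => by
    split_ifs
    · exact hu0 m hm
    · exact zero_le_one
  have hEexp : E ≤ Real.exp (-(2 * r₀ * a)) := by
    have h1 : E ≤ ∏ m ∈ T, Real.exp (if (d m).xor (d' m) then -(2 * r₀) else 0) := by
      refine Finset.prod_le_prod (fun m hm => ?_) (fun m hm => ?_)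
      · split_ifs
        · exact hu0 m hm
        · exact zero_le_one
      · split_ifs
        · refine le_trans (hu1 m hm) (Real.one_sub_le_exp_neg _)
        · rw [Real.exp_zero]
    refine le_trans h1 (le_of_eq ?_)
    rw [← Real.exp_sum, ← Finset.sum_filter, Finset.sum_const, nsmul_eq_mul]
    congr 1
    rw [hadef]
    ring
  have hE1 : E ≤ 1 := by
    refine le_trans hEexp (Real.exp_le_one_iff.mpr ?_)
    have : 0 ≤ a := by rw [hadef]; positivity
    have : 0 ≤ 2 * r₀ * a := by positivity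
    linarith
  have hu01 : ∀ m ∈ T, u m ≤ 1 := fun m hm => le_trans (hu1 m hm) (by linarith)
  have hC0 : 0 ≤ C := Finset.prod_nonneg fun m hm => by
    split_ifs
    · positivity
    · exact zero_le_one
  have hC1 : 1 - C ≤ 4 * κ * r₀ * r := by
    refine le_trans (one_sub_prod_le T _ (fun m hm => ?_) (fun m hm => ?_)) ?_
    · split_ifs
      · positivity
      · exact zero_le_one
    · split_ifs
      · exact pow_le_one₀ (hu0 m hm) (hu01 m hm)
      · exact le_refl _
    · calc ∑ m ∈ T, (1 - if d m = true ∧ d' m = true then u m ^ 2 else 1)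
          ≤ ∑ m ∈ T, (if d m = true ∧ d' m = true then 4 * κ * r₀ else 0) := by
            refine Finset.sum_le_sum fun m hm => ?_
            split_ifs
            · have h1 := hu0 m hm
              have h2 := hu01 m hm
              have h3 := hu2 m hm
              nlinarith
            · linarith
        _ = 4 * κ * r₀ * r := by
            rw [← Finset.sum_filter, Finset.sum_const, nsmul_eq_mul, hrdef]
            ring
  have hCle : C ≤ 1 := Finset.prod_le_one (fun m hm => by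
    split_ifs
    · positivity
    · exact zero_le_one) (fun m hm => by
    split_ifs
    · exact pow_le_one₀ (hu0 m hm) (hu01 m hm)
    · exact le_refl _)
  rw [hfac, show E - E * C = E * (1 - C) by ring,
    abs_of_nonneg (mul_nonneg hE0 (by linarith))]
  have hκr : 0 ≤ 4 * κ * r₀ * r := by positivity
  rcases le_or_gt (r₀ * W) 1 with hz | hz
  · rw [min_eq_left hz]
    calc E * (1 - C) ≤ 1 * (4 * κ * r₀ * r) :=
          mul_le_mul hE1 hC1 (by linarith) zero_le_one
      _ = 4 * κ * (r / W) * (r₀ * W) := by field_simp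
  · rw [min_eq_right hz.le, mul_one]
    rcases le_or_gt W (2 * r) with h2 | h2
    · have h3 : 1 ≤ 4 * κ * (r / W) := by
        have h4 : 1 / 2 ≤ r / W := by
          rw [le_div_iff₀ hW]
          linarith
        nlinarith
      calc E * (1 - C) ≤ 1 * 1 := mul_le_mul hE1 (by linarith) (by linarith) zero_le_one
        _ = 1 := one_mul 1
        _ ≤ _ := h3
    · have ha : W ≤ a := by linarith
      have h5 : E ≤ Real.exp (-(2 * (r₀ * W))) := by
        refine le_trans hEexp (Real.exp_le_exp.mpr ?_)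
        have : r₀ * W ≤ r₀ * a := mul_le_mul_of_nonneg_left ha hr.le
        linarith
      have h6 : (r₀ * W) * Real.exp (-(2 * (r₀ * W))) ≤ 1 := by
        have h7 := Real.add_one_le_exp (2 * (r₀ * W))
        rw [Real.exp_neg, ← div_eq_mul_inv, div_le_one (Real.exp_pos _)]
        linarith
      calc E * (1 - C) ≤ Real.exp (-(2 * (r₀ * W))) * (4 * κ * r₀ * r) :=
            mul_le_mul h5 hC1 (by linarith) (Real.exp_pos _).le
        _ = 4 * κ * (r / W) * ((r₀ * W) * Real.exp (-(2 * (r₀ * W)))) := by field_simp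
        _ ≤ 4 * κ * (r / W) * 1 := by
            have : 0 ≤ r / W := div_nonneg hr0 hW.le
            gcongr
        _ = 4 * κ * (r / W) := mul_one _

variable {Ω : Type*} [MeasurableSpace Ω] {P : Measure Ω} [IsProbabilityMeasure P]

/-- relevant index -/
def dn (G : (ℕ → Bool) → ℕ → Bool) (x : ℕ → Bool) (n m : ℕ) : Bool := decide (m ≤ n) && G x (n - m)

theorem dn_loc (G : (ℕ → Bool) → ℕ → Bool)
    (hL : ∀ x y n, (∀ j ≤ n, x j = y j) → G x n = G y n) (N n : ℕ) (hn : n < 2 * N)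
    (x y : ℕ → Bool) (h : ∀ j < N, x j = y j) (m : ℕ) (hm : N ≤ m) : dn G x n m = dn G y n m := by
  unfold dn
  by_cases hmn : m ≤ n
  · rw [hL x y (n - m) (fun j hj => h j (by omega))]
  · simp [hmn]

theorem tr_loc (N : ℕ) (x y : ℕ → Bool) (h : ∀ j < N, x j = y j) : tr N x = tr N y := by
  funext j
  unfold tr
  by_cases hj : j < N
  · rw [if_pos hj, if_pos hj, h j hj]
  · rw [if_neg hj, if_neg hj]

theorem sign_eq (G : (ℕ → Bool) → ℕ → Bool)
    (hA : ∀ x N n, N ≤ n → n < 2 * N → sg (G x n) = sg (G (tr N x) n) *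
      ∏ m ∈ Ico N (n + 1), fac (G x (n - m)) (x m))
    (x : ℕ → Bool) (N n R : ℕ) (h1 : N ≤ n) (h2 : n < 2 * N) (h3 : n < R) :
    sg (G x n) = sg (G (tr N x) n) * ∏ m ∈ Ico N R, fac (dn G x n m) (x m) := by
  rw [hA x N n h1 h2]
  congr 1
  have h4 : ∀ m ∈ Ico N (n + 1), fac (G x (n - m)) (x m) = fac (dn G x n m) (x m) := by
    intro m hm
    rw [Finset.mem_Ico] at hm
    unfold dn
    rw [decide_eq_true (by omega), Bool.true_and]
  rw [Finset.prod_congr rfl h4]
  refine Finset.prod_subset (Finset.Ico_subset_Ico_right (by omega)) (fun m hm hm' => ?_)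
  rw [Finset.mem_Ico] at hm hm'
  unfold dn fac
  rw [decide_eq_false (by omega)]
  simp

/-- the conditional mean of a sign -/
noncomputable def mu (G : (ℕ → Bool) → ℕ → Bool) (ρ : ℕ → ℝ) (N R : ℕ) (x : ℕ → Bool) (n : ℕ) : ℝ :=
  sg (G (tr N x) n) * ∏ m ∈ Ico N R, (if dn G x n m then 1 - 2 * ρ m else 1)

theorem pair (χ : ℕ → Ω → Bool) (hm : ∀ n, Measurable (χ n)) (hind : iIndepFun χ P)
    (ρ : ℕ → ℝ) (hρ : ∀ m, P.real {ω | χ m ω = true} = ρ m)
    (G : (ℕ → Bool) → ℕ → Bool) (hL : ∀ x y n, (∀ j ≤ n, x j = y j) → G x n = G y n)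
    (hA : ∀ x N n, N ≤ n → n < 2 * N → sg (G x n) = sg (G (tr N x) n) *
      ∏ m ∈ Ico N (n + 1), fac (G x (n - m)) (x m))
    (N R n n' : ℕ) (hn : N ≤ n) (hn' : N ≤ n') (hnR : n < R) (hnR' : n' < R) (hR : R ≤ 2 * N)
    (Φ : (ℕ → Bool) → ℝ) (hΦ : ∀ x y, (∀ j < N, x j = y j) → Φ x = Φ y) :
    ∫ ω, Φ (fun i => χ i ω) * ((sg (G (fun i => χ i ω) n) - mu G ρ N R (fun i => χ i ω) n) *
        (sg (G (fun i => χ i ω) n') - mu G ρ N R (fun i => χ i ω) n')) ∂P =
    ∫ ω, Φ (fun i => χ i ω) * ((sg (G (tr N (fun i => χ i ω)) n) *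
        sg (G (tr N (fun i => χ i ω)) n')) *
      (∏ m ∈ Ico N R, (if (dn G (fun i => χ i ω) n m).xor (dn G (fun i => χ i ω) n' m)
          then 1 - 2 * ρ m else 1) -
        ∏ m ∈ Ico N R, ((if dn G (fun i => χ i ω) n m then 1 - 2 * ρ m else 1) *
          (if dn G (fun i => χ i ω) n' m then 1 - 2 * ρ m else 1)))) ∂P := by
  set Φ₁ : (ℕ → Bool) → ℝ := fun x => Φ x * (sg (G (tr N x) n) * sg (G (tr N x) n')) with hΦ₁
  have hΦ₁loc : ∀ x y, (∀ j < N, x j = y j) → Φ₁ x = Φ₁ y := by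
    intro x y h
    simp only [hΦ₁]
    rw [hΦ x y h, tr_loc N x y h]
  have hdn : ∀ x y : ℕ → Bool, (∀ j < N, x j = y j) → ∀ m ∈ Ico N R, dn G x n m = dn G y n m :=
    fun x y h m hm => dn_loc G hL N n (by omega) x y h m (Finset.mem_Ico.mp hm).1
  have hdn' : ∀ x y : ℕ → Bool, (∀ j < N, x j = y j) → ∀ m ∈ Ico N R, dn G x n' m = dn G y n' m :=
    fun x y h m hm => dn_loc G hL N n' (by omega) x y h m (Finset.mem_Ico.mp hm).1
  let p1 : (ℕ → Bool) → ℕ → Bool → ℝ := fun x m b => fac (dn G x n m) b * fac (dn G x n' m) b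
  let p2 : (ℕ → Bool) → ℕ → Bool → ℝ := fun x m b => fac (dn G x n m) b *
    (if dn G x n' m then 1 - 2 * ρ m else 1)
  let p3 : (ℕ → Bool) → ℕ → Bool → ℝ := fun x m b => (if dn G x n m then 1 - 2 * ρ m else 1) *
    fac (dn G x n' m) b
  let p4 : (ℕ → Bool) → ℕ → Bool → ℝ := fun x m _ => (if dn G x n m then 1 - 2 * ρ m else 1) *
    (if dn G x n' m then 1 - 2 * ρ m else 1)
  have hp1 : ∀ x y, (∀ j < N, x j = y j) → ∀ m ∈ Ico N R, ∀ b, p1 x m b = p1 y m b := by
    intro x y h m hm b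
    simp only [p1]
    rw [hdn x y h m hm, hdn' x y h m hm]
  have hp2 : ∀ x y, (∀ j < N, x j = y j) → ∀ m ∈ Ico N R, ∀ b, p2 x m b = p2 y m b := by
    intro x y h m hm b
    simp only [p2]
    rw [hdn x y h m hm, hdn' x y h m hm]
  have hp3 : ∀ x y, (∀ j < N, x j = y j) → ∀ m ∈ Ico N R, ∀ b, p3 x m b = p3 y m b := by
    intro x y h m hm b
    simp only [p3]
    rw [hdn x y h m hm, hdn' x y h m hm]
  have hp4 : ∀ x y, (∀ j < N, x j = y j) → ∀ m ∈ Ico N R, ∀ b, p4 x m b = p4 y m b := by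
    intro x y h m hm b
    simp only [p4]
    rw [hdn x y h m hm, hdn' x y h m hm]
  have k1 := key (P := P) χ hm hind ρ hρ N R Φ₁ hΦ₁loc p1 hp1
  have k2 := key (P := P) χ hm hind ρ hρ N R Φ₁ hΦ₁loc p2 hp2
  have k3 := key (P := P) χ hm hind ρ hρ N R Φ₁ hΦ₁loc p3 hp3
  -- integrability
  have hint : ∀ p : (ℕ → Bool) → ℕ → Bool → ℝ,
      (∀ x y, (∀ j < N, x j = y j) → ∀ m ∈ Ico N R, ∀ b, p x m b = p y m b) →
      Integrable (fun ω => Φ₁ (fun i => χ i ω) *
        ∏ m ∈ Ico N R, p (fun i => χ i ω) m (χ m ω)) P := by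
    intro p hp
    refine intLocal χ hm (N + R) (fun x => Φ₁ x * ∏ m ∈ Ico N R, p x m (x m)) (fun x y h => ?_)
    have h' : ∀ j < N, x j = y j := fun j hj => h j (by omega)
    show Φ₁ x * ∏ m ∈ Ico N R, p x m (x m) = Φ₁ y * ∏ m ∈ Ico N R, p y m (y m)
    rw [hΦ₁loc x y h']
    congr 1
    refine Finset.prod_congr rfl fun m hm => ?_
    rw [hp x y h' m hm, h m (by have := (Finset.mem_Ico.mp hm).2; omega)]
  have i1 := hint p1 hp1
  have i2 := hint p2 hp2
  have i3 := hint p3 hp3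
  have i4 := hint p4 hp4
  have e1 : ∀ ω, Φ (fun i => χ i ω) * ((sg (G (fun i => χ i ω) n) - mu G ρ N R (fun i => χ i ω) n) *
        (sg (G (fun i => χ i ω) n') - mu G ρ N R (fun i => χ i ω) n')) =
      ((Φ₁ (fun i => χ i ω) * ∏ m ∈ Ico N R, p1 (fun i => χ i ω) m (χ m ω)) -
        (Φ₁ (fun i => χ i ω) * ∏ m ∈ Ico N R, p2 (fun i => χ i ω) m (χ m ω))) -
        ((Φ₁ (fun i => χ i ω) * ∏ m ∈ Ico N R, p3 (fun i => χ i ω) m (χ m ω)) -
        (Φ₁ (fun i => χ i ω) * ∏ m ∈ Ico N R, p4 (fun i => χ i ω) m (χ m ω))) := by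
    intro ω
    rw [sign_eq G hA (fun i => χ i ω) N n R hn (by omega) hnR,
      sign_eq G hA (fun i => χ i ω) N n' R hn' (by omega) hnR']
    simp only [p1, p2, p3, p4, Finset.prod_mul_distrib, hΦ₁, mu]
    ring
  simp_rw [e1]
  rw [integral_sub (f := fun ω => (Φ₁ (fun i => χ i ω) * ∏ m ∈ Ico N R, p1 (fun i => χ i ω) m (χ m ω)) -
        (Φ₁ (fun i => χ i ω) * ∏ m ∈ Ico N R, p2 (fun i => χ i ω) m (χ m ω)))
      (g := fun ω => (Φ₁ (fun i => χ i ω) * ∏ m ∈ Ico N R, p3 (fun i => χ i ω) m (χ m ω)) -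
        (Φ₁ (fun i => χ i ω) * ∏ m ∈ Ico N R, p4 (fun i => χ i ω) m (χ m ω)))
      (i1.sub i2) (i3.sub i4), integral_sub i1 i2, integral_sub i3 i4, k1, k2, k3]
  have q1 : ∀ (x : ℕ → Bool) m, ρ m * p1 x m true + (1 - ρ m) * p1 x m false =
      (if (dn G x n m).xor (dn G x n' m) then 1 - 2 * ρ m else 1) := by
    intro x m
    simp only [p1]
    unfold fac
    cases dn G x n m <;> cases dn G x n' m <;> simp <;> ring
  have q2 : ∀ (x : ℕ → Bool) m, ρ m * p2 x m true + (1 - ρ m) * p2 x m false = p4 x m true := by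
    intro x m
    simp only [p2, p4]
    unfold fac
    cases dn G x n m <;> cases dn G x n' m <;> simp <;> ring
  have q3 : ∀ (x : ℕ → Bool) m, ρ m * p3 x m true + (1 - ρ m) * p3 x m false = p4 x m true := by
    intro x m
    simp only [p3, p4]
    unfold fac
    cases dn G x n m <;> cases dn G x n' m <;> simp <;> ring
  simp_rw [q1, q2, q3]
  have i1' : Integrable (fun ω => Φ₁ (fun i => χ i ω) * ∏ m ∈ Ico N R,
      (if (dn G (fun i => χ i ω) n m).xor (dn G (fun i => χ i ω) n' m) then 1 - 2 * ρ m else 1)) P :=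
    hint (fun x m _ => if (dn G x n m).xor (dn G x n' m) then 1 - 2 * ρ m else 1)
      (fun x y h m hm b => by rw [hdn x y h m hm, hdn' x y h m hm])
  have i4' : Integrable (fun ω => Φ₁ (fun i => χ i ω) * ∏ m ∈ Ico N R,
      p4 (fun i => χ i ω) m true) P := i4
  have e4 : ∀ ω, ∏ m ∈ Ico N R, p4 (fun i => χ i ω) m (χ m ω) =
    ∏ m ∈ Ico N R, p4 (fun i => χ i ω) m true := fun ω => rfl
  simp_rw [e4]
  rw [sub_self, sub_zero, ← integral_sub i1' i4']
  congr 1
  funext ω
  simp only [hΦ₁, p4]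
  ring

end Pool.Agent.Run7.h274.ParVar
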