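import Pool.Agent.Run7.h274.Alg

/-!
Words in the rational multiples of real numbers which satisfy a polynomial relation.
-/

set_option autoImplicit false

namespace Pool.Agent.Run7.h274.WM

open Finset Filter

lemma sum_prod_le {σ : Type} [Fintype σ] [DecidableEq σ] (F : MvPolynomial σ ℤ) {a g : σ → ℝ}
    {C : ℝ} (hC : 1 ≤ C) (ha : ∀ i, 0 ≤ a i) (hg : ∀ i, 0 ≤ g i)
    (h : ∀ i, a i ≤ C * g i) :
    ∑ α ∈ F.support.erase 0, ∏ i, a i ^ α i ≤
      C ^ F.totalDegree * ∑ α ∈ F.support.erase 0, ∏ i, g i ^ α i := by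
  rw [mul_sum]
  refine sum_le_sum fun α hα => ?_
  have h1 : ∏ i, a i ^ α i ≤ ∏ i, (C * g i) ^ α i :=
    prod_le_prod (fun i _ => pow_nonneg (ha i) _) fun i _ => pow_le_pow_left₀ (ha i) (h i) _
  refine h1.trans ?_
  have h2 : ∏ i, (C * g i) ^ α i = C ^ (∑ i, α i) * ∏ i, g i ^ α i := by
    rw [← prod_pow_eq_pow_sum, ← prod_mul_distrib]
    exact prod_congr rfl fun i _ => mul_pow _ _ _
  rw [h2]
  refine mul_le_mul_of_nonneg_right ?_ (prod_nonneg fun i _ => pow_nonneg (hg i) _)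
  refine pow_le_pow_right₀ hC ?_
  have h3 := MvPolynomial.le_totalDegree (mem_of_mem_erase hα)
  refine le_trans (le_of_eq ?_) h3
  exact (Finsupp.sum_fintype α (fun _ n => n) fun _ => rfl).symm

theorem rel_many {b l : ℕ} (hb : 2 ≤ b) (hl : 1 ≤ l) {p : ℕ} (hp : p.Prime) (hpb : ¬ p ∣ b)
    {σ : Type} [Fintype σ] [DecidableEq σ] (F : MvPolynomial σ ℤ) {e κ : ℕ}
    (hF0 : ¬ (p : ℤ) ^ (e + 1) ∣ F.coeff 0)
    (hκ : ¬ p ^ (κ + 1) ∣ (b - 1) * (4 * b ^ l).factorial) {s : ℕ} (hs : s ≠ 0)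
    (hps : p ^ (e + κ + 1) ∣ s) (K : ℝ) :
    ∃ c : ℝ, 0 < c ∧ ∀ ξ : σ → ℝ, (∀ i, |ξ i| ≤ K) → MvPolynomial.aeval ξ F = 0 →
      ∀ M : ℕ, 4 * (b + 1) * b ^ l ≤ M → ∀ N : ℕ, ∃ g : σ → ℕ,
        c * N ≤ ∑ α ∈ F.support.erase 0, ∏ i, ((g i : ℝ) + 1) ^ α i ∧
        ∀ i, ∀ W < b ^ l, M ≤ 16 * b ^ l *
          ((Icc 1 M).filter (fun m : ℕ => g i ≤ occ b l W ((m : ℝ) * (ξ i / s)) N)).card := by
  set R := (4 * b ^ l).factorial with hR
  have hκ' : ¬ (p : ℤ) ^ (κ + 1) ∣ ((b : ℤ) - 1) * (R : ℕ) := by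
    intro h
    apply hκ
    have h1 : ((b - 1 : ℕ) : ℤ) = (b : ℤ) - 1 := by
      rw [Nat.cast_sub (by omega)]; simp
    rw [← h1] at h
    exact_mod_cast h
  obtain ⟨c, hc, h⟩ := chg_rel hb hp hpb F hF0 hκ' hs hps K
  have hbl1 : 1 ≤ b ^ l := Nat.one_le_pow _ _ (by omega)
  set C : ℝ := ((R : ℝ) + 1) * (16 * (b : ℝ) ^ l + R) + 1 with hCdef
  have hbR : (0 : ℝ) < (b : ℝ) ^ l := by positivity
  have hC1 : 1 ≤ C := by
    have : (0 : ℝ) ≤ ((R : ℝ) + 1) * (16 * (b : ℝ) ^ l + R) := by positivity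
    linarith
  have hCD : 0 < C ^ F.totalDegree := by positivity
  refine ⟨c / C ^ F.totalDegree, by positivity, fun ξ hξK hξ M hM N => ?_⟩
  have hcore := fun i => core hb hl hM (fact_dvd (b ^ l)) (le_pow_self hb R) (ξ i / s) N
  choose g hg1 hg2 using hcore
  refine ⟨fun i => g i / (16 * b ^ l), ?_, fun i W hW => ?_⟩
  · rw [div_mul_eq_mul_div, div_le_iff₀ hCD, mul_comm _ (C ^ F.totalDegree)]
    refine (h ξ hξK hξ N).trans (sum_prod_le F hC1 (fun i => by positivity)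
      (fun i => by positivity) fun i => ?_)
    have h1 : ((chg b ((R : ℝ) * (ξ i / s)) N : ℕ) : ℝ) ≤ ((R : ℝ) + 1) * ((g i : ℝ) + R) := by
      exact_mod_cast hg1 i
    have h2 : (g i : ℝ) ≤ 16 * (b : ℝ) ^ l * (((g i / (16 * b ^ l) : ℕ) : ℝ) + 1) := by
      have : g i < 16 * b ^ l * (g i / (16 * b ^ l) + 1) := Nat.lt_mul_div_succ _ (by positivity)
      exact_mod_cast this.le
    set t : ℝ := ((g i / (16 * b ^ l) : ℕ) : ℝ) with ht
    have ht0 : 0 ≤ t := Nat.cast_nonneg _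
    have hR0 : (0 : ℝ) ≤ (R : ℝ) := Nat.cast_nonneg _
    have h3 : ((R : ℝ) + 1) * ((g i : ℝ) + R) ≤
        ((R : ℝ) + 1) * (16 * (b : ℝ) ^ l * (t + 1) + R * (t + 1)) := by
      refine mul_le_mul_of_nonneg_left ?_ (by positivity)
      nlinarith
    have h4 : C * (t + 1) = ((R : ℝ) + 1) * (16 * (b : ℝ) ^ l * (t + 1) + R * (t + 1)) + (t + 1) := by
      rw [hCdef]; ring
    rw [h4]
    linarith
  · refine ((hg2 i W hW).2).trans (Nat.mul_le_mul_left _ (card_le_card fun m hm => ?_))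
    rw [mem_filter] at hm ⊢
    exact ⟨hm.1, Nat.div_le_of_le_mul hm.2⟩

theorem rel_most {b l : ℕ} (hb : 2 ≤ b) (hl : 1 ≤ l) {p : ℕ} (hp : p.Prime) (hpb : ¬ p ∣ b)
    {σ : Type} [Fintype σ] [DecidableEq σ] (F : MvPolynomial σ ℤ) (hF0 : F.coeff 0 ≠ 0)
    {δ : ℝ} (hδ : 0 < δ) :
    ∃ j M₀ : ℕ, ∀ s : ℕ, s ≠ 0 → p ^ j ∣ s → ∀ K : ℝ, ∃ c : ℝ, 0 < c ∧
      ∀ ξ : σ → ℝ, (∀ i, |ξ i| ≤ K) → MvPolynomial.aeval ξ F = 0 →
      ∀ M : ℕ, M₀ ≤ M → ∀ N : ℕ, ∃ g : σ → ℕ,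
        c * N ≤ ∑ α ∈ F.support.erase 0, ∏ i, ((g i : ℝ) + 1) ^ α i ∧
        ∀ i, (((Icc 1 M).filter (fun m : ℕ => ∃ W < b ^ l,
          occ b l W ((m : ℝ) * (ξ i / s)) N < g i)).card : ℝ) ≤ δ * M := by
  obtain ⟨n, hn1, hn⟩ := exists_n (l := l) hb hδ
  have hpZ : Prime (p : ℤ) := Nat.prime_iff_prime_int.1 hp
  have hex : ∀ a : ℤ, a ≠ 0 → ∃ e : ℕ, ¬ (p : ℤ) ^ (e + 1) ∣ a := by
    intro a ha
    obtain ⟨e, he⟩ := FiniteMultiplicity.of_prime_left hpZ ha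
    exact ⟨e, he⟩
  set R := (4 * b ^ (l * n)).factorial with hR
  obtain ⟨e, he⟩ := hex _ hF0
  obtain ⟨κ, hκ⟩ := hex (((b : ℤ) - 1) * (R : ℕ)) (by
    have h1 : (b : ℤ) - 1 ≠ 0 := by
      have : (2 : ℤ) ≤ b := by exact_mod_cast hb
      omega
    have h2 : ((R : ℕ) : ℤ) ≠ 0 := by
      exact_mod_cast Nat.factorial_ne_zero _
    exact mul_ne_zero h1 h2)
  refine ⟨e + κ + 1, 4 * (b + 1) * b ^ (l * n), fun s hs hps K => ?_⟩
  obtain ⟨c, hc, h⟩ := chg_rel hb hp hpb F he hκ hs hps K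
  have hln : 1 ≤ l * n := Nat.mul_pos hl hn1
  have hB : b ≤ b ^ (l * n) := Nat.le_self_pow (by omega) b
  set C : ℝ := ((R : ℝ) + 1) * (2 * ((l * n : ℕ) : ℝ) * (((l * n : ℕ) : ℝ) + 1) + R) + 1 with hCdef
  have hC1 : 1 ≤ C := by
    have : (0 : ℝ) ≤ ((R : ℝ) + 1) * (2 * ((l * n : ℕ) : ℝ) * (((l * n : ℕ) : ℝ) + 1) + R) := by
      positivity
    linarith
  have hCD : 0 < C ^ F.totalDegree := by positivity
  refine ⟨c / C ^ F.totalDegree, by positivity, fun ξ hξK hξ M hM N => ?_⟩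
  have hM0 : 1 ≤ M := by
    have : 1 ≤ b ^ (l * n) := Nat.one_le_pow _ _ (by omega)
    nlinarith
  refine ⟨fun i => gd b (b ^ (l * n)) M (ξ i / s) N / (2 * (l * n)) - l * n, ?_, fun i => ?_⟩
  · rw [div_mul_eq_mul_div, div_le_iff₀ hCD, mul_comm _ (C ^ F.totalDegree)]
    refine (h ξ hξK hξ N).trans (sum_prod_le F hC1 (fun i => by positivity)
      (fun i => by positivity) fun i => ?_)
    have hg1 := chg_le_gd hb hB hM (fact_dvd (b ^ (l * n))) (le_pow_self hb R) (ξ i / s) N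
    set G := gd b (b ^ (l * n)) M (ξ i / s) N with hG
    have h1 : ((chg b ((R : ℝ) * (ξ i / s)) N : ℕ) : ℝ) ≤ ((R : ℝ) + 1) * ((G : ℝ) + R) := by
      exact_mod_cast hg1
    have h2 : (G : ℝ) ≤ 2 * ((l * n : ℕ) : ℝ) *
        (((G / (2 * (l * n)) - l * n : ℕ) : ℝ) + ((l * n : ℕ) : ℝ) + 1) := by
      have h5 : G < 2 * (l * n) * (G / (2 * (l * n)) + 1) := Nat.lt_mul_div_succ _ (by positivity)
      have h6 : G / (2 * (l * n)) + 1 ≤ (G / (2 * (l * n)) - l * n) + l * n + 1 := by omega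
      have h7 : G ≤ 2 * (l * n) * ((G / (2 * (l * n)) - l * n) + l * n + 1) :=
        h5.le.trans (Nat.mul_le_mul_left _ h6)
      exact_mod_cast h7
    set t : ℝ := ((G / (2 * (l * n)) - l * n : ℕ) : ℝ) with ht
    have ht0 : 0 ≤ t := Nat.cast_nonneg _
    have hR0 : (0 : ℝ) ≤ (R : ℝ) := Nat.cast_nonneg _
    set L : ℝ := ((l * n : ℕ) : ℝ) with hL
    have hL0 : 0 ≤ L := Nat.cast_nonneg _
    have h3 : ((R : ℝ) + 1) * ((G : ℝ) + R) ≤
        ((R : ℝ) + 1) * (2 * L * ((L + 1) * (t + 1)) + R * (t + 1)) := by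
      refine mul_le_mul_of_nonneg_left ?_ (by positivity)
      have h8 : t + L + 1 ≤ (L + 1) * (t + 1) := by nlinarith
      have h9 : 2 * L * (t + L + 1) ≤ 2 * L * ((L + 1) * (t + 1)) :=
        mul_le_mul_of_nonneg_left h8 (by positivity)
      nlinarith
    have h4 : C * (t + 1) =
        ((R : ℝ) + 1) * (2 * L * ((L + 1) * (t + 1)) + R * (t + 1)) + (t + 1) := by
      rw [hCdef]; ring
    rw [h4]
    linarith
  · have h2 := almost_all hb hl hM0 (n := n) (ξ i / s) N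
    set G := gd b (b ^ (l * n)) M (ξ i / s) N with hG
    have hsub : (Icc 1 M).filter (fun m : ℕ => ∃ W < b ^ l,
        occ b l W ((m : ℝ) * (ξ i / s)) N < G / (2 * (l * n)) - l * n) ⊆
        (Icc 1 M).filter (fun m : ℕ => ∃ W < b ^ l,
        2 * (l * n) * (occ b l W ((m : ℝ) * (ξ i / s)) N + l * n) < G) := by
      intro m hm
      rw [mem_filter] at hm ⊢
      obtain ⟨hm1, W, hW, hlt⟩ := hm
      refine ⟨hm1, W, hW, ?_⟩
      have h5 : occ b l W ((m : ℝ) * (ξ i / s)) N + l * n + 1 ≤ G / (2 * (l * n)) := by omega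
      have h6 : 2 * (l * n) * (occ b l W ((m : ℝ) * (ξ i / s)) N + l * n + 1) ≤ G :=
        (Nat.mul_le_mul_left _ h5).trans (Nat.mul_div_le _ _)
      nlinarith
    have hcard := card_le_card hsub
    set T := ((Icc 1 M).filter (fun m : ℕ => ∃ W < b ^ l,
        2 * (l * n) * (occ b l W ((m : ℝ) * (ξ i / s)) N + l * n) < G)).card
    have hb1 : 1 ≤ b ^ l := Nat.one_le_pow _ _ (by omega)
    have h6 : ((b : ℝ) ^ l) ^ n * (T : ℝ) ≤ 8 * (b : ℝ) ^ l * ((b : ℝ) ^ l - 1) ^ n * M := by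
      have h7 : (((b ^ l) ^ n * T : ℕ) : ℝ) ≤ ((8 * b ^ l * (b ^ l - 1) ^ n * M : ℕ) : ℝ) := by
        exact_mod_cast h2
      push_cast [Nat.cast_sub hb1] at h7
      exact h7
    have hbn : (0 : ℝ) < ((b : ℝ) ^ l) ^ n := by positivity
    have h8 : ((b : ℝ) ^ l) ^ n * (T : ℝ) ≤ ((b : ℝ) ^ l) ^ n * (δ * M) := by
      refine h6.trans ?_
      have hM' : (0 : ℝ) ≤ (M : ℝ) := Nat.cast_nonneg M
      nlinarith
    have h9 : (T : ℝ) ≤ δ * M := le_of_mul_le_mul_left h8 hbn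
    exact (by exact_mod_cast hcard : _ ≤ (T : ℝ)).trans h9

/-- for infinitely many `N` all words of length `l` occur at least `c F(N)` times -/
def Often (b l : ℕ) (y : ℝ) (F : ℕ → ℝ) : Prop :=
  ∃ c : ℝ, 0 < c ∧ ∃ᶠ N : ℕ in atTop, ∀ W < b ^ l, c * F N ≤ (occ b l W y N : ℝ)

/-- extension of a word -/
lemma occ_ext {b l l' : ℕ} (hb : 2 ≤ b) (hll : l' ≤ l) {W : ℕ} (y : ℝ) (N : ℕ) :
    occ b l (W * b ^ (l - l')) y N ≤ occ b l' W y N := by
  unfold occ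
  refine card_le_card fun k hk => ?_
  rw [mem_filter] at hk ⊢
  refine ⟨hk.1, ?_⟩
  obtain ⟨r, rfl⟩ := Nat.exists_eq_add_of_le hll
  have e1 : l' + r - l' = r := by omega
  rw [e1] at hk
  have h1 := floor_div_pow hb y (k + l') r
  have e2 : k + l' + r = k + (l' + r) := by ring
  rw [e2] at h1
  rw [← h1]
  set Z := ⌊(b : ℝ) ^ (k + (l' + r)) * y⌋
  have hbz : (0 : ℤ) < (b : ℤ) ^ r := by positivity
  have h2 := Int.emod_add_mul_ediv Z ((b : ℤ) ^ (l' + r))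
  rw [hk.2] at h2
  push_cast at h2
  have h3 : Z = ((W : ℤ) + (b : ℤ) ^ l' * (Z / (b : ℤ) ^ (l' + r))) * (b : ℤ) ^ r := by
    rw [pow_add] at h2 ⊢
    linarith
  have hW : W < b ^ l' ∨ b ^ l' ≤ W := lt_or_ge _ _
  rcases hW with hW | hW
  · rw [h3, Int.mul_ediv_cancel _ hbz.ne', Int.add_mul_emod_self_left]
    exact Int.emod_eq_of_lt (by positivity) (by exact_mod_cast hW)
  · exfalso
    have h4 := Int.emod_lt_of_pos Z (show (0 : ℤ) < (b : ℤ) ^ (l' + r) by positivity)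
    rw [hk.2, pow_add] at h4
    have h5 : W * b ^ r < b ^ l' * b ^ r := by exact_mod_cast h4
    exact absurd (Nat.mul_le_mul_right (b ^ r) hW) (not_le.2 h5)

/-- One of the related numbers has a rational multiple with many words. -/
theorem rel_often {b : ℕ} (hb : 2 ≤ b) {p : ℕ} (hp : p.Prime) (hpb : ¬ p ∣ b)
    {σ : Type} [Fintype σ] [DecidableEq σ] (F : MvPolynomial σ ℤ) (hF0 : F.coeff 0 ≠ 0)
    (ξ : σ → ℝ) (hξ : MvPolynomial.aeval ξ F = 0) {D : ℕ} (hFD : F.totalDegree ≤ D) :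
    ∃ i, ∀ l : ℕ, 1 ≤ l → ∃ m j : ℕ, 1 ≤ m ∧
      Often b l ((m : ℝ) * (ξ i / (p : ℝ) ^ j)) (Fp (1 / D)) := by
  classical
  by_contra hcon
  push Not at hcon
  choose L hL1 hL using hcon
  set l := (univ.sup L) + 1 with hl
  have hle : ∀ i, L i ≤ l := fun i => (le_sup (f := L) (mem_univ i)).trans (Nat.le_succ _)
  obtain ⟨j, M₀, h⟩ := rel_most (l := l) hb (by omega) hp hpb F hF0 (δ := 1 / 2) (by norm_num)
  obtain ⟨K, hK⟩ : ∃ K : ℝ, ∀ i, |ξ i| ≤ K :=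
    ⟨∑ i, |ξ i|, fun i => single_le_sum (f := fun i => |ξ i|) (fun i _ => abs_nonneg _) (mem_univ i)⟩
  obtain ⟨c, hc, h⟩ := h (p ^ j) (pow_ne_zero _ hp.ne_zero) (dvd_refl _) K
  set M := max M₀ 1 with hM
  have hM1 : 1 ≤ M := le_max_right _ _
  -- the degree is positive
  have hD0 : D ≠ 0 := by
    intro h0
    have h1 := MvPolynomial.totalDegree_eq_zero_iff_eq_C.1 (Nat.le_zero.1 (h0 ▸ hFD))
    rw [h1, MvPolynomial.aeval_C] at hξ
    have : ((F.coeff 0 : ℤ) : ℝ) = 0 := by simpa using hξ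
    exact hF0 (by exact_mod_cast this)
  have hcard : 0 < (F.support.card : ℝ) := by
    have : F.support.Nonempty := ⟨0, by rw [MvPolynomial.mem_support_iff]; exact hF0⟩
    exact_mod_cast card_pos.2 this
  set c' : ℝ := (c / F.support.card) ^ (1 / (D : ℝ)) with hc'
  have hc'0 : 0 < c' := by positivity
  have hev : ∀ i, ∀ m ∈ Icc 1 M, ∀ᶠ N : ℕ in atTop, ∃ W < b ^ l,
      (occ b l W ((m : ℝ) * (ξ i / ((p ^ j : ℕ) : ℝ))) N : ℝ) < c' / 2 * Fp (1 / D) N := by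
    intro i m hm
    have h3 := hL i m j (mem_Icc.1 hm).1
    unfold Often at h3
    push Not at h3
    have h4 := h3 (c' / 2) (by positivity)
    filter_upwards [h4] with N hN
    obtain ⟨W, hW, hWN⟩ := hN
    refine ⟨W * b ^ (l - L i), ?_, ?_⟩
    · calc W * b ^ (l - L i) < b ^ L i * b ^ (l - L i) :=
            Nat.mul_lt_mul_of_pos_right hW (by positivity)
        _ = b ^ l := by rw [← pow_add]; congr 1; have := hle i; omega
    · refine lt_of_le_of_lt ?_ hWN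
      rw [Nat.cast_pow]
      exact_mod_cast occ_ext hb (hle i) _ N
  have hev2 : ∀ᶠ N : ℕ in atTop, ∀ i ∈ (univ : Finset σ), ∀ m ∈ Icc 1 M, ∃ W < b ^ l,
      (occ b l W ((m : ℝ) * (ξ i / ((p ^ j : ℕ) : ℝ))) N : ℝ) < c' / 2 * Fp (1 / D) N := by
    refine (Filter.eventually_all_finset univ).2 fun i _ => ?_
    exact (Filter.eventually_all_finset (Icc 1 M)).2 (hev i)
  have hFp := (Fp_tendsto (D := 1 / (D : ℝ)) (by positivity)).eventually_ge_atTop (2 / c')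
  obtain ⟨N, ⟨hN1, hN2⟩, hN3⟩ := ((hev2.and hFp).and (eventually_ge_atTop 1)).exists
  obtain ⟨g, hg1, hg2⟩ := h ξ hK hξ M (le_max_left _ _) N
  -- some g i is large
  have hex : ∃ i, c' / 2 * Fp (1 / D) N ≤ (g i : ℝ) := by
    by_contra hcon2
    push Not at hcon2
    have hNR : (1 : ℝ) ≤ N := by exact_mod_cast hN3
    set T : ℝ := c' * Fp (1 / D) N with hT
    have hFpos : 0 < Fp (1 / D) N := by unfold Fp; positivity
    have hT2 : 2 ≤ T := by
      rw [div_le_iff₀ hc'0] at hN2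
      rw [hT]; linarith
    have hlt : ∀ i, (g i : ℝ) + 1 < T := by
      intro i
      have h5 := hcon2 i
      have h6 : c' / 2 * Fp (1 / D) N = T / 2 := by rw [hT]; ring
      rw [h6] at h5
      linarith
    have h7 : ∑ α ∈ F.support.erase 0, ∏ i, ((g i : ℝ) + 1) ^ α i < F.support.card * T ^ D := by
      have h8 : ∀ α ∈ F.support.erase 0, ∏ i, ((g i : ℝ) + 1) ^ α i ≤ T ^ D := by
        intro α hα
        have h3 := (MvPolynomial.le_totalDegree (mem_of_mem_erase hα)).trans hFD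
        rw [Finsupp.sum_fintype _ _ fun _ => rfl] at h3
        calc ∏ i, ((g i : ℝ) + 1) ^ α i ≤ ∏ i, T ^ α i :=
              prod_le_prod (fun i _ => by positivity)
                fun i _ => pow_le_pow_left₀ (by positivity) (hlt i).le _
          _ = T ^ (∑ i, α i) := prod_pow_eq_pow_sum _ _ _
          _ ≤ T ^ D := pow_le_pow_right₀ (by linarith) h3
      calc ∑ α ∈ F.support.erase 0, ∏ i, ((g i : ℝ) + 1) ^ α i ≤
            ∑ α ∈ F.support.erase 0, T ^ D := sum_le_sum h8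
        _ = (F.support.erase 0).card * T ^ D := by rw [sum_const, nsmul_eq_mul]
        _ < F.support.card * T ^ D := by
            refine mul_lt_mul_of_pos_right ?_ (by positivity)
            have h9 : (F.support.erase 0).card < F.support.card :=
              card_erase_lt_of_mem (by rw [MvPolynomial.mem_support_iff]; exact hF0)
            exact_mod_cast h9
    have h8 : T ^ D = c / F.support.card * N := by
      rw [hT, mul_pow, hc']
      unfold Fp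
      rw [← Real.rpow_natCast, ← Real.rpow_natCast, ← Real.rpow_mul (by positivity),
        ← Real.rpow_mul (by positivity), one_div_mul_cancel (by exact_mod_cast hD0), Real.rpow_one,
        Real.rpow_one]
    rw [h8] at h7
    have h9 : (F.support.card : ℝ) * (c / F.support.card * N) = c * N := by
      field_simp
    rw [h9] at h7
    linarith
  obtain ⟨i, hi⟩ := hex
  have h10 := hg2 i
  have h11 : (Icc 1 M).filter (fun m : ℕ => ∃ W < b ^ l,
      occ b l W ((m : ℝ) * (ξ i / ((p ^ j : ℕ) : ℝ))) N < g i) = Icc 1 M := by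
    refine filter_true_of_mem fun m hm => ?_
    obtain ⟨W, hW, hWN⟩ := hN1 i (mem_univ i) m hm
    exact ⟨W, hW, by exact_mod_cast lt_of_lt_of_le hWN hi⟩
  rw [h11, Nat.card_Icc, Nat.add_sub_cancel] at h10
  have : (1 : ℝ) ≤ M := by exact_mod_cast hM1
  linarith

end Pool.Agent.Run7.h274.WM
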