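import Pool.Agent.Run7.h274.Alg

/-!
Quadratic relations for sparse expansions, with logarithmic dependence on the coefficients.
-/

set_option autoImplicit false

namespace Pool.Agent.Run7.h274.WM

open Finset Filter

/-- the self-convolution -/
def conv (e : ℕ → ℤ) (k : ℕ) : ℤ := ∑ x ∈ antidiagonal k, e x.1 * e x.2

/-- the coefficients of `q (e ^ 2 + 2 A e)` -/
def PP (e : ℕ → ℤ) (q : ℕ) (A : ℤ) (k : ℕ) : ℤ := q * (conv e k + 2 * A * e k)

lemma summable_dig {b : ℕ} (hb : 2 ≤ b) {e : ℕ → ℤ} {B : ℕ} (he : ∀ k, |e k| ≤ B) :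
    Summable fun k : ℕ => ‖(e k : ℝ) / (b : ℝ) ^ k‖ := by
  have hbR : (2 : ℝ) ≤ b := by exact_mod_cast hb
  have hb0 : (0 : ℝ) < b := by linarith
  refine Summable.of_nonneg_of_le (fun k => norm_nonneg _)
    (g := fun k : ℕ => ‖(e k : ℝ) / (b : ℝ) ^ k‖) (f := fun k : ℕ => (B : ℝ) * (1 / (b : ℝ)) ^ k)
    ?_ ?_
  · intro k
    rw [Real.norm_eq_abs, abs_div, abs_of_pos (show (0 : ℝ) < (b : ℝ) ^ k by positivity),
      div_eq_mul_one_div, one_div_pow]
    refine mul_le_mul_of_nonneg_right ?_ (by positivity)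
    exact_mod_cast he k
  · refine Summable.mul_left _ (summable_geometric_of_lt_one (by positivity) ?_)
    rw [div_lt_one hb0]; linarith

lemma hasSum_PP {b : ℕ} (hb : 2 ≤ b) {e : ℕ → ℤ} {B : ℕ} (he : ∀ k, |e k| ≤ B) {u : ℝ}
    (hu : HasSum (fun k : ℕ => (e k : ℝ) / (b : ℝ) ^ k) u) (q : ℕ) (A : ℤ) :
    HasSum (fun k : ℕ => (PP e q A k : ℝ) / (b : ℝ) ^ k) (q * (u ^ 2 + 2 * A * u)) := by
  have hb0 : (b : ℝ) ≠ 0 := by positivity
  have hn := summable_dig hb he
  have h1 := tsum_mul_tsum_eq_tsum_sum_antidiagonal_of_summable_norm hn hn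
  have h2 := (summable_norm_sum_mul_antidiagonal_of_summable_norm hn hn).of_norm
  rw [hu.tsum_eq] at h1
  have h3 := h2.hasSum
  rw [← h1] at h3
  have e1 : ∀ n : ℕ, ∑ kl ∈ antidiagonal n, (e kl.1 : ℝ) / (b : ℝ) ^ kl.1 *
      ((e kl.2 : ℝ) / (b : ℝ) ^ kl.2) = (conv e n : ℝ) / (b : ℝ) ^ n := by
    intro n
    unfold conv
    push_cast
    rw [sum_div]
    refine sum_congr rfl fun x hx => ?_
    rw [HasAntidiagonal.mem_antidiagonal] at hx
    rw [← hx, pow_add]
    field_simp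
  simp only [e1] at h3
  have h4 := ((h3.add (hu.mul_left (2 * (A : ℝ)))).mul_left (q : ℝ))
  have e5 : (fun k : ℕ => (PP e q A k : ℝ) / (b : ℝ) ^ k) =
      fun i : ℕ => (q : ℝ) * ((conv e i : ℝ) / (b : ℝ) ^ i + 2 * (A : ℝ) * ((e i : ℝ) / (b : ℝ) ^ i)) := by
    funext k
    unfold PP
    push_cast
    ring
  have e6 : (q : ℝ) * (u ^ 2 + 2 * A * u) = q * (u * u + 2 * (A : ℝ) * u) := by ring
  rw [e5, e6]
  exact h4

/-- behind every place there is a large coefficient -/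
theorem window {b : ℕ} (hb : 2 ≤ b) {e : ℕ → ℤ} {B : ℕ} (he : ∀ k, |e k| ≤ B) {u : ℝ}
    (hu : HasSum (fun k : ℕ => (e k : ℝ) / (b : ℝ) ^ k) u) {q : ℕ} {A T : ℤ}
    (hrel : (q : ℝ) * (u + A) ^ 2 = T) (hq : ∀ n : ℕ, ¬ (q : ℤ) ∣ T * (b : ℤ) ^ n) (n : ℕ) :
    ∃ k, n < k ∧ (3 / 2 : ℝ) ^ (k - n) < 4 * |(PP e q A k : ℝ)| := by
  by_contra hcon
  push Not at hcon
  have hbR : (2 : ℝ) ≤ b := by exact_mod_cast hb
  have hb0 : (0 : ℝ) < b := by linarith
  have hbn : (0 : ℝ) < (b : ℝ) ^ n := by positivity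
  have h1 := hasSum_PP hb he hu q A
  have h2 := (hasSum_nat_add_iff' (n + 1)).2 h1
  have h3 := h2.mul_left ((b : ℝ) ^ n)
  -- the partial sum
  set I : ℤ := ∑ k ∈ range (n + 1), (conv e k + 2 * A * e k) * (b : ℤ) ^ (n - k) with hI
  have h4 : (b : ℝ) ^ n * ∑ i ∈ range (n + 1), (PP e q A i : ℝ) / (b : ℝ) ^ i = ((q * I : ℤ) : ℝ) := by
    rw [hI, mul_sum, mul_sum]
    push_cast
    refine sum_congr rfl fun k hk => ?_
    have hk' : k ≤ n := Nat.lt_succ_iff.1 (mem_range.1 hk)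
    have e2 : (b : ℝ) ^ n = (b : ℝ) ^ (n - k) * (b : ℝ) ^ k := by rw [← pow_add]; congr 1; omega
    unfold PP
    rw [e2]
    push_cast
    field_simp
  have h5 : (b : ℝ) ^ n * (q * (u ^ 2 + 2 * A * u)) =
      ((T * (b : ℤ) ^ n - q * A ^ 2 * (b : ℤ) ^ n : ℤ) : ℝ) := by
    push_cast
    rw [← hrel]
    ring
  have h6 : (b : ℝ) ^ n * (q * (u ^ 2 + 2 * A * u) - ∑ i ∈ range (n + 1), (PP e q A i : ℝ) / (b : ℝ) ^ i) =
      ((T * (b : ℤ) ^ n - q * (A ^ 2 * (b : ℤ) ^ n + I) : ℤ) : ℝ) := by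
    rw [mul_sub, h4, h5]
    push_cast
    ring
  rw [h6] at h3
  have hne : T * (b : ℤ) ^ n - q * (A ^ 2 * (b : ℤ) ^ n + I) ≠ 0 := by
    intro h0
    refine hq n ⟨A ^ 2 * (b : ℤ) ^ n + I, by linarith⟩
  have hge : (1 : ℝ) ≤ ‖((T * (b : ℤ) ^ n - q * (A ^ 2 * (b : ℤ) ^ n + I) : ℤ) : ℝ)‖ := by
    rw [Real.norm_eq_abs, ← Int.cast_abs]
    exact_mod_cast Int.one_le_abs hne
  have hgeo : HasSum (fun i : ℕ => (1 / 4 : ℝ) * ((3 / 4) * (3 / 4 : ℝ) ^ i)) (1 / 4 * ((3 / 4) * 4)) := by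
    have h7 := hasSum_geometric_of_lt_one (show (0 : ℝ) ≤ 3 / 4 by norm_num) (by norm_num)
    have h8 : ((1 : ℝ) - 3 / 4)⁻¹ = 4 := by norm_num
    rw [h8] at h7
    exact (h7.mul_left (3 / 4)).mul_left (1 / 4)
  have hle := HasSum.norm_le_of_bounded h3 hgeo (fun i => by
    have h9 := hcon (i + (n + 1)) (by omega)
    have e3 : i + (n + 1) - n = i + 1 := by omega
    rw [e3] at h9
    rw [Real.norm_eq_abs, abs_mul, abs_of_pos hbn, abs_div,
      abs_of_pos (show (0 : ℝ) < (b : ℝ) ^ (i + (n + 1)) by positivity)]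
    have e4 : (b : ℝ) ^ n * (|(PP e q A (i + (n + 1)) : ℝ)| / (b : ℝ) ^ (i + (n + 1))) =
        |(PP e q A (i + (n + 1)) : ℝ)| / (b : ℝ) ^ (i + 1) := by
      have e5 : (b : ℝ) ^ (i + (n + 1)) = (b : ℝ) ^ (i + 1) * (b : ℝ) ^ n := by
        rw [← pow_add]; congr 1; omega
      rw [e5]
      field_simp
    rw [e4, div_le_iff₀ (by positivity)]
    have h10 : (2 : ℝ) ^ (i + 1) ≤ (b : ℝ) ^ (i + 1) := pow_le_pow_left₀ (by norm_num) hbR _
    calc |(PP e q A (i + (n + 1)) : ℝ)| ≤ 1 / 4 * (3 / 2) ^ (i + 1) := by linarith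
      _ = 1 / 4 * (3 / 4 * (3 / 4) ^ i) * 2 ^ (i + 1) := by
          rw [← pow_succ', mul_assoc, ← mul_pow]; norm_num
      _ ≤ 1 / 4 * (3 / 4 * (3 / 4) ^ i) * (b : ℝ) ^ (i + 1) := by gcongr)
  have : (1 : ℝ) / 4 * (3 / 4 * 4) < 1 := by norm_num
  linarith

open Classical in
/-- the pairs of nonzero coefficients -/
noncomputable def rr (e : ℕ → ℤ) (k : ℕ) : ℕ := #{x ∈ antidiagonal k | e x.1 ≠ 0 ∧ e x.2 ≠ 0}

open Classical in
/-- number of nonzero coefficients up to `K` -/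
noncomputable def nz (e : ℕ → ℤ) (K : ℕ) : ℕ := #{i ∈ range (K + 1) | e i ≠ 0}

lemma conv_le {e : ℕ → ℤ} {B : ℕ} (he : ∀ k, |e k| ≤ B) (k : ℕ) : |conv e k| ≤ B ^ 2 * rr e k := by
  classical
  unfold conv rr
  have h1 : ∑ x ∈ antidiagonal k, e x.1 * e x.2 =
      ∑ x ∈ (antidiagonal k).filter (fun x => e x.1 ≠ 0 ∧ e x.2 ≠ 0), e x.1 * e x.2 := by
    rw [sum_filter]
    refine sum_congr rfl fun x _ => ?_
    by_cases h : e x.1 ≠ 0 ∧ e x.2 ≠ 0
    · rw [if_pos h]
    · rw [if_neg h]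
      rw [not_and_or, not_not, not_not] at h
      rcases h with h | h
      · rw [h, zero_mul]
      · rw [h, mul_zero]
  rw [h1]
  refine (abs_sum_le_sum_abs _ _).trans ?_
  calc ∑ x ∈ (antidiagonal k).filter (fun x => e x.1 ≠ 0 ∧ e x.2 ≠ 0), |e x.1 * e x.2|
      ≤ ∑ x ∈ (antidiagonal k).filter (fun x => e x.1 ≠ 0 ∧ e x.2 ≠ 0), (B : ℤ) ^ 2 := by
        refine sum_le_sum fun x _ => ?_
        rw [abs_mul, pow_two]
        exact mul_le_mul (he _) (he _) (abs_nonneg _) (Nat.cast_nonneg B)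
    _ = _ := by rw [sum_const, nsmul_eq_mul, mul_comm]

lemma sum_rr_le (e : ℕ → ℤ) (K : ℕ) : ∑ k ∈ range (K + 1), rr e k ≤ nz e K ^ 2 := by
  classical
  unfold rr nz
  set S := (range (K + 1)).filter (fun i => e i ≠ 0) with hS
  have h1 : ∀ k ∈ range (K + 1), #{x ∈ antidiagonal k | e x.1 ≠ 0 ∧ e x.2 ≠ 0} ≤
      #(((S ×ˢ S).filter (fun x => x.1 + x.2 ∈ range (K + 1))).filter (fun x => x.1 + x.2 = k)) := by
    intro k hk
    refine card_le_card fun x hx => ?_
    rw [mem_range] at hk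
    rw [mem_filter, HasAntidiagonal.mem_antidiagonal] at hx
    obtain ⟨h2, h3, h4⟩ := hx
    rw [mem_filter, mem_filter, mem_product, hS, mem_filter, mem_filter, mem_range, mem_range,
      mem_range]
    exact ⟨⟨⟨⟨by omega, h3⟩, ⟨by omega, h4⟩⟩, by omega⟩, h2⟩
  refine (sum_le_sum h1).trans ?_
  rw [← card_eq_sum_card_fiberwise (fun x hx => by
    simp only [coe_filter, Set.mem_ofPred_eq] at hx
    exact hx.2)]
  refine (card_filter_le _ _).trans ?_
  rw [card_product, pow_two]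

/-- the counting inequality -/
theorem count {b : ℕ} (hb : 2 ≤ b) {e : ℕ → ℤ} {B : ℕ} (hB : 1 ≤ B) (he : ∀ k, |e k| ≤ B) {u : ℝ}
    (hu : HasSum (fun k : ℕ => (e k : ℝ) / (b : ℝ) ^ k) u) {q : ℕ} (hq1 : 1 ≤ q) {A T : ℤ}
    (hrel : (q : ℝ) * (u + A) ^ 2 = T) (hq : ∀ n : ℕ, ¬ (q : ℤ) ∣ T * (b : ℤ) ^ n)
    {N K : ℕ} (hK : ∀ n < N, ∀ k, K < k → 4 * |(PP e q A k : ℝ)| ≤ (3 / 2 : ℝ) ^ (k - n)) :
    (N : ℝ) * Real.log (3 / 2) ≤ (nz e K : ℝ) ^ 2 * (Real.log (4 * q * B ^ 2) + 1) +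
      nz e K * Real.log (4 * q * (B ^ 2 + 2 * |(A : ℝ)| * B)) := by
  classical
  have hBR : (1 : ℝ) ≤ B := by exact_mod_cast hB
  have hqR : (1 : ℝ) ≤ q := by exact_mod_cast hq1
  set L1 : ℝ := Real.log (4 * q * B ^ 2) with hL1
  set L2 : ℝ := Real.log (4 * q * (B ^ 2 + 2 * |(A : ℝ)| * B)) with hL2
  have hB2 : (1 : ℝ) ≤ (B : ℝ) ^ 2 := one_le_pow₀ hBR
  have hL10 : 0 ≤ L1 := Real.log_nonneg (by nlinarith)
  have hAB : 0 ≤ 2 * |(A : ℝ)| * B := by positivity
  have hL20 : 0 ≤ L2 := Real.log_nonneg (by nlinarith)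
  have hl32 : 0 < Real.log (3 / 2) := Real.log_pos (by norm_num)
  choose f hf1 hf2 using window hb he hu hrel hq
  have hfK : ∀ n < N, f n ∈ range (K + 1) := by
    intro n hn
    rw [mem_range]
    by_contra hcon
    have := hK n hn (f n) (by omega)
    exact absurd (hf2 n) (not_lt.2 this)
  set w : ℕ → ℝ := fun k => (if e k ≠ 0 then L2 else 0) + (if 1 ≤ rr e k then L1 else 0) + rr e k
    with hw
  -- the bound of the logarithm
  have hlog : ∀ k, PP e q A k ≠ 0 → Real.log (4 * |(PP e q A k : ℝ)|) ≤ w k := by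
    intro k hk
    have hPpos : 0 < |(PP e q A k : ℝ)| := by
      rw [abs_pos]; exact_mod_cast hk
    have hc : |(conv e k : ℝ)| ≤ (B : ℝ) ^ 2 * rr e k := by
      have := conv_le he k
      rw [← Int.cast_abs]
      exact_mod_cast this
    have hr0 : (0 : ℝ) ≤ rr e k := Nat.cast_nonneg _
    simp only [hw]
    by_cases h0 : e k = 0
    · have hP : |(PP e q A k : ℝ)| ≤ q * ((B : ℝ) ^ 2 * rr e k) := by
        unfold PP
        rw [h0]
        push_cast
        rw [mul_zero, add_zero, abs_mul, Nat.abs_cast]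
        exact mul_le_mul_of_nonneg_left hc (by positivity)
      have hr1 : 1 ≤ rr e k := by
        by_contra h
        have h' : rr e k = 0 := by omega
        rw [h'] at hP
        simp only [Nat.cast_zero, mul_zero] at hP
        linarith
      have hr1R : (1 : ℝ) ≤ rr e k := by exact_mod_cast hr1
      rw [if_neg (not_not.2 h0), if_pos hr1]
      have h1 : Real.log (4 * |(PP e q A k : ℝ)|) ≤ Real.log (4 * q * B ^ 2 * rr e k) := by
        refine Real.log_le_log (by positivity) ?_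
        calc 4 * |(PP e q A k : ℝ)| ≤ 4 * (q * ((B : ℝ) ^ 2 * rr e k)) := by linarith
          _ = _ := by ring
      have e7 : Real.log (4 * (q : ℝ) * B ^ 2 * rr e k) = L1 + Real.log (rr e k) :=
        Real.log_mul (by positivity) (by positivity)
      rw [e7] at h1
      have h2 : Real.log (rr e k) ≤ rr e k := by
        have := Real.log_le_sub_one_of_pos (show (0 : ℝ) < rr e k by linarith)
        linarith
      linarith
    · have hek : |(e k : ℝ)| ≤ B := by
        rw [← Int.cast_abs]; exact_mod_cast he k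
      have hP : |(PP e q A k : ℝ)| ≤ q * ((B ^ 2 + 2 * |(A : ℝ)| * B) * (rr e k + 1)) := by
        unfold PP
        push_cast
        rw [abs_mul, Nat.abs_cast]
        refine mul_le_mul_of_nonneg_left ?_ (by positivity)
        refine (abs_add_le _ _).trans ?_
        have h3 : |2 * (A : ℝ) * (e k : ℝ)| ≤ 2 * |(A : ℝ)| * B := by
          rw [abs_mul, abs_mul, abs_two]
          exact mul_le_mul_of_nonneg_left hek (by positivity)
        nlinarith
      rw [if_pos h0]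
      have h1 : Real.log (4 * |(PP e q A k : ℝ)|) ≤
          Real.log (4 * q * (B ^ 2 + 2 * |(A : ℝ)| * B) * (rr e k + 1)) := by
        refine Real.log_le_log (by positivity) ?_
        calc 4 * |(PP e q A k : ℝ)| ≤ 4 * (q * ((B ^ 2 + 2 * |(A : ℝ)| * B) * (rr e k + 1))) := by
              linarith
          _ = _ := by ring
      have e7 : Real.log (4 * (q : ℝ) * (B ^ 2 + 2 * |(A : ℝ)| * B) * (rr e k + 1)) =
          L2 + Real.log (rr e k + 1) := Real.log_mul (by positivity) (by positivity)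
      rw [e7] at h1
      have h2 : Real.log ((rr e k : ℝ) + 1) ≤ rr e k := by
        have := Real.log_le_sub_one_of_pos (show (0 : ℝ) < (rr e k : ℝ) + 1 by linarith)
        linarith
      have h3 : 0 ≤ (if 1 ≤ rr e k then L1 else 0) := by split_ifs <;> linarith
      linarith
  have hw0 : ∀ k, 0 ≤ w k := by
    intro k
    simp only [hw]
    have h1 : 0 ≤ (if e k ≠ 0 then L2 else 0) := by split_ifs <;> linarith
    have h2 : 0 ≤ (if 1 ≤ rr e k then L1 else 0) := by split_ifs <;> linarith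
    have h3 : (0 : ℝ) ≤ rr e k := Nat.cast_nonneg _
    linarith
  -- the number of `n` with the same `k`
  have hfib : ∀ k ∈ range (K + 1),
      ((#{n ∈ range N | f n = k} : ℕ) : ℝ) * Real.log (3 / 2) ≤ w k := by
    intro k _
    rcases ((range N).filter (fun n => f n = k)).eq_empty_or_nonempty with h0 | h0
    · rw [h0, card_empty, Nat.cast_zero, zero_mul]
      exact hw0 k
    · set F := (range N).filter (fun n => f n = k) with hF
      set n₀ := F.min' h0 with hn₀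
      have hmem : n₀ ∈ F := min'_mem _ _
      have h1 : f n₀ = k := (mem_filter.1 hmem).2
      have h2 := hf1 n₀
      have h3 := hf2 n₀
      rw [h1] at h2 h3
      have hsub : F ⊆ Ico n₀ k := by
        intro n hn
        rw [mem_Ico]
        refine ⟨min'_le _ _ hn, ?_⟩
        have := hf1 n
        rw [(mem_filter.1 hn).2] at this
        exact this
      have h4 : F.card ≤ k - n₀ := by
        have := card_le_card hsub
        rwa [Nat.card_Ico] at this
      have hP0 : PP e q A k ≠ 0 := by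
        intro h
        rw [h] at h3
        simp only [Int.cast_zero, abs_zero, mul_zero] at h3
        have : (0 : ℝ) < (3 / 2 : ℝ) ^ (k - n₀) := by positivity
        linarith
      have h5 := Real.log_lt_log (by positivity) h3
      rw [Real.log_pow] at h5
      have h6 : (F.card : ℝ) * Real.log (3 / 2) ≤ ((k - n₀ : ℕ) : ℝ) * Real.log (3 / 2) :=
        mul_le_mul_of_nonneg_right (by exact_mod_cast h4) hl32.le
      exact h6.trans (h5.le.trans (hlog k hP0))
  have hcount : (N : ℝ) * Real.log (3 / 2) ≤ ∑ k ∈ range (K + 1), w k := by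
    have h1 : N = ∑ k ∈ range (K + 1), #{n ∈ range N | f n = k} := by
      conv_lhs => rw [← card_range N]
      exact card_eq_sum_card_fiberwise fun n hn => by
        simp only [coe_range, Set.mem_Iio] at hn
        exact hfK n hn
    calc (N : ℝ) * Real.log (3 / 2)
        = ∑ k ∈ range (K + 1), ((#{n ∈ range N | f n = k} : ℕ) : ℝ) * Real.log (3 / 2) := by
          rw [← sum_mul]
          congr 1
          exact_mod_cast h1
      _ ≤ _ := sum_le_sum hfib
  refine hcount.trans ?_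
  simp only [hw]
  rw [sum_add_distrib, sum_add_distrib]
  have h1 : ∑ k ∈ range (K + 1), (if e k ≠ 0 then L2 else 0) = nz e K * L2 := by
    rw [← sum_filter, sum_const, nsmul_eq_mul]
    rfl
  have hrr : ((∑ k ∈ range (K + 1), rr e k : ℕ) : ℝ) ≤ (nz e K : ℝ) ^ 2 := by
    exact_mod_cast sum_rr_le e K
  push_cast at hrr
  have h2 : ∑ k ∈ range (K + 1), (if 1 ≤ rr e k then L1 else 0) ≤ (nz e K : ℝ) ^ 2 * L1 := by
    calc ∑ k ∈ range (K + 1), (if 1 ≤ rr e k then L1 else 0)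
        ≤ ∑ k ∈ range (K + 1), (rr e k : ℝ) * L1 := by
          refine sum_le_sum fun k _ => ?_
          split_ifs with h
          · have : (1 : ℝ) ≤ rr e k := by exact_mod_cast h
            nlinarith
          · positivity
      _ = (∑ k ∈ range (K + 1), (rr e k : ℝ)) * L1 := by rw [sum_mul]
      _ ≤ _ := mul_le_mul_of_nonneg_right hrr hL10
  rw [h1]
  nlinarith

end Pool.Agent.Run7.h274.WM
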