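import Pool.Agent.Run7.h274.SqrtTwoB

/-!
The number of good places of `√D / p ^ j` in base `b`, with an explicit bound which is uniform in all
parameters.
-/

set_option autoImplicit false

namespace Pool.Agent.Run7.h274.WM

open Finset Filter

lemma not_dvd_gen {b n D p j R : ℕ} (hp : p.Prime) (hpb : ¬ p ∣ b) (hD : ¬ p ^ 2 ∣ D)
    (hR : ¬ p ^ j ∣ R * (b - 1)) :
    ¬ (((p ^ (2 * j) : ℕ) : ℤ)) ∣ ((D * (R * (b - 1)) ^ 2 : ℕ) : ℤ) * ((b : ℕ) : ℤ) ^ n := by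
  intro h
  have h1 : p ^ (2 * j) ∣ D * (R * (b - 1)) ^ 2 * b ^ n := by exact_mod_cast h
  have hco : Nat.Coprime (p ^ (2 * j)) (b ^ n) :=
    Nat.Coprime.pow _ _ ((Nat.Prime.coprime_iff_not_dvd hp).2 hpb)
  have h2 : p ^ (2 * j) ∣ D * (R * (b - 1)) ^ 2 := hco.dvd_of_dvd_mul_right h1
  set E := R * (b - 1) with hE
  have hE0 : E ≠ 0 := by
    rintro h0
    rw [h0] at hR
    exact hR (dvd_zero _)
  have hD0 : D ≠ 0 := by
    rintro rfl
    exact hD (dvd_zero _)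
  have h3 : 2 * j ≤ (D * E ^ 2).factorization p :=
    (hp.pow_dvd_iff_le_factorization (mul_ne_zero hD0 (pow_ne_zero _ hE0))).1 h2
  rw [Nat.factorization_mul hD0 (pow_ne_zero _ hE0), Nat.factorization_pow] at h3
  simp only [Finsupp.coe_add, Finsupp.coe_smul, Pi.add_apply, Pi.smul_apply, smul_eq_mul] at h3
  have h4 : D.factorization p < 2 := by
    by_contra hcon
    push Not at hcon
    exact hD ((hp.pow_dvd_iff_le_factorization hD0).2 hcon)
  have h5 : ¬ j ≤ E.factorization p := fun hle => hR ((hp.pow_dvd_iff_le_factorization hE0).2 hle)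
  omega

lemma not_dvd_lcm {b p j P : ℕ} (hp : p.Prime) (hb : 2 ≤ b) (hP : 1 ≤ P)
    (hj : 4 * (b - 1) * P < p ^ j) : ¬ p ^ j ∣ Nat.lcmUpto (4 * P) * (b - 1) := by
  intro h
  have hR0 : Nat.lcmUpto (4 * P) ≠ 0 := Nat.lcmUpto_ne_zero _
  have hb0 : b - 1 ≠ 0 := by omega
  have h1 : j ≤ (Nat.lcmUpto (4 * P) * (b - 1)).factorization p :=
    (hp.pow_dvd_iff_le_factorization (mul_ne_zero hR0 hb0)).1 h
  rw [Nat.factorization_mul hR0 hb0] at h1
  simp only [Finsupp.coe_add, Pi.add_apply] at h1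
  rw [Nat.factorization_lcmUpto _ hp] at h1
  have h2 : p ^ j ≤ p ^ (Nat.log p (4 * P)) * p ^ ((b - 1).factorization p) := by
    rw [← pow_add]
    exact Nat.pow_le_pow_right hp.pos h1
  have h3 : p ^ (Nat.log p (4 * P)) ≤ 4 * P := Nat.pow_log_le_self p (by positivity)
  have h4 : p ^ ((b - 1).factorization p) ≤ b - 1 :=
    Nat.le_of_dvd (by omega) (Nat.ordProj_dvd _ _)
  have h5 : p ^ j ≤ (4 * P) * (b - 1) := h2.trans (Nat.mul_le_mul h3 h4)
  nlinarith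

lemma final_est2 {X j P N N1 : ℝ} (hjR : 1 ≤ j) (hPR : 2 ≤ P) (hNR : 20000 * (P * P + j) ≤ N)
    (hN1R : N ≤ 2 * N1 + 32 * P + 1) (hX1 : 1 ≤ X)
    (h1 : 2 / 5 * N1 ≤ 5 * j * X ^ 2 + X * (24 * P + 5 * j)) : √(N / j) ≤ 10 * (X - 1) := by
  obtain ⟨s, hs⟩ : ∃ s, s = √(N / j) := ⟨_, rfl⟩
  rw [← hs]
  have hj0 : 0 < j := by linarith
  have hNpos : 0 < N := by nlinarith
  have hs2' : s ^ 2 = N / j := by rw [hs]; exact Real.sq_sqrt (by positivity)
  have hsN : s ^ 2 * j = N := by rw [hs2']; field_simp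
  have hs0' : 0 ≤ s := by rw [hs]; exact Real.sqrt_nonneg _
  clear hs
  have hsge : 100 ≤ s := by
    have h2 : (100 : ℝ) ^ 2 ≤ s ^ 2 := by
      rw [hs2', le_div_iff₀ hj0]
      nlinarith
    exact (abs_le_of_sq_le_sq' h2 hs0').2
  have hsj : 100 * (s * j) ≤ N := by
    have h2 : (100 * (s * j)) ^ 2 ≤ N ^ 2 := by
      calc (100 * (s * j)) ^ 2 = 10000 * (s ^ 2 * j) * j := by ring
        _ = 10000 * j * N := by rw [hsN]; ring
        _ ≤ N * N := by nlinarith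
        _ = N ^ 2 := by ring
    exact (abs_le_of_sq_le_sq' h2 hNpos.le).2
  have hsP : 100 * (s * P) ≤ N := by
    have h2 : (100 * (s * P)) ^ 2 ≤ N ^ 2 := by
      have h3 : s ^ 2 ≤ N := by
        rw [← hsN]; nlinarith [sq_nonneg s]
      calc (100 * (s * P)) ^ 2 = 10000 * s ^ 2 * (P * P) := by ring
        _ ≤ 10000 * N * (P * P) := by gcongr
        _ ≤ N * N := by nlinarith
        _ = N ^ 2 := by ring
    exact (abs_le_of_sq_le_sq' h2 hNpos.le).2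
  by_contra hcon
  push Not at hcon
  have hXs : X ≤ 11 / 100 * s := by linarith
  have h2 : X ^ 2 ≤ (11 / 100 * s) ^ 2 := pow_le_pow_left₀ (by linarith) hXs 2
  have h3 : 5 * j * X ^ 2 ≤ 605 / 10000 * N := by
    calc 5 * j * X ^ 2 ≤ 5 * j * (11 / 100 * s) ^ 2 := by gcongr
      _ = 605 / 10000 * (s ^ 2 * j) := by ring
      _ = 605 / 10000 * N := by rw [hsN]
  have h4 : X * (24 * P + 5 * j) ≤ 11 / 100 * s * (24 * P + 5 * j) :=
    mul_le_mul_of_nonneg_right hXs (by positivity)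
  have h5 : 11 / 100 * s * (24 * P + 5 * j) ≤ 4 / 100 * N := by
    calc 11 / 100 * s * (24 * P + 5 * j) = 264 / 10000 * (100 * (s * P)) + 55 / 10000 * (100 * (s * j)) := by
          ring
      _ ≤ 264 / 10000 * N + 55 / 10000 * N := by gcongr
      _ ≤ 4 / 100 * N := by nlinarith
  nlinarith

/-- **Good places of `√D / p ^ j`.** -/
theorem sqrt_gd {b l p j D N M : ℕ} (hb : 2 ≤ b) (hl : 1 ≤ l) (hp : p.Prime) (hpb : ¬ p ∣ b)
    (hD : ¬ p ^ 2 ∣ D) (hj : 4 * (b - 1) * b ^ l < p ^ j)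
    (hN : 20000 * ((b : ℝ) ^ (2 * l) + (j * Real.log p + Real.log D)) ≤ N)
    (hM : 4 * (b + 1) * b ^ l ≤ M) :
    √((N : ℝ) / (j * Real.log p + Real.log D)) ≤
      400 * (b : ℝ) ^ l * (gd b (b ^ l) M (√D / p ^ j) N : ℝ) := by
  have hD0 : D ≠ 0 := by
    rintro rfl
    exact hD (dvd_zero _)
  have hD1 : (1 : ℝ) ≤ D := by exact_mod_cast Nat.one_le_iff_ne_zero.2 hD0
  have hlD : 0 ≤ Real.log D := Real.log_nonneg hD1
  have hbR : (2 : ℝ) ≤ b := by exact_mod_cast hb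
  have hbP : b ≤ b ^ l := Nat.le_self_pow (by omega) b
  have h4l : (b : ℝ) ^ (2 * l) = (b : ℝ) ^ l * (b : ℝ) ^ l := by rw [two_mul, pow_add]
  obtain ⟨P, hP⟩ : ∃ P : ℕ, P = b ^ l := ⟨_, rfl⟩
  rw [← hP] at hj hM hbP ⊢
  have hPcast : (b : ℝ) ^ l = (P : ℝ) := by rw [hP]; push_cast; rfl
  rw [h4l, hPcast] at hN
  rw [hPcast]
  have hP2 : 2 ≤ P := by omega
  set R := Nat.lcmUpto (4 * P) with hR
  have hR0 : R ≠ 0 := Nat.lcmUpto_ne_zero _
  have hR1 : (1 : ℝ) ≤ R := by exact_mod_cast Nat.one_le_iff_ne_zero.2 hR0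
  have hPR : (2 : ℝ) ≤ P := by exact_mod_cast hP2
  have hlog2a := Real.log_two_gt_d9
  have hlog2b := Real.log_two_lt_d9
  have hlog4 : Real.log 4 = 2 * Real.log 2 := by
    rw [show (4 : ℝ) = 2 ^ 2 by norm_num, Real.log_pow]; norm_num
  have hp2 : (2 : ℝ) ≤ p := by exact_mod_cast hp.two_le
  have hp0 : (0 : ℝ) < p := by linarith
  -- the logarithm of `p ^ j`
  have hlamb : 2 * Real.log b + Real.log 2 ≤ j * Real.log p := by
    have h1 : 2 * b * b ≤ p ^ j := by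
      have h2 : b ≤ 2 * (b - 1) := by omega
      calc 2 * b * b ≤ 2 * (2 * (b - 1)) * P := Nat.mul_le_mul (Nat.mul_le_mul_left 2 h2) hbP
        _ = 4 * (b - 1) * P := by ring
        _ ≤ p ^ j := hj.le
    have h2 : (2 : ℝ) * b * b ≤ (p : ℝ) ^ j := by exact_mod_cast h1
    have h3 := Real.log_le_log (by positivity) h2
    rw [Real.log_mul (by positivity) (by positivity), Real.log_mul (by norm_num) (by positivity),
      Real.log_pow] at h3
    linarith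
  have hlogb : Real.log 2 ≤ Real.log b := Real.log_le_log (by norm_num) hbR
  set lam : ℝ := j * Real.log p with hlam
  set Lam : ℝ := lam + Real.log D with hLam
  have hlam2 : (2 : ℝ) ≤ lam := by linarith
  have hLam1 : (1 : ℝ) ≤ Lam := by linarith
  have hlogR : Real.log R ≤ (Real.log 4 + 4) * (4 * P) := by
    have := log_lcm_le (4 * P)
    push_cast at this
    exact this
  set h : ℕ := 32 * P with hh
  have hRh : R ≤ b ^ h := by
    have h1 : Real.log R ≤ Real.log ((2 : ℝ) ^ h) := by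
      rw [Real.log_pow, hh]
      push_cast
      refine hlogR.trans ?_
      rw [hlog4]
      nlinarith
    have h2 := (Real.log_le_log_iff (by linarith) (by positivity)).1 h1
    have h3 : R ≤ 2 ^ h := by exact_mod_cast h2
    exact h3.trans (Nat.pow_le_pow_left hb h)
  have hRd : ∀ q, 1 ≤ q → q < 4 * P → q ∣ R := by
    intro q h1 h2
    rw [hR]
    unfold Nat.lcmUpto
    exact Finset.dvd_lcm (mem_Icc.2 ⟨h1, h2.le⟩)
  have hN32 : 32 * P ≤ N := by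
    have h1 : (32 : ℝ) * P ≤ N := by nlinarith
    exact_mod_cast h1
  set N1 : ℕ := (N - h) / 2 with hN1
  have hN1a : 2 * N1 + h ≤ N := by omega
  have hN1b : N ≤ 2 * N1 + h + 1 := by omega
  set x : ℝ := √(D : ℝ) / (p : ℝ) ^ j with hx
  set y : ℝ := (R : ℝ) * x with hy
  have hs2 : √(D : ℝ) ^ 2 = D := Real.sq_sqrt (by linarith)
  have hpj : (0 : ℝ) < (p : ℝ) ^ j := by positivity
  have hpj1 : (1 : ℝ) ≤ (p : ℝ) ^ j := one_le_pow₀ (by linarith)
  have hbm : (((b - 1 : ℕ)) : ℝ) = (b : ℝ) - 1 := by rw [Nat.cast_sub (by omega)]; simp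
  have hrel : ((p ^ (2 * j) : ℕ) : ℝ) * (((b : ℝ) - 1) * y) ^ 2 =
      ((((D * (R * (b - 1)) ^ 2 : ℕ)) : ℤ) : ℝ) := by
    rw [hy, hx, Int.cast_natCast]
    push_cast
    rw [hbm]
    have e1 : ((b : ℝ) - 1) * (R * (√(D : ℝ) / (p : ℝ) ^ j)) = R * ((b : ℝ) - 1) * √(D : ℝ) / (p : ℝ) ^ j := by ring
    rw [e1, div_pow, mul_pow, hs2, ← pow_mul, mul_comm j 2]
    field_simp
  have hq1 : 1 ≤ p ^ (2 * j) := Nat.one_le_pow _ _ hp.pos
  -- the size of `y`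
  have hs0 : 0 ≤ √(D : ℝ) := Real.sqrt_nonneg _
  have hsD : √(D : ℝ) ≤ D := by
    rw [Real.sqrt_le_left (by linarith)]
    nlinarith
  have hy0 : 0 ≤ y := by positivity
  have hy1 : y ≤ R * D := by
    rw [hy, hx]
    have : √(D : ℝ) / (p : ℝ) ^ j ≤ D := by
      rw [div_le_iff₀ hpj]; nlinarith
    exact mul_le_mul_of_nonneg_left this (by linarith)
  set Z : ℝ := 12 * (p : ℝ) ^ (2 * j) * (b : ℝ) ^ 2 * R * D with hZdef
  have hp2j : (0 : ℝ) < (p : ℝ) ^ (2 * j) := by positivity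
  have hZ : 4 * ((p ^ (2 * j) : ℕ) : ℝ) * (((b - 1 : ℕ) : ℝ) ^ 2 +
      2 * |((((b - 1 : ℕ) : ℤ) * ⌊y⌋ : ℤ) : ℝ)| * ((b - 1 : ℕ) : ℝ)) ≤ Z := by
    have hfl0 : (0 : ℝ) ≤ (⌊y⌋ : ℝ) := by exact_mod_cast Int.floor_nonneg.2 hy0
    have hfl1 : (⌊y⌋ : ℝ) ≤ y := Int.floor_le y
    push_cast
    rw [hbm, abs_mul, abs_of_nonneg (show (0 : ℝ) ≤ (b : ℝ) - 1 by linarith), abs_of_nonneg hfl0, hZdef]
    have h1 : 1 + 2 * (⌊y⌋ : ℝ) ≤ 3 * (R * D) := by
      have : (1 : ℝ) ≤ R * D := by nlinarith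
      linarith
    have h2 : ((b : ℝ) - 1) ^ 2 ≤ (b : ℝ) ^ 2 := pow_le_pow_left₀ (by linarith) (by linarith) 2
    have h3 : ((b : ℝ) - 1) ^ 2 * (1 + 2 * (⌊y⌋ : ℝ)) ≤ (b : ℝ) ^ 2 * (3 * (R * D)) :=
      mul_le_mul h2 h1 (by positivity) (by positivity)
    calc 4 * (p : ℝ) ^ (2 * j) * (((b : ℝ) - 1) ^ 2 + 2 * (((b : ℝ) - 1) * (⌊y⌋ : ℝ)) * ((b : ℝ) - 1))
        = 4 * (p : ℝ) ^ (2 * j) * (((b : ℝ) - 1) ^ 2 * (1 + 2 * (⌊y⌋ : ℝ))) := by ring
      _ ≤ 4 * (p : ℝ) ^ (2 * j) * ((b : ℝ) ^ 2 * (3 * (R * D))) :=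
          mul_le_mul_of_nonneg_left h3 (by positivity)
      _ = 12 * (p : ℝ) ^ (2 * j) * (b : ℝ) ^ 2 * R * D := by ring
  have hlogZ : Real.log Z ≤ 24 * P + 5 * Lam := by
    have e1 : Z = 12 * (p : ℝ) ^ (2 * j) * (b : ℝ) ^ 2 * R * D := rfl
    rw [e1, Real.log_mul (by positivity) (by positivity), Real.log_mul (by positivity) (by positivity),
      Real.log_mul (by positivity) (by positivity), Real.log_mul (by norm_num) (by positivity),
      Real.log_pow, Real.log_pow]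
    have h12 : Real.log 12 ≤ 2.5 := by
      have e2 : Real.log 12 = 1 / 2 * Real.log (12 ^ 2) := by
        rw [Real.log_pow]; push_cast; ring
      have e3 : Real.log ((12 : ℝ) ^ 2) ≤ 5 := by
        rw [Real.log_le_iff_le_exp (by norm_num)]
        have h3 := Real.exp_one_gt_d9
        have h4 : Real.exp 5 = Real.exp 1 ^ 5 := by
          rw [← Real.exp_nat_mul]; norm_num
        rw [h4]
        calc ((12 : ℝ) ^ 2) ≤ 2.7182818283 ^ 5 := by norm_num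
          _ ≤ Real.exp 1 ^ 5 := pow_le_pow_left₀ (by norm_num) h3.le _
      rw [e2]
      calc 1 / 2 * Real.log ((12 : ℝ) ^ 2) ≤ 1 / 2 * 5 := mul_le_mul_of_nonneg_left e3 (by norm_num)
        _ = 2.5 := by norm_num
    rw [hlog4] at hlogR
    push_cast
    have e4 : 2 * (j : ℝ) * Real.log p = 2 * lam := by rw [hlam]; ring
    rw [e4]
    have h5 : (P : ℝ) * Real.log 2 ≤ P * 0.6931471808 := mul_le_mul_of_nonneg_left hlog2b.le (by linarith)
    nlinarith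
  have hN1R : (N : ℝ) ≤ 2 * N1 + 32 * P + 1 := by
    have : N ≤ 2 * N1 + 32 * P + 1 := hN1b
    exact_mod_cast this
  have hZN : Z ≤ (5 / 4 : ℝ) ^ N1 := by
    have hZ0 : 0 < Z := by positivity
    have h1 : Real.log Z ≤ Real.log ((5 / 4 : ℝ) ^ N1) := by
      rw [Real.log_pow]
      refine hlogZ.trans ?_
      have h2 : (N1 : ℝ) * (1 / 5) ≤ N1 * Real.log (5 / 4) :=
        mul_le_mul_of_nonneg_left log_five_fourths (Nat.cast_nonneg _)
      refine le_trans ?_ h2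
      nlinarith
    exact (Real.log_le_log_iff hZ0 (by positivity)).1 h1
  have hN24 : 24 ≤ N1 := by
    have : (24 : ℝ) ≤ N1 := by nlinarith
    exact_mod_cast this
  have hnd : ∀ n : ℕ, ¬ (((p ^ (2 * j) : ℕ) : ℤ)) ∣ (((D * (R * (b - 1)) ^ 2 : ℕ)) : ℤ) * ((b : ℕ) : ℤ) ^ n :=
    fun n => not_dvd_gen hp hpb hD (not_dvd_lcm hp hb (by omega) hj)
  have hmain := quad (b := b) hb (y := y) hq1 hrel hnd hN24 hZ hZN
  have hchg := chg_le_gd' (b := b) (B := P) (M := M) (R := R) (h := h) hb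
    hbP (by omega) hRd hRh x (2 * N1)
  have hmono := gd_mono (b := b) (B := P) (M := M) x hN1a
  have hchgR : (chg b y (2 * N1) : ℝ) ≤ (32 * P + 1) * (gd b P M x N : ℝ) := by
    have h1 : chg b y (2 * N1) ≤ (h + 1) * gd b P M x N :=
      hchg.trans (Nat.mul_le_mul_left _ hmono)
    have h2 : ((chg b y (2 * N1) : ℕ) : ℝ) ≤ (((h + 1) * gd b P M x N : ℕ) : ℝ) := by
      exact_mod_cast h1
    rw [hh] at h2
    push_cast at h2
    exact h2
  set X : ℝ := (chg b y (2 * N1) : ℝ) + 1 with hX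
  have hX1 : 1 ≤ X := by
    have : (0 : ℝ) ≤ (chg b y (2 * N1) : ℝ) := Nat.cast_nonneg _
    linarith
  have hb1pos : (0 : ℝ) < (b : ℝ) - 1 := by linarith
  have hL1 : Real.log (4 * ((p ^ (2 * j) : ℕ) : ℝ) * ((b - 1 : ℕ) : ℝ) ^ 2) + 1 ≤ 5 * Lam := by
    push_cast
    rw [hbm, Real.log_mul (by positivity) (by positivity), Real.log_mul (by norm_num) (by positivity),
      Real.log_pow, Real.log_pow, hlog4]
    have h1 : Real.log ((b : ℝ) - 1) ≤ Real.log b := Real.log_le_log hb1pos (by linarith)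
    push_cast
    have e4 : 2 * (j : ℝ) * Real.log p = 2 * lam := by rw [hlam]; ring
    rw [e4]
    linarith
  have h1 : (2 : ℝ) / 5 * N1 ≤ 5 * Lam * X ^ 2 + X * (24 * P + 5 * Lam) := by
    have h2 : (N1 : ℝ) * (2 / 5) ≤ N1 * Real.log (3 / 2) :=
      mul_le_mul_of_nonneg_left log_three_halves (Nat.cast_nonneg _)
    have h3 : X ^ 2 * (Real.log (4 * ((p ^ (2 * j) : ℕ) : ℝ) * ((b - 1 : ℕ) : ℝ) ^ 2) + 1) ≤ X ^ 2 * (5 * Lam) :=
      mul_le_mul_of_nonneg_left hL1 (by positivity)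
    have h4 : X * Real.log Z ≤ X * (24 * P + 5 * Lam) :=
      mul_le_mul_of_nonneg_left hlogZ (by linarith)
    have h5 : (N1 : ℝ) * (2 / 5) ≤ X ^ 2 * (5 * Lam) + X * (24 * P + 5 * Lam) :=
      h2.trans (hmain.trans (add_le_add h3 h4))
    calc (2 : ℝ) / 5 * N1 = N1 * (2 / 5) := by ring
      _ ≤ X ^ 2 * (5 * Lam) + X * (24 * P + 5 * Lam) := h5
      _ = 5 * Lam * X ^ 2 + X * (24 * P + 5 * Lam) := by ring
  have hfin : √((N : ℝ) / Lam) ≤ 10 * (X - 1) :=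
    final_est2 (X := X) (j := Lam) (P := (P : ℝ)) (N := (N : ℝ)) (N1 := (N1 : ℝ)) hLam1 hPR hN
      hN1R hX1 h1
  have h10 : X - 1 = (chg b y (2 * N1) : ℝ) := by rw [hX]; ring
  rw [h10] at hfin
  have hg0 : (0 : ℝ) ≤ (gd b P M x N : ℝ) := Nat.cast_nonneg _
  nlinarith

end Pool.Agent.Run7.h274.WM
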