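import Pool.Agent.Run7.h274.Sparse
import Pool.Agent.Run7.h274.Meas

/-!
The square root of two in base two: explicit bounds, words of length up to `log N / (2 log 2)`.
-/

set_option autoImplicit false

namespace Pool.Agent.Run7.h274.WM

open Finset Filter

/-- more digits of `x` in place of the additive term -/
lemma chg_le_gd' {b B M R h : ℕ} (hb : 2 ≤ b) (hB : b ≤ B) (hM : 4 * (b + 1) * B ≤ M)
    (hR : ∀ q, 1 ≤ q → q < 4 * B → q ∣ R) (hRh : R ≤ b ^ h) (x : ℝ) (N : ℕ) :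
    chg b ((R : ℝ) * x) N ≤ (h + 1) * gd b B M x (N + h) := by
  classical
  unfold chg gd
  have hsub : {k ∈ range N | Chg b ((R : ℝ) * x) k} ⊆
      (range (h + 1)).biUnion fun i => {k ∈ range N | Good b B M x (k + i)} := by
    intro k hk
    rw [mem_filter] at hk
    obtain ⟨i, hi, hg⟩ := chg_good hb hB hM hR hRh x k hk.2
    rw [mem_biUnion]
    exact ⟨i, by rw [mem_range]; omega, by rw [mem_filter]; exact ⟨hk.1, hg⟩⟩
  refine (card_le_card hsub).trans (card_biUnion_le.trans ?_)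
  have hone : ∀ i ∈ range (h + 1), #{k ∈ range N | Good b B M x (k + i)} ≤
      #{k ∈ range (N + h) | Good b B M x k} := by
    intro i hi
    rw [mem_range] at hi
    refine card_le_card_of_injOn (fun k => k + i) ?_ ?_
    · intro k hk
      simp only [mem_coe, mem_filter, mem_range] at hk ⊢
      exact ⟨by omega, hk.2⟩
    · intro a _ b _ hab
      simpa using hab
  refine (sum_le_sum hone).trans ?_
  rw [sum_const, card_range, smul_eq_mul]

lemma gd_mono {b B M : ℕ} (x : ℝ) {N N' : ℕ} (h : N ≤ N') : gd b B M x N ≤ gd b B M x N' := by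
  classical
  unfold gd
  exact card_le_card (filter_subset_filter _ (range_mono h))

/-- the differences of consecutive digits -/
noncomputable def dd (b : ℕ) (y : ℝ) (k : ℕ) : ℤ :=
  dgt b y (k + 1) - (if k = 0 then 0 else dgt b y k)

lemma dgt_succ (b : ℕ) (y : ℝ) (k : ℕ) : dgt b y (k + 1) = ⌊(b : ℝ) ^ (k + 1) * y⌋ % (b : ℤ) := by
  unfold dgt
  rw [if_neg (by omega)]

lemma dd_abs {b : ℕ} (hb : 2 ≤ b) (y : ℝ) (k : ℕ) : |dd b y k| ≤ ((b - 1 : ℕ) : ℤ) := by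
  have hbz : (0 : ℤ) < b := by positivity
  have key : ∀ k, 0 ≤ dgt b y (k + 1) ∧ dgt b y (k + 1) ≤ ((b - 1 : ℕ) : ℤ) := by
    intro k
    rw [dgt_succ]
    have h1 := Int.emod_nonneg ⌊(b : ℝ) ^ (k + 1) * y⌋ hbz.ne'
    have h2 := Int.emod_lt_of_pos ⌊(b : ℝ) ^ (k + 1) * y⌋ hbz
    refine ⟨h1, ?_⟩
    rw [Nat.cast_sub (by omega)]
    push_cast
    omega
  unfold dd
  cases k with
  | zero =>
    simp only [if_true, sub_zero]
    rw [abs_of_nonneg (key 0).1]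
    exact (key 0).2
  | succ k =>
    rw [if_neg (by omega), abs_le]
    have h1 := key k
    have h2 := key (k + 1)
    constructor <;> linarith [h1.1, h1.2, h2.1, h2.2]

lemma dd_hasSum {b : ℕ} (hb : 2 ≤ b) (y : ℝ) :
    HasSum (fun k : ℕ => (dd b y k : ℝ) / (b : ℝ) ^ k) (((b : ℝ) - 1) * (y - ⌊y⌋)) := by
  have hb0 : (b : ℝ) ≠ 0 := by positivity
  have h0 := dgt_hasSum hb y
  have h1 := (hasSum_nat_add_iff' 1).2 h0
  have e0 : ∑ i ∈ range 1, (dgt b y i : ℝ) / (b : ℝ) ^ i = ⌊y⌋ := by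
    rw [sum_range_one]; unfold dgt; simp
  rw [e0] at h1
  -- first: multiplied by `b`
  have h2 : HasSum (fun k : ℕ => (dgt b y (k + 1) : ℝ) / (b : ℝ) ^ k) (b * (y - ⌊y⌋)) := by
    have h3 := h1.mul_left (b : ℝ)
    have e1 : (fun k : ℕ => (b : ℝ) * ((dgt b y (k + 1) : ℝ) / (b : ℝ) ^ (k + 1))) =
        fun k : ℕ => (dgt b y (k + 1) : ℝ) / (b : ℝ) ^ k := by
      funext k
      rw [pow_succ]
      field_simp
    rw [e1] at h3
    exact h3
  have h3 : HasSum (fun k : ℕ => (((if k = 0 then 0 else dgt b y k : ℤ)) : ℝ) / (b : ℝ) ^ k)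
      (y - ⌊y⌋) := by
    have h4 := (hasSum_nat_add_iff (f := fun k : ℕ =>
      (((if k = 0 then 0 else dgt b y k : ℤ)) : ℝ) / (b : ℝ) ^ k) 1 (g := y - ⌊y⌋)).1 ?_
    · simpa using h4
    · have e1 : (fun n : ℕ => (((if n + 1 = 0 then 0 else dgt b y (n + 1) : ℤ)) : ℝ) /
          (b : ℝ) ^ (n + 1)) = fun n : ℕ => (dgt b y (n + 1) : ℝ) / (b : ℝ) ^ (n + 1) := by
        funext n
        rw [if_neg (by omega)]
      rw [e1]
      exact h1
  have h4 := h2.sub h3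
  have e2 : (fun k : ℕ => (dd b y k : ℝ) / (b : ℝ) ^ k) = fun k : ℕ =>
      (dgt b y (k + 1) : ℝ) / (b : ℝ) ^ k -
        (((if k = 0 then 0 else dgt b y k : ℤ)) : ℝ) / (b : ℝ) ^ k := by
    funext k
    unfold dd
    push_cast
    ring
  have e3 : ((b : ℝ) - 1) * (y - ⌊y⌋) = b * (y - ⌊y⌋) - (y - ⌊y⌋) := by ring
  rw [e2, e3]
  exact h4

lemma nz_le (b : ℕ) (y : ℝ) (K : ℕ) : nz (dd b y) K ≤ chg b y K + 1 := by
  classical
  unfold nz chg
  have hsub : {i ∈ range (K + 1) | dd b y i ≠ 0} ⊆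
      insert 0 (({k ∈ range K | Chg b y k}).image (fun k => k + 1)) := by
    intro i hi
    rw [mem_filter, mem_range] at hi
    rw [mem_insert, mem_image]
    cases i with
    | zero => exact Or.inl rfl
    | succ i =>
      right
      refine ⟨i, ?_, rfl⟩
      rw [mem_filter, mem_range]
      refine ⟨by omega, ?_⟩
      unfold Chg
      intro hE
      apply hi.2
      unfold dd
      rw [if_neg (by omega), dgt_succ, dgt_succ, show i + 2 = i + 1 + 1 by ring] at *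
      rw [hE, sub_self]
  refine (card_le_card hsub).trans ((card_insert_le _ _).trans ?_)
  exact Nat.add_le_add_right card_image_le 1

lemma rr_le (e : ℕ → ℤ) (k : ℕ) : rr e k ≤ k + 1 := by
  classical
  unfold rr
  refine (card_filter_le _ _).trans ?_
  rw [Nat.card_antidiagonal]

lemma six_fifths : ∀ t : ℕ, 24 ≤ t → 2 * (t : ℝ) ≤ (6 / 5 : ℝ) ^ t := by
  intro t ht
  induction t, ht using Nat.le_induction with
  | base => norm_num
  | succ t ht ih =>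
    have htR : (24 : ℝ) ≤ t := by exact_mod_cast ht
    rw [pow_succ]
    push_cast
    nlinarith

/-- the digit changes of a number `y` with `q ((b - 1) y) ^ 2 = T` -/
theorem quad {b : ℕ} (hb : 2 ≤ b) {y : ℝ} {q : ℕ} (hq1 : 1 ≤ q) {T : ℤ}
    (hrel : (q : ℝ) * (((b : ℝ) - 1) * y) ^ 2 = T) (hq : ∀ n : ℕ, ¬ (q : ℤ) ∣ T * (b : ℤ) ^ n)
    {N : ℕ} (hN : 24 ≤ N) {Z : ℝ}
    (hZ : 4 * q * (((b - 1 : ℕ) : ℝ) ^ 2 +
      2 * |((((b - 1 : ℕ) : ℤ) * ⌊y⌋ : ℤ) : ℝ)| * ((b - 1 : ℕ) : ℝ)) ≤ Z)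
    (hZN : Z ≤ (5 / 4 : ℝ) ^ N) :
    (N : ℝ) * Real.log (3 / 2) ≤ ((chg b y (2 * N) : ℝ) + 1) ^ 2 *
      (Real.log (4 * q * ((b - 1 : ℕ) : ℝ) ^ 2) + 1) + ((chg b y (2 * N) : ℝ) + 1) * Real.log Z := by
  set B : ℕ := b - 1 with hBdef
  have hB1 : 1 ≤ B := by omega
  have hBR : (1 : ℝ) ≤ B := by exact_mod_cast hB1
  have hBb : (B : ℝ) = (b : ℝ) - 1 := by
    rw [hBdef, Nat.cast_sub (by omega)]; simp
  have hqR : (1 : ℝ) ≤ q := by exact_mod_cast hq1
  set A : ℤ := (B : ℤ) * ⌊y⌋ with hA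
  have hu := dd_hasSum hb y
  have hrel' : (q : ℝ) * (((b : ℝ) - 1) * (y - ⌊y⌋) + A) ^ 2 = T := by
    rw [← hrel, hA]
    push_cast
    rw [hBb]
    ring
  have hZ1 : (1 : ℝ) ≤ Z := by
    refine le_trans ?_ hZ
    have h1 : (1 : ℝ) ≤ (B : ℝ) ^ 2 := one_le_pow₀ hBR
    have h2 : 0 ≤ 2 * |(A : ℝ)| * (B : ℝ) := by positivity
    nlinarith
  have hK : ∀ n < N, ∀ k, 2 * N < k → 4 * |(PP (dd b y) q A k : ℝ)| ≤ (3 / 2 : ℝ) ^ (k - n) := by
    intro n hn k hk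
    have hP : |(PP (dd b y) q A k : ℝ)| ≤ q * ((B : ℝ) ^ 2 + 2 * |(A : ℝ)| * B) * (k + 1) := by
      unfold PP
      push_cast
      rw [abs_mul, Nat.abs_cast, mul_assoc (q : ℝ)]
      refine mul_le_mul_of_nonneg_left ?_ (Nat.cast_nonneg q)
      refine (abs_add_le _ _).trans ?_
      have h1 : |(conv (dd b y) k : ℝ)| ≤ (B : ℝ) ^ 2 * (k + 1) := by
        have h2 := conv_le (dd_abs hb y) k
        have h3 : |(conv (dd b y) k : ℝ)| ≤ (B : ℝ) ^ 2 * rr (dd b y) k := by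
          rw [← Int.cast_abs]; exact_mod_cast h2
        have h4 : (rr (dd b y) k : ℝ) ≤ k + 1 := by exact_mod_cast rr_le (dd b y) k
        exact h3.trans (mul_le_mul_of_nonneg_left h4 (by positivity))
      have h2 : |2 * (A : ℝ) * (dd b y k : ℝ)| ≤ 2 * |(A : ℝ)| * B := by
        rw [abs_mul, abs_mul, abs_two]
        refine mul_le_mul_of_nonneg_left ?_ (by positivity)
        rw [← Int.cast_abs]; exact_mod_cast dd_abs hb y k
      have h3 : 0 ≤ 2 * |(A : ℝ)| * (B : ℝ) * k := by positivity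
      nlinarith
    obtain ⟨t, ht⟩ : ∃ t, t = k - n := ⟨_, rfl⟩
    rw [← ht]
    have ht1 : N ≤ t := by omega
    have ht2 : k + 1 ≤ 2 * t := by omega
    have ht2R : (k : ℝ) + 1 ≤ 2 * t := by exact_mod_cast ht2
    have h1 := six_fifths t (by omega)
    have h2 : Z ≤ (5 / 4 : ℝ) ^ t := hZN.trans (pow_le_pow_right₀ (by norm_num) ht1)
    calc 4 * |(PP (dd b y) q A k : ℝ)| ≤ 4 * (q * ((B : ℝ) ^ 2 + 2 * |(A : ℝ)| * B) * (k + 1)) := by
          linarith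
      _ = (4 * q * ((B : ℝ) ^ 2 + 2 * |(A : ℝ)| * B)) * (k + 1) := by ring
      _ ≤ Z * (2 * t) := mul_le_mul hZ ht2R (by positivity) (by linarith)
      _ ≤ (5 / 4 : ℝ) ^ t * (6 / 5 : ℝ) ^ t := mul_le_mul h2 h1 (by positivity) (by positivity)
      _ = (3 / 2 : ℝ) ^ t := by rw [← mul_pow]; norm_num
  have h1 := count hb hB1 (dd_abs hb y) hu hq1 hrel' hq hK
  have h2 : (nz (dd b y) (2 * N) : ℝ) ≤ (chg b y (2 * N) : ℝ) + 1 := by
    exact_mod_cast nz_le b y (2 * N)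
  have h3 : (0 : ℝ) ≤ nz (dd b y) (2 * N) := Nat.cast_nonneg _
  have hL1 : 0 ≤ Real.log (4 * q * (B : ℝ) ^ 2) + 1 := by
    have h4 : (1 : ℝ) ≤ (B : ℝ) ^ 2 := one_le_pow₀ hBR
    have := Real.log_nonneg (show (1 : ℝ) ≤ 4 * q * (B : ℝ) ^ 2 by nlinarith)
    linarith
  have hL2 : Real.log (4 * q * ((B : ℝ) ^ 2 + 2 * |(A : ℝ)| * B)) ≤ Real.log Z :=
    Real.log_le_log (by positivity) hZ
  have hLZ : 0 ≤ Real.log Z := Real.log_nonneg hZ1
  refine h1.trans (add_le_add ?_ ?_)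
  · refine mul_le_mul_of_nonneg_right ?_ hL1
    exact pow_le_pow_left₀ h3 h2 2
  · exact (mul_le_mul_of_nonneg_left hL2 h3).trans (mul_le_mul_of_nonneg_right h2 hLZ)

end Pool.Agent.Run7.h274.WM
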