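import Pool.Agent.Run7.h274.SqrtTwo

/-!
The number of good places of `√2 / 3 ^ j` in base two.
-/

set_option autoImplicit false

namespace Pool.Agent.Run7.h274.WM

open Finset Filter

lemma log_nine_le : Real.log 9 ≤ 2.2 := by
  have h1 : Real.log 9 = 1 / 5 * Real.log (9 ^ 5) := by
    rw [Real.log_pow]; push_cast; ring
  have h2 : Real.log ((9 : ℝ) ^ 5) ≤ 11 := by
    rw [Real.log_le_iff_le_exp (by norm_num)]
    have h3 := Real.exp_one_gt_d9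
    have h4 : Real.exp 11 = Real.exp 1 ^ 11 := by
      rw [← Real.exp_nat_mul]; norm_num
    rw [h4]
    calc ((9 : ℝ) ^ 5) ≤ 2.7182818283 ^ 11 := by norm_num
      _ ≤ Real.exp 1 ^ 11 := pow_le_pow_left₀ (by norm_num) h3.le _
  rw [h1]
  calc 1 / 5 * Real.log ((9 : ℝ) ^ 5) ≤ 1 / 5 * 11 := mul_le_mul_of_nonneg_left h2 (by norm_num)
    _ = 2.2 := by norm_num

lemma log_three_halves : (2 : ℝ) / 5 ≤ Real.log (3 / 2) := by
  rw [Real.le_log_iff_exp_le (by norm_num)]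
  have h3 := Real.exp_one_lt_d9
  have h4 : Real.exp (2 / 5) ^ 5 = Real.exp 1 ^ 2 := by
    rw [← Real.exp_nat_mul, ← Real.exp_nat_mul]; norm_num
  have h5 : Real.exp (2 / 5) ^ 5 ≤ (3 / 2 : ℝ) ^ 5 := by
    rw [h4]
    calc Real.exp 1 ^ 2 ≤ 2.7182818286 ^ 2 := pow_le_pow_left₀ (Real.exp_pos 1).le h3.le _
      _ ≤ (3 / 2 : ℝ) ^ 5 := by norm_num
  exact (pow_le_pow_iff_left₀ (Real.exp_pos _).le (by norm_num) (by norm_num)).1 h5

lemma log_five_fourths : (1 : ℝ) / 5 ≤ Real.log (5 / 4) := by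
  rw [Real.le_log_iff_exp_le (by norm_num)]
  have h3 := Real.exp_one_lt_d9
  have h4 : Real.exp (1 / 5) ^ 5 = Real.exp 1 := by
    rw [← Real.exp_nat_mul]; norm_num
  have h5 : Real.exp (1 / 5) ^ 5 ≤ (5 / 4 : ℝ) ^ 5 := by
    rw [h4]
    calc Real.exp 1 ≤ 2.7182818286 := h3.le
      _ ≤ (5 / 4 : ℝ) ^ 5 := by norm_num
  exact (pow_le_pow_iff_left₀ (Real.exp_pos _).le (by norm_num) (by norm_num)).1 h5

lemma not_dvd_aux {l j : ℕ} (hj : 4 * 2 ^ l < 3 ^ j) (n : ℕ) :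
    ¬ ((9 ^ j : ℕ) : ℤ) ∣ (2 * ((Nat.lcmUpto (4 * 2 ^ l) : ℕ) : ℤ) ^ 2) * ((2 : ℕ) : ℤ) ^ n := by
  set R := Nat.lcmUpto (4 * 2 ^ l) with hR
  intro h
  have h1 : 9 ^ j ∣ 2 * R ^ 2 * 2 ^ n := by exact_mod_cast h
  have h2 : 2 * R ^ 2 * 2 ^ n = R ^ 2 * 2 ^ (n + 1) := by rw [pow_succ]; ring
  rw [h2] at h1
  have hco : Nat.Coprime (9 ^ j) (2 ^ (n + 1)) := Nat.Coprime.pow _ _ (by norm_num)
  have h3 : 9 ^ j ∣ R ^ 2 := hco.dvd_of_dvd_mul_right h1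
  have h4 : (3 ^ j) ^ 2 ∣ R ^ 2 := by
    rw [← pow_mul, mul_comm, pow_mul]
    exact h3
  have h5 : 3 ^ j ∣ R := (Nat.pow_dvd_pow_iff (by norm_num)).1 h4
  have h6 : j ≤ R.factorization 3 :=
    (Nat.prime_three.pow_dvd_iff_le_factorization (Nat.lcmUpto_ne_zero _)).1 h5
  rw [hR, Nat.factorization_lcmUpto _ Nat.prime_three] at h6
  have h7 : 3 ^ j ≤ 4 * 2 ^ l :=
    (Nat.pow_le_pow_right (by norm_num) h6).trans (Nat.pow_log_le_self 3 (by positivity))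
  omega

lemma log_lcm_le (n : ℕ) : Real.log (Nat.lcmUpto n) ≤ (Real.log 4 + 4) * n := by
  rw [← Chebyshev.psi_eq_log_lcmUpto]
  exact Chebyshev.psi_le_const_mul_self (Nat.cast_nonneg n)

lemma final_est {X j P N N1 : ℝ} (hjR : 1 ≤ j) (hPR : 2 ≤ P) (hNR : 20000 * (P * P + j) ≤ N)
    (hN1R : N ≤ 2 * N1 + 32 * P + 1) (hX1 : 1 ≤ X)
    (h1 : 2 / 5 * N1 ≤ 5 * j * X ^ 2 + X * (24 * P + 3 * j)) : √(N / j) ≤ 10 * (X - 1) := by
  obtain ⟨s, hs⟩ : ∃ s, s = √(N / j) := ⟨_, rfl⟩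
  rw [← hs]
  have hj0 : 0 < j := by linarith
  have hNpos : 0 < N := by nlinarith
  have hs2' : s ^ 2 = N / j := by rw [hs]; exact Real.sq_sqrt (by positivity)
  have hsN : s ^ 2 * j = N := by rw [hs2']; field_simp
  have hs0' : 0 ≤ s := by rw [hs]; exact Real.sqrt_nonneg _
  clear hs
  have hsge : 100 ≤ s := by
    have h2 : (100 : ℝ) ^ 2 ≤ s ^ 2 := by
      rw [hs2', le_div_iff₀ hj0]
      nlinarith
    exact (abs_le_of_sq_le_sq' h2 hs0').2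
  have hsj : 100 * (s * j) ≤ N := by
    have h2 : (100 * (s * j)) ^ 2 ≤ N ^ 2 := by
      calc (100 * (s * j)) ^ 2 = 10000 * (s ^ 2 * j) * j := by ring
        _ = 10000 * j * N := by rw [hsN]; ring
        _ ≤ N * N := by nlinarith
        _ = N ^ 2 := by ring
    exact (abs_le_of_sq_le_sq' h2 hNpos.le).2
  have hsP : 100 * (s * P) ≤ N := by
    have h2 : (100 * (s * P)) ^ 2 ≤ N ^ 2 := by
      have h3 : s ^ 2 ≤ N := by
        rw [← hsN]; nlinarith [sq_nonneg s]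
      calc (100 * (s * P)) ^ 2 = 10000 * s ^ 2 * (P * P) := by ring
        _ ≤ 10000 * N * (P * P) := by gcongr
        _ ≤ N * N := by nlinarith
        _ = N ^ 2 := by ring
    exact (abs_le_of_sq_le_sq' h2 hNpos.le).2
  by_contra hcon
  push Not at hcon
  have hXs : X ≤ 11 / 100 * s := by linarith
  have h2 : X ^ 2 ≤ (11 / 100 * s) ^ 2 := pow_le_pow_left₀ (by linarith) hXs 2
  have h3 : 5 * j * X ^ 2 ≤ 605 / 10000 * N := by
    calc 5 * j * X ^ 2 ≤ 5 * j * (11 / 100 * s) ^ 2 := by gcongr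
      _ = 605 / 10000 * (s ^ 2 * j) := by ring
      _ = 605 / 10000 * N := by rw [hsN]
  have h4 : X * (24 * P + 3 * j) ≤ 11 / 100 * s * (24 * P + 3 * j) :=
    mul_le_mul_of_nonneg_right hXs (by positivity)
  have h5 : 11 / 100 * s * (24 * P + 3 * j) ≤ 3 / 100 * N := by
    calc 11 / 100 * s * (24 * P + 3 * j) = 264 / 10000 * (100 * (s * P)) + 33 / 10000 * (100 * (s * j)) := by
          ring
      _ ≤ 264 / 10000 * N + 33 / 10000 * N := by gcongr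
      _ ≤ 3 / 100 * N := by nlinarith
  nlinarith

theorem sqrt_two_gd {l j N M : ℕ} (hl : 1 ≤ l) (hj : 4 * 2 ^ l < 3 ^ j)
    (hN : 20000 * (4 ^ l + j) ≤ N) (hM : 12 * 2 ^ l ≤ M) :
    √((N : ℝ) / j) ≤ 400 * 2 ^ l * (gd 2 (2 ^ l) M (√2 / 3 ^ j) N : ℝ) := by
  have hj1 : 1 ≤ j := by
    by_contra h
    have : j = 0 := by omega
    rw [this] at hj
    have : 1 ≤ 2 ^ l := Nat.one_le_two_pow
    omega
  have hP2 : 2 ≤ 2 ^ l := by
    calc 2 = 2 ^ 1 := rfl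
      _ ≤ 2 ^ l := Nat.pow_le_pow_right (by norm_num) hl
  have h4l : 4 ^ l = 2 ^ l * 2 ^ l := by rw [← mul_pow]; norm_num
  set P : ℕ := 2 ^ l with hP
  set R := Nat.lcmUpto (4 * P) with hR
  have hR0 : R ≠ 0 := Nat.lcmUpto_ne_zero _
  have hR1 : (1 : ℝ) ≤ R := by exact_mod_cast Nat.one_le_iff_ne_zero.2 hR0
  have hPR : (2 : ℝ) ≤ P := by exact_mod_cast hP2
  have hjR : (1 : ℝ) ≤ j := by exact_mod_cast hj1
  have hlog2a := Real.log_two_gt_d9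
  have hlog2b := Real.log_two_lt_d9
  have hlog4 : Real.log 4 = 2 * Real.log 2 := by
    rw [show (4 : ℝ) = 2 ^ 2 by norm_num, Real.log_pow]; norm_num
  have hlogR : Real.log R ≤ (Real.log 4 + 4) * (4 * P) := by
    have := log_lcm_le (4 * P)
    push_cast at this
    exact this
  set h : ℕ := 32 * P with hh
  have hRh : R ≤ 2 ^ h := by
    have h1 : Real.log R ≤ Real.log ((2 : ℝ) ^ h) := by
      rw [Real.log_pow, hh]
      push_cast
      refine hlogR.trans ?_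
      rw [hlog4]
      nlinarith
    have h2 := (Real.log_le_log_iff (by linarith) (by positivity)).1 h1
    exact_mod_cast h2
  have hRd : ∀ q, 1 ≤ q → q < 4 * P → q ∣ R := by
    intro q h1 h2
    rw [hR]
    unfold Nat.lcmUpto
    exact Finset.dvd_lcm (mem_Icc.2 ⟨h1, h2.le⟩)
  set N1 : ℕ := (N - h) / 2 with hN1
  have hN1a : 2 * N1 + h ≤ N := by
    have : 32 * P ≤ N := by nlinarith
    omega
  have hN1b : N ≤ 2 * N1 + h + 1 := by omega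
  set x : ℝ := √2 / 3 ^ j with hx
  set y : ℝ := (R : ℝ) * x with hy
  have hs2 : √(2 : ℝ) ^ 2 = 2 := Real.sq_sqrt (by norm_num)
  have h3j : (0 : ℝ) < 3 ^ j := by positivity
  have h3j1 : (1 : ℝ) ≤ 3 ^ j := one_le_pow₀ (by norm_num)
  have hrel : ((9 ^ j : ℕ) : ℝ) * ((((2 : ℕ) : ℝ) - 1) * y) ^ 2 = ((2 * (R : ℤ) ^ 2 : ℤ) : ℝ) := by
    rw [hy, hx]
    push_cast
    have e1 : ((2 : ℝ) - 1) * (R * (√2 / 3 ^ j)) = R * √2 / 3 ^ j := by ring
    rw [e1, div_pow, mul_pow, hs2, ← pow_mul, mul_comm j 2, pow_mul]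
    norm_num
    field_simp
  have hq1 : 1 ≤ 9 ^ j := Nat.one_le_pow _ _ (by norm_num)
  -- the size of `y`
  have hs0 : 0 ≤ √(2 : ℝ) := Real.sqrt_nonneg _
  have hs4 : √(2 : ℝ) ≤ 2 := by nlinarith
  have hy0 : 0 ≤ y := by positivity
  have hy1 : y ≤ 2 * R := by
    rw [hy, hx]
    have : √2 / 3 ^ j ≤ 2 := by
      rw [div_le_iff₀ h3j]; nlinarith
    nlinarith
  set Z : ℝ := 20 * 9 ^ j * R with hZdef
  have h9j : (0 : ℝ) < 9 ^ j := by positivity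
  have hZ : 4 * ((9 ^ j : ℕ) : ℝ) * (((2 - 1 : ℕ) : ℝ) ^ 2 +
      2 * |((((2 - 1 : ℕ) : ℤ) * ⌊y⌋ : ℤ) : ℝ)| * ((2 - 1 : ℕ) : ℝ)) ≤ Z := by
    have hfl0 : (0 : ℝ) ≤ (⌊y⌋ : ℝ) := by exact_mod_cast Int.floor_nonneg.2 hy0
    have hfl1 : (⌊y⌋ : ℝ) ≤ y := Int.floor_le y
    norm_num
    rw [abs_of_nonneg hfl0, hZdef]
    have : 1 + 2 * (⌊y⌋ : ℝ) ≤ 5 * R := by linarith
    calc 4 * 9 ^ j * (1 + 2 * (⌊y⌋ : ℝ)) ≤ 4 * 9 ^ j * (5 * R) :=
          mul_le_mul_of_nonneg_left this (by positivity)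
      _ = 20 * 9 ^ j * R := by ring
  have hlogZ : Real.log Z ≤ 24 * P + 3 * j := by
    rw [hZdef, Real.log_mul (by positivity) (by positivity), Real.log_mul (by norm_num) (by positivity),
      Real.log_pow]
    have h20 : Real.log 20 ≤ 3 := by
      rw [Real.log_le_iff_le_exp (by norm_num)]
      have h3 := Real.exp_one_gt_d9
      have h4 : Real.exp 3 = Real.exp 1 ^ 3 := by
        rw [← Real.exp_nat_mul]; norm_num
      rw [h4]
      calc (20 : ℝ) ≤ 2.7182818283 ^ 3 := by norm_num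
        _ ≤ Real.exp 1 ^ 3 := pow_le_pow_left₀ (by norm_num) h3.le _
    have h9 : (j : ℝ) * Real.log 9 ≤ j * 2.2 := mul_le_mul_of_nonneg_left log_nine_le (by positivity)
    rw [hlog4] at hlogR
    nlinarith
  have hNR : (20000 : ℝ) * ((P : ℝ) * P + j) ≤ N := by
    have : 20000 * (P * P + j) ≤ N := by rw [← h4l]; exact hN
    exact_mod_cast this
  have hN1R : (N : ℝ) ≤ 2 * N1 + 32 * P + 1 := by
    have : N ≤ 2 * N1 + 32 * P + 1 := hN1b
    exact_mod_cast this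
  have hZN : Z ≤ (5 / 4 : ℝ) ^ N1 := by
    have hZ0 : 0 < Z := by positivity
    have h1 : Real.log Z ≤ Real.log ((5 / 4 : ℝ) ^ N1) := by
      rw [Real.log_pow]
      refine hlogZ.trans ?_
      have h2 : (N1 : ℝ) * (1 / 5) ≤ N1 * Real.log (5 / 4) :=
        mul_le_mul_of_nonneg_left log_five_fourths (Nat.cast_nonneg _)
      refine le_trans ?_ h2
      nlinarith
    exact (Real.log_le_log_iff hZ0 (by positivity)).1 h1
  have hN24 : 24 ≤ N1 := by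
    have : (24 : ℝ) ≤ N1 := by nlinarith
    exact_mod_cast this
  have hnd : ∀ n : ℕ, ¬ ((9 ^ j : ℕ) : ℤ) ∣ (2 * (R : ℤ) ^ 2) * ((2 : ℕ) : ℤ) ^ n := by
    intro n
    rw [hR, hP]
    exact not_dvd_aux hj n
  have hmain := quad (b := 2) (by norm_num) (y := y) hq1 hrel hnd hN24 hZ hZN
  have hchg := chg_le_gd' (b := 2) (B := P) (M := M) (R := R) (h := h) (by norm_num)
    hP2 (by omega) hRd hRh x (2 * N1)
  have hmono := gd_mono (b := 2) (B := P) (M := M) x hN1a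
  have hchgR : (chg 2 y (2 * N1) : ℝ) ≤ (32 * P + 1) * (gd 2 P M x N : ℝ) := by
    have h1 : chg 2 y (2 * N1) ≤ (h + 1) * gd 2 P M x N :=
      hchg.trans (Nat.mul_le_mul_left _ hmono)
    have h2 : ((chg 2 y (2 * N1) : ℕ) : ℝ) ≤ (((h + 1) * gd 2 P M x N : ℕ) : ℝ) := by
      exact_mod_cast h1
    rw [hh] at h2
    push_cast at h2
    exact h2
  set X : ℝ := (chg 2 y (2 * N1) : ℝ) + 1 with hX
  have hX1 : 1 ≤ X := by
    have : (0 : ℝ) ≤ (chg 2 y (2 * N1) : ℝ) := Nat.cast_nonneg _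
    linarith
  have hL1 : Real.log (4 * ((9 ^ j : ℕ) : ℝ) * ((2 - 1 : ℕ) : ℝ) ^ 2) + 1 ≤ 5 * j := by
    norm_num
    rw [Real.log_mul (by norm_num) (by positivity), Real.log_pow]
    have h9 : (j : ℝ) * Real.log 9 ≤ j * 2.2 := mul_le_mul_of_nonneg_left log_nine_le (by positivity)
    rw [hlog4]
    nlinarith
  have h1 : (2 : ℝ) / 5 * N1 ≤ 5 * j * X ^ 2 + X * (24 * P + 3 * j) := by
    have h2 : (N1 : ℝ) * (2 / 5) ≤ N1 * Real.log (3 / 2) :=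
      mul_le_mul_of_nonneg_left log_three_halves (Nat.cast_nonneg _)
    have h3 : X ^ 2 * (Real.log (4 * ((9 ^ j : ℕ) : ℝ) * ((2 - 1 : ℕ) : ℝ) ^ 2) + 1) ≤ X ^ 2 * (5 * j) :=
      mul_le_mul_of_nonneg_left hL1 (by positivity)
    have h4 : X * Real.log Z ≤ X * (24 * P + 3 * j) :=
      mul_le_mul_of_nonneg_left hlogZ (by linarith)
    have h5 : (N1 : ℝ) * (2 / 5) ≤ X ^ 2 * (5 * j) + X * (24 * P + 3 * j) :=
      h2.trans (hmain.trans (add_le_add h3 h4))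
    calc (2 : ℝ) / 5 * N1 = N1 * (2 / 5) := by ring
      _ ≤ X ^ 2 * (5 * j) + X * (24 * P + 3 * j) := h5
      _ = 5 * j * X ^ 2 + X * (24 * P + 3 * j) := by ring
  have hjR0 : (0 : ℝ) < j := lt_of_lt_of_le one_pos hjR
  have hfin : √((N : ℝ) / j) ≤ 10 * (X - 1) :=
    final_est (X := X) (j := (j : ℝ)) (P := (P : ℝ)) (N := (N : ℝ)) (N1 := (N1 : ℝ)) hjR hPR hNR
      hN1R hX1 h1
  have h10 : X - 1 = (chg 2 y (2 * N1) : ℝ) := by rw [hX]; ring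
  rw [h10] at hfin
  have hg0 : (0 : ℝ) ≤ (gd 2 P M x N : ℝ) := Nat.cast_nonneg _
  have hPcast : ((2 : ℝ) ^ l) = (P : ℝ) := by rw [hP]; push_cast; rfl
  rw [hPcast]
  nlinarith

end Pool.Agent.Run7.h274.WM
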