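import Pool.Agent.Run7.h274.CoreB

/-!
From digit changes of `R x` to words in the multiples of `x`.
-/

set_option autoImplicit false

namespace Pool.Agent.Run7.h274.WM

open Finset Filter

/-- For all `M ≥ 4 (b + 1) b ^ l`, all large `N` and every word `W` of length `l`, at least
`M / (16 b ^ l)` of the multiples `m x`, `1 ≤ m ≤ M`, contain `W` at least `c F(N)` times among
their first `N` digits. -/
def Many (b l : ℕ) (x : ℝ) (F : ℕ → ℝ) : Prop :=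
  ∃ c : ℝ, 0 < c ∧ ∃ N₀ : ℕ, ∀ M : ℕ, 4 * (b + 1) * b ^ l ≤ M → ∀ N : ℕ, N₀ ≤ N → ∀ W < b ^ l,
    M ≤ 16 * b ^ l *
      ((Icc 1 M).filter (fun m : ℕ => c * F N ≤ (occ b l W ((m : ℝ) * x) N : ℝ))).card

/-- For all large `M` and `N`, all but at most `δ M` of the multiples `m x`, `1 ≤ m ≤ M`, contain
every word `W` of length `l` at least `c F(N)` times among their first `N` digits. -/
def Most (b l : ℕ) (δ : ℝ) (x : ℝ) (F : ℕ → ℝ) : Prop :=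
  ∃ c : ℝ, 0 < c ∧ ∃ M₀ N₀ : ℕ, ∀ M : ℕ, M₀ ≤ M → ∀ N : ℕ, N₀ ≤ N →
    (((Icc 1 M).filter (fun m : ℕ => ∃ W < b ^ l,
      (occ b l W ((m : ℝ) * x) N : ℝ) < c * F N)).card : ℝ) ≤ δ * M

lemma absorb {F : ℕ → ℝ} (hF : Tendsto F atTop atTop) {u : ℕ → ℝ} {c C : ℝ} (hc : 0 < c)
    (hu : ∀ᶠ N in atTop, c * F N ≤ u N + C) (h : ℕ) :
    ∃ c₁ : ℝ, 0 < c₁ ∧ ∃ N₀ : ℕ, ∀ N : ℕ, N₀ ≤ N → ∀ g : ℝ,
      u N ≤ ((h : ℝ) + 1) * (g + h) → c₁ * F N ≤ g := by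
  have hh : (0 : ℝ) < (h : ℝ) + 1 := by positivity
  refine ⟨c / (2 * ((h : ℝ) + 1)), by positivity, ?_⟩
  have h1 := hF.eventually_ge_atTop ((C + ((h : ℝ) + 1) * h) * 2 / c)
  obtain ⟨N₀, hN₀⟩ := eventually_atTop.1 (h1.and hu)
  refine ⟨N₀, fun N hN g hg => ?_⟩
  obtain ⟨a1, a2⟩ := hN₀ N hN
  rw [div_le_iff₀ hc] at a1
  rw [div_mul_eq_mul_div, div_le_iff₀ (by positivity)]
  nlinarith

theorem many_of_chg {b l R h : ℕ} (hb : 2 ≤ b) (hl : 1 ≤ l)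
    (hR : ∀ q, 1 ≤ q → q < 4 * b ^ l → q ∣ R) (hRh : R ≤ b ^ h) (x : ℝ) {F : ℕ → ℝ}
    (hF : Tendsto F atTop atTop) {c C : ℝ} (hc : 0 < c)
    (hu : ∀ᶠ N in atTop, c * F N ≤ (chg b ((R : ℝ) * x) N : ℝ) + C) : Many b l x F := by
  obtain ⟨c₁, hc₁, N₀, hN₀⟩ := absorb hF hc hu h
  have hbl : (0 : ℝ) < (b : ℝ) ^ l := by positivity
  refine ⟨c₁ / (16 * (b : ℝ) ^ l), by positivity, N₀, fun M hM N hN W hW => ?_⟩
  obtain ⟨g, hg, hW'⟩ := core hb hl hM hR hRh x N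
  obtain ⟨-, h2⟩ := hW' W hW
  refine h2.trans (Nat.mul_le_mul_left _ (card_le_card fun m hm => ?_))
  rw [mem_filter] at hm ⊢
  refine ⟨hm.1, ?_⟩
  have h3 : (g : ℝ) ≤ 16 * (b : ℝ) ^ l * (occ b l W ((m : ℝ) * x) N : ℝ) := by exact_mod_cast hm.2
  have h4 := hN₀ N hN g (by exact_mod_cast hg)
  rw [div_mul_eq_mul_div, div_le_iff₀ (by positivity)]
  linarith

theorem most_of_chg {b l n R h : ℕ} (hb : 2 ≤ b) (hl : 1 ≤ l) (hn : 1 ≤ n) {δ : ℝ}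
    (hδ : 8 * (b : ℝ) ^ l * ((b : ℝ) ^ l - 1) ^ n ≤ δ * ((b : ℝ) ^ l) ^ n)
    (hR : ∀ q, 1 ≤ q → q < 4 * b ^ (l * n) → q ∣ R) (hRh : R ≤ b ^ h) (x : ℝ) {F : ℕ → ℝ}
    (hF : Tendsto F atTop atTop) {c C : ℝ} (hc : 0 < c)
    (hu : ∀ᶠ N in atTop, c * F N ≤ (chg b ((R : ℝ) * x) N : ℝ) + C) : Most b l δ x F := by
  obtain ⟨c₁, hc₁, N₀, hN₀⟩ := absorb hF hc hu h
  have hbl : (0 : ℝ) < (b : ℝ) ^ l := by positivity
  have hln : 1 ≤ l * n := Nat.mul_pos hl hn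
  have hlnR : (0 : ℝ) < ((l * n : ℕ) : ℝ) := by exact_mod_cast hln
  have h1 := hF.eventually_ge_atTop (4 * ((l * n : ℕ) : ℝ) ^ 2 / c₁)
  obtain ⟨N₁, hN₁⟩ := eventually_atTop.1 h1
  refine ⟨c₁ / (4 * ((l * n : ℕ) : ℝ)), by positivity, 4 * (b + 1) * b ^ (l * n), max N₀ N₁,
    fun M hM N hN => ?_⟩
  have hM0 : 1 ≤ M := by
    have : 1 ≤ b ^ (l * n) := Nat.one_le_pow _ _ (by omega)
    nlinarith
  have hB : b ≤ b ^ (l * n) := Nat.le_self_pow (by omega) b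
  have hg := chg_le_gd hb hB hM hR hRh x N
  have h2 := almost_all hb hl hM0 (n := n) x N
  have h3 := hN₀ N ((le_max_left _ _).trans hN) (gd b (b ^ (l * n)) M x N : ℝ)
    (by exact_mod_cast hg)
  have h4 := hN₁ N ((le_max_right _ _).trans hN)
  rw [div_le_iff₀ hc₁] at h4
  have hsub : (Icc 1 M).filter (fun m : ℕ => ∃ W < b ^ l,
      (occ b l W ((m : ℝ) * x) N : ℝ) < c₁ / (4 * ((l * n : ℕ) : ℝ)) * F N) ⊆
      (Icc 1 M).filter (fun m : ℕ => ∃ W < b ^ l,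
        2 * (l * n) * (occ b l W ((m : ℝ) * x) N + l * n) < gd b (b ^ (l * n)) M x N) := by
    intro m hm
    rw [mem_filter] at hm ⊢
    obtain ⟨hm1, W, hW, hlt⟩ := hm
    refine ⟨hm1, W, hW, ?_⟩
    rw [div_mul_eq_mul_div, lt_div_iff₀ (by positivity)] at hlt
    have h5 : (2 * ((l * n : ℕ) : ℝ) * ((occ b l W ((m : ℝ) * x) N : ℝ) + ((l * n : ℕ) : ℝ))) <
        (gd b (b ^ (l * n)) M x N : ℝ) := by
      refine lt_of_lt_of_le ?_ h3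
      nlinarith
    exact_mod_cast h5
  have hcard := card_le_card hsub
  set T := ((Icc 1 M).filter (fun m : ℕ => ∃ W < b ^ l,
        2 * (l * n) * (occ b l W ((m : ℝ) * x) N + l * n) < gd b (b ^ (l * n)) M x N)).card
  have hb1 : 1 ≤ b ^ l := Nat.one_le_pow _ _ (by omega)
  have h6 : ((b : ℝ) ^ l) ^ n * (T : ℝ) ≤ 8 * (b : ℝ) ^ l * ((b : ℝ) ^ l - 1) ^ n * M := by
    have h7 : (((b ^ l) ^ n * T : ℕ) : ℝ) ≤ ((8 * b ^ l * (b ^ l - 1) ^ n * M : ℕ) : ℝ) := by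
      exact_mod_cast h2
    push_cast [Nat.cast_sub hb1] at h7
    exact h7
  have hbn : (0 : ℝ) < ((b : ℝ) ^ l) ^ n := by positivity
  have h8 : ((b : ℝ) ^ l) ^ n * (T : ℝ) ≤ ((b : ℝ) ^ l) ^ n * (δ * M) := by
    refine h6.trans ?_
    have hM' : (0 : ℝ) ≤ (M : ℝ) := Nat.cast_nonneg M
    nlinarith
  have h9 : (T : ℝ) ≤ δ * M := le_of_mul_le_mul_left h8 hbn
  have h10 : (((Icc 1 M).filter (fun m : ℕ => ∃ W < b ^ l,
      (occ b l W ((m : ℝ) * x) N : ℝ) < c₁ / (4 * ((l * n : ℕ) : ℝ)) * F N)).card : ℝ) ≤ T := by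
    exact_mod_cast hcard
  exact h10.trans h9

lemma exists_n {b l : ℕ} (hb : 2 ≤ b) {δ : ℝ} (hδ : 0 < δ) :
    ∃ n : ℕ, 1 ≤ n ∧ 8 * (b : ℝ) ^ l * ((b : ℝ) ^ l - 1) ^ n ≤ δ * ((b : ℝ) ^ l) ^ n := by
  have hb1 : (1 : ℝ) ≤ (b : ℝ) ^ l := one_le_pow₀ (by exact_mod_cast (by omega : 1 ≤ b))
  set B : ℝ := (b : ℝ) ^ l with hB
  have hB0 : 0 < B := by linarith
  have hr0 : 0 ≤ (B - 1) / B := div_nonneg (by linarith) hB0.le
  have hr1 : (B - 1) / B < 1 := by rw [div_lt_one hB0]; linarith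
  have h1 := tendsto_pow_atTop_nhds_zero_of_lt_one hr0 hr1
  have h2 := h1.eventually (gt_mem_nhds (show (0 : ℝ) < δ / (8 * B) by positivity))
  obtain ⟨n, hn, hn1⟩ := (h2.and (eventually_ge_atTop 1)).exists
  refine ⟨n, hn1, ?_⟩
  rw [div_pow, div_lt_div_iff₀ (by positivity) (by positivity)] at hn
  linarith

lemma fact_dvd (B : ℕ) : ∀ q, 1 ≤ q → q < 4 * B → q ∣ (4 * B).factorial :=
  fun _ h1 h2 => Nat.dvd_factorial h1 h2.le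

lemma le_pow_self {b : ℕ} (hb : 2 ≤ b) (R : ℕ) : R ≤ b ^ R := (Nat.lt_pow_self (by omega)).le

end Pool.Agent.Run7.h274.WM
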