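import Mathlib

/-!
Random perturbations of k-th powers, part 1: counting hits in a set with small gaps, and the
one-step probabilistic estimate (independent blocks of indices).
-/

open MeasureTheory ProbabilityTheory
open scoped ENNReal

namespace Pool.Agent.Run7.h274.WarCore

/-- Every integer of `[lo, hi]` exceeds an element of `B` by less than `W`. -/
def Gap (B : Set ℕ) (W lo hi : ℕ) : Prop :=
  ∀ y, lo ≤ y → y ≤ hi → ∃ b ∈ B, b ≤ y ∧ y < b + W

theorem hitCount (B : Set ℕ) (W V lo hi Y Λ : ℕ) (hB : Gap B W lo hi) (hV : V ≤ W) (hW : 1 ≤ W)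
    (hlo : lo + Λ ≤ Y + 1) (hhi : Y ≤ hi) :
    ∃ J : Finset ℕ, (∀ j ∈ J, j < Λ ∧ ∃ b ∈ B, b + j ≤ Y ∧ Y < b + j + V) ∧
      (Λ / (2 * W)) * V ≤ J.card := by
  classical
  have key : ∀ i, i < Λ / (2 * W) → ∃ b ∈ B, b + 2 * W * i + W ≤ Y + 1 ∧
      Y + 1 < b + 2 * W * i + 2 * W := by
    intro i hi'
    have h1 : 2 * W * i + 2 * W ≤ Λ := by
      have h2 : (i + 1) * (2 * W) ≤ Λ :=
        le_trans (Nat.mul_le_mul_right _ hi') (Nat.div_mul_le_self Λ (2 * W))
      nlinarith [h2]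
    obtain ⟨b, hb, h2, h3⟩ := hB (Y + 1 - 2 * W * i - W) (by omega) (by omega)
    exact ⟨b, hb, by omega, by omega⟩
  choose! b hbB hb1 hb2 using key
  let F : ℕ × ℕ → ℕ := fun p => Y - b p.1 - p.2
  have hdiv : ∀ p ∈ Finset.range (Λ / (2 * W)) ×ˢ Finset.range V, F p / (2 * W) = p.1 ∧
      F p + b p.1 + p.2 = Y := by
    rintro ⟨i, v⟩ hp
    rw [Finset.mem_product, Finset.mem_range, Finset.mem_range] at hp
    obtain ⟨hi1, hv1⟩ := hp
    simp only at hi1 hv1
    have a1 := hb1 i hi1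
    have a2 := hb2 i hi1
    refine ⟨?_, ?_⟩
    · show (Y - b i - v) / (2 * W) = i
      rw [Nat.div_eq_iff (by omega)]
      constructor
      · have : i * (2 * W) = 2 * W * i := by ring
        omega
      · have : i * (2 * W) = 2 * W * i := by ring
        omega
    · show Y - b i - v + b i + v = Y
      omega
  refine ⟨(Finset.range (Λ / (2 * W)) ×ˢ Finset.range V).image F, ?_, ?_⟩
  · intro j hj
    rw [Finset.mem_image] at hj
    obtain ⟨p, hp, rfl⟩ := hj
    obtain ⟨h1, h2⟩ := hdiv p hp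
    rw [Finset.mem_product, Finset.mem_range, Finset.mem_range] at hp
    obtain ⟨hi1, hv1⟩ := hp
    refine ⟨?_, b p.1, hbB p.1 hi1, by omega, by omega⟩
    have h3 : F p < 2 * W * (p.1 + 1) := by
      rw [← h1]
      have := Nat.lt_mul_div_succ (F p) (show 0 < 2 * W by omega)
      exact this
    have h4 : (p.1 + 1) * (2 * W) ≤ Λ :=
        le_trans (Nat.mul_le_mul_right _ hi1) (Nat.div_mul_le_self Λ (2 * W))
    nlinarith [h3, h4]
  · rw [Finset.card_image_of_injOn, Finset.card_product, Finset.card_range, Finset.card_range]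
    intro p hp r hr hpr
    have hpr' : F p = F r := hpr
    obtain ⟨h1, h2⟩ := hdiv p hp
    obtain ⟨h3, h4⟩ := hdiv r hr
    have h5 : p.1 = r.1 := by
      rw [← h1, ← h3, hpr']
    have h6 : p.2 = r.2 := by
      rw [hpr'] at h2
      rw [h5] at h2
      omega
    exact Prod.ext h5 h6

variable {Ω : Type*} [MeasurableSpace Ω] {P : Measure Ω} [IsProbabilityMeasure P]

/-- One stage: the values at the indices of `T` are independent of those at the indices of `S`. -/
theorem stage (ξ : ℕ → Ω → ℕ) (hm : ∀ n, Measurable (ξ n)) (hind : iIndepFun ξ P)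
    (S T : Finset ℕ) (hST : Disjoint S T) (Z : (ℕ → ℕ) → ℕ → Set ℕ)
    (G : (ℕ → ℕ) → Prop)
    (hloc : ∀ v v' : ℕ → ℕ, (∀ s ∈ S, v s = v' s) → (G v → G v') ∧ ∀ n ∈ T, Z v n = Z v' n)
    (p : ℝ≥0∞) (hp : ∀ v, G v → ∀ n ∈ T, P (ξ n ⁻¹' (Z v n)ᶜ) ≤ p) :
    P {ω | G (fun n => ξ n ω) ∧ ∀ n ∈ T, ξ n ω ∉ Z (fun n => ξ n ω) n} ≤ p ^ T.card := by
  classical
  let X : Ω → (S → ℕ) := fun ω s => ξ s ω
  have hX : Measurable X := measurable_pi_iff.mpr (fun s => hm s)
  let ext : (S → ℕ) → (ℕ → ℕ) := fun x n => if h : n ∈ S then x ⟨n, h⟩ else 0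
  have hext : ∀ x (s : ℕ) (hs : s ∈ S), ext x s = x ⟨s, hs⟩ := by
    intro x s hs
    simp only [ext, hs, dif_pos]
  let E : (S → ℕ) → Set Ω := fun x =>
    {ω | X ω = x ∧ G (ext x) ∧ ∀ n ∈ T, ξ n ω ∉ Z (ext x) n}
  have hcover : {ω | G (fun n => ξ n ω) ∧ ∀ n ∈ T, ξ n ω ∉ Z (fun n => ξ n ω) n} ⊆ ⋃ x, E x := by
    rintro ω ⟨h1, h2⟩
    rw [Set.mem_iUnion]
    have hag : ∀ s ∈ S, (fun n => ξ n ω) s = ext (X ω) s := by
      intro s hs
      rw [hext _ s hs]
    obtain ⟨h3, h4⟩ := hloc _ _ hag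
    refine ⟨X ω, rfl, h3 h1, fun n hn => ?_⟩
    rw [← h4 n hn]
    exact h2 n hn
  have hE : ∀ x, P (E x) ≤ P (X ⁻¹' {x}) * p ^ T.card := by
    intro x
    by_cases hG : G (ext x)
    · let sets : ℕ → Set ℕ := fun n => if n ∈ S then {ext x n} else (Z (ext x) n)ᶜ
      have hXeq : X ⁻¹' {x} = ⋂ i ∈ S, ξ i ⁻¹' sets i := by
        ext ω
        simp only [Set.mem_preimage, Set.mem_singleton_iff, Set.mem_iInter]
        constructor
        · intro h i hi
          simp only [sets, hi, if_true, Set.mem_singleton_iff]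
          rw [hext x i hi, ← h]
        · intro h
          funext s
          have := h s s.2
          simp only [sets, s.2, if_true, Set.mem_singleton_iff] at this
          rw [hext x s s.2] at this
          exact this
      have hEeq : E x ⊆ ⋂ i ∈ S ∪ T, ξ i ⁻¹' sets i := by
        rintro ω ⟨h1, _, h3⟩
        simp only [Set.mem_iInter, Finset.mem_union]
        rintro i (hi | hi)
        · have : ω ∈ X ⁻¹' {x} := h1
          rw [hXeq] at this
          simp only [Set.mem_iInter] at this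
          exact this i hi
        · have hi' : i ∉ S := fun h => (Finset.disjoint_left.mp hST) h hi
          simp only [sets, hi', if_false, Set.mem_preimage, Set.mem_compl_iff]
          exact h3 i hi
      have hmeas : ∀ i ∈ S ∪ T, MeasurableSet (sets i) := fun i _ => MeasurableSet.of_discrete
      calc P (E x) ≤ P (⋂ i ∈ S ∪ T, ξ i ⁻¹' sets i) := measure_mono hEeq
        _ = ∏ i ∈ S ∪ T, P (ξ i ⁻¹' sets i) := hind.measure_inter_preimage_eq_mul (S ∪ T) hmeas
        _ = (∏ i ∈ S, P (ξ i ⁻¹' sets i)) * ∏ i ∈ T, P (ξ i ⁻¹' sets i) :=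
            Finset.prod_union hST
        _ = P (X ⁻¹' {x}) * ∏ i ∈ T, P (ξ i ⁻¹' sets i) := by
            rw [hXeq, hind.measure_inter_preimage_eq_mul S (fun i _ => MeasurableSet.of_discrete)]
        _ ≤ P (X ⁻¹' {x}) * ∏ _i ∈ T, p := by
            refine mul_le_mul_right (Finset.prod_le_prod' fun i hi => ?_) _
            have hi' : i ∉ S := fun h => (Finset.disjoint_left.mp hST) h hi
            simp only [sets, hi', if_false]
            exact hp _ hG i hi
        _ = P (X ⁻¹' {x}) * p ^ T.card := by rw [Finset.prod_const]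
    · have : E x = ∅ := by
        rw [Set.eq_empty_iff_forall_notMem]
        rintro ω ⟨_, h2, _⟩
        exact hG h2
      rw [this, measure_empty]
      exact zero_le
  have hsum : ∑' x, P (X ⁻¹' {x}) = 1 := by
    rw [← measure_iUnion]
    · have : (⋃ x, X ⁻¹' {x}) = Set.univ := by
        rw [Set.eq_univ_iff_forall]
        intro ω
        rw [Set.mem_iUnion]
        exact ⟨X ω, rfl⟩
      rw [this, measure_univ]
    · intro x y hxy
      rw [Function.onFun, Set.disjoint_left]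
      intro ω h1 h2
      exact hxy (h1.symm.trans h2)
    · intro x
      exact hX (measurableSet_singleton x)
  calc P {ω | G (fun n => ξ n ω) ∧ ∀ n ∈ T, ξ n ω ∉ Z (fun n => ξ n ω) n}
      ≤ P (⋃ x, E x) := measure_mono hcover
    _ ≤ ∑' x, P (E x) := measure_iUnion_le _
    _ ≤ ∑' x, P (X ⁻¹' {x}) * p ^ T.card := ENNReal.tsum_le_tsum hE
    _ = (∑' x, P (X ⁻¹' {x})) * p ^ T.card := ENNReal.tsum_mul_right
    _ = p ^ T.card := by rw [hsum, one_mul]

/-- A lower bound for the point probabilities bounds the probability of missing a set. -/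
theorem miss (ξ : Ω → ℕ) (hm : Measurable ξ) (Z : Set ℕ) (J : Finset ℕ) (hJ : ∀ j ∈ J, j ∈ Z)
    (a x : ℝ) (hdens : ∀ j ∈ J, a ≤ P.real (ξ ⁻¹' {j})) (hx : x ≤ J.card * a) :
    P (ξ ⁻¹' Zᶜ) ≤ ENNReal.ofReal (Real.exp (-x)) := by
  classical
  have h1 : P.real (ξ ⁻¹' Zᶜ) = 1 - P.real (ξ ⁻¹' Z) := by
    rw [Set.preimage_compl, measureReal_compl (hm MeasurableSet.of_discrete)]
    simp
  have h2 : x ≤ P.real (ξ ⁻¹' Z) := by
    have h3 : P.real (ξ ⁻¹' (J : Set ℕ)) ≤ P.real (ξ ⁻¹' Z) :=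
      measureReal_mono (Set.preimage_mono (fun j hj => hJ j hj))
    have h4 : P.real (ξ ⁻¹' (J : Set ℕ)) = ∑ j ∈ J, P.real (ξ ⁻¹' {j}) := by
      have : (ξ ⁻¹' (J : Set ℕ)) = ⋃ j ∈ J, ξ ⁻¹' {j} := by
        ext ω
        simp
      rw [this, measureReal_biUnion_finset]
      · intro i _ j _ hij
        rw [Function.onFun, Set.disjoint_left]
        intro ω h1 h2
        exact hij (h1.symm.trans h2)
      · intro j _
        exact hm (measurableSet_singleton j)
    have h5 : J.card * a ≤ ∑ j ∈ J, P.real (ξ ⁻¹' {j}) := by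
      calc (J.card : ℝ) * a = ∑ _j ∈ J, a := by rw [Finset.sum_const, nsmul_eq_mul]
        _ ≤ _ := Finset.sum_le_sum hdens
    linarith
  have h6 : P.real (ξ ⁻¹' Zᶜ) ≤ Real.exp (-x) := by
    rw [h1]
    exact le_trans (by linarith) (Real.one_sub_le_exp_neg x)
  rw [← ofReal_measureReal]
  exact ENNReal.ofReal_le_ofReal h6

end Pool.Agent.Run7.h274.WarCore
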