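import Pool.Agent.Run7.h274.WarAsym

/-!
Random perturbations of k-th powers, part 4: the greedy algorithm (small gaps between sums of
`t` terms), and a counting lower bound.
-/

open Filter Topology

namespace Pool.Agent.Run7.h274.WarGreedy

theorem pow_diff (x z : ℝ) (hz : 0 ≤ z) (hxz : z ≤ x) (m : ℕ) :
    x ^ (m + 1) ≤ z ^ (m + 1) + (m + 1) * (x - z) * x ^ m := by
  have hx : 0 ≤ x := le_trans hz hxz
  induction m with
  | zero => simp
  | succ m ih =>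
    have h1 : z ^ (m + 1) ≤ x ^ (m + 1) := pow_le_pow_left₀ hz hxz _
    have h2 : x * x ^ (m + 1) ≤ x * (z ^ (m + 1) + (m + 1) * (x - z) * x ^ m) :=
      mul_le_mul_of_nonneg_left ih hx
    have h3 : (x - z) * z ^ (m + 1) ≤ (x - z) * x ^ (m + 1) :=
      mul_le_mul_of_nonneg_left h1 (by linarith)
    calc x ^ (m + 1 + 1) = x * x ^ (m + 1) := by ring
      _ ≤ x * (z ^ (m + 1) + (m + 1) * (x - z) * x ^ m) := h2
      _ = z ^ (m + 1 + 1) + (x - z) * z ^ (m + 1) + (m + 1) * (x - z) * x ^ (m + 1) := by ring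
      _ ≤ z ^ (m + 1 + 1) + (x - z) * x ^ (m + 1) + (m + 1) * (x - z) * x ^ (m + 1) := by
          linarith
      _ = z ^ (m + 1 + 1) + (((m + 1 : ℕ) : ℝ) + 1) * (x - z) * x ^ (m + 1) := by
          push_cast
          ring

theorem step (k : ℕ) (hk : 2 ≤ k) (M : ℕ) (hM : 1 ≤ M) :
    ∃ C : ℝ, 0 < C ∧ ∀ f : ℕ → ℕ, f 0 = 0 → (∀ n, n ^ k ≤ f n ∧ f n ≤ (n + 1) ^ k) → ∀ y : ℕ,
      ∃ n, n % M = 0 ∧ n ≤ y ∧ f n ≤ y ∧ (y : ℝ) - f n ≤ C * (y : ℝ) ^ (1 - 1 / (k : ℝ)) := by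
  have hkR : (2 : ℝ) ≤ k := by exact_mod_cast hk
  have hkpos : (0 : ℝ) < k := by linarith
  refine ⟨(M + 1) * k * 2 ^ (k - 1), by positivity, fun f hf0 hf y => ?_⟩
  rcases Nat.eq_zero_or_pos y with rfl | hy
  · refine ⟨0, Nat.zero_mod _, le_refl _, by rw [hf0], ?_⟩
    rw [hf0, Nat.cast_zero, sub_zero]
    positivity
  · have hyR : (1 : ℝ) ≤ y := by exact_mod_cast hy
    have hypos : (0 : ℝ) < y := by linarith
    set a : ℕ := ⌊(y : ℝ) ^ (1 / (k : ℝ))⌋₊ with ha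
    have hroot : ((y : ℝ) ^ (1 / (k : ℝ))) ^ k = y := by
      rw [← Real.rpow_natCast, ← Real.rpow_mul hypos.le, one_div,
        inv_mul_cancel₀ (ne_of_gt hkpos), Real.rpow_one]
    have ha0 : (a : ℝ) ≤ (y : ℝ) ^ (1 / (k : ℝ)) := Nat.floor_le (by positivity)
    have ha1 : (y : ℝ) ^ (1 / (k : ℝ)) < a + 1 := Nat.lt_floor_add_one _
    have ha2 : 1 ≤ a := by
      refine Nat.le_floor ?_
      rw [Nat.cast_one]
      exact Real.one_le_rpow hyR (by positivity)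
    have ha3 : a ^ k ≤ y := by
      have : (a : ℝ) ^ k ≤ y := by
        calc (a : ℝ) ^ k ≤ ((y : ℝ) ^ (1 / (k : ℝ))) ^ k := by gcongr
          _ = y := hroot
      exact_mod_cast this
    have ha4 : (y : ℝ) ≤ ((a : ℝ) + 1) ^ k := by
      calc (y : ℝ) = ((y : ℝ) ^ (1 / (k : ℝ))) ^ k := hroot.symm
        _ ≤ ((a : ℝ) + 1) ^ k := by gcongr
    set n : ℕ := M * ((a - 1) / M) with hn
    have hn1 : n ≤ a - 1 := Nat.mul_div_le _ _
    have hn2 : a ≤ n + M := by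
      have := Nat.lt_mul_div_succ (a - 1) (show 0 < M by omega)
      have h3 : M * ((a - 1) / M + 1) = n + M := by rw [hn]; ring
      omega
    have hn3 : f n ≤ y := by
      refine le_trans (hf n).2 (le_trans (Nat.pow_le_pow_left ?_ k) ha3)
      omega
    have hay : a ≤ y := le_trans (Nat.le_self_pow (by omega) _) ha3
    refine ⟨n, by rw [hn, Nat.mul_mod_right], by omega, hn3, ?_⟩
    have h1 : ((n : ℝ)) ^ k ≤ f n := by exact_mod_cast (hf n).1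
    obtain ⟨m, hm⟩ : ∃ m, k = m + 1 := ⟨k - 1, by omega⟩
    have hnR : (n : ℝ) ≤ (a : ℝ) + 1 := by
      have : n ≤ a + 1 := by omega
      exact_mod_cast this
    have h2 := pow_diff ((a : ℝ) + 1) n (Nat.cast_nonneg n) hnR m
    rw [← hm] at h2
    have h3 : (a : ℝ) + 1 - n ≤ M + 1 := by
      have : (a : ℝ) ≤ n + M := by exact_mod_cast hn2
      linarith
    have h4 : ((a : ℝ) + 1) ^ m ≤ 2 ^ (k - 1) * (y : ℝ) ^ (1 - 1 / (k : ℝ)) := by
      have h5 : (a : ℝ) + 1 ≤ 2 * (y : ℝ) ^ (1 / (k : ℝ)) := by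
        have : (1 : ℝ) ≤ a := by exact_mod_cast ha2
        linarith
      calc ((a : ℝ) + 1) ^ m ≤ (2 * (y : ℝ) ^ (1 / (k : ℝ))) ^ m := by gcongr
        _ = 2 ^ (k - 1) * (y : ℝ) ^ (1 - 1 / (k : ℝ)) := by
          rw [mul_pow, ← Real.rpow_natCast ((y : ℝ) ^ (1 / (k : ℝ))), ← Real.rpow_mul hypos.le]
          have h6 : k - 1 = m := by omega
          have h7 : 1 / (k : ℝ) * m = 1 - 1 / (k : ℝ) := by
            rw [hm]
            push_cast
            field_simp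
            ring
          rw [h6, h7]
    have hkm : (m : ℝ) + 1 = k := by rw [hm]; push_cast; ring
    rw [hkm] at h2
    have h8 : (k : ℝ) * ((a : ℝ) + 1 - n) * ((a : ℝ) + 1) ^ m ≤
        (k : ℝ) * (M + 1) * (2 ^ (k - 1) * (y : ℝ) ^ (1 - 1 / (k : ℝ))) := by
      gcongr
    calc (y : ℝ) - f n ≤ ((a : ℝ) + 1) ^ k - (n : ℝ) ^ k := by linarith
      _ ≤ (k : ℝ) * (M + 1) * (2 ^ (k - 1) * (y : ℝ) ^ (1 - 1 / (k : ℝ))) := by linarith
      _ = (M + 1) * k * 2 ^ (k - 1) * (y : ℝ) ^ (1 - 1 / (k : ℝ)) := by ring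

theorem greedy (k : ℕ) (hk : 2 ≤ k) (M : ℕ) (hM : 1 ≤ M) (t : ℕ) :
    ∃ C : ℝ, 0 < C ∧ ∀ f : ℕ → ℕ, f 0 = 0 → (∀ n, n ^ k ≤ f n ∧ f n ≤ (n + 1) ^ k) → ∀ y : ℕ,
      ∃ a : Fin t → ℕ, (∀ i, a i % M = 0 ∧ a i ≤ y) ∧ ∑ i, f (a i) ≤ y ∧
        (y : ℝ) - ((∑ i, f (a i) : ℕ) : ℝ) ≤ C * (y : ℝ) ^ ((1 - 1 / (k : ℝ)) ^ t) := by
  have hkR : (2 : ℝ) ≤ k := by exact_mod_cast hk
  have hkpos : (0 : ℝ) < k := by linarith
  have hr0 : (0 : ℝ) ≤ 1 - 1 / (k : ℝ) := by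
    rw [sub_nonneg, div_le_one hkpos]
    linarith
  induction t with
  | zero =>
    refine ⟨1, one_pos, fun f _ _ y => ⟨Fin.elim0, fun i => i.elim0, by simp, by simp⟩⟩
  | succ t ih =>
    obtain ⟨C, hC, ih⟩ := ih
    obtain ⟨C₁, hC₁, hs⟩ := step k hk M hM
    refine ⟨C₁ * C ^ (1 - 1 / (k : ℝ)), by positivity, fun f hf0 hf y => ?_⟩
    obtain ⟨a, ha1, ha2, ha3⟩ := ih f hf0 hf y
    obtain ⟨n, hn1, hn2, hn3, hn4⟩ := hs f hf0 hf (y - ∑ i, f (a i))
    refine ⟨Fin.snoc a n, ?_, ?_, ?_⟩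
    · intro i
      refine Fin.lastCases ?_ (fun i => ?_) i
      · rw [Fin.snoc_last]
        exact ⟨hn1, by omega⟩
      · rw [Fin.snoc_castSucc]
        exact ha1 i
    · rw [Fin.sum_univ_castSucc]
      simp only [Fin.snoc_castSucc, Fin.snoc_last]
      omega
    · rw [Fin.sum_univ_castSucc]
      simp only [Fin.snoc_castSucc, Fin.snoc_last]
      rw [Nat.cast_sub ha2] at hn4
      have h1 : (y : ℝ) - ((∑ i, f (a i) : ℕ) : ℝ) ≥ 0 := by
        have : ((∑ i, f (a i) : ℕ) : ℝ) ≤ y := by exact_mod_cast ha2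
        linarith
      have h2 : ((y : ℝ) - ((∑ i, f (a i) : ℕ) : ℝ)) ^ (1 - 1 / (k : ℝ)) ≤
          (C * (y : ℝ) ^ ((1 - 1 / (k : ℝ)) ^ t)) ^ (1 - 1 / (k : ℝ)) :=
        Real.rpow_le_rpow h1 ha3 hr0
      have h3 : (C * (y : ℝ) ^ ((1 - 1 / (k : ℝ)) ^ t)) ^ (1 - 1 / (k : ℝ)) =
          C ^ (1 - 1 / (k : ℝ)) * (y : ℝ) ^ ((1 - 1 / (k : ℝ)) ^ (t + 1)) := by
        rw [Real.mul_rpow hC.le (by positivity), ← Real.rpow_mul (Nat.cast_nonneg y), ← pow_succ]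
      have h4 : (y : ℝ) - ((∑ i, f (a i) : ℕ) : ℝ) - f n ≤
          C₁ * (C ^ (1 - 1 / (k : ℝ)) * (y : ℝ) ^ ((1 - 1 / (k : ℝ)) ^ (t + 1))) := by
        refine le_trans hn4 ?_
        rw [← h3]
        exact mul_le_mul_of_nonneg_left h2 hC₁.le
      rw [Nat.cast_add]
      linarith

/-- Counting lower bound: at least `k + 1` summands are needed. -/
theorem lower (k : ℕ) (hk : 2 ≤ k) (f : ℕ → ℕ) (hf0 : f 0 = 0) (hf : ∀ n, n ^ k ≤ f n) (s N₀ : ℕ)
    (h : ∀ m : ℕ, N₀ ≤ m → ∃ b : Fin s → ℕ, m = ∑ i, f (b i)) : k + 1 ≤ s := by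
  classical
  by_contra hcon
  have hs : s ≤ k := by omega
  have h' : ∀ m : ℕ, N₀ ≤ m → ∃ b : Fin k → ℕ, m = ∑ i, f (b i) := by
    intro m hm
    obtain ⟨b, hb⟩ := h m hm
    obtain ⟨r, rfl⟩ : ∃ r, k = s + r := ⟨k - s, by omega⟩
    refine ⟨Fin.append b (fun _ => 0), ?_⟩
    rw [Fin.sum_univ_add]
    simp only [Fin.append_left, Fin.append_right, hf0, Finset.sum_const_zero, add_zero]
    exact hb
  set R : ℕ := 4 * k ^ 2 + 3 * N₀ + 3 with hR
  have hcount : R ^ k - N₀ ≤ (R + k - 1).choose k := by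
    have h1 : Finset.Ico N₀ (R ^ k) ⊆
        (Finset.univ : Finset (Sym (Fin R) k)).image
          (fun σ : Sym (Fin R) k => ((σ : Multiset (Fin R)).map (fun x : Fin R => f (x : ℕ))).sum) := by
      intro m hm
      rw [Finset.mem_Ico] at hm
      obtain ⟨b, hb⟩ := h' m hm.1
      have hlt : ∀ i, b i < R := by
        intro i
        have h2 : f (b i) ≤ ∑ i, f (b i) :=
          Finset.single_le_sum (f := fun i => f (b i)) (fun _ _ => Nat.zero_le _)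
            (Finset.mem_univ i)
        have h3 : (b i) ^ k < R ^ k := lt_of_le_of_lt (le_trans (hf _) (h2.trans_eq hb.symm)) hm.2
        exact lt_of_pow_lt_pow_left₀ k (Nat.zero_le _) h3
      rw [Finset.mem_image]
      refine ⟨⟨(Finset.univ : Finset (Fin k)).val.map (fun i => (⟨b i, hlt i⟩ : Fin R)), by simp⟩,
        Finset.mem_univ _, ?_⟩
      rw [hb]
      show (Multiset.map (fun x : Fin R => f (x : ℕ))
        ((Finset.univ : Finset (Fin k)).val.map (fun i => (⟨b i, hlt i⟩ : Fin R)))).sum = _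
      rw [Multiset.map_map]
      rfl
    have h2 := Finset.card_le_card h1
    rw [Nat.card_Ico] at h2
    refine le_trans h2 (le_trans Finset.card_image_le ?_)
    rw [Finset.card_univ, Sym.card_sym_eq_choose, Fintype.card_fin]
  have hch : ((R + k - 1).choose k : ℝ) ≤ (R + k : ℝ) ^ k / 2 := by
    have h1 : ((R + k - 1).choose k : ℝ) ≤ ((R + k - 1 : ℕ) : ℝ) ^ k / (k.factorial : ℝ) :=
      Nat.choose_le_pow_div k (R + k - 1)
    have h2 : ((R + k - 1 : ℕ) : ℝ) ≤ (R + k : ℝ) := by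
      have : R + k - 1 ≤ R + k := Nat.sub_le _ _
      exact_mod_cast this
    have h3 : (2 : ℝ) ≤ (k.factorial : ℝ) := by
      have : Nat.factorial 2 ≤ k.factorial := Nat.factorial_le hk
      exact_mod_cast this
    refine le_trans h1 ?_
    gcongr
  have hbern : (R + k : ℝ) ^ k * (3 / 4) ≤ (R : ℝ) ^ k := by
    have hRk : (0 : ℝ) < R + k := by positivity
    have h0 : (-2 : ℝ) ≤ -((k : ℝ) / (R + k)) := by
      have : (k : ℝ) / (R + k) ≤ 1 := by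
        rw [div_le_one hRk]
        linarith [(Nat.cast_nonneg R : (0 : ℝ) ≤ R)]
      linarith
    have h1 := one_add_mul_le_pow h0 k
    have h2 : 1 + -((k : ℝ) / (R + k)) = R / (R + k) := by field_simp; ring
    rw [h2, div_pow] at h1
    have h3 : (k : ℝ) * ((k : ℝ) / (R + k)) ≤ 1 / 4 := by
      rw [← mul_div_assoc, div_le_iff₀ hRk]
      have : (4 : ℝ) * k ^ 2 ≤ R := by
        rw [hR]
        push_cast
        have := (Nat.cast_nonneg N₀ : (0 : ℝ) ≤ N₀)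
        linarith
      nlinarith [(Nat.cast_nonneg k : (0 : ℝ) ≤ k)]
    have h4 : (3 / 4 : ℝ) ≤ (R : ℝ) ^ k / (R + k) ^ k := by
      refine le_trans ?_ h1
      linarith
    rw [le_div_iff₀ (by positivity)] at h4
    linarith
  have hN : (N₀ : ℝ) < (R : ℝ) ^ k / 3 := by
    have h1 : (R : ℝ) ≤ (R : ℝ) ^ k := by
      have : R ≤ R ^ k := Nat.le_self_pow (by omega) _
      exact_mod_cast this
    have h2 : 3 * (N₀ : ℝ) + 3 ≤ R := by
      rw [hR]
      push_cast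
      nlinarith [sq_nonneg (k : ℝ)]
    linarith
  have hc2 : (R : ℝ) ^ k - N₀ ≤ ((R + k - 1).choose k : ℝ) := by
    have : R ^ k ≤ (R + k - 1).choose k + N₀ := by omega
    have h3 : ((R ^ k : ℕ) : ℝ) ≤ (((R + k - 1).choose k + N₀ : ℕ) : ℝ) := by exact_mod_cast this
    push_cast at h3
    linarith
  have hpos : (0 : ℝ) < (R : ℝ) ^ k := by
    have : 0 < R := by omega
    positivity
  linarith

end Pool.Agent.Run7.h274.WarGreedy
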