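import Pool.Agent.Run7.h274.WarCore

/-!
Random perturbations of k-th powers, part 2: the failure probability for one target.
-/

open MeasureTheory ProbabilityTheory
open scoped ENNReal

namespace Pool.Agent.Run7.h274.WarOne

open Pool.Agent.Run7.h274.WarCore

/-- Indices used at stage `i`. -/
def T (M K i : ℕ) : Finset ℕ := (Finset.Ico K (2 * K)).image (fun j => M * j + (i + 1))

/-- `A` plus one perturbed power with index in `T j` for each `j < i`. -/
def B (k : ℕ) (T : ℕ → Finset ℕ) (A : (ℕ → ℕ) → Set ℕ) : ℕ → (ℕ → ℕ) → Set ℕ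
  | 0 => A
  | (i + 1) => fun v => {z | ∃ b ∈ B k T A i v, ∃ n ∈ T i, z = b + (n ^ k + v n)}

theorem T_card (M K i : ℕ) (hM : 1 ≤ M) : (T M K i).card = K := by
  unfold T
  rw [Finset.card_image_of_injective, Nat.card_Ico]
  · omega
  · intro a b hab
    simp only at hab
    have : M * a = M * b := by omega
    exact Nat.eq_of_mul_eq_mul_left (by omega) this

theorem T_prop (M K i n : ℕ) (hi : i + 1 < M) (hn : n ∈ T M K i) :
    n % M = i + 1 ∧ K ≤ n ∧ n + 1 ≤ 2 * K * M := by
  unfold T at hn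
  rw [Finset.mem_image] at hn
  obtain ⟨j, hj, rfl⟩ := hn
  rw [Finset.mem_Ico] at hj
  refine ⟨?_, ?_, ?_⟩
  · rw [Nat.mul_add_mod, Nat.mod_eq_of_lt hi]
  · have : 1 * j ≤ M * j := Nat.mul_le_mul_right _ (by omega)
    omega
  · have : M * (j + 1) ≤ M * (2 * K) := Nat.mul_le_mul_left _ (by omega)
    have h2 : M * (2 * K) = 2 * K * M := by ring
    have h3 : M * (j + 1) = M * j + M := by ring
    omega

theorem B_loc (k M K N : ℕ) (A : (ℕ → ℕ) → Set ℕ)
    (hA : ∀ v v' : ℕ → ℕ, (∀ n, n ≤ N → n % M = 0 → v n = v' n) → A v = A v')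
    (hN : 2 * K * M ≤ N) :
    ∀ i, i < M → ∀ v v' : ℕ → ℕ, (∀ n, n ≤ N → n % M ≤ i → v n = v' n) →
      B k (T M K) A i v = B k (T M K) A i v' := by
  intro i
  induction i with
  | zero =>
    intro _ v v' h
    exact hA v v' (fun n h1 h2 => h n h1 (by omega))
  | succ i ih =>
    intro hi v v' h
    have h1 := ih (by omega) v v' (fun n h1 h2 => h n h1 (by omega))
    have h2 : ∀ n ∈ T M K i, v n = v' n := by
      intro n hn
      obtain ⟨h3, _, h5⟩ := T_prop M K i n hi hn
      exact h n (by omega) (by omega)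
    show {z | ∃ b ∈ B k (T M K) A i v, ∃ n ∈ T M K i, z = b + (n ^ k + v n)} =
      {z | ∃ b ∈ B k (T M K) A i v', ∃ n ∈ T M K i, z = b + (n ^ k + v' n)}
    rw [h1]
    ext z
    simp only [Set.mem_ofPred_eq]
    constructor
    · rintro ⟨b, hb, n, hn, hz⟩
      exact ⟨b, hb, n, hn, by rw [hz, h2 n hn]⟩
    · rintro ⟨b, hb, n, hn, hz⟩
      exact ⟨b, hb, n, hn, by rw [hz, h2 n hn]⟩

variable {Ω : Type*} [MeasurableSpace Ω] {P : Measure Ω} [IsProbabilityMeasure P]

theorem oneN (ξ : ℕ → Ω → ℕ) (hm : ∀ n, Measurable (ξ n)) (hind : iIndepFun ξ P)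
    (k M K N q : ℕ) (hM : M = q + 1) (hk : 1 ≤ k) (A : (ℕ → ℕ) → Set ℕ)
    (hA : ∀ v v' : ℕ → ℕ, (∀ n, n ≤ N → n % M = 0 → v n = v' n) → A v = A v')
    (W : ℕ → ℕ) (hW1 : ∀ i, 1 ≤ W i) (hWm : ∀ i, W (i + 1) ≤ W i) (hWq : W q = 1)
    (hAgap : ∀ ω, Gap (A (fun n => ξ n ω)) (W 0) 0 N)
    (hq : 1 ≤ q) (hKN : q * (2 * K * M) ^ k ≤ N)
    (L : ℕ → ℕ) (hL : ∀ n, K ≤ n → 2 * W 0 ≤ L n + 1) (hLk : ∀ n, K ≤ n → n ^ k + L n ≤ (n + 1) ^ k)
    (c : ℝ) (hc : 0 < c)
    (hdens : ∀ n, K ≤ n → ∀ j, j ≤ L n → c / ((L n : ℝ) + 1) ≤ P.real (ξ n ⁻¹' {j}))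
    (x : ℝ) (hx : ∀ i < q, x * (4 * W i) ≤ c * W (i + 1)) :
    P {ω | N ∉ B k (T M K) A q (fun n => ξ n ω)} ≤
      ((q * (N + 1) : ℕ) : ℝ≥0∞) * ENNReal.ofReal (Real.exp (-x)) ^ K := by
  classical
  set Δ : ℕ := (2 * K * M) ^ k with hΔ
  have hKN2 : 2 * K * M ≤ N := by
    have h1 : 2 * K * M ≤ Δ := Nat.le_self_pow (by omega) _
    have h2 : 1 * Δ ≤ q * Δ := Nat.mul_le_mul_right _ hq
    omega
  have hWanti : ∀ i, W i ≤ W 0 := by
    intro i
    induction i with
    | zero => exact le_refl _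
    | succ i ih => exact le_trans (hWm i) ih
  let Z : ℕ → ℕ → (ℕ → ℕ) → ℕ → Set ℕ := fun i y v n =>
    {j | ∃ b ∈ B k (T M K) A i v, b + (n ^ k + j) ≤ y ∧ y < b + (n ^ k + j) + W (i + 1)}
  let F : ℕ → ℕ → Set Ω := fun i y =>
    {ω | (Gap (B k (T M K) A i (fun n => ξ n ω)) (W i) (i * Δ) N ∧ (i + 1) * Δ ≤ y) ∧
      ∀ n ∈ T M K i, ξ n ω ∉ Z i y (fun n => ξ n ω) n}
  have hcover : {ω | N ∉ B k (T M K) A q (fun n => ξ n ω)} ⊆
      ⋃ i ∈ Finset.range q, ⋃ y ∈ Finset.range (N + 1), F i y := by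
    intro ω hω
    by_contra hcon
    simp only [Set.mem_iUnion, Finset.mem_range, not_exists] at hcon
    have hgap : ∀ i, i ≤ q → Gap (B k (T M K) A i (fun n => ξ n ω)) (W i) (i * Δ) N := by
      intro i
      induction i with
      | zero =>
        intro _
        rw [zero_mul]
        exact hAgap ω
      | succ i ih =>
        intro hi y hy1 hy2
        have h1 := hcon i (by omega) y (by omega)
        have h2 : ¬ ∀ n ∈ T M K i, ξ n ω ∉ Z i y (fun n => ξ n ω) n :=
          fun h => h1 ⟨⟨ih (by omega), hy1⟩, h⟩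
        push Not at h2
        obtain ⟨n, hn, b, hb, h3, h4⟩ := h2
        exact ⟨b + (n ^ k + ξ n ω), ⟨b, hb, n, hn, rfl⟩, h3, h4⟩
    obtain ⟨b, hb, h1, h2⟩ := hgap q le_rfl N hKN le_rfl
    rw [hWq] at h2
    have : b = N := by omega
    rw [this] at hb
    exact hω hb
  have hF : ∀ i < q, ∀ y < N + 1, P (F i y) ≤ ENNReal.ofReal (Real.exp (-x)) ^ K := by
    intro i hi y hy
    have hdisj : Disjoint ((Finset.range (N + 1)).filter (fun n => n % M ≤ i)) (T M K i) := by
      rw [Finset.disjoint_left]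
      intro n hn1 hn2
      rw [Finset.mem_filter] at hn1
      obtain ⟨h3, _, _⟩ := T_prop M K i n (by omega) hn2
      omega
    have hst := stage ξ hm hind ((Finset.range (N + 1)).filter (fun n => n % M ≤ i)) (T M K i)
      hdisj (Z i y) (fun v => Gap (B k (T M K) A i v) (W i) (i * Δ) N ∧ (i + 1) * Δ ≤ y)
      (by
        intro v v' h
        have hB : B k (T M K) A i v = B k (T M K) A i v' := by
          refine B_loc k M K N A hA hKN2 i (by omega) v v' (fun n h1 h2 => h n ?_)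
          rw [Finset.mem_filter, Finset.mem_range]
          exact ⟨by omega, h2⟩
        refine ⟨?_, fun n _ => ?_⟩
        · rw [hB]
          exact id
        · simp only [Z]
          rw [hB])
      (ENNReal.ofReal (Real.exp (-x)))
      (by
        rintro v ⟨hG, hy1⟩ n hn
        obtain ⟨_, hKn, hnM⟩ := T_prop M K i n (by omega) hn
        have hn1 : n ^ k + L n ≤ Δ := le_trans (hLk n hKn) (Nat.pow_le_pow_left hnM k)
        have hexp : (i + 1) * Δ = i * Δ + Δ := by ring
        obtain ⟨J, hJ1, hJ2⟩ := hitCount (B k (T M K) A i v) (W i) (W (i + 1)) (i * Δ) N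
          (y - n ^ k) (L n + 1) hG (hWm i) (hW1 i) (by omega) (by omega)
        refine miss (ξ n) (hm n) (Z i y v n) J ?_ (c / ((L n : ℝ) + 1)) x ?_ ?_
        · intro j hj
          obtain ⟨_, b, hb, h1, h2⟩ := hJ1 j hj
          exact ⟨b, hb, by omega, by omega⟩
        · intro j hj
          exact hdens n hKn j (by have := (hJ1 j hj).1; omega)
        · have hLn : 2 * W i ≤ L n + 1 := le_trans (Nat.mul_le_mul_left 2 (hWanti i)) (hL n hKn)
          set d := (L n + 1) / (2 * W i) with hd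
          have hWi : 1 ≤ W i := hW1 i
          have hd1 : 1 ≤ d := (Nat.one_le_div_iff (by omega)).mpr hLn
          have hd2 : L n + 1 < 2 * W i * (d + 1) :=
            Nat.lt_mul_div_succ (L n + 1) (show 0 < 2 * W i by omega)
          have hd3 : ((L n : ℝ) + 1) ≤ d * (4 * W i) := by
            have h5 : L n + 1 ≤ d * (4 * W i) := by nlinarith [hd1, hd2, hWi]
            exact_mod_cast h5
          have hJ3 : (d : ℝ) * W (i + 1) ≤ J.card := by exact_mod_cast hJ2
          have hWpos : (0 : ℝ) < 4 * W i := by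
            have : (1 : ℝ) ≤ W i := by exact_mod_cast hWi
            linarith
          have hLpos : (0 : ℝ) < (L n : ℝ) + 1 := by positivity
          have h6 : x * (4 * W i) ≤ (J.card * (c / ((L n : ℝ) + 1))) * (4 * W i) := by
            refine le_trans (hx i hi) ?_
            have h7 : c * W (i + 1) ≤ ((d : ℝ) * (4 * W i)) * (c * W (i + 1)) / ((L n : ℝ) + 1) := by
              rw [le_div_iff₀ hLpos, mul_comm]
              exact mul_le_mul_of_nonneg_right hd3 (by positivity)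
            refine le_trans h7 ?_
            have h8 : ((d : ℝ) * (4 * W i)) * (c * W (i + 1)) / ((L n : ℝ) + 1) =
              ((d : ℝ) * W (i + 1)) * ((c / ((L n : ℝ) + 1)) * (4 * W i)) := by ring
            have h9 : (J.card * (c / ((L n : ℝ) + 1))) * (4 * W i) =
              (J.card : ℝ) * ((c / ((L n : ℝ) + 1)) * (4 * W i)) := by ring
            rw [h8, h9]
            exact mul_le_mul_of_nonneg_right hJ3 (by positivity)
          exact le_of_mul_le_mul_right h6 hWpos)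
    rw [T_card M K i (by omega)] at hst
    exact hst
  calc P {ω | N ∉ B k (T M K) A q (fun n => ξ n ω)}
      ≤ P (⋃ i ∈ Finset.range q, ⋃ y ∈ Finset.range (N + 1), F i y) := measure_mono hcover
    _ ≤ ∑ i ∈ Finset.range q, P (⋃ y ∈ Finset.range (N + 1), F i y) :=
        measure_biUnion_finset_le _ _
    _ ≤ ∑ i ∈ Finset.range q, ∑ y ∈ Finset.range (N + 1), P (F i y) :=
        Finset.sum_le_sum fun i _ => measure_biUnion_finset_le _ _
    _ ≤ ∑ _i ∈ Finset.range q, ∑ _y ∈ Finset.range (N + 1),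
          ENNReal.ofReal (Real.exp (-x)) ^ K :=
        Finset.sum_le_sum fun i hi => Finset.sum_le_sum fun y hy =>
          hF i (Finset.mem_range.mp hi) y (Finset.mem_range.mp hy)
    _ = ((q * (N + 1) : ℕ) : ℝ≥0∞) * ENNReal.ofReal (Real.exp (-x)) ^ K := by
        rw [Finset.sum_const, Finset.sum_const, Finset.card_range, Finset.card_range, smul_smul,
          nsmul_eq_mul]

end Pool.Agent.Run7.h274.WarOne
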